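import Pool.Agent.GamP.Defs

/-!
# Liouville's inequality via resultants

PROOF. Let `R = resultant F Q` (Mathlib: `Polynomial.resultant`, default degrees
`F.natDegree`, `Q.natDegree`).
* `F.map` is irreducible over `ℚ` and does not divide `Q.map` (otherwise `Q (y) = 0`: map to
  `ℚ_[p]`, `aeval y F = 0`), so they are coprime over `ℚ`, and the resultant of the maps is `≠ 0`
  (`Polynomial.resultant_ne_zero` / `resultant_eq_zero_iff`, `resultant_map_map`; the natDegrees
  do not change under the injective map `ℤ → ℚ`). So `R ≠ 0`.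
* `exists_mul_add_mul_eq_C_resultant`: `U F + V Q = C R` (it may ask for one of the degrees to be
  nonzero; `F.natDegree ≠ 0` because `F` has a root and is irreducible over `ℚ`), so
  `R = V(y) Q(y)` in `ℤ_[p]` and `p^v ∣ R` in `ℤ_[p]`, hence `p^v ∣ R` in `ℤ`
  (`PadicInt.pow_p_dvd_int_iff` or norms), and `p^v ≤ |R|`.
* `|R| ≤ (D+T)! Y^T H^D`: `R = det` of the Sylvester matrix of size `m + n`, `m = natDegree F`,
  `n = natDegree Q`; in it `n` columns (or rows) consist of coefficients of `F` or zeros and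
  `m` of coefficients of `Q` or zeros; `Matrix.det_apply`, `|∏| ≤ Y^n H^m`, `(m+n)!` terms; then
  monotonicity (`Y, H ≥ 1` since `F, Q ≠ 0`). See the definition of `Polynomial.sylvester` in
  Mathlib/RingTheory/Polynomial/Resultant/Basic.lean.
-/

namespace GamP

open Finset Polynomial

private theorem res_bound {F Q : ℤ[X]} {Y H : ℕ} (hFY : ∀ i, |F.coeff i| ≤ (Y : ℤ))
    (hQH : ∀ i, |Q.coeff i| ≤ (H : ℤ)) (m n : ℕ) :
    |resultant F Q m n| ≤ ((m + n).factorial * Y ^ n * H ^ m : ℕ) := by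
  have hcol : ∀ i j : Fin (m + n), |sylvester F Q m n i j| ≤
      j.addCases (fun _ => (H : ℤ)) (fun _ => (Y : ℤ)) := by
    intro i j
    induction j using Fin.addCases with
    | left j =>
      rw [sylvester, Matrix.of_apply, Fin.addCases_left, Fin.addCases_left]
      split_ifs
      · exact hQH _
      · simp
    | right j =>
      rw [sylvester, Matrix.of_apply, Fin.addCases_right, Fin.addCases_right]
      split_ifs
      · exact hFY _
      · simp
  have hprod : ∀ σ : Equiv.Perm (Fin (m + n)),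
      |((Equiv.Perm.sign σ : ℤ) : ℤ) * ∏ i, sylvester F Q m n (σ i) i| ≤
        (Y : ℤ) ^ n * (H : ℤ) ^ m := by
    intro σ
    rw [abs_mul]
    have h1 : |((Equiv.Perm.sign σ : ℤˣ) : ℤ)| = 1 := by
      rcases Int.units_eq_one_or (Equiv.Perm.sign σ) with h | h <;> simp [h]
    rw [h1, one_mul, Finset.abs_prod]
    refine (Finset.prod_le_prod (fun i _ => abs_nonneg _) fun i _ => hcol (σ i) i).trans ?_
    rw [Fin.prod_univ_add]
    simp only [Fin.addCases_left, Fin.addCases_right, Finset.prod_const, Finset.card_univ,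
      Fintype.card_fin]
    rw [mul_comm]
  unfold resultant
  rw [Matrix.det_apply']
  refine (Finset.abs_sum_le_sum_abs _ _).trans ?_
  refine (Finset.sum_le_sum fun σ _ => hprod σ).trans ?_
  rw [Finset.sum_const, Finset.card_univ, Fintype.card_perm, Fintype.card_fin, nsmul_eq_mul]
  push_cast
  exact le_of_eq (by ring)

theorem liouville {p : ℕ} [Fact p.Prime] {y : ℤ_[p]} {F Q : ℤ[X]}
    (hF : Irreducible (F.map (Int.castRingHom ℚ))) (hFy : aeval y F = 0) {D T Y H : ℕ}
    (hFD : F.natDegree ≤ D) (hFY : ∀ i, |F.coeff i| ≤ (Y : ℤ))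
    (hQT : Q.natDegree ≤ T) (hQH : ∀ i, |Q.coeff i| ≤ (H : ℤ)) (hQ : aeval y Q ≠ 0) {v : ℕ}
    (hv : (p : ℤ_[p]) ^ v ∣ aeval y Q) :
    p ^ v ≤ (D + T).factorial * Y ^ T * H ^ D := by
  have hF0 : F ≠ 0 := by
    rintro rfl
    rw [Polynomial.map_zero] at hF
    exact not_irreducible_zero hF
  have hQ0 : Q ≠ 0 := by
    rintro rfl
    exact hQ (by simp)
  have hpos : ∀ (P : ℤ[X]) (B : ℕ), P ≠ 0 → (∀ i, |P.coeff i| ≤ (B : ℤ)) → 1 ≤ B := by
    intro P B hP hB
    have h1 : P.coeff P.natDegree ≠ 0 := by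
      rw [Polynomial.coeff_natDegree]
      exact Polynomial.leadingCoeff_ne_zero.2 hP
    have h2 := Int.one_le_abs h1
    have h3 := hB P.natDegree
    exact_mod_cast h2.trans h3
  have hY := hpos F Y hF0 hFY
  have hH := hpos Q H hQ0 hQH
  have hm0 : F.natDegree ≠ 0 := by
    intro h0
    obtain ⟨a, ha⟩ := Polynomial.natDegree_eq_zero.1 h0
    rw [← ha] at hFy
    rw [Polynomial.aeval_C] at hFy
    have ha0 : a = 0 := by
      have : ((a : ℤ) : ℤ_[p]) = 0 := by simpa using hFy
      exact_mod_cast this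
    rw [ha0, Polynomial.C_0] at ha
    exact hF0 ha.symm
  -- evaluation
  have hev : ∀ P : ℤ[X], aeval (y : ℚ_[p]) (P.map (Int.castRingHom ℚ)) =
      ((aeval y P : ℤ_[p]) : ℚ_[p]) := by
    intro P
    have h1 : aeval (y : ℚ_[p]) (P.map (algebraMap ℤ ℚ)) = aeval (y : ℚ_[p]) P :=
      Polynomial.aeval_map_algebraMap ℚ (y : ℚ_[p]) P
    have h2 := Polynomial.aeval_algebraMap_apply ℚ_[p] y P
    have h3 : aeval (y : ℚ_[p]) (P.map (Int.castRingHom ℚ)) = aeval (y : ℚ_[p]) P := h1
    rw [h3]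
    exact h2
  have hcop : IsCoprime (F.map (Int.castRingHom ℚ)) (Q.map (Int.castRingHom ℚ)) := by
    rw [hF.coprime_iff_not_dvd]
    rintro ⟨G, hG⟩
    apply hQ
    have h1 := hev Q
    rw [hG, map_mul, hev F, hFy] at h1
    have h2 : ((aeval y Q : ℤ_[p]) : ℚ_[p]) = 0 := by
      rw [← h1]
      simp
    exact PadicInt.ext h2
  have hR : resultant F Q F.natDegree Q.natDegree ≠ 0 := by
    have h1 := resultant_ne_zero _ _ hcop
    rw [Polynomial.natDegree_map_eq_of_injective (Int.castRingHom ℚ).injective_int,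
      Polynomial.natDegree_map_eq_of_injective (Int.castRingHom ℚ).injective_int,
      resultant_map_map] at h1
    intro h0
    rw [h0, map_zero] at h1
    exact h1 rfl
  obtain ⟨P1, P2, -, -, hPP⟩ := exists_mul_add_mul_eq_C_resultant F Q (le_refl F.natDegree)
    (le_refl Q.natDegree) (Or.inl hm0)
  have hdvd : ((p : ℤ) ^ v) ∣ resultant F Q F.natDegree Q.natDegree := by
    have h1 := congrArg (fun P : ℤ[X] => aeval y P) hPP
    simp only [map_add, map_mul, hFy, zero_mul, zero_add, Polynomial.aeval_C] at h1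
    have h2 : (p : ℤ_[p]) ^ v ∣ ((resultant F Q F.natDegree Q.natDegree : ℤ) : ℤ_[p]) := by
      have h3 : ((resultant F Q F.natDegree Q.natDegree : ℤ) : ℤ_[p]) =
          aeval y Q * aeval y P2 := by
        rw [h1]
        simp
      rw [h3]
      exact hv.mul_right _
    exact (PadicInt.pow_p_dvd_int_iff v _).1 h2
  have hle : ((p : ℤ) ^ v) ≤ |resultant F Q F.natDegree Q.natDegree| :=
    Int.le_of_dvd (abs_pos.2 hR) ((dvd_abs _ _).2 hdvd)
  have hb := res_bound hFY hQH F.natDegree Q.natDegree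
  have h1 : (F.natDegree + Q.natDegree).factorial * Y ^ Q.natDegree * H ^ F.natDegree ≤
      (D + T).factorial * Y ^ T * H ^ D := by
    apply Nat.mul_le_mul
    · apply Nat.mul_le_mul
      · exact Nat.factorial_le (by omega)
      · exact Nat.pow_le_pow_right hY hQT
    · exact Nat.pow_le_pow_right hH hFD
  have h2 : ((p ^ v : ℕ) : ℤ) ≤
      (((F.natDegree + Q.natDegree).factorial * Y ^ Q.natDegree * H ^ F.natDegree : ℕ) : ℤ) := by
    rw [Nat.cast_pow]
    exact hle.trans hb
  exact (by exact_mod_cast h2 : p ^ v ≤ _).trans h1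

end GamP
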