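import Pool.Agent.GamP.Defs

/-!
# Degrees of algebraic elements of `ℤ_p`

PROOFS. Embed `ℤ_[p] → ℚ_[p]` (injective ring hom, `PadicInt.Coe.ringHom`), so `DegLE d y` iff
`(y : ℚ_[p])` is algebraic over `ℚ` with `(minpoly ℚ (y:ℚ_[p])).natDegree ≤ d` (an integer
polynomial killing `y` is divisible by the minimal polynomial over `ℚ`; conversely clear denominators:
`IsLocalization.integerNormalization` / `Polynomial` lemma
`∃ b : ℤ, b ≠ 0 ∧ ∃ F : ℤ[X], F.map = C b * minpoly`).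
* `exists_irred`: that polynomial `F`: `F.map = C b * minpoly ℚ y` is irreducible (associated to the
  minimal polynomial).
* `degLE_ratio`: `y, y₁, y₂ ∈ ℚ_[p]` lie in `K = ℚ⟮y₁, y₂⟯` (`y = y₁^l / y₂^k`, `y₂ ≠ 0`), of degree
  `≤ d * d` over `ℚ`: `IntermediateField.adjoin`, e.g. `ℚ⟮y₁⟯⟮y₂⟯` and
  `IntermediateField.finrank_adjoin...`/`Module.finrank_mul_finrank`, or
  `IntermediateField.finrank_sup_le`; and `minpoly.natDegree_le`: degree of the minimal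
  polynomial of an element of a field of finite degree is at most that degree.
* `degLE_smul`: `u y' = v y` with integers `u, v ≠ 0`: from `F(y) = 0`, `F` of degree `≤ d`; the
  polynomial `G = ∑ F_i u^i v^(n-i) X^i`, `n = natDegree F`, i.e. `v^n F(u X / v)`, is nonzero of
  degree `≤ d` and kills `y'` (`v^n G..`: `G(y') = v^n F(u y'/v) = v^n F(y) = 0`). (Polynomial
  `Polynomial.scaleRoots` can help: `scaleRoots`, or `Polynomial.comp`.)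
-/

namespace GamP

open Finset Polynomial

variable {p : ℕ} [Fact p.Prime]

open IntermediateField Module

private theorem aeval_coe (y : ℤ_[p]) (F : ℤ[X]) :
    aeval (y : ℚ_[p]) F = ((aeval y F : ℤ_[p]) : ℚ_[p]) := by
  have h := Polynomial.map_aeval_eq_aeval_map (R := ℤ) (S := ℤ_[p]) (T := ℤ) (U := ℚ_[p])
    (φ := RingHom.id ℤ) (ψ := PadicInt.Coe.ringHom) (Subsingleton.elim _ _) F y
  rw [Polynomial.map_id] at h
  exact h.symm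

private theorem aeval_eq_zero_iff (y : ℤ_[p]) (F : ℤ[X]) :
    aeval (y : ℚ_[p]) F = 0 ↔ aeval y F = 0 := by
  rw [aeval_coe]
  constructor
  · intro h
    exact PadicInt.ext h
  · intro h
    rw [h]
    rfl

private theorem natDegree_mapQ (F : ℤ[X]) :
    (F.map (Int.castRingHom ℚ)).natDegree = F.natDegree :=
  Polynomial.natDegree_map_eq_of_injective (RingHom.injective_int _) F

private theorem aeval_mapQ (F : ℤ[X]) (x : ℚ_[p]) :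
    aeval x (F.map (Int.castRingHom ℚ)) = aeval x F := by
  rw [show Int.castRingHom ℚ = algebraMap ℤ ℚ from rfl, Polynomial.aeval_map_algebraMap]

/-- an element of `ℤ_p` with an integer polynomial is integral over `ℚ`, with a minimal polynomial
of small degree -/
private theorem toMin {d : ℕ} {y : ℤ_[p]} (h : DegLE d y) :
    IsIntegral ℚ (y : ℚ_[p]) ∧ (minpoly ℚ (y : ℚ_[p])).natDegree ≤ d := by
  obtain ⟨F, hF, hd, h0⟩ := h
  have hF' : F.map (Int.castRingHom ℚ) ≠ 0 := by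
    rw [Ne, Polynomial.map_eq_zero_iff (RingHom.injective_int _)]
    exact hF
  have h1 : aeval (y : ℚ_[p]) (F.map (Int.castRingHom ℚ)) = 0 := by
    rw [aeval_mapQ, aeval_eq_zero_iff]
    exact h0
  have halg : IsAlgebraic ℚ (y : ℚ_[p]) := ⟨_, hF', h1⟩
  refine ⟨halg.isIntegral, ?_⟩
  have h2 := Polynomial.natDegree_le_of_dvd (minpoly.dvd ℚ (y : ℚ_[p]) h1) hF'
  rw [natDegree_mapQ] at h2
  exact h2.trans hd

private theorem ofMin {d : ℕ} {y : ℤ_[p]} (hi : IsIntegral ℚ (y : ℚ_[p]))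
    (hd : (minpoly ℚ (y : ℚ_[p])).natDegree ≤ d) :
    ∃ F : ℤ[X], Irreducible (F.map (Int.castRingHom ℚ)) ∧ F.natDegree ≤ d ∧ aeval y F = 0 := by
  obtain ⟨b, hbM, hb⟩ := IsLocalization.integerNormalization_spec (nonZeroDivisors ℤ)
    (minpoly ℚ (y : ℚ_[p]))
  set F := IsLocalization.integerNormalization (nonZeroDivisors ℤ) (minpoly ℚ (y : ℚ_[p])) with hF
  have hb0 : ((b : ℤ) : ℚ) ≠ 0 := by
    have := nonZeroDivisors.ne_zero hbM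
    exact_mod_cast this
  have hmap : F.map (Int.castRingHom ℚ) = C ((b : ℤ) : ℚ) * minpoly ℚ (y : ℚ_[p]) := by
    have e : F.map (Int.castRingHom ℚ) = (b : ℤ) • minpoly ℚ (y : ℚ_[p]) := hb
    rw [e, ← Int.cast_smul_eq_zsmul ℚ, Polynomial.smul_eq_C_mul]
  have hunit : IsUnit (C ((b : ℤ) : ℚ) : ℚ[X]) := Polynomial.isUnit_C.2 (isUnit_iff_ne_zero.2 hb0)
  refine ⟨F, ?_, ?_, ?_⟩
  · rw [hmap, irreducible_isUnit_mul hunit]
    exact minpoly.irreducible hi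
  · rw [← natDegree_mapQ, hmap, Polynomial.natDegree_C_mul hb0]
    exact hd
  · rw [← aeval_eq_zero_iff, ← aeval_mapQ, hmap, map_mul, minpoly.aeval, mul_zero]

private theorem ofMem {d : ℕ} {y : ℤ_[p]} (E : IntermediateField ℚ ℚ_[p]) [FiniteDimensional ℚ E]
    (hd : finrank ℚ E ≤ d) (hy : (y : ℚ_[p]) ∈ E) : DegLE d y := by
  have h1 : IsIntegral ℚ (⟨(y : ℚ_[p]), hy⟩ : E) := IsIntegral.of_finite ℚ _
  have h2 : IsIntegral ℚ (y : ℚ_[p]) := h1.map E.val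
  have h3 : (minpoly ℚ (y : ℚ_[p])).natDegree ≤ d := by
    have h4 := minpoly.natDegree_le (A := ℚ) (⟨(y : ℚ_[p]), hy⟩ : E)
    have h5 : minpoly ℚ (⟨(y : ℚ_[p]), hy⟩ : E) = minpoly ℚ (y : ℚ_[p]) :=
      IntermediateField.minpoly_eq (⟨(y : ℚ_[p]), hy⟩ : E)
    rw [h5] at h4
    exact h4.trans hd
  obtain ⟨F, hF, hd, h0⟩ := ofMin h2 h3
  refine ⟨F, ?_, hd, h0⟩
  rintro rfl
  rw [Polynomial.map_zero] at hF
  exact not_irreducible_zero hF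

theorem DegLE.exists_irred {D : ℕ} {y : ℤ_[p]} (h : DegLE D y) :
    ∃ F : ℤ[X], Irreducible (F.map (Int.castRingHom ℚ)) ∧ F.natDegree ≤ D ∧ aeval y F = 0 :=
  ofMin (toMin h).1 (toMin h).2

theorem DegLE.ratio {d k l : ℕ} {y y₁ y₂ : ℤ_[p]} (h₁ : DegLE d y₁) (h₂ : DegLE d y₂)
    (hy₂ : y₂ ≠ 0) (h : y * y₂ ^ k = y₁ ^ l) : DegLE (d * d) y := by
  obtain ⟨hi₁, hd₁⟩ := toMin h₁
  obtain ⟨hi₂, hd₂⟩ := toMin h₂
  have hf₁ : FiniteDimensional ℚ ℚ⟮(y₁ : ℚ_[p])⟯ := adjoin.finiteDimensional hi₁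
  have hf₂ : FiniteDimensional ℚ ℚ⟮(y₂ : ℚ_[p])⟯ := adjoin.finiteDimensional hi₂
  have hdeg : finrank ℚ ↥(ℚ⟮(y₁ : ℚ_[p])⟯ ⊔ ℚ⟮(y₂ : ℚ_[p])⟯) ≤ d * d := by
    refine (finrank_sup_le _ _).trans ?_
    rw [adjoin.finrank hi₁, adjoin.finrank hi₂]
    exact Nat.mul_le_mul hd₁ hd₂
  refine ofMem (ℚ⟮(y₁ : ℚ_[p])⟯ ⊔ ℚ⟮(y₂ : ℚ_[p])⟯) hdeg ?_
  have h1 : (y₁ : ℚ_[p]) ∈ ℚ⟮(y₁ : ℚ_[p])⟯ ⊔ ℚ⟮(y₂ : ℚ_[p])⟯ :=
    (le_sup_left : ℚ⟮(y₁ : ℚ_[p])⟯ ≤ _) (mem_adjoin_simple_self ℚ _)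
  have h2 : (y₂ : ℚ_[p]) ∈ ℚ⟮(y₁ : ℚ_[p])⟯ ⊔ ℚ⟮(y₂ : ℚ_[p])⟯ :=
    (le_sup_right : ℚ⟮(y₂ : ℚ_[p])⟯ ≤ _) (mem_adjoin_simple_self ℚ _)
  have hy₂' : (y₂ : ℚ_[p]) ≠ 0 := by
    intro h0
    exact hy₂ (PadicInt.ext h0)
  have e : (y : ℚ_[p]) = (y₁ : ℚ_[p]) ^ l / (y₂ : ℚ_[p]) ^ k := by
    rw [eq_div_iff (pow_ne_zero _ hy₂')]
    have := congrArg (fun z : ℤ_[p] => (z : ℚ_[p])) h
    push_cast at this
    exact this
  rw [e]
  exact div_mem (pow_mem h1 _) (pow_mem h2 _)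

theorem DegLE.smul {d : ℕ} {y y' : ℤ_[p]} (h : DegLE d y) {u v : ℤ} (hu : u ≠ 0) (hv : v ≠ 0)
    (huv : (u : ℤ_[p]) * y' = v * y) : DegLE d y' := by
  have _ := hv
  obtain ⟨hi, hd⟩ := toMin h
  have hf : FiniteDimensional ℚ ℚ⟮(y : ℚ_[p])⟯ := adjoin.finiteDimensional hi
  have hdeg : finrank ℚ ℚ⟮(y : ℚ_[p])⟯ ≤ d := by
    rw [adjoin.finrank hi]
    exact hd
  refine ofMem ℚ⟮(y : ℚ_[p])⟯ hdeg ?_
  have h1 : (y : ℚ_[p]) ∈ ℚ⟮(y : ℚ_[p])⟯ := mem_adjoin_simple_self ℚ _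
  have hu' : (u : ℚ_[p]) ≠ 0 := by exact_mod_cast hu
  have e : (y' : ℚ_[p]) = (v : ℚ_[p]) * y / u := by
    rw [eq_div_iff hu']
    have := congrArg (fun z : ℤ_[p] => (z : ℚ_[p])) huv
    push_cast at this
    rw [← this]
    ring
  rw [e]
  exact div_mem (mul_mem (intCast_mem _ _) h1) (intCast_mem _ _)

end GamP
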