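import Pool.Agent.GamP.Ints

/-!
# The functions `ep p i z = p^{v_p(i!)} binomial(z,i)`
-/

namespace GamP

open Finset Polynomial

variable {p : ℕ} [Fact p.Prime]

theorem ep_cont (i : ℕ) : Continuous (ep p i) := by
  unfold ep
  exact continuous_const.mul (PadicInt.continuous_choose i)

theorem ep_nat (i n : ℕ) : ep p i (n : ℤ_[p]) = (ez p i n : ℤ_[p]) := by
  unfold ep ez
  rw [Ring.choose_natCast]
  push_cast
  rfl

theorem val_fact_le {p : ℕ} (hp : p.Prime) (i : ℕ) : padicValNat p i.factorial ≤ i := by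
  have : Fact p.Prime := ⟨hp⟩
  have h1 := sub_one_mul_padicValNat_factorial (p := p) i
  have h2 : 1 ≤ p - 1 := by have := hp.two_le; omega
  calc padicValNat p i.factorial ≤ (p - 1) * padicValNat p i.factorial :=
        Nat.le_mul_of_pos_left _ h2
    _ = i - (p.digits i).sum := h1
    _ ≤ i := Nat.sub_le _ _

theorem ez_bound {p : ℕ} (hp : p.Prime) (i n : ℕ) : |ez p i n| ≤ (p : ℤ) ^ i * 2 ^ n := by
  have hp1 : (1 : ℤ) ≤ p := by exact_mod_cast hp.pos
  unfold ez
  rw [abs_of_nonneg (by positivity)]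
  have h1 : (n.choose i : ℤ) ≤ 2 ^ n := by exact_mod_cast Nat.choose_le_two_pow n i
  have h2 : (p : ℤ) ^ padicValNat p i.factorial ≤ (p : ℤ) ^ i :=
    pow_le_pow_right₀ hp1 (val_fact_le hp i)
  gcongr

/-- integer version of `fact_dvd`, with descending products -/
theorem fact_dvd_int (β : ℕ) (A : ℤ) (i : ℕ) :
    (i.factorial : ℤ) ∣ (β : ℤ) ^ i * ∏ j ∈ range i, (A - β * j) := by
  -- reverse the order
  have h1 : ∏ j ∈ range i, (A - (β : ℤ) * j) = ∏ j ∈ range i, ((A - β * (i - 1)) + β * j) := by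
    rw [← Finset.prod_range_reflect]
    refine prod_congr rfl fun j hj => ?_
    rw [mem_range] at hj
    have : ((i - 1 - j : ℕ) : ℤ) = (i : ℤ) - 1 - j := by omega
    rw [this]
    ring
  rw [h1]
  set A' := A - (β : ℤ) * (i - 1) with hA'
  obtain ⟨α, hα⟩ : ∃ α : ℕ, ∃ k : ℤ, A' + i.factorial * k = α := by
    have hf : (1 : ℤ) ≤ (i.factorial : ℤ) := by exact_mod_cast i.factorial_pos
    refine ⟨(A' + i.factorial * |A'|).toNat, |A'|, ?_⟩
    rw [Int.toNat_of_nonneg]
    nlinarith [abs_nonneg A', neg_abs_le A']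
  obtain ⟨k, hk⟩ := hα
  have h2 := fact_dvd β α i
  have h3 : (i.factorial : ℤ) ∣ (β : ℤ) ^ i * ∏ j ∈ range i, ((α : ℤ) + β * j) := by
    exact_mod_cast (Int.natCast_dvd_natCast.mpr h2)
  have h4 : ∏ j ∈ range i, ((α : ℤ) + β * j) ≡ ∏ j ∈ range i, (A' + β * j) [ZMOD i.factorial] := by
    refine Int.ModEq.prod fun j _ => ?_
    rw [← hk]
    have : A' + (i.factorial : ℤ) * k + β * j ≡ A' + 0 + β * j [ZMOD i.factorial] := by
      gcongr
      exact (Int.modEq_zero_iff_dvd).mpr (dvd_mul_right _ _)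
    simpa using this
  have h5 := h4.mul_left ((β : ℤ) ^ i)
  exact (Int.ModEq.dvd_iff h5).mp h3

theorem fact_choose (z : ℤ_[p]) (k : ℕ) :
    ((k.factorial : ℕ) : ℤ_[p]) * Ring.choose z k = ∏ j ∈ range k, (z - j) := by
  have h := Ring.descPochhammer_eq_factorial_smul_choose z k
  rw [nsmul_eq_mul] at h
  rw [← h, ← aeval_eq_smeval, aeval_def, ← eval_map, algebraMap_int_eq, descPochhammer_map,
    descPochhammer_eval_eq_prod_range]

/-- size of the product -/
theorem prod_size {α β n : ℕ} (hα : α < β) (i : ℕ) :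
    |∏ j ∈ range i, (((α : ℤ) + β * n) - β * j)| ≤ (β : ℤ) ^ i * i.factorial * 2 ^ (n + 1) := by
  have hβ : (0 : ℤ) ≤ β := by positivity
  have hαβ : (α : ℤ) < β := by exact_mod_cast hα
  rw [abs_prod]
  -- termwise bound
  have hterm : ∀ j : ℕ, |((α : ℤ) + β * n) - β * j| ≤ β * (if j ≤ n then ((n : ℤ) + 1 - j) else ((j : ℤ) - n)) := by
    intro j
    split_ifs with hj
    · have hj' : (j : ℤ) ≤ n := by exact_mod_cast hj
      rw [abs_of_nonneg]
      · nlinarith
      · nlinarith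
    · have hj' : (n : ℤ) + 1 ≤ j := by exact_mod_cast Nat.lt_of_not_le hj
      rw [abs_of_nonpos]
      · nlinarith
      · nlinarith
  refine (prod_le_prod (fun _ _ => abs_nonneg _) fun j _ => hterm j).trans ?_
  rw [prod_mul_distrib, prod_const, card_range, mul_assoc]
  refine mul_le_mul_of_nonneg_left ?_ (by positivity)
  -- main combinatorial inequality
  by_cases hi : i ≤ n + 1
  · have h1 : ∏ j ∈ range i, (if j ≤ n then ((n : ℤ) + 1 - j) else ((j : ℤ) - n)) =
        ((n + 1).descFactorial i : ℤ) := by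
      rw [Nat.descFactorial_eq_prod_range]
      push_cast
      refine prod_congr rfl fun j hj => ?_
      rw [mem_range] at hj
      rw [if_pos (by omega), Nat.cast_sub (by omega)]
      push_cast
      ring
    rw [h1, Nat.descFactorial_eq_factorial_mul_choose]
    push_cast
    have h2 : ((n + 1).choose i : ℤ) ≤ 2 ^ (n + 1) := by
      exact_mod_cast Nat.choose_le_two_pow (n + 1) i
    gcongr
  · push Not at hi
    obtain ⟨r, rfl⟩ : ∃ r, i = (n + 1) + r := ⟨i - (n + 1), by omega⟩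
    rw [prod_range_add]
    have h1 : ∏ j ∈ range (n + 1), (if j ≤ n then ((n : ℤ) + 1 - j) else ((j : ℤ) - n)) =
        ((n + 1).factorial : ℤ) := by
      rw [← Nat.descFactorial_self, Nat.descFactorial_eq_prod_range]
      push_cast
      refine prod_congr rfl fun j hj => ?_
      rw [mem_range] at hj
      rw [if_pos (by omega), Nat.cast_sub (by omega)]
      push_cast
      ring
    have h2 : ∏ j ∈ range r, (if n + 1 + j ≤ n then ((n : ℤ) + 1 - ((n + 1 + j : ℕ) : ℤ))
        else (((n + 1 + j : ℕ) : ℤ) - n)) = (r.factorial : ℤ) := by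
      rw [← Finset.prod_range_add_one_eq_factorial]
      push_cast
      refine prod_congr rfl fun j _ => ?_
      rw [if_neg (by omega)]
      ring
    rw [h1, h2]
    have h3 : (n + 1).factorial * r.factorial ≤ ((n + 1) + r).factorial :=
      Nat.le_of_dvd (Nat.factorial_pos _) (Nat.factorial_mul_factorial_dvd_factorial_add _ _)
    have h4 : ((n + 1).factorial : ℤ) * r.factorial ≤ (((n + 1) + r).factorial : ℤ) := by
      exact_mod_cast h3
    refine h4.trans ?_
    exact le_mul_of_one_le_right (by positivity) (one_le_pow₀ (by norm_num))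

theorem ep_int {α β n i : ℕ} (hα : α < β) {z : ℤ_[p]}
    (hz : (β : ℤ_[p]) * z = (α : ℤ_[p]) + β * n) :
    ∃ c : ℤ, |c| ≤ (p : ℤ) ^ i * (β : ℤ) ^ (2 * i) * 2 ^ (n + 1) ∧
      (c : ℤ_[p]) = (β : ℤ_[p]) ^ (2 * i) * ep p i z := by
  have hp : p.Prime := Fact.out
  have hp1 : (1 : ℤ) ≤ p := by exact_mod_cast hp.pos
  obtain ⟨c', hc'⟩ := fact_dvd_int β ((α : ℤ) + β * n) i
  have hfpos : (0 : ℤ) < (i.factorial : ℤ) := by exact_mod_cast i.factorial_pos
  have hfz : ((i.factorial : ℕ) : ℤ_[p]) ≠ 0 := by exact_mod_cast i.factorial_ne_zero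
  refine ⟨(p : ℤ) ^ (padicValNat p i.factorial) * c', ?_, ?_⟩
  · have h1 : |c'| * i.factorial ≤ (β : ℤ) ^ (2 * i) * 2 ^ (n + 1) * i.factorial := by
      have h2 : |c'| * i.factorial = |(β : ℤ) ^ i * ∏ j ∈ range i, (((α : ℤ) + β * n) - β * j)| := by
        rw [hc', abs_mul, abs_of_pos hfpos, mul_comm]
      rw [h2, abs_mul, abs_of_nonneg (by positivity : (0 : ℤ) ≤ (β : ℤ) ^ i)]
      calc (β : ℤ) ^ i * |∏ j ∈ range i, (((α : ℤ) + β * n) - β * j)|
          ≤ (β : ℤ) ^ i * ((β : ℤ) ^ i * i.factorial * 2 ^ (n + 1)) := by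
            gcongr
            exact prod_size hα i
        _ = (β : ℤ) ^ (2 * i) * 2 ^ (n + 1) * i.factorial := by rw [two_mul, pow_add]; ring
    have h3 : |c'| ≤ (β : ℤ) ^ (2 * i) * 2 ^ (n + 1) := le_of_mul_le_mul_right h1 hfpos
    rw [abs_mul, abs_of_nonneg (by positivity : (0 : ℤ) ≤ (p : ℤ) ^ (padicValNat p i.factorial)),
      mul_assoc]
    have h4 : (p : ℤ) ^ padicValNat p i.factorial ≤ (p : ℤ) ^ i :=
      pow_le_pow_right₀ hp1 (val_fact_le hp i)
    exact mul_le_mul h4 h3 (abs_nonneg _) (by positivity)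
  · unfold ep
    have h1 : ((i.factorial : ℕ) : ℤ_[p]) * (c' : ℤ_[p]) =
        ((i.factorial : ℕ) : ℤ_[p]) * ((β : ℤ_[p]) ^ (2 * i) * Ring.choose z i) := by
      have h2 := congrArg (Int.cast : ℤ → ℤ_[p]) hc'
      push_cast at h2
      rw [← h2]
      have h3 : ((i.factorial : ℕ) : ℤ_[p]) * ((β : ℤ_[p]) ^ (2 * i) * Ring.choose z i) =
          (β : ℤ_[p]) ^ (2 * i) * (((i.factorial : ℕ) : ℤ_[p]) * Ring.choose z i) := by ring
      rw [h3, fact_choose, two_mul, pow_add, mul_assoc]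
      congr 1
      have h4 : ∏ j ∈ range i, ((α : ℤ_[p]) + β * n - β * j) =
          ∏ j ∈ range i, ((β : ℤ_[p]) * (z - j)) := by
        refine prod_congr rfl fun j _ => ?_
        rw [← hz]
        ring
      rw [h4, prod_mul_distrib, prod_const, card_range]
    have h5 := mul_left_cancel₀ hfz h1
    push_cast
    rw [h5]
    ring

end GamP
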