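import Pool.Agent.GamP.Defs

/-!
# The product of the integers prime to `p` in a block of `2 p^M r` integers is `1 mod p^M`

PROOF of `prod_block`. `M = 0` is trivial; let `M ≥ 1`, `n = p^M`. Work in `ZMod n`. Let
`U = ∏ u : (ZMod n)ˣ, (u : ZMod n)`. `U * U = 1`: `∏ u⁻¹ = ∏ u` (`Equiv.prod_comp (Equiv.inv _)`) and
`∏ u * ∏ u⁻¹ = 1`. For every `j`, `∏ k ∈ [jn, (j+1)n), p ∤ k` of `((c + k : ℕ) : ZMod n)` is `U`:
`k ↦ (c+k : ZMod n)` is a bijection of a complete interval of length `n` onto `ZMod n`, and since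
`p ∣ c`, `p ∤ k` iff `p ∤ c + k` iff `c + k` is coprime to `n` (`Nat.Coprime.pow_right_iff`) iff
its class is a unit (`ZMod.isUnit_iff_coprime`, `ZMod.unitOfCoprime`). So by induction on `N` the
product over `k < n N`, `p ∤ k` is `U ^ N`, and `U ^ (2 r) = 1`. Finally
`ZMod.intCast_zmod_eq_zero_iff_dvd`/`ZMod.intCast_eq_intCast_iff_dvd_sub`.
-/

namespace GamP

open Finset

/-- the product over a complete period of a periodic function does not depend on the start -/
private theorem prod_period {R : Type*} [CommMonoid R] (f : ℕ → R) (n : ℕ)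
    (hf : ∀ k, f (k + n) = f k) : ∀ c, ∏ k ∈ range n, f (c + k) = ∏ k ∈ range n, f k
  | 0 => by simp only [zero_add]
  | c + 1 => by
    have ih := prod_period f n hf c
    rcases n with _ | n
    · simp
    rw [Finset.prod_range_succ, ← ih, Finset.prod_range_succ' (fun k => f (c + k))]
    have e : c + 1 + n = (c + 0) + (n + 1) := by ring
    rw [e, hf]
    congr 1
    refine Finset.prod_congr rfl fun k _ => ?_
    have e2 : c + 1 + k = c + (k + 1) := by ring
    rw [e2]

private theorem prod_units_sq {R : Type*} [CommMonoid R] [Fintype Rˣ] :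
    (∏ u : Rˣ, (u : R)) * ∏ u : Rˣ, (u : R) = 1 := by
  have h : (∏ u : Rˣ, u) * ∏ u : Rˣ, u = 1 := by
    have h1 : ∏ u : Rˣ, u⁻¹ = ∏ u : Rˣ, u := Equiv.prod_comp (Equiv.inv Rˣ) fun u => u
    have h2 : (∏ u : Rˣ, u) * ∏ u : Rˣ, u⁻¹ = 1 := by
      rw [Finset.prod_inv_distrib, mul_inv_cancel]
    rwa [h1] at h2
  have h3 := congrArg (Units.val) h
  rw [Units.val_mul, Units.coe_prod, Units.val_one] at h3
  exact h3

/-- one period: the product of the units of `ZMod (p ^ M)` -/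
private theorem prod_one {p : ℕ} (hp : p.Prime) {M : ℕ} (hM : 1 ≤ M) :
    (∏ k ∈ range (p ^ M), (if ¬ p ∣ k then ((k : ℕ) : ZMod (p ^ M)) else 1)) ^ 2 = 1 := by
  have hn : p ^ M ≠ 0 := pow_ne_zero _ hp.ne_zero
  have : NeZero (p ^ M) := ⟨hn⟩
  have hiff : ∀ k : ℕ, ¬ p ∣ k ↔ IsUnit ((k : ℕ) : ZMod (p ^ M)) := by
    intro k
    rw [ZMod.isUnit_iff_coprime, Nat.coprime_pow_right_iff (by omega), Nat.coprime_comm,
      hp.coprime_iff_not_dvd]
  have e1 : ∏ k ∈ range (p ^ M), (if ¬ p ∣ k then ((k : ℕ) : ZMod (p ^ M)) else 1) =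
      ∏ u : (ZMod (p ^ M))ˣ, (u : ZMod (p ^ M)) := by
    rw [← Finset.prod_filter]
    symm
    refine Finset.prod_bij (fun u _ => (u : ZMod (p ^ M)).val) ?_ ?_ ?_ ?_
    · intro u _
      rw [mem_filter, mem_range]
      refine ⟨ZMod.val_lt _, ?_⟩
      rw [hiff, ZMod.natCast_zmod_val]
      exact u.isUnit
    · intro u _ v _ h
      exact Units.ext (ZMod.val_injective _ h)
    · intro k hk
      rw [mem_filter, mem_range] at hk
      obtain ⟨u, hu⟩ := (hiff k).1 hk.2
      refine ⟨u, mem_univ _, ?_⟩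
      rw [hu, ZMod.val_natCast, Nat.mod_eq_of_lt hk.1]
    · intro u _
      rw [ZMod.natCast_zmod_val]
  rw [e1, sq]
  exact prod_units_sq

theorem prod_block {p : ℕ} (hp : p.Prime) (M r c : ℕ) (hc : p ∣ c) :
    (p : ℤ) ^ M ∣
      (∏ k ∈ (range (2 * p ^ M * r)).filter (fun k => ¬ p ∣ k), ((c : ℤ) + k)) - 1 := by
  rcases Nat.eq_zero_or_pos M with rfl | hM
  · rw [pow_zero]; exact one_dvd _
  have hdvd : p ∣ p ^ M := dvd_pow_self p (by omega)
  set f : ℕ → ZMod (p ^ M) := fun k => if ¬ p ∣ k then ((k : ℕ) : ZMod (p ^ M)) else 1 with hf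
  have hper : ∀ k, f (k + p ^ M) = f k := by
    intro k
    simp only [hf]
    rw [Nat.cast_add]
    simp only [Nat.dvd_add_left hdvd, Nat.cast_pow]
    rw [← Nat.cast_pow, ZMod.natCast_self, add_zero]
  have hblock : ∀ N : ℕ, ∏ k ∈ range (p ^ M * N), f (c + k) =
      (∏ k ∈ range (p ^ M), f k) ^ N := by
    intro N
    induction N with
    | zero => simp
    | succ N ih =>
      rw [mul_add, mul_one, Finset.prod_range_add, ih, pow_succ]
      congr 1
      have h := prod_period f (p ^ M) hper (c + p ^ M * N)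
      rw [← h]
      refine Finset.prod_congr rfl fun k _ => ?_
      rw [add_assoc]
  have h2 : ∏ k ∈ range (2 * p ^ M * r), f (c + k) = 1 := by
    have e : 2 * p ^ M * r = p ^ M * (2 * r) := by ring
    rw [e, hblock, pow_mul, prod_one hp hM, one_pow]
  have h3 : ((p ^ M : ℕ) : ℤ) ∣
      (∏ k ∈ (range (2 * p ^ M * r)).filter (fun k => ¬ p ∣ k), ((c : ℤ) + k)) - 1 := by
    rw [← ZMod.intCast_zmod_eq_zero_iff_dvd, Int.cast_sub, Int.cast_one, sub_eq_zero,
      Int.cast_prod, Finset.prod_filter]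
    refine Eq.trans (Finset.prod_congr rfl fun k _ => ?_) h2
    simp only [hf, Nat.dvd_add_right hc]
    push_cast
    rfl
  push_cast at h3
  exact h3

end GamP
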