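import Pool.Agent.GamP.Diff
import Pool.Agent.GamP.Block1

/-!
# The sequences `gz`, `ez`, `GZ` along `a + 2 p^4 t` are in the class `DD (p^2)`

PROOFS. Put `q = 2 p^4`.

* `gz_add`: `gz p (x + N) = (-1)^N * (∏ k < N, p ∤ k, (x + k)) * gz p x` when `p ∣ x` (split
  `range (x+N)` at `x`; `p ∤ x + k` iff `p ∤ k`).
* `DD_gz`: `f t = gz p (p m (a + q t))`, `x = p m (a + q t)`, `N = p m q = 2 p^4 (p m)` (even):
  `f (t+1) = f t * W t`, `W t = ∏ k < N, p ∤ k, ((p m a + k) + (p m q) t)`. By `prod_block` with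
  `M = 4`, `r = p m`, `c = p m (a + q t)`: `p^4 ∣ W t - 1`, so `W t - 1 = p^2 V t`. By
  `DD.prod` and `DD.lin` (slope `p m q`, divisible by `p^4 = (p^2)^2`): `DD ((p^2)^2) W`. Then
  `DD.quot` and `DD.step`.
* `DD_ez`: `i! = p^v * w`, `v = padicValNat p i!`, `w` prime to `p` (`ordProj`/`ordCompl` or
  `Nat.exists_eq_pow_mul_and_not_dvd`); `w * ez p i n = i! * (n.choose i) = ∏ j < i, ((n:ℤ) - j)`
  (`Nat.descFactorial_eq_factorial_mul_choose`, and both sides vanish if `n < i`). Each factor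
  `(a - j) + q t` is in `DD (p^2)` by `DD.lin`; `DD.prod`; then `DD.of_mul` (`w` coprime to `p^2`).
* `DD_GZ`: `DD.sum`, `DD.mul`, `DD.pow`, `DD.const`.
-/

namespace GamP

open Finset

theorem gz_add {p : ℕ} (x N : ℕ) (hx : p ∣ x) :
    gz p (x + N) = (-1) ^ N *
      (∏ k ∈ (range N).filter (fun k => ¬ p ∣ k), ((x : ℤ) + k)) * gz p x := by
  unfold gz
  rw [Finset.prod_filter, Finset.prod_range_add, Finset.prod_filter, Finset.prod_filter, pow_add]
  have e : ∀ k, (if ¬ p ∣ x + k then ((x + k : ℕ) : ℤ) else 1) =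
      if ¬ p ∣ k then (x : ℤ) + k else 1 := by
    intro k
    simp only [Nat.dvd_add_right hx]
    push_cast
    rfl
  simp only [e]
  ring

theorem DD_gz {p : ℕ} (hp : p.Prime) (m a : ℕ) :
    DD ((p : ℤ) ^ 2) (fun t => gz p (p * m * (a + 2 * p ^ 4 * t))) := by
  set W : ℕ → ℤ := fun t => ∏ k ∈ (range (2 * p ^ 4 * (p * m))).filter (fun k => ¬ p ∣ k),
    (((p : ℤ) * m * a + k) + ((p : ℤ) * m * (2 * p ^ 4)) * (t : ℤ)) with hWdef
  have hdvd : ∀ t, (p : ℤ) ^ 4 ∣ W t - 1 := by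
    intro t
    have h := prod_block hp 4 (p * m) (p * m * (a + 2 * p ^ 4 * t))
      ((dvd_mul_right p m).mul_right _)
    have e : W t = ∏ k ∈ (range (2 * p ^ 4 * (p * m))).filter (fun k => ¬ p ∣ k),
        (((p * m * (a + 2 * p ^ 4 * t) : ℕ) : ℤ) + k) := by
      refine Finset.prod_congr rfl fun k _ => ?_
      push_cast
      ring
    rw [e]
    exact h
  choose w hw using hdvd
  have hV : ∀ t, W t - 1 = (p : ℤ) ^ 2 * ((p : ℤ) ^ 2 * w t) := by
    intro t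
    rw [hw t]
    ring
  have hp0 : (p : ℤ) ≠ 0 := by exact_mod_cast hp.ne_zero
  have hWD : DD (((p : ℤ) ^ 2) ^ 2) W := by
    refine DD.prod _ _ fun k _ => ?_
    refine DD.lin _ ⟨(p : ℤ) * m * 2, by ring⟩
  have hVD : DD ((p : ℤ) ^ 2) (fun t => (p : ℤ) ^ 2 * w t) :=
    DD.quot (pow_ne_zero 2 hp0) hWD hV
  refine DD.step (W := W) (V := fun t => (p : ℤ) ^ 2 * w t) ?_ hV hVD
  intro t
  have e1 : p * m * (a + 2 * p ^ 4 * (t + 1)) =
      p * m * (a + 2 * p ^ 4 * t) + 2 * p ^ 4 * (p * m) := by ring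
  show gz p (p * m * (a + 2 * p ^ 4 * (t + 1))) = gz p (p * m * (a + 2 * p ^ 4 * t)) * W t
  rw [e1, gz_add _ _ ((dvd_mul_right p m).mul_right _)]
  have e2 : ((-1 : ℤ)) ^ (2 * p ^ 4 * (p * m)) = 1 := by
    rw [mul_assoc, pow_mul, neg_one_sq, one_pow]
  have e3 : ∏ k ∈ (range (2 * p ^ 4 * (p * m))).filter (fun k => ¬ p ∣ k),
        (((p * m * (a + 2 * p ^ 4 * t) : ℕ) : ℤ) + k) = W t := by
    refine Finset.prod_congr rfl fun k _ => ?_
    push_cast
    ring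
  rw [e2, e3]
  ring

theorem DD_ez {p : ℕ} (hp : p.Prime) (i a : ℕ) :
    DD ((p : ℤ) ^ 2) (fun t => ez p i (a + 2 * p ^ 4 * t)) := by
  have : Fact p.Prime := ⟨hp⟩
  set v := padicValNat p i.factorial with hv
  have hfac : i.factorial ≠ 0 := Nat.factorial_ne_zero i
  have hvf : i.factorial.factorization p = v := Nat.factorization_def _ hp
  set w : ℕ := i.factorial / p ^ v with hw
  have hmul : p ^ v * w = i.factorial := by
    rw [hw, ← hvf]
    exact Nat.ordProj_mul_ordCompl_eq_self _ _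
  have hcop : Nat.Coprime p w := by
    rw [hw, ← hvf]
    exact Nat.coprime_ordCompl hp hfac
  have hcop' : IsCoprime ((p : ℤ) ^ 2) (w : ℤ) := by
    refine IsCoprime.pow_left ?_
    exact Nat.isCoprime_iff_coprime.2 hcop
  refine DD.of_mul hcop' ?_
  have e : (fun t : ℕ => (w : ℤ) * ez p i (a + 2 * p ^ 4 * t)) =
      fun t : ℕ => ∏ j ∈ range i, (((a : ℤ) - j) + (2 * (p : ℤ) ^ 4) * (t : ℤ)) := by
    funext t
    set n := a + 2 * p ^ 4 * t with hn
    have h1 : (w : ℤ) * ez p i n = ((n.descFactorial i : ℕ) : ℤ) := by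
      rw [Nat.descFactorial_eq_factorial_mul_choose, ← hmul]
      unfold ez
      push_cast
      ring
    rw [h1, ← descPochhammer_eval_eq_descFactorial, descPochhammer_eval_eq_prod_range]
    refine Finset.prod_congr rfl fun j _ => ?_
    rw [hn]
    push_cast
    ring
  rw [e]
  refine DD.prod _ _ fun j _ => ?_
  exact DD.lin _ ⟨2 * (p : ℤ) ^ 2, by ring⟩

theorem DD_GZ {p : ℕ} (hp : p.Prime) (m m' T₁ T₂ : ℕ) (c : Fin T₁ × Fin T₂ → ℤ) (a : ℕ) :
    DD ((p : ℤ) ^ 2) (fun t => GZ p m m' T₁ T₂ c (a + 2 * p ^ 4 * t)) := by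
  unfold GZ
  refine DD.sum _ _ fun i _ => ?_
  refine DD.mul (DD.mul (DD.mul (DD.const _ _) (DD_ez hp _ _)) ?_) ?_
  · exact DD.pow (DD.pow (DD_gz hp m a) _) _
  · exact DD.pow (DD.pow (DD_gz hp m' a) _) _

end GamP
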