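import Pool.Agent.GamP.Block1
import Pool.Agent.GamP.Block2

/-!
# Basic facts on Morita's gamma function

PROOFS.
* `IsMorita.nat`: for `n ≥ 1` it is the definition (push_cast of `gz`). `n = 0`: `gz p 0 = 1` and
  `Γ 0 = lim Γ (2 p^M)` (`M → ∞`; continuity, `(2 p^M : ℤ_[p]) → 0`), while
  `Γ (2 p^M) = gz p (2 p^M) = ∏ k < 2p^M, p ∤ k, k` (even exponent of `-1`) is `≡ 1 mod p^M` by
  `prod_block hp M 1 0`; so `‖Γ (2p^M) - 1‖ ≤ p^(-M) → 0`.
* `IsMorita.norm`: at a natural `n`, `gz p n` is prime to `p` (product of numbers prime to `p`), so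
  `‖Γ n‖ = 1` (`PadicInt.norm_int_lt_one_iff_dvd` / `padicNormE.norm_int_lt_one_iff_dvd`); the
  naturals are dense (`PadicInt.denseRange_natCast`) and `{z | ‖Γ z‖ = 1}` is closed.
* `IsMorita.block`: both sides are continuous in `s`; for `s` a natural number it is
  `gz_add (x := p*m*s) (N := p*m*n)` from `Block2` together with `IsMorita.nat`; dense range.
* `IsMorita.shift`: the same with step `1` in the whole of `ℤ_[p]`: for a natural `x`,
  `gz p (x+1) = - gz p x * (if p ∣ x then 1 else x)` (`Finset.range_succ`, `Finset.filter_insert`).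
  To pass to the limit: the set `{x | ‖x‖ < 1}` (`= pℤ_p`) and its complement are clopen, and
  on each of them both sides are continuous; so prove: the set of `x` with
  (`‖x‖ = 1 → Γ (x+1) = - x Γ x`) and (`‖x‖ < 1 → Γ (x+1) = - Γ x`) is closed and contains
  the naturals. (Or: `x ↦ if ‖x‖ < 1 then 1 else x` is continuous because the ball is clopen:
  `Continuous.if`/`IsClopen`.)
-/

namespace GamP

open Finset

variable {p : ℕ} [Fact p.Prime] {Γ : ℤ_[p] → ℤ_[p]}

private theorem morita_pos (h : IsMorita p Γ) {n : ℕ} (hn : 1 ≤ n) :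
    Γ (n : ℤ_[p]) = (gz p n : ℤ_[p]) := by
  rw [h.2 n hn]
  unfold gz
  push_cast
  rfl

private theorem gz_not_dvd (n : ℕ) : ¬ ((p : ℤ) ∣ gz p n) := by
  have hp : Prime (p : ℤ) := Nat.prime_iff_prime_int.1 Fact.out
  unfold gz
  intro hd
  rcases hp.dvd_or_dvd hd with h1 | h1
  · have := hp.dvd_of_dvd_pow h1
    exact hp.not_isUnit (isUnit_of_dvd_unit this (by norm_num))
  · obtain ⟨j, hj, h2⟩ := (hp.dvd_finsetProd_iff _).1 h1
    rw [mem_filter] at hj
    exact hj.2 (by exact_mod_cast h2)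

private theorem norm_gz (n : ℕ) : ‖(gz p n : ℤ_[p])‖ = 1 := by
  have h1 : ¬ ‖(gz p n : ℤ_[p])‖ < 1 := by
    rw [PadicInt.norm_int_lt_one_iff_dvd]
    exact gz_not_dvd n
  exact le_antisymm (PadicInt.norm_le_one _) (not_lt.1 h1)

private theorem morita_zero (h : IsMorita p Γ) : Γ 0 = 1 := by
  have hp : p.Prime := Fact.out
  have ht : Filter.Tendsto (fun M : ℕ => ((2 * p ^ M : ℕ) : ℤ_[p])) Filter.atTop (nhds 0) := by
    have h1 : Filter.Tendsto (fun M : ℕ => (p : ℤ_[p]) ^ M) Filter.atTop (nhds 0) :=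
      tendsto_pow_atTop_nhds_zero_of_norm_lt_one (by
        rw [PadicInt.norm_p]
        exact inv_lt_one_of_one_lt₀ (by exact_mod_cast hp.one_lt))
    have h2 := h1.const_mul (2 : ℤ_[p])
    rw [mul_zero] at h2
    refine h2.congr fun M => ?_
    push_cast
    rfl
  have h1 := (h.1.tendsto 0).comp ht
  have h2 : Filter.Tendsto (fun M : ℕ => Γ ((2 * p ^ M : ℕ) : ℤ_[p])) Filter.atTop (nhds 1) := by
    rw [tendsto_iff_norm_sub_tendsto_zero]
    have h3 : Filter.Tendsto (fun M : ℕ => ((p : ℝ)⁻¹) ^ M) Filter.atTop (nhds 0) :=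
      tendsto_pow_atTop_nhds_zero_of_lt_one (by positivity)
        (inv_lt_one_of_one_lt₀ (by exact_mod_cast hp.one_lt))
    refine squeeze_zero (fun M => norm_nonneg _) (fun M => ?_) h3
    have hM : 1 ≤ 2 * p ^ M := by
      have := Nat.pos_of_ne_zero (pow_ne_zero M hp.ne_zero)
      omega
    rw [morita_pos h hM]
    have h4 := prod_block hp M 1 0 (dvd_zero p)
    have h5 : gz p (2 * p ^ M) = ∏ k ∈ (range (2 * p ^ M * 1)).filter (fun k => ¬ p ∣ k),
        (((0 : ℕ) : ℤ) + k) := by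
      unfold gz
      rw [Even.neg_one_pow (even_two_mul _), one_mul, mul_one]
      refine Finset.prod_congr rfl fun k _ => ?_
      simp
    rw [← h5] at h4
    have h6 : ‖((gz p (2 * p ^ M) - 1 : ℤ) : ℤ_[p])‖ ≤ (p : ℝ) ^ (-(M : ℤ)) := by
      rw [PadicInt.norm_int_le_pow_iff_dvd]
      exact_mod_cast h4
    push_cast at h6
    rw [zpow_neg, zpow_natCast] at h6
    rw [inv_pow]
    exact h6
  exact tendsto_nhds_unique h1 h2

theorem IsMorita.nat (h : IsMorita p Γ) (n : ℕ) : Γ (n : ℤ_[p]) = (gz p n : ℤ_[p]) := by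
  rcases Nat.eq_zero_or_pos n with rfl | hn
  · rw [Nat.cast_zero, morita_zero h]
    simp [gz]
  · exact morita_pos h hn

theorem IsMorita.norm (h : IsMorita p Γ) (z : ℤ_[p]) : ‖Γ z‖ = 1 := by
  have hc : Continuous fun z => ‖Γ z‖ := h.1.norm
  have h1 : (fun z => ‖Γ z‖) = fun _ => (1 : ℝ) := by
    refine DenseRange.equalizer (PadicInt.denseRange_natCast (p := p)) hc continuous_const ?_
    funext n
    show ‖Γ (n : ℤ_[p])‖ = 1
    rw [h.nat, norm_gz]
  exact congrFun h1 z

theorem IsMorita.block (h : IsMorita p Γ) (m n : ℕ) (s : ℤ_[p]) :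
    Γ (p * m * (s + n)) = (-1) ^ (p * m * n) *
      (∏ k ∈ (range (p * m * n)).filter (fun k => ¬ p ∣ k), ((p : ℤ_[p]) * m * s + k)) *
      Γ (p * m * s) := by
  have hc1 : Continuous fun s : ℤ_[p] => Γ (p * m * (s + n)) := by
    refine h.1.comp ?_
    fun_prop
  have hc2 : Continuous fun s : ℤ_[p] => (-1) ^ (p * m * n) *
      (∏ k ∈ (range (p * m * n)).filter (fun k => ¬ p ∣ k), ((p : ℤ_[p]) * m * s + k)) *
      Γ (p * m * s) := by
    have h3 : Continuous fun s : ℤ_[p] => Γ (p * m * s) := h.1.comp (by fun_prop)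
    refine Continuous.mul (Continuous.mul continuous_const ?_) h3
    refine continuous_finsetProd _ fun k _ => ?_
    fun_prop
  have h1 := DenseRange.equalizer (PadicInt.denseRange_natCast (p := p)) hc1 hc2 (by
    funext x
    show Γ (p * m * ((x : ℤ_[p]) + n)) = (-1) ^ (p * m * n) *
      (∏ k ∈ (range (p * m * n)).filter (fun k => ¬ p ∣ k), ((p : ℤ_[p]) * m * x + k)) *
      Γ (p * m * x)
    have e1 : (p : ℤ_[p]) * m * ((x : ℤ_[p]) + n) = ((p * m * x + p * m * n : ℕ) : ℤ_[p]) := by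
      push_cast
      ring
    have e2 : (p : ℤ_[p]) * m * (x : ℤ_[p]) = ((p * m * x : ℕ) : ℤ_[p]) := by
      push_cast
      ring
    rw [e1, e2, h.nat, h.nat, gz_add (p * m * x) (p * m * n) ⟨m * x, by ring⟩]
    push_cast
    rfl)
  exact congrFun h1 s

theorem IsMorita.shift (h : IsMorita p Γ) (x : ℤ_[p]) :
    (‖x‖ = 1 → Γ (x + 1) = - (x * Γ x)) ∧ (‖x‖ < 1 → Γ (x + 1) = - Γ x) := by
  classical
  have hcl : IsClopen {x : ℤ_[p] | ‖x‖ < 1} := by
    have : {x : ℤ_[p] | ‖x‖ < 1} = Metric.ball 0 1 := by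
      ext x
      simp
    rw [this]
    exact IsUltrametricDist.isClopen_ball 0 1
  have hg : Continuous fun x : ℤ_[p] => if ‖x‖ < 1 then (1 : ℤ_[p]) else x := by
    refine Continuous.if (fun a ha => ?_) continuous_const continuous_id
    rw [show frontier {x : ℤ_[p] | ‖x‖ < 1} = ∅ from hcl.frontier_eq] at ha
    exact absurd ha (Set.notMem_empty _)
  have hc1 : Continuous fun x : ℤ_[p] => Γ (x + 1) := h.1.comp (by fun_prop)
  have hc2 : Continuous fun x : ℤ_[p] => - ((if ‖x‖ < 1 then (1 : ℤ_[p]) else x) * Γ x) :=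
    (hg.mul h.1).neg
  have h1 := DenseRange.equalizer (PadicInt.denseRange_natCast (p := p)) hc1 hc2 (by
    funext n
    show Γ ((n : ℤ_[p]) + 1) = - ((if ‖(n : ℤ_[p])‖ < 1 then (1 : ℤ_[p]) else n) * Γ n)
    have e1 : (n : ℤ_[p]) + 1 = ((n + 1 : ℕ) : ℤ_[p]) := by push_cast; ring
    have e3 : (‖(n : ℤ_[p])‖ < 1 ↔ p ∣ n) := by
      have := PadicInt.norm_int_lt_one_iff_dvd (p := p) (n : ℤ)
      rw [Int.cast_natCast] at this
      rw [this]
      exact Int.natCast_dvd_natCast
    rw [e1, h.nat, h.nat]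
    have e2 : gz p (n + 1) = - ((if p ∣ n then 1 else (n : ℤ)) * gz p n) := by
      unfold gz
      rw [Finset.range_add_one, Finset.filter_insert]
      by_cases hpn : p ∣ n
      · simp only [hpn, not_true_eq_false, if_false, if_true]
        rw [pow_succ]
        ring
      · simp only [hpn, not_false_eq_true, if_true, if_false]
        rw [Finset.prod_insert (by simp), pow_succ]
        ring
    rw [e2]
    by_cases hpn : p ∣ n
    · rw [if_pos hpn, if_pos (e3.2 hpn)]
      push_cast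
      ring
    · rw [if_neg hpn, if_neg (fun hh => hpn (e3.1 hh))]
      push_cast
      ring)
  have h2 := congrFun h1 x
  constructor
  · intro hx
    have h3 : Γ (x + 1) = - ((if ‖x‖ < 1 then (1 : ℤ_[p]) else x) * Γ x) := h2
    rw [if_neg (by rw [hx]; exact lt_irrefl _)] at h3
    exact h3
  · intro hx
    have h3 : Γ (x + 1) = - ((if ‖x‖ < 1 then (1 : ℤ_[p]) else x) * Γ x) := h2
    rw [if_pos hx, one_mul] at h3
    exact h3

end GamP
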