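import Pool.Agent.GamP.PropM

/-!
# The class of `a mod b`, and the pair bound

PROOFS. `b` is prime to `p`, so it is a unit of `ℤ_[p]`: for every natural `a` there is a unique `x` with
`b x = a` (`PadicInt.isUnit_iff`, `PadicInt.norm_natCast_eq_one_iff`-type lemma).
* `algAt_mod`: enough: `AlgAt Γ d a b ↔ AlgAt Γ d (a + b) b` (then induct; or use `a % b`). `b x = a`,
  `b (x+1) = a + b`. `IsMorita.shift`: if `‖x‖ < 1` then `Γ(x+1) = -Γ x`; if `‖x‖ = 1`,
  `Γ (x+1) = - x Γ x`, so `b Γ(x+1) = - a Γ x` with `a ≠ 0`; `DegLE.smul` in both directions.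
* `pair_bound`: `propM` with `D = d * d`. For `α ∈ S`: `s` with `b s = α`; the `x` of
  `AlgAt Γ d (p*m*α) b` is `p m s` (cancel `b`); `y := Γ(pms)^{4m'} * (Γ(pm's)^{4m})⁻¹` (unit:
  `IsMorita.norm`, `PadicInt.isUnit_iff`); `DegLE.ratio` with `y₁ = Γ(pms)`, `y₂ = Γ(pm's)`,
  `k = 4m`, `l = 4m'`.
-/

namespace GamP

open Finset

variable {p : ℕ} [Fact p.Prime] {Γ : ℤ_[p] → ℤ_[p]}

theorem cls_isUnit {b : ℕ} (hb : ¬ p ∣ b) : IsUnit (b : ℤ_[p]) := by
  rw [PadicInt.isUnit_iff]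
  rcases lt_or_eq_of_le (PadicInt.norm_le_one (b : ℤ_[p])) with h | h
  · exfalso
    have h2 : ‖((b : ℤ) : ℤ_[p])‖ < 1 := by
      rw [Int.cast_natCast]; exact h
    rw [PadicInt.norm_int_lt_one_iff_dvd] at h2
    exact hb (by exact_mod_cast h2)
  · exact h

theorem cls_step (h : IsMorita p Γ) {b : ℕ} (hb : ¬ p ∣ b) (a d : ℕ) :
    AlgAt Γ d a b ↔ AlgAt Γ d (a + b) b := by
  have hb0 : b ≠ 0 := by rintro rfl; exact hb (dvd_zero p)
  have hbz : (b : ℤ_[p]) ≠ 0 := by exact_mod_cast hb0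
  have key : ∀ x : ℤ_[p], (b : ℤ_[p]) * x = a → (DegLE d (Γ x) ↔ DegLE d (Γ (x + 1))) := by
    intro x hx
    obtain ⟨h1, h2⟩ := h.shift x
    rcases lt_or_eq_of_le (PadicInt.norm_le_one x) with hlt | heq
    · have e := h2 hlt
      constructor
      · intro hd
        refine hd.smul (u := 1) (v := -1) (by norm_num) (by norm_num) ?_
        rw [e]; push_cast; ring
      · intro hd
        refine hd.smul (u := 1) (v := -1) (by norm_num) (by norm_num) ?_
        rw [e]; push_cast; ring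
    · have e := h1 heq
      have ha : a ≠ 0 := by
        rintro rfl
        have : (b : ℤ_[p]) * x = 0 := by rw [hx]; simp
        rcases mul_eq_zero.1 this with h0 | h0
        · exact hbz h0
        · rw [h0] at heq; simp at heq
      have haz : (a : ℤ) ≠ 0 := by exact_mod_cast ha
      have hbz' : (b : ℤ) ≠ 0 := by exact_mod_cast hb0
      have e2 : (b : ℤ_[p]) * Γ (x + 1) = -((a : ℤ_[p]) * Γ x) := by
        rw [e, ← hx]; ring
      constructor
      · intro hd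
        refine hd.smul (u := (b : ℤ)) (v := -(a : ℤ)) hbz' (neg_ne_zero.2 haz) ?_
        push_cast
        rw [e2]; ring
      · intro hd
        refine hd.smul (u := -(a : ℤ)) (v := (b : ℤ)) (neg_ne_zero.2 haz) hbz' ?_
        push_cast
        rw [e2]; ring
  constructor
  · rintro ⟨x, hx, hd⟩
    exact ⟨x + 1, by push_cast; rw [mul_add, hx, mul_one], (key x hx).1 hd⟩
  · rintro ⟨x, hx, hd⟩
    have hx' : (b : ℤ_[p]) * (x - 1) = a := by
      rw [mul_sub, hx]; push_cast; ring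
    refine ⟨x - 1, hx', (key _ hx').2 ?_⟩
    rw [sub_add_cancel]; exact hd

theorem cls_add (h : IsMorita p Γ) {b : ℕ} (hb : ¬ p ∣ b) (a d k : ℕ) :
    AlgAt Γ d a b ↔ AlgAt Γ d (a + b * k) b := by
  induction k with
  | zero => simp
  | succ k ih =>
    rw [ih, cls_step h hb, mul_add, mul_one, add_assoc]

theorem algAt_mod (h : IsMorita p Γ) {b : ℕ} (hb : ¬ p ∣ b) {a a' : ℕ} (hab : a ≡ a' [MOD b])
    (d : ℕ) : AlgAt Γ d a b ↔ AlgAt Γ d a' b := by
  have main : ∀ {u v : ℕ}, u ≤ v → u ≡ v [MOD b] → (AlgAt Γ d u b ↔ AlgAt Γ d v b) := by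
    intro u v huv hm
    obtain ⟨k, hk⟩ := (Nat.modEq_iff_dvd' huv).1 hm
    have : v = u + b * k := by omega
    rw [this]; exact cls_add h hb u d k
  rcases le_total a a' with hle | hle
  · exact main hle hab
  · exact (main hle hab.symm).symm

theorem pair_bound (h : IsMorita p Γ) {m m' : ℕ} (hm' : 0 < m') (hmm : m' < m) {d b lam : ℕ}
    (hd : 1 ≤ d) (hb : ¬ p ∣ b) (hlam : 2 * p * (m * m') * b ≤ 2 ^ lam) (S : Finset ℕ)
    (hS : ∀ α ∈ S, α < b ∧ AlgAt Γ d (p * m * α) b ∧ AlgAt Γ d (p * m' * α) b) :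
    S.card ≤ 112 * 288 ^ 2 * p ^ 3 * (2 * p ^ 4) ^ 2 * (m * m') ^ 2 * lam ^ 4 * (d * d) ^ 4 := by
  have hb0 : b ≠ 0 := by rintro rfl; exact hb (dvd_zero p)
  have hbz : (b : ℤ_[p]) ≠ 0 := by exact_mod_cast hb0
  refine propM h hm' hmm (D := d * d) (b := b) (lam := lam) (Nat.mul_pos hd hd) hb hlam S ?_
  intro α hα
  obtain ⟨h1, ⟨x, hx, hdx⟩, ⟨x', hx', hdx'⟩⟩ := hS α hα
  obtain ⟨w, hw⟩ := (cls_isUnit (p := p) hb).exists_right_inv
  have hs : (b : ℤ_[p]) * (w * α) = α := by rw [← mul_assoc, hw, one_mul]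
  have hxs : x = p * m * (w * α) := by
    apply mul_left_cancel₀ hbz
    rw [hx]; push_cast
    calc (p : ℤ_[p]) * m * α = (p : ℤ_[p]) * m * ((b : ℤ_[p]) * (w * α)) := by rw [hs]
      _ = _ := by ring
  have hxs' : x' = p * m' * (w * α) := by
    apply mul_left_cancel₀ hbz
    rw [hx']; push_cast
    calc (p : ℤ_[p]) * m' * α = (p : ℤ_[p]) * m' * ((b : ℤ_[p]) * (w * α)) := by rw [hs]
      _ = _ := by ring
  rw [hxs] at hdx
  rw [hxs'] at hdx'
  have hu : IsUnit (Γ (p * m' * (w * α))) := by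
    rw [PadicInt.isUnit_iff]; exact h.norm _
  obtain ⟨z, hz⟩ := (hu.pow (4 * m)).exists_left_inv
  refine ⟨h1, w * α, Γ (p * m * (w * α)) ^ (4 * m') * z, hs, ?_, ?_⟩
  · rw [mul_assoc, hz, mul_one]
  · refine hdx.ratio hdx' hu.ne_zero (k := 4 * m) (l := 4 * m') ?_
    rw [mul_assoc, hz, mul_one]

end GamP
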