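import Pool.Agent.GamP.Defs

/-!
# Small values and zeros of the functions of the class `DD (p^2)`
-/

namespace GamP

open Finset Polynomial

open scoped fwdDiff

/-- the multiples of `p ^ m` form a closed set -/
theorem isClosed_dvd {p : ℕ} [Fact p.Prime] (m : ℕ) : IsClosed {x : ℤ_[p] | (p : ℤ_[p]) ^ m ∣ x} := by
  have h : {x : ℤ_[p] | (p : ℤ_[p]) ^ m ∣ x} = {x : ℤ_[p] | ‖x‖ ≤ (p : ℝ) ^ (-m : ℤ)} := by
    ext x
    simp only [Set.mem_ofPred_eq]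
    rw [PadicInt.norm_le_pow_iff_mem_span_pow, Ideal.mem_span_singleton]
  rw [h]
  exact isClosed_le continuous_norm continuous_const

theorem dvd_of_hasSum {p : ℕ} [Fact p.Prime] (m : ℕ) {f : ℕ → ℤ_[p]} {a : ℤ_[p]}
    (h : HasSum f a) (hf : ∀ k, (p : ℤ_[p]) ^ m ∣ f k) : (p : ℤ_[p]) ^ m ∣ a := by
  have h1 : Filter.Tendsto (fun s : Finset ℕ => ∑ b ∈ s, f b) Filter.atTop (nhds a) := h
  exact (isClosed_dvd m).mem_of_tendsto h1
    (Filter.Eventually.of_forall fun s => Finset.dvd_sum fun i _ => hf i)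

theorem hasSum_eval {p : ℕ} [Fact p.Prime] {G : ℤ_[p] → ℤ_[p]} (hG : Continuous G) {g : ℕ → ℤ}
    (hg : ∀ t : ℕ, G (t : ℤ_[p]) = (g t : ℤ_[p])) (z : ℤ_[p]) :
    HasSum (fun k => (((fwdDiff 1)^[k] g 0 : ℤ) : ℤ_[p]) * Ring.choose z k) (G z) := by
  have h := PadicInt.hasSum_mahler (p := p) (⟨G, hG⟩ : C(ℤ_[p], ℤ_[p]))
  have h2 := ContinuousMap.hasSum_apply h z
  have h3 : (fun k => (((fwdDiff 1)^[k] g 0 : ℤ) : ℤ_[p]) * Ring.choose z k) =
      fun k => (PadicInt.mahlerTerm ((fwdDiff 1)^[k] (⟨G, hG⟩ : C(ℤ_[p], ℤ_[p])) 0) k :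
        C(ℤ_[p], ℤ_[p])) z := by
    funext k
    rw [PadicInt.mahlerTerm_apply, mahler_apply, smul_eq_mul, mul_comm]
    congr 1
    rw [fwdDiff_iter_eq_sum_shift, fwdDiff_iter_eq_sum_shift, Int.cast_sum]
    refine Finset.sum_congr rfl fun i _ => ?_
    simp only [zero_add, nsmul_eq_mul, mul_one, smul_eq_mul, zsmul_eq_mul,
      ContinuousMap.coe_mk, Int.cast_mul, Int.cast_natCast, hg]
  rw [h3]
  exact h2

theorem small {p : ℕ} [Fact p.Prime] {G : ℤ_[p] → ℤ_[p]} (hG : Continuous G) {g : ℕ → ℤ}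
    (hg : ∀ t : ℕ, G (t : ℤ_[p]) = (g t : ℤ_[p])) (hD : DD ((p : ℤ) ^ 2) g) (L : ℕ)
    (hL : ∀ t < L, (p : ℤ) ^ (2 * L) ∣ g t) (z : ℤ_[p]) :
    (p : ℤ_[p]) ^ (2 * L) ∣ G z := by
  refine dvd_of_hasSum (2 * L) (hasSum_eval hG hg z) fun k => ?_
  refine Dvd.dvd.mul_right ?_ _
  rw [PadicInt.pow_p_dvd_int_iff]
  by_cases hk : k < L
  · rw [fwdDiff_iter_eq_sum_shift]
    refine Finset.dvd_sum fun i hi => ?_
    rw [smul_eq_mul]
    refine Dvd.dvd.mul_left ?_ _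
    rw [Finset.mem_range] at hi
    have := hL i (by omega)
    simpa using this
  · have h1 := hD k 0
    rw [← pow_mul] at h1
    exact (pow_dvd_pow (p : ℤ) (by omega)).trans h1

/-- the class of the power series used in the division by `z - z₀` -/
def CC (p : ℕ) [Fact p.Prime] (n : ℕ) (h : ℤ_[p] → ℤ_[p]) : Prop :=
  ∃ Q : ℕ → (ℤ_[p])[X], (∀ k, (Q k).natDegree ≤ k) ∧
    ∀ z, HasSum (fun k => (p : ℤ_[p]) ^ (k + n) * (Q k).eval z) (h z)

theorem CC.dvd {p : ℕ} [Fact p.Prime] {n : ℕ} {h : ℤ_[p] → ℤ_[p]} (hh : CC p n h) (z : ℤ_[p]) :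
    (p : ℤ_[p]) ^ n ∣ h z := by
  obtain ⟨Q, _, hQ⟩ := hh
  refine dvd_of_hasSum n (hQ z) fun k => ?_
  exact Dvd.dvd.mul_right (pow_dvd_pow _ (by omega)) _

theorem factorial_dvd {p : ℕ} [hp : Fact p.Prime] (k : ℕ) :
    ((k.factorial : ℕ) : ℤ_[p]) ∣ (p : ℤ_[p]) ^ k := by
  obtain ⟨v, m, hm, hv⟩ := Nat.exists_eq_pow_mul_and_not_dvd (Nat.factorial_ne_zero k) p
    hp.out.ne_one
  have hvk : v ≤ k := by
    have h1 : v ≤ padicValNat p k.factorial :=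
      (padicValNat_dvd_iff_le (Nat.factorial_ne_zero k)).1 (by rw [hv]; exact Dvd.intro _ rfl)
    have h2 := sub_one_mul_padicValNat_factorial (p := p) k
    have h3 : 1 ≤ p - 1 := by have := hp.out.two_le; omega
    calc v ≤ padicValNat p k.factorial := h1
      _ ≤ (p - 1) * padicValNat p k.factorial := Nat.le_mul_of_pos_left _ h3
      _ ≤ k := by rw [h2]; exact Nat.sub_le _ _
  have hu : IsUnit (m : ℤ_[p]) := by
    rw [PadicInt.isUnit_iff]
    by_contra hne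
    have hlt : ‖(m : ℤ_[p])‖ < 1 := lt_of_le_of_ne (PadicInt.norm_le_one _) hne
    rw [PadicInt.norm_lt_one_iff_dvd] at hlt
    apply hm
    have h1 : (p : ℤ_[p]) ^ 1 ∣ ((m : ℤ) : ℤ_[p]) := by simpa using hlt
    rw [PadicInt.pow_p_dvd_int_iff] at h1
    have h2 : (p : ℤ) ∣ (m : ℤ) := by simpa using h1
    exact_mod_cast h2
  rw [hv]
  push_cast
  rw [hu.mul_right_dvd]
  exact pow_dvd_pow _ hvk

theorem choose_eq {p : ℕ} [Fact p.Prime] (z : ℤ_[p]) (k : ℕ) :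
    ((k.factorial : ℕ) : ℤ_[p]) * Ring.choose z k = (descPochhammer ℤ_[p] k).eval z := by
  have h := Ring.descPochhammer_eq_factorial_smul_choose z k
  rw [nsmul_eq_mul] at h
  rw [← h, ← descPochhammer_map (Int.castRingHom ℤ_[p]) k, eval_map, ← aeval_eq_smeval, aeval_def,
    algebraMap_int_eq]

theorem CC_zero {p : ℕ} [hp : Fact p.Prime] {G : ℤ_[p] → ℤ_[p]} (hG : Continuous G) {g : ℕ → ℤ}
    (hg : ∀ t : ℕ, G (t : ℤ_[p]) = (g t : ℤ_[p])) (hD : DD ((p : ℤ) ^ 2) g) : CC p 0 G := by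
  have hb : ∀ k : ℕ, ∃ b : ℤ_[p], (((fwdDiff 1)^[k] g 0 : ℤ) : ℤ_[p]) =
      (p : ℤ_[p]) ^ k * ((k.factorial : ℕ) : ℤ_[p]) * b := by
    intro k
    have h1 := hD k 0
    rw [← pow_mul] at h1
    have h2 : (p : ℤ_[p]) ^ (2 * k) ∣ (((fwdDiff 1)^[k] g 0 : ℤ) : ℤ_[p]) := by
      rw [PadicInt.pow_p_dvd_int_iff]
      exact h1
    have h3 : (p : ℤ_[p]) ^ k * ((k.factorial : ℕ) : ℤ_[p]) ∣ (p : ℤ_[p]) ^ (2 * k) := by
      rw [two_mul, pow_add]
      exact mul_dvd_mul_left _ (factorial_dvd k)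
    obtain ⟨b, hb⟩ := h3.trans h2
    exact ⟨b, hb⟩
  choose b hb using hb
  refine ⟨fun k => C (b k) * descPochhammer ℤ_[p] k, fun k => ?_, fun z => ?_⟩
  · refine (natDegree_C_mul_le _ _).trans ?_
    rw [descPochhammer_natDegree]
  · have h := hasSum_eval hG hg z
    convert! h using 1
    funext k
    rw [eval_mul, eval_C, ← choose_eq, hb k, add_zero]
    ring

theorem CC_step {p : ℕ} [hp : Fact p.Prime] {n : ℕ} {h : ℤ_[p] → ℤ_[p]} (hh : CC p n h)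
    {z₀ : ℤ_[p]} (h0 : h z₀ = 0) : ∃ h₁ : ℤ_[p] → ℤ_[p], CC p (n + 1) h₁ ∧
      ∀ z, h z = (z - z₀) * h₁ z := by
  obtain ⟨Q, hQd, hQ⟩ := hh
  set R : ℕ → (ℤ_[p])[X] := fun k => (Q (k + 1)) /ₘ (X - C z₀) with hR
  have hRe : ∀ k z, (Q (k + 1)).eval z - (Q (k + 1)).eval z₀ = (z - z₀) * (R k).eval z := by
    intro k z
    have h1 := modByMonic_add_div (Q (k + 1)) (X - C z₀)
    rw [modByMonic_X_sub_C_eq_C_eval] at h1
    have h2 := congrArg (eval z) h1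
    rw [eval_add, eval_C, eval_mul, eval_sub, eval_X, eval_C] at h2
    rw [← h2]
    simp only [hR]
    ring
  have hsum : ∀ z, Summable fun k => (p : ℤ_[p]) ^ (k + (n + 1)) * (R k).eval z := by
    intro z
    apply Summable.of_norm_bounded (g := fun k : ℕ => ((p : ℝ)⁻¹) ^ k)
    · apply summable_geometric_of_lt_one
      · positivity
      · apply inv_lt_one_of_one_lt₀
        exact_mod_cast hp.out.one_lt
    · intro k
      rw [norm_mul, norm_pow, PadicInt.norm_p]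
      have h1 : ‖(R k).eval z‖ ≤ 1 := PadicInt.norm_le_one _
      have h2 : ((p : ℝ)⁻¹) ^ (k + (n + 1)) ≤ ((p : ℝ)⁻¹) ^ k := by
        apply pow_le_pow_of_le_one
        · positivity
        · apply inv_le_one_of_one_le₀
          exact_mod_cast hp.out.one_lt.le
        · omega
      calc ((p : ℝ)⁻¹) ^ (k + (n + 1)) * ‖(R k).eval z‖ ≤ ((p : ℝ)⁻¹) ^ (k + (n + 1)) * 1 := by
            apply mul_le_mul_of_nonneg_left h1
            positivity
        _ ≤ ((p : ℝ)⁻¹) ^ k := by rw [mul_one]; exact h2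
  refine ⟨fun z => ∑' k, (p : ℤ_[p]) ^ (k + (n + 1)) * (R k).eval z, ⟨R, fun k => ?_, fun z => ?_⟩,
    fun z => ?_⟩
  · simp only [hR]
    rw [natDegree_divByMonic _ (monic_X_sub_C z₀), natDegree_X_sub_C]
    have := hQd (k + 1)
    omega
  · exact (hsum z).hasSum
  · have h1 := (hQ z).sub (hQ z₀)
    rw [h0, sub_zero] at h1
    have h2 := ((hsum z).hasSum).mul_left (z - z₀)
    have h3 : HasSum (fun k => (p : ℤ_[p]) ^ (k + n) * (Q k).eval z -
        (p : ℤ_[p]) ^ (k + n) * (Q k).eval z₀) ((z - z₀) *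
          ∑' k, (p : ℤ_[p]) ^ (k + (n + 1)) * (R k).eval z) := by
      rw [← hasSum_nat_add_iff' 1]
      have hQ0 : (Q 0).eval z = (Q 0).eval z₀ := by
        rw [eq_C_of_natDegree_le_zero (hQd 0), eval_C, eval_C]
      rw [Finset.sum_range_one, hQ0, sub_self, sub_zero]
      convert! h2 using 1
      funext k
      rw [← mul_sub, hRe]
      ring
    exact h1.unique h3

theorem CC_zeros {p : ℕ} [hp : Fact p.Prime] : ∀ (m n : ℕ) (h : ℤ_[p] → ℤ_[p]) (_ : CC p n h)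
    (S : Finset ℤ_[p]) (_ : S.card = m) (_ : ∀ z ∈ S, h z = 0) (z : ℤ_[p]),
    (p : ℤ_[p]) ^ (n + m) ∣ h z := by
  classical
  intro m
  induction m with
  | zero => intro n h hh S _ _ z; exact hh.dvd z
  | succ m ih =>
    intro n h hh S hS hz z
    have hne : S.Nonempty := by
      rw [← Finset.card_pos]
      omega
    obtain ⟨z₀, hz₀⟩ := hne
    obtain ⟨h₁, hh₁, he⟩ := CC_step hh (hz z₀ hz₀)
    have h1 := ih (n + 1) h₁ hh₁ (S.erase z₀) (by rw [Finset.card_erase_of_mem hz₀]; omega) (by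
      intro w hw
      rw [Finset.mem_erase] at hw
      have h2 := hz w hw.2
      rw [he w] at h2
      rcases mul_eq_zero.1 h2 with h3 | h3
      · exact absurd (sub_eq_zero.1 h3) hw.1
      · exact h3) z
    rw [he z]
    refine Dvd.dvd.mul_left ?_ _
    rwa [show n + (m + 1) = n + 1 + m by omega]

theorem zeros {p : ℕ} [Fact p.Prime] {G : ℤ_[p] → ℤ_[p]} (hG : Continuous G) {g : ℕ → ℤ}
    (hg : ∀ t : ℕ, G (t : ℤ_[p]) = (g t : ℤ_[p])) (hD : DD ((p : ℤ) ^ 2) g)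
    (S : Finset ℤ_[p]) (hS : ∀ z ∈ S, G z = 0) (z : ℤ_[p]) :
    (p : ℤ_[p]) ^ S.card ∣ G z := by
  have h := CC_zeros S.card 0 G (CC_zero hG hg hD) S rfl hS z
  rwa [zero_add] at h

end GamP
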