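import Pool.Agent.GamP.Defs2
import Pool.Agent.GamP.Zero

/-!
# Small values and zeros of the functions of the class `DR (p^2)`
-/

namespace GamP

open Finset Polynomial

open scoped fwdDiff

variable {p : ℕ} [Fact p.Prime]

theorem hasSum_eval2 {G : ℤ_[p] → ℤ_[p]} (hG : Continuous G) (z : ℤ_[p]) :
    HasSum (fun k => ((fwdDiff 1)^[k] (fun t : ℕ => G t) 0) * Ring.choose z k) (G z) := by
  have h := PadicInt.hasSum_mahler (p := p) (⟨G, hG⟩ : C(ℤ_[p], ℤ_[p]))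
  have h2 := ContinuousMap.hasSum_apply h z
  have h3 : (fun k => ((fwdDiff 1)^[k] (fun t : ℕ => G t) 0) * Ring.choose z k) =
      fun k => (PadicInt.mahlerTerm ((fwdDiff 1)^[k] (⟨G, hG⟩ : C(ℤ_[p], ℤ_[p])) 0) k :
        C(ℤ_[p], ℤ_[p])) z := by
    funext k
    rw [PadicInt.mahlerTerm_apply, mahler_apply, smul_eq_mul, mul_comm]
    congr 1
    rw [fwdDiff_iter_eq_sum_shift, fwdDiff_iter_eq_sum_shift]
    refine Finset.sum_congr rfl fun i _ => ?_
    simp only [zero_add, nsmul_eq_mul, mul_one, smul_eq_mul, zsmul_eq_mul,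
      ContinuousMap.coe_mk]
  rw [h3]
  exact h2

theorem small2 {G : ℤ_[p] → ℤ_[p]} (hG : Continuous G)
    (hD : DR ((p : ℤ_[p]) ^ 2) (fun t : ℕ => G t)) (L : ℕ)
    (hL : ∀ t < L, (p : ℤ_[p]) ^ (2 * L) ∣ G (t : ℤ_[p])) (z : ℤ_[p]) :
    (p : ℤ_[p]) ^ (2 * L) ∣ G z := by
  refine dvd_of_hasSum (2 * L) (hasSum_eval2 hG z) fun k => ?_
  refine Dvd.dvd.mul_right ?_ _
  by_cases hk : k < L
  · rw [fwdDiff_iter_eq_sum_shift]
    refine Finset.dvd_sum fun i hi => ?_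
    rw [zsmul_eq_mul]
    refine Dvd.dvd.mul_left ?_ _
    rw [Finset.mem_range] at hi
    have := hL i (by omega)
    simpa using this
  · have h1 := hD k 0
    rw [← pow_mul] at h1
    exact (pow_dvd_pow (p : ℤ_[p]) (by omega)).trans h1

theorem CC_zero2 {G : ℤ_[p] → ℤ_[p]} (hG : Continuous G)
    (hD : DR ((p : ℤ_[p]) ^ 2) (fun t : ℕ => G t)) : CC p 0 G := by
  have hb : ∀ k : ℕ, ∃ b : ℤ_[p], ((fwdDiff 1)^[k] (fun t : ℕ => G t) 0) =
      (p : ℤ_[p]) ^ k * ((k.factorial : ℕ) : ℤ_[p]) * b := by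
    intro k
    have h1 := hD k 0
    rw [← pow_mul] at h1
    have h3 : (p : ℤ_[p]) ^ k * ((k.factorial : ℕ) : ℤ_[p]) ∣ (p : ℤ_[p]) ^ (2 * k) := by
      rw [two_mul, pow_add]
      exact mul_dvd_mul_left _ (factorial_dvd k)
    obtain ⟨b, hb⟩ := h3.trans h1
    exact ⟨b, hb⟩
  choose b hb using hb
  refine ⟨fun k => C (b k) * descPochhammer ℤ_[p] k, fun k => ?_, fun z => ?_⟩
  · refine (natDegree_C_mul_le _ _).trans ?_
    rw [descPochhammer_natDegree]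
  · have h := hasSum_eval2 hG z
    convert! h using 1
    funext k
    rw [eval_mul, eval_C, ← choose_eq, hb k, add_zero]
    ring

theorem zeros2 {G : ℤ_[p] → ℤ_[p]} (hG : Continuous G)
    (hD : DR ((p : ℤ_[p]) ^ 2) (fun t : ℕ => G t))
    (S : Finset ℤ_[p]) (hS : ∀ z ∈ S, G z = 0) (z : ℤ_[p]) :
    (p : ℤ_[p]) ^ S.card ∣ G z := by
  have h := CC_zeros S.card 0 G (CC_zero2 hG hD) S rfl hS z
  rwa [zero_add] at h

end GamP
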