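import Pool.Agent.GamP.Diff2
import Pool.Agent.GamP.Zero2
import Pool.Agent.GamP.Mor
import Pool.Agent.GamP.Bin
import Pool.Agent.GamP.Block1
import Pool.Agent.GamP.Block2

/-!
# The auxiliary function `HG` on the disc `2 p^4 ℤ_p`
-/

namespace GamP

open Finset

variable {p : ℕ} [Fact p.Prime] {Γ : ℤ_[p] → ℤ_[p]}

theorem block_unit (c : ℤ_[p]) : (p : ℤ_[p]) ^ 4 ∣
    (∏ k ∈ (range (2 * p ^ 4 * p)).filter (fun k => ¬ p ∣ k), ((p : ℤ_[p]) * c + k)) - 1 := by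
  have hp : p.Prime := Fact.out
  set F : ℤ_[p] → ℤ_[p] := fun c =>
    (∏ k ∈ (range (2 * p ^ 4 * p)).filter (fun k => ¬ p ∣ k), ((p : ℤ_[p]) * c + k)) - 1 with hF
  have hFc : Continuous F := by
    rw [hF]
    refine Continuous.sub (continuous_finsetProd _ fun k _ => ?_) continuous_const
    fun_prop
  have hcl : IsClosed {c : ℤ_[p] | (p : ℤ_[p]) ^ 4 ∣ F c} :=
    (isClosed_dvd (p := p) 4).preimage hFc
  have hnat : Set.range (fun n : ℕ => (n : ℤ_[p])) ⊆ {c : ℤ_[p] | (p : ℤ_[p]) ^ 4 ∣ F c} := by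
    rintro _ ⟨n, rfl⟩
    have h1 := prod_block hp 4 p (p * n) (dvd_mul_right p n)
    have h2 := Int.cast_dvd_cast (α := ℤ_[p]) _ _ h1
    push_cast at h2
    exact h2
  have hd := PadicInt.denseRange_natCast (p := p)
  have h3 : closure (Set.range (fun n : ℕ => (n : ℤ_[p]))) ⊆ {c : ℤ_[p] | (p : ℤ_[p]) ^ 4 ∣ F c} :=
    hcl.closure_subset_iff.mpr hnat
  exact h3 (hd c)

theorem DR_gamma (h : IsMorita p Γ) (c : ℤ_[p]) :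
    DR ((p : ℤ_[p]) ^ 2) (fun t : ℕ => Γ (p * (2 * (p : ℤ_[p]) ^ 4 * (t : ℤ_[p]) + c))) := by
  have hp : p.Prime := Fact.out
  have hp0 : (p : ℤ_[p]) ≠ 0 := by exact_mod_cast hp.ne_zero
  set W : ℕ → ℤ_[p] := fun t => ∏ k ∈ (range (2 * p ^ 4 * p)).filter (fun k => ¬ p ∣ k),
    (((p : ℤ_[p]) * c + k) + ((p : ℤ_[p]) * (2 * p ^ 4)) * (t : ℤ_[p])) with hWdef
  have hdvd : ∀ t, (p : ℤ_[p]) ^ 4 ∣ W t - 1 := by
    intro t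
    have h1 := block_unit (p := p) (2 * (p : ℤ_[p]) ^ 4 * (t : ℤ_[p]) + c)
    have e : W t = ∏ k ∈ (range (2 * p ^ 4 * p)).filter (fun k => ¬ p ∣ k),
        ((p : ℤ_[p]) * (2 * (p : ℤ_[p]) ^ 4 * (t : ℤ_[p]) + c) + k) := by
      refine Finset.prod_congr rfl fun k _ => ?_
      ring
    rw [e]
    exact h1
  choose w hw using hdvd
  have hV : ∀ t, W t - 1 = (p : ℤ_[p]) ^ 2 * ((p : ℤ_[p]) ^ 2 * w t) := by
    intro t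
    rw [hw t]
    ring
  have hWD : DR (((p : ℤ_[p]) ^ 2) ^ 2) W := by
    refine DR.prod _ _ fun k _ => ?_
    refine DR.lin _ ⟨(p : ℤ_[p]) * 2, by ring⟩
  have hVD : DR ((p : ℤ_[p]) ^ 2) (fun t => (p : ℤ_[p]) ^ 2 * w t) :=
    DR.quot (pow_ne_zero 2 hp0) hWD hV
  refine DR.step (W := W) (V := fun t => (p : ℤ_[p]) ^ 2 * w t) ?_ hV hVD
  intro t
  have hb := h.block 1 (2 * p ^ 4) (2 * (p : ℤ_[p]) ^ 4 * (t : ℤ_[p]) + c)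
  have e0 : p * 1 * (2 * p ^ 4) = 2 * p ^ 4 * p := by ring
  rw [e0] at hb
  have e2 : ((-1 : ℤ_[p])) ^ (2 * p ^ 4 * p) = 1 := by
    rw [mul_assoc, pow_mul, neg_one_sq, one_pow]
  rw [e2, one_mul] at hb
  have e3 : ∏ k ∈ (range (2 * p ^ 4 * p)).filter (fun k => ¬ p ∣ k),
      ((p : ℤ_[p]) * (1 : ℕ) * (2 * (p : ℤ_[p]) ^ 4 * (t : ℤ_[p]) + c) + k) = W t := by
    refine Finset.prod_congr rfl fun k _ => ?_
    push_cast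
    ring
  rw [e3] at hb
  have e4 : (p : ℤ_[p]) * (1 : ℕ) * (2 * (p : ℤ_[p]) ^ 4 * (t : ℤ_[p]) + c + ((2 * p ^ 4 : ℕ) : ℤ_[p])) =
      p * (2 * (p : ℤ_[p]) ^ 4 * ((t + 1 : ℕ) : ℤ_[p]) + c) := by
    push_cast
    ring
  have e5 : (p : ℤ_[p]) * (1 : ℕ) * (2 * (p : ℤ_[p]) ^ 4 * (t : ℤ_[p]) + c) =
      p * (2 * (p : ℤ_[p]) ^ 4 * (t : ℤ_[p]) + c) := by
    push_cast
    ring
  rw [e4, e5] at hb
  rw [hb, mul_comm]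

theorem DR_ep (i : ℕ) :
    DR ((p : ℤ_[p]) ^ 2) (fun t : ℕ => ep p i (2 * (p : ℤ_[p]) ^ 4 * (t : ℤ_[p]))) := by
  have hp : p.Prime := Fact.out
  have h1 := DR.of_int (R := ℤ_[p]) (DD_ez hp i 0)
  push_cast at h1
  have e : (fun t : ℕ => ep p i (2 * (p : ℤ_[p]) ^ 4 * (t : ℤ_[p]))) =
      fun t : ℕ => ((ez p i (0 + 2 * p ^ 4 * t) : ℤ) : ℤ_[p]) := by
    funext t
    rw [← ep_nat]
    push_cast
    rw [zero_add]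
  rw [e]
  exact h1

theorem HG_cont (h : IsMorita p Γ) (c₁ : ℤ_[p]) (T₁ T₂ : ℕ) (c : Fin T₁ × Fin T₂ → ℤ) :
    Continuous (HG p Γ c₁ T₁ T₂ c) := by
  unfold HG
  have hΓ := h.1
  refine continuous_finsetSum _ fun i _ => ?_
  have h1 : Continuous fun z : ℤ_[p] => Γ (p * (z + c₁)) := hΓ.comp (by fun_prop)
  have h2 : Continuous fun z : ℤ_[p] => Γ (p * z) := hΓ.comp (by fun_prop)
  exact ((continuous_const.mul (ep_cont _)).mul (h1.pow _)).mul (h2.pow _)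

theorem HG_DR (h : IsMorita p Γ) (c₁ : ℤ_[p]) (T₁ T₂ : ℕ) (c : Fin T₁ × Fin T₂ → ℤ) :
    DR ((p : ℤ_[p]) ^ 2)
      (fun t : ℕ => HG p Γ c₁ T₁ T₂ c (2 * (p : ℤ_[p]) ^ 4 * (t : ℤ_[p]))) := by
  unfold HG
  refine DR.sum _ _ fun i _ => ?_
  refine DR.mul (DR.mul (DR.mul (DR.const _ _) (DR_ep _)) ?_) ?_
  · exact DR.pow (DR_gamma h c₁) _
  · have h1 := DR_gamma h 0
    simp only [add_zero] at h1
    exact DR.pow h1 _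

theorem HG_small (h : IsMorita p Γ) (c₁ : ℤ_[p]) (T₁ T₂ : ℕ) (c : Fin T₁ × Fin T₂ → ℤ) (L : ℕ)
    (hL : ∀ t < L, (p : ℤ_[p]) ^ (2 * L) ∣
      HG p Γ c₁ T₁ T₂ c (2 * (p : ℤ_[p]) ^ 4 * (t : ℤ_[p]))) (z : ℤ_[p]) :
    (p : ℤ_[p]) ^ (2 * L) ∣ HG p Γ c₁ T₁ T₂ c (2 * (p : ℤ_[p]) ^ 4 * z) := by
  refine small2 (G := fun z => HG p Γ c₁ T₁ T₂ c (2 * (p : ℤ_[p]) ^ 4 * z)) ?_
    (HG_DR h c₁ T₁ T₂ c) L hL z
  exact (HG_cont h c₁ T₁ T₂ c).comp (by fun_prop)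

theorem HG_zeros (h : IsMorita p Γ) (c₁ : ℤ_[p]) (T₁ T₂ : ℕ) (c : Fin T₁ × Fin T₂ → ℤ)
    (S : Finset ℤ_[p]) (hS : ∀ x ∈ S, HG p Γ c₁ T₁ T₂ c x = 0)
    (hS' : ∀ x ∈ S, ∃ z : ℤ_[p], x = 2 * (p : ℤ_[p]) ^ 4 * z) (z : ℤ_[p]) :
    (p : ℤ_[p]) ^ S.card ∣ HG p Γ c₁ T₁ T₂ c (2 * (p : ℤ_[p]) ^ 4 * z) := by
  classical
  choose! f hf using hS'
  have hinj : Set.InjOn f S := by
    intro x hx y hy hxy
    rw [hf x hx, hf y hy, hxy]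
  rw [← card_image_of_injOn hinj]
  refine zeros2 (G := fun z => HG p Γ c₁ T₁ T₂ c (2 * (p : ℤ_[p]) ^ 4 * z)) ?_
    (HG_DR h c₁ T₁ T₂ c) (S.image f) ?_ z
  · exact (HG_cont h c₁ T₁ T₂ c).comp (by fun_prop)
  · intro w hw
    rw [mem_image] at hw
    obtain ⟨x, hx, rfl⟩ := hw
    rw [← hf x hx]
    exact hS x hx

end GamP
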