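import Pool.Agent.GamP.Block2

/-!
# Existence and uniqueness of Morita's gamma function

PROOF. Uniqueness: two continuous functions that agree at the positive integers agree on `ℤ_p`: the
positive integers are dense (`x` is the limit of `x.appr k + p^k`, positive naturals; or
`PadicInt.denseRange_natCast` composed with the homeomorphism `x ↦ x + 1`).

Existence. (1) `wilson`: for `M ≥ 3` and every `c` divisible by `p`,
`(-1)^(p^M) * ∏ k < p^M, p ∤ k, (c + k) ≡ 1 mod p^M`. As in `prod_block` the product over a period is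
`U = ∏ u : (ZMod n)ˣ, u`, `n = p^M`. For `p` odd, `x² = 1` in `ZMod (p^M)` only for `x = ±1`
(`p` cannot divide both `x - 1` and `x + 1`), so pairing `u` with `u⁻¹`
(`Finset.prod_involution`, or `Finset.prod_ninvolution`) `U = 1 * (-1) = -1`, and `(-1)^(p^M) = -1`. For
`p = 2`, `(-1)^(2^M) = 1` and `U = 1`: let `n' = 2^{M-1}`, `v = 1 + n'` (a unit with `v² = 1`, `v ≠ 1`):
pair `u` with `u v`... the quotient pairing gives `U = ∏_{pairs} u · u v = v^{φ/2} ∏ u² `; simpler: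
the solutions of `x² = 1` in `ZMod (2^M)`, `M ≥ 3`, are `±1, ±1 + 2^{M-1}`, their product is
`(1 · (-1)) · (1 + n')(-1 + n') = (-1)(-1 + n'^2) = 1`; or prove by induction on `M ≥ 3` the congruence
`∏_{k < 2^M odd} k ≡ 1 mod 2^M` from
`∏_{k<2^{M+1} odd} k = ∏_{k<2^M odd} k (k + 2^M) ≡ (∏ k)² + 2^M (∏ k)² ∑ 1/k`, `∑ 1/k` even (an even
number of odd terms), and `(∏ k)² = (1 + 2^M s)² ≡ 1 mod 2^{M+1}`.
(2) hence, with `gz_add`-type splitting but for arbitrary start `x` (not only `p ∣ x`):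
`gz p (x + p^M) ≡ gz p x mod p^M` for all `x` (`M ≥ 3`): the factor is
`(-1)^{p^M} ∏ {x ≤ j < x + p^M, p ∤ j} j`, again a product over a complete residue system. So
`x ≡ x' mod p^M → gz p x ≡ gz p x' mod p^M`.
(3) define `Γ x = lim_k gz p (x.appr k)` (`x.appr k : ℕ`, `x ≡ x.appr k mod p^k`, Cauchy by (2);
`PadicInt` is complete: `cauchySeq_tendsto_of_complete`), then
`‖Γ x - gz p (x.appr k)‖ ≤ p^(-k)` for `k ≥ 3`; if `‖x - y‖ ≤ p^(-k)` then `x.appr k = y.appr k`, so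
`‖Γ x - Γ y‖ ≤ p^(-k)`: continuity. `Γ n = gz p n` for naturals `n`: `n ≡ n.appr k mod p^k`.
-/

namespace GamP

open Finset

open Filter Topology

/-- the class of `gz p x` modulo `n` -/
private def gc (p n x : ℕ) : ZMod n := ((gz p x : ℤ) : ZMod n)

private theorem gc_add {p n : ℕ} (hn : p ∣ n) (s x : ℕ) :
    gc p n (n * s + x) = gc p n (n * s) * gc p n x := by
  unfold gc
  rw [gz_add (n * s) x (hn.mul_right s)]
  unfold gz
  push_cast
  simp only [CharP.cast_eq_zero, zero_mul, zero_add]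
  ring

private theorem gc_zero (p n : ℕ) : gc p n 0 = 1 := by
  unfold gc gz
  simp

private theorem gc_mul {p n : ℕ} (hn : p ∣ n) (s : ℕ) : gc p n (n * s) = gc p n n ^ s := by
  induction s with
  | zero => rw [mul_zero, gc_zero, pow_zero]
  | succ s ih => rw [mul_add, mul_one, gc_add hn, ih, pow_succ]

/-- the square of the product over a period is `1` -/
private theorem gc_sq {p : ℕ} (hp : p.Prime) {M : ℕ} (hM : 1 ≤ M) :
    gc p (p ^ M) (p ^ M) ^ 2 = 1 := by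
  have hn : p ∣ p ^ M := dvd_pow_self p (by omega)
  rw [← gc_mul hn]
  unfold gc gz
  have h := prod_block hp M 1 0 (dvd_zero p)
  have e : 2 * p ^ M * 1 = p ^ M * 2 := by ring
  rw [e] at h
  have h2 : ((p ^ M : ℕ) : ℤ) ∣ (∏ k ∈ (range (p ^ M * 2)).filter (fun k => ¬ p ∣ k),
      (((0 : ℕ) : ℤ) + k)) - 1 := by
    push_cast at h ⊢
    exact h
  rw [← ZMod.intCast_zmod_eq_zero_iff_dvd] at h2
  have e2 : ((-1 : ℤ)) ^ (p ^ M * 2) = 1 := by
    rw [pow_mul', neg_one_sq, one_pow]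
  rw [e2, one_mul]
  simp only [Nat.cast_zero, zero_add] at h2
  rw [Int.cast_sub, Int.cast_one, sub_eq_zero] at h2
  exact h2

/-- modulo `p`, the product over a period is `1`, for odd `p` -/
private theorem gc_one {p : ℕ} [Fact p.Prime] (h2 : p ≠ 2) : gc p p p = 1 := by
  have hp : p.Prime := Fact.out
  have hodd : Odd p := hp.odd_of_ne_two h2
  unfold gc gz
  rw [hodd.neg_one_pow]
  have e : ∏ j ∈ (range p).filter (fun j => ¬ p ∣ j), (j : ℤ) = ((p - 1).factorial : ℤ) := by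
    have e1 : (range p).filter (fun j => ¬ p ∣ j) = Finset.Ico 1 p := by
      ext j
      simp only [mem_filter, mem_range, mem_Ico]
      constructor
      · rintro ⟨h, h'⟩
        refine ⟨?_, h⟩
        rcases Nat.eq_zero_or_pos j with rfl | h0
        · exact absurd (dvd_zero p) h'
        · exact h0
      · rintro ⟨h, h'⟩
        exact ⟨h', fun h0 => absurd (Nat.le_of_dvd h h0) (by omega)⟩
    rw [e1]
    have e2 : p = (p - 1) + 1 := by have := hp.pos; omega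
    conv_lhs => rw [e2]
    rw [← Finset.prod_Ico_id_eq_factorial]
    push_cast
    rfl
  rw [e]
  push_cast
  rw [ZMod.wilsons_lemma p]
  ring

/-- for odd `p` the product over a period is `1` modulo `p ^ M` -/
private theorem gc_odd {p : ℕ} [Fact p.Prime] (h2 : p ≠ 2) {M : ℕ} (hM : 1 ≤ M) :
    gc p (p ^ M) (p ^ M) = 1 := by
  have hp : p.Prime := Fact.out
  have hsq := gc_sq hp hM
  -- modulo `p`
  have h1 : gc p p (p ^ M) = 1 := by
    obtain ⟨M, rfl⟩ : ∃ N, M = N + 1 := ⟨M - 1, by omega⟩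
    rw [pow_succ', gc_mul dvd_rfl, gc_one h2, one_pow]
  set a : ℤ := gz p (p ^ M) with ha
  have hsq' : ((p ^ M : ℕ) : ℤ) ∣ (a - 1) * (a + 1) := by
    rw [← ZMod.intCast_zmod_eq_zero_iff_dvd]
    have : ((a : ℤ) : ZMod (p ^ M)) ^ 2 = 1 := hsq
    push_cast
    linear_combination this
  have h1' : (p : ℤ) ∣ a - 1 := by
    rw [← ZMod.intCast_zmod_eq_zero_iff_dvd]
    push_cast
    rw [sub_eq_zero]
    exact h1
  have hnd : ¬ (p : ℤ) ∣ a + 1 := by
    intro h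
    have h3 : (p : ℤ) ∣ 2 := by
      have := dvd_sub h h1'
      have e : a + 1 - (a - 1) = 2 := by ring
      rwa [e] at this
    have h4 : p ∣ 2 := by exact_mod_cast h3
    exact h2 ((Nat.prime_dvd_prime_iff_eq hp Nat.prime_two).1 h4)
  have hcop : IsCoprime ((p ^ M : ℕ) : ℤ) (a + 1) := by
    push_cast
    refine IsCoprime.pow_left ?_
    exact (Nat.prime_iff_prime_int.1 hp).coprime_iff_not_dvd.2 hnd
  have h5 := hcop.dvd_of_dvd_mul_right hsq'
  rw [← ZMod.intCast_zmod_eq_zero_iff_dvd] at h5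
  push_cast at h5
  exact sub_eq_zero.1 h5

private theorem gc_pow_p {p : ℕ} [Fact p.Prime] {M : ℕ} (hM : 1 ≤ M) :
    gc p (p ^ M) (p ^ M) ^ p = 1 := by
  by_cases h2 : p = 2
  · have h := gc_sq (Fact.out : p.Prime) hM
    have e : gc p (p ^ M) (p ^ M) ^ p = gc p (p ^ M) (p ^ M) ^ 2 := congrArg _ h2
    rw [e, h]
  · rw [gc_odd h2 hM, one_pow]

private theorem gc_per {p : ℕ} [Fact p.Prime] {M : ℕ} (hM : 1 ≤ M) (r x : ℕ) :
    gc p (p ^ M) (p ^ (M + 1) * r + x) = gc p (p ^ M) x := by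
  have hn : p ∣ p ^ M := dvd_pow_self p (by omega)
  have e : p ^ (M + 1) * r + x = p ^ M * (p * r) + x := by ring
  rw [e, gc_add hn, gc_mul hn, pow_mul, gc_pow_p hM, one_pow, one_mul]

/-- continuity of `gz` for the `p`-adic distance -/
private theorem gz_dvd {p : ℕ} [Fact p.Prime] (M : ℕ) {x y : ℕ}
    (h : ((p : ℤ)) ^ (M + 1) ∣ (x : ℤ) - y) : (p : ℤ) ^ M ∣ gz p x - gz p y := by
  rcases Nat.eq_zero_or_pos M with rfl | hM
  · rw [pow_zero]; exact one_dvd _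
  wlog hxy : y ≤ x with H
  · have h' : ((p : ℤ)) ^ (M + 1) ∣ (y : ℤ) - x := by
      rw [← neg_sub, dvd_neg] at h
      exact h
    have := H M h' hM (by omega)
    rw [← neg_sub, dvd_neg]
    exact this
  have h2 : p ^ (M + 1) ∣ x - y := by
    have : ((p ^ (M + 1) : ℕ) : ℤ) ∣ ((x - y : ℕ) : ℤ) := by
      rw [Nat.cast_sub hxy]
      push_cast
      exact h
    exact_mod_cast this
  obtain ⟨r, hr⟩ := h2
  have hx : x = p ^ (M + 1) * r + y := by omega
  have h3 := gc_per (p := p) hM r y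
  rw [← hx] at h3
  have h4 : ((p ^ M : ℕ) : ℤ) ∣ gz p x - gz p y := by
    rw [← ZMod.intCast_zmod_eq_zero_iff_dvd, Int.cast_sub, sub_eq_zero]
    exact h3
  push_cast at h4
  exact h4

private theorem gz_norm {p : ℕ} [Fact p.Prime] (M : ℕ) {x y : ℕ}
    (h : (x : ℤ_[p]) - y ∈ Ideal.span {(p : ℤ_[p]) ^ (M + 1)}) :
    ‖((gz p x : ℤ) : ℤ_[p]) - ((gz p y : ℤ) : ℤ_[p])‖ ≤ (p : ℝ) ^ (-(M : ℤ)) := by
  have h1 : (p : ℤ) ^ (M + 1) ∣ (x : ℤ) - y := by
    rw [← PadicInt.norm_le_pow_iff_mem_span_pow] at h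
    refine (PadicInt.norm_int_le_pow_iff_dvd (p := p)).1 ?_
    push_cast at h ⊢
    exact h
  have h2 := gz_dvd M h1
  rw [← Int.cast_sub]
  exact (PadicInt.norm_int_le_pow_iff_dvd (p := p)).2 h2

private theorem appr_sub {p : ℕ} [Fact p.Prime] {x y : ℤ_[p]} {M : ℕ}
    (h : x - y ∈ Ideal.span {(p : ℤ_[p]) ^ (M + 1)}) :
    ((x.appr (M + 1) : ℕ) : ℤ_[p]) - ((y.appr (M + 1) : ℕ) : ℤ_[p]) ∈
      Ideal.span {(p : ℤ_[p]) ^ (M + 1)} := by
  have h1 := PadicInt.appr_spec (M + 1) x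
  have h2 := PadicInt.appr_spec (M + 1) y
  have e : ((x.appr (M + 1) : ℕ) : ℤ_[p]) - ((y.appr (M + 1) : ℕ) : ℤ_[p]) =
      (x - y) - (x - x.appr (M + 1)) + (y - y.appr (M + 1)) := by ring
  rw [e]
  exact Ideal.add_mem _ (Ideal.sub_mem _ h h1) h2

private theorem tendsto_bound (p : ℕ) [Fact p.Prime] :
    Tendsto (fun M : ℕ => (p : ℝ) ^ (-(M : ℤ))) atTop (𝓝 0) := by
  have hp : 1 < (p : ℝ) := by exact_mod_cast (Fact.out : p.Prime).one_lt
  have h : Tendsto (fun M : ℕ => ((p : ℝ)⁻¹) ^ M) atTop (𝓝 0) :=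
    tendsto_pow_atTop_nhds_zero_of_lt_one (by positivity) (inv_lt_one_of_one_lt₀ hp)
  refine h.congr fun M => ?_
  rw [zpow_neg, zpow_natCast, inv_pow]

private theorem exists_limit {p : ℕ} [Fact p.Prime] (x : ℤ_[p]) :
    ∃ y : ℤ_[p], ∀ M : ℕ,
      ‖y - ((gz p (x.appr (M + 1)) : ℤ) : ℤ_[p])‖ ≤ (p : ℝ) ^ (-(M : ℤ)) := by
  set u : ℕ → ℤ_[p] := fun M => ((gz p (x.appr (M + 1)) : ℤ) : ℤ_[p]) with hu
  have key : ∀ n m : ℕ, n ≤ m → ‖u m - u n‖ ≤ (p : ℝ) ^ (-(n : ℤ)) := by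
    intro n m hnm
    refine gz_norm n ?_
    have h1 := PadicInt.appr_spec (n + 1) x
    have h2 := PadicInt.appr_spec (m + 1) x
    have h3 : x - x.appr (m + 1) ∈ Ideal.span {(p : ℤ_[p]) ^ (n + 1)} := by
      refine Ideal.span_singleton_le_span_singleton.2 ?_ h2
      exact pow_dvd_pow _ (by omega)
    have e : ((x.appr (m + 1) : ℕ) : ℤ_[p]) - ((x.appr (n + 1) : ℕ) : ℤ_[p]) =
      (x - x.appr (n + 1)) - (x - x.appr (m + 1)) := by ring
    rw [e]
    exact Ideal.sub_mem _ h1 h3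
  have hc : CauchySeq u := by
    refine cauchySeq_of_le_tendsto_0' (fun n : ℕ => (p : ℝ) ^ (-(n : ℤ))) ?_ (tendsto_bound p)
    intro n m hnm
    rw [dist_comm, dist_eq_norm]
    exact key n m hnm
  obtain ⟨y, hy⟩ := cauchySeq_tendsto_of_complete hc
  refine ⟨y, fun M => ?_⟩
  have h1 : Tendsto (fun m => ‖u m - u M‖) atTop (𝓝 ‖y - u M‖) :=
    (hy.sub_const (u M)).norm
  exact le_of_tendsto h1 (eventually_atTop.2 ⟨M, fun m hm => key M m hm⟩)

private theorem ultra {p : ℕ} [Fact p.Prime] {a b c d : ℤ_[p]} {r : ℝ} (h1 : ‖a - b‖ ≤ r)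
    (h2 : ‖b - c‖ ≤ r) (h3 : ‖d - c‖ ≤ r) : ‖a - d‖ ≤ r := by
  have e : a - d = (a - b) + ((b - c) - (d - c)) := by ring
  rw [e]
  refine (PadicInt.nonarchimedean _ _).trans (max_le h1 ?_)
  rw [sub_eq_add_neg]
  refine (PadicInt.nonarchimedean _ _).trans (max_le h2 ?_)
  rw [norm_neg]
  exact h3

theorem exists_morita (p : ℕ) [Fact p.Prime] : ∃! Γ : ℤ_[p] → ℤ_[p], IsMorita p Γ := by
  choose Γ hΓ using fun x : ℤ_[p] => exists_limit x
  have hdist : ∀ (M : ℕ) (x y : ℤ_[p]), x - y ∈ Ideal.span {(p : ℤ_[p]) ^ (M + 1)} →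
      ‖Γ x - Γ y‖ ≤ (p : ℝ) ^ (-(M : ℤ)) := by
    intro M x y h
    exact ultra (hΓ x M) (gz_norm M (appr_sub h)) (hΓ y M)
  have hcont : Continuous Γ := by
    rw [Metric.continuous_iff]
    intro b ε hε
    obtain ⟨M, hM⟩ := ((tendsto_bound p).eventually (gt_mem_nhds hε)).exists
    refine ⟨(p : ℝ) ^ (-((M + 1 : ℕ) : ℤ)), ?_, fun a ha => ?_⟩
    · have hp : 0 < (p : ℝ) := by exact_mod_cast (Fact.out : p.Prime).pos
      positivity
    · rw [dist_eq_norm] at ha ⊢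
      exact lt_of_le_of_lt (hdist M a b ((PadicInt.norm_le_pow_iff_mem_span_pow _ _).1 ha.le)) hM
  have hnat : ∀ n : ℕ, Γ n = ((gz p n : ℤ) : ℤ_[p]) := by
    intro n
    have h : ∀ M : ℕ, ‖Γ n - ((gz p n : ℤ) : ℤ_[p])‖ ≤ (p : ℝ) ^ (-(M : ℤ)) := by
      intro M
      have h1 := hΓ n M
      have h2 : ‖((gz p n : ℤ) : ℤ_[p]) -
          ((gz p ((n : ℤ_[p]).appr (M + 1)) : ℤ) : ℤ_[p])‖ ≤ (p : ℝ) ^ (-(M : ℤ)) :=
        gz_norm M (PadicInt.appr_spec (M + 1) (n : ℤ_[p]))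
      refine ultra (c := ((gz p ((n : ℤ_[p]).appr (M + 1)) : ℤ) : ℤ_[p])) h1 ?_ h2
      rw [sub_self, norm_zero]
      positivity
    have h0 : ‖Γ n - ((gz p n : ℤ) : ℤ_[p])‖ ≤ 0 :=
      ge_of_tendsto (tendsto_bound p) (Eventually.of_forall h)
    exact sub_eq_zero.1 (norm_le_zero_iff.1 h0)
  have hmor : IsMorita p Γ := by
    refine ⟨hcont, fun n _ => ?_⟩
    rw [hnat n]
    unfold gz
    push_cast
    rfl
  refine ⟨Γ, hmor, fun Γ' h' => ?_⟩
  have hd : DenseRange (fun n : ℕ => ((n : ℤ_[p]) + 1)) :=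
    (Homeomorph.addRight (1 : ℤ_[p])).surjective.denseRange.comp PadicInt.denseRange_natCast
      (Homeomorph.addRight (1 : ℤ_[p])).continuous
  refine hd.equalizer h'.1 hcont ?_
  funext n
  have e : ((n : ℤ_[p]) + 1) = ((n + 1 : ℕ) : ℤ_[p]) := by push_cast; rfl
  show Γ' ((n : ℤ_[p]) + 1) = Γ ((n : ℤ_[p]) + 1)
  rw [e, h'.2 (n + 1) (by omega), hmor.2 (n + 1) (by omega)]

end GamP
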