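import Pool.Agent.GamP.Defs

/-!
# The block products have a large common factor (no `n log n` growth of the ratio)
-/

namespace GamP

open Finset

theorem fact_dvd (β α t : ℕ) : t.factorial ∣ β ^ t * ∏ i ∈ range t, (α + β * i) := by
  rw [Nat.dvd_iff_prime_pow_dvd_dvd]
  intro l k hl hk
  by_cases hlβ : l ∣ β
  · have : Fact l.Prime := ⟨hl⟩
    have hkt : k ≤ t := ((padicValNat_dvd_iff_le (p := l) (Nat.factorial_ne_zero t)).1 hk).trans
      (padicValNat_factorial_le (p := l) t)
    refine Dvd.dvd.mul_right ?_ _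
    exact (pow_dvd_pow l hkt).trans (pow_dvd_pow_of_dvd hlβ t)
  · refine Dvd.dvd.mul_left ?_ _
    have hcop : Nat.Coprime β (l ^ k) := by
      apply Nat.Coprime.pow_right
      exact ((Nat.Prime.coprime_iff_not_dvd hl).2 hlβ).symm
    set u := ZMod.unitOfCoprime β hcop with hu
    have hu1 : ((u : ZMod (l ^ k))) = (β : ZMod (l ^ k)) := ZMod.coe_unitOfCoprime β hcop
    have : NeZero (l ^ k) := ⟨pow_ne_zero _ hl.ne_zero⟩
    set γ : ℕ := ((u⁻¹ : (ZMod (l ^ k))ˣ) : ZMod (l ^ k)).val with hγ
    have hγ1 : (β : ZMod (l ^ k)) * (γ : ZMod (l ^ k)) = 1 := by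
      rw [hγ, ZMod.natCast_zmod_val, ← hu1]
      exact Units.mul_inv u
    have h1 : l ^ k ∣ (γ * α).ascFactorial t :=
      hk.trans (Nat.factorial_dvd_ascFactorial _ _)
    rw [Nat.ascFactorial_eq_prod_range] at h1
    rw [← ZMod.natCast_eq_zero_iff] at h1 ⊢
    push_cast at h1 ⊢
    have h2 : ∏ i ∈ range t, ((α : ZMod (l ^ k)) + β * i) =
        ∏ i ∈ range t, ((β : ZMod (l ^ k)) * (γ * α + i)) := by
      refine Finset.prod_congr rfl fun i _ => ?_
      rw [mul_add, ← mul_assoc, hγ1, one_mul]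
    rw [h2, Finset.prod_mul_distrib, h1, mul_zero]

theorem prod_blocks {M : Type*} [CommMonoid M] (a n : ℕ) (f : ℕ → M) :
    ∏ k ∈ range (a * n), f k = ∏ i ∈ range n, ∏ j ∈ range a, f (a * i + j) := by
  induction n with
  | zero => simp
  | succ n ih => rw [Nat.mul_succ, Finset.prod_range_add, Finset.prod_range_succ, ih]

theorem prod_filter_blocks {M : Type*} [CommMonoid M] (p m n : ℕ) (f : ℕ → M) :
    ∏ k ∈ (range (p * m * n)).filter (fun k => ¬ p ∣ k), f k =
      ∏ j ∈ (range (p * m)).filter (fun j => ¬ p ∣ j), ∏ i ∈ range n, f (p * m * i + j) := by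
  rw [Finset.prod_filter, prod_blocks, Finset.prod_comm, Finset.prod_filter]
  refine Finset.prod_congr rfl fun j _ => ?_
  have h1 : ∀ i, p ∣ p * m * i + j ↔ p ∣ j := fun i =>
    (Nat.dvd_add_right (Dvd.intro (m * i) (by ring)))
  by_cases hj : p ∣ j
  · rw [if_neg (not_not.2 hj)]
    refine Finset.prod_eq_one fun i _ => ?_
    rw [if_neg (not_not.2 ((h1 i).2 hj))]
  · rw [if_pos hj]
    refine Finset.prod_congr rfl fun i _ => ?_
    rw [if_pos (fun h => hj ((h1 i).1 h))]

theorem card_J {p : ℕ} (hp : p.Prime) (m : ℕ) :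
    ((range (p * m)).filter (fun j => ¬ p ∣ j)).card = (p - 1) * m := by
  have h : ((range (p * m)).filter (fun j => ¬ p ∣ j)).card =
      ∑ k ∈ range (p * m), if ¬ p ∣ k then 1 else 0 := by
    rw [Finset.card_filter]
  rw [h]
  induction m with
  | zero => simp
  | succ m ih =>
    rw [Nat.mul_succ, Finset.sum_range_add, ih (by rw [Finset.card_filter]), Nat.mul_succ]
    congr 1
    have h1 : ∀ j ∈ range p, (if ¬ p ∣ p * m + j then 1 else 0) = if j = 0 then 0 else 1 := by
      intro j hj
      rw [Finset.mem_range] at hj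
      have hdd : p ∣ p * m + j ↔ p ∣ j := Nat.dvd_add_right (Dvd.intro m rfl)
      by_cases hj0 : j = 0
      · subst hj0
        simp
      · rw [if_neg hj0, if_pos]
        intro hd
        exact absurd (Nat.le_of_dvd (Nat.pos_of_ne_zero hj0) (hdd.1 hd)) (by omega)
    rw [Finset.sum_congr rfl h1]
    have h2 : p = (p - 1) + 1 := by have := hp.two_le; omega
    rw [h2, Finset.sum_range_succ', if_pos rfl, add_zero, Nat.add_sub_cancel]
    simp

theorem HH {p m α β n : ℕ} (hp : p.Prime) (hα : α < β) (hm : 0 < m) :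
    ∃ H : ℕ, 0 < H ∧ H ≤ (2 * p * m * β) ^ (2 * n * ((p - 1) * m)) ∧
      (p * m * β) ^ (n * ((p - 1) * m)) * rt p m α β n = H * n.factorial ^ ((p - 1) * m) := by
  set J := (range (p * m)).filter (fun j => ¬ p ∣ j) with hJ
  have hcard : J.card = (p - 1) * m := card_J hp m
  have hrt : rt p m α β n = ∏ j ∈ J, ∏ i ∈ range n, ((p * m * α + j * β) + (p * m * β) * i) := by
    rw [rt, prod_filter_blocks p m n]
    refine Finset.prod_congr rfl fun j _ => Finset.prod_congr rfl fun i _ => ?_
    ring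
  have hq : ∀ j : ℕ, ∃ h : ℕ, (p * m * β) ^ n * ∏ i ∈ range n, ((p * m * α + j * β) +
      (p * m * β) * i) = n.factorial * h := fun j => fact_dvd (p * m * β) (p * m * α + j * β) n
  choose h hh using hq
  have hβ : 0 < β := by omega
  have hc : 0 < p * m * β := by have := hp.pos; positivity
  have hbound : ∀ j ∈ J, h j ≤ (2 * p * m * β) ^ (2 * n) := by
    intro j hj
    rw [hJ, Finset.mem_filter, Finset.mem_range] at hj
    have h1 : ∏ i ∈ range n, ((p * m * α + j * β) + (p * m * β) * i) ≤
        ∏ i ∈ range n, ((p * m * β) * (i + 2)) := by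
      refine Finset.prod_le_prod' fun i _ => ?_
      have h2 : p * m * α ≤ p * m * β := Nat.mul_le_mul_left _ hα.le
      have h3 : j * β ≤ p * m * β := Nat.mul_le_mul_right _ hj.1.le
      calc (p * m * α + j * β) + (p * m * β) * i ≤ (p * m * β + p * m * β) + (p * m * β) * i := by
            omega
        _ = (p * m * β) * (i + 2) := by ring
    have h4 : ∏ i ∈ range n, ((p * m * β) * (i + 2)) = (p * m * β) ^ n * (n + 1).factorial := by
      rw [Finset.prod_mul_distrib, Finset.prod_const, Finset.card_range]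
      congr 1
      clear h1 hh hrt
      induction n with
      | zero => simp
      | succ n ih => rw [Finset.prod_range_succ, ih, Nat.factorial_succ (n + 1)]; ring
    have h5 : n.factorial * h j ≤ n.factorial * (2 * p * m * β) ^ (2 * n) := by
      rw [← hh j]
      calc (p * m * β) ^ n * ∏ i ∈ range n, ((p * m * α + j * β) + (p * m * β) * i)
          ≤ (p * m * β) ^ n * ((p * m * β) ^ n * (n + 1).factorial) :=
            Nat.mul_le_mul_left _ (h1.trans h4.le)
        _ = n.factorial * ((p * m * β) ^ (2 * n) * (n + 1)) := by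
            rw [Nat.factorial_succ, two_mul, pow_add]; ring
        _ ≤ n.factorial * ((p * m * β) ^ (2 * n) * 2 ^ (2 * n)) := by
            refine Nat.mul_le_mul_left _ (Nat.mul_le_mul_left _ ?_)
            calc n + 1 ≤ 2 ^ n := Nat.lt_two_pow_self
              _ ≤ 2 ^ (2 * n) := Nat.pow_le_pow_right (by norm_num) (by omega)
        _ = n.factorial * (2 * p * m * β) ^ (2 * n) := by rw [← mul_pow]; ring_nf
    exact Nat.le_of_mul_le_mul_left h5 (Nat.factorial_pos n)
  have hmain : (p * m * β) ^ (n * ((p - 1) * m)) * rt p m α β n =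
      (∏ j ∈ J, h j) * n.factorial ^ ((p - 1) * m) := by
    rw [hrt, pow_mul, ← hcard, ← Finset.prod_const, ← Finset.prod_mul_distrib,
      Finset.prod_congr rfl fun j _ => hh j, Finset.prod_mul_distrib, Finset.prod_const, mul_comm]
  refine ⟨∏ j ∈ J, h j, ?_, ?_, hmain⟩
  · rcases Nat.eq_zero_or_pos (∏ j ∈ J, h j) with h0 | h0
    · exfalso
      rw [h0, zero_mul] at hmain
      have h1 : 0 < rt p m α β n := by
        rw [rt]
        refine Finset.prod_pos fun k hk => ?_
        rw [Finset.mem_filter] at hk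
        have hk0 : 0 < k := by
          rcases Nat.eq_zero_or_pos k with h | h
          · exact absurd (h ▸ dvd_zero p) hk.2
          · exact h
        positivity
      have h2 : 0 < (p * m * β) ^ (n * ((p - 1) * m)) := by positivity
      have := Nat.mul_pos h2 h1
      omega
    · exact h0
  · calc ∏ j ∈ J, h j ≤ ∏ _j ∈ J, (2 * p * m * β) ^ (2 * n) := Finset.prod_le_prod' hbound
      _ = (2 * p * m * β) ^ (2 * n * ((p - 1) * m)) := by
        rw [Finset.prod_const, hcard, ← pow_mul]

theorem ratio {p m m' α β n : ℕ} (hp : p.Prime) (hα : α < β) (hm : 0 < m) (hm' : 0 < m') :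
    ∃ A B : ℕ, 0 < A ∧ 0 < B ∧ A ≤ (2 * p * (m * m') * β) ^ (12 * p * (m * m') * n) ∧
      B ≤ (2 * p * (m * m') * β) ^ (12 * p * (m * m') * n) ∧
      rt p m α β n ^ (4 * m') * B = rt p m' α β n ^ (4 * m) * A := by
  obtain ⟨H, hH0, hHb, hHe⟩ := HH (n := n) hp hα hm
  obtain ⟨H', hH0', hHb', hHe'⟩ := HH (n := n) hp hα hm'
  have hβ : 0 < β := by omega
  have hpp := hp.pos
  set c := 4 * (m * m') * n * (p - 1) with hc
  have hbase : ∀ a b : ℕ, 0 < a → 0 < b → 0 < 2 * p * a * β ∧ 2 * p * a * β ≤ 2 * p * (a * b) * β ∧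
      b ≤ 2 * p * (a * b) * β := by
    intro a b ha hb
    refine ⟨by positivity, ?_, ?_⟩
    · calc 2 * p * a * β = 2 * p * a * β * 1 := by ring
        _ ≤ 2 * p * a * β * b := Nat.mul_le_mul_left _ hb
        _ = 2 * p * (a * b) * β := by ring
    · calc b = b * 1 := by ring
        _ ≤ b * (2 * p * a * β) := Nat.mul_le_mul_left _ (by
            have : 0 < 2 * p * a * β := by positivity
            omega)
        _ = 2 * p * (a * b) * β := by ring
  have hgen : ∀ a b K : ℕ, 0 < a → 0 < b → K ≤ (2 * p * a * β) ^ (2 * n * ((p - 1) * a)) →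
      K ^ (4 * b) * b ^ (4 * (a * b) * n * (p - 1)) ≤
        (2 * p * (a * b) * β) ^ (12 * p * (a * b) * n) := by
    intro a b K ha hb hK
    obtain ⟨h1, h2, h3⟩ := hbase a b ha hb
    have h4 : 0 < 2 * p * (a * b) * β := lt_of_lt_of_le h1 h2
    calc K ^ (4 * b) * b ^ (4 * (a * b) * n * (p - 1))
        ≤ ((2 * p * (a * b) * β) ^ (2 * n * ((p - 1) * a))) ^ (4 * b) *
          (2 * p * (a * b) * β) ^ (4 * (a * b) * n * (p - 1)) := by
          refine Nat.mul_le_mul (Nat.pow_le_pow_left (hK.trans (Nat.pow_le_pow_left h2 _)) _)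
            (Nat.pow_le_pow_left h3 _)
      _ = (2 * p * (a * b) * β) ^ (12 * (p - 1) * (a * b) * n) := by
          rw [← pow_mul, ← pow_add]
          congr 1
          ring
      _ ≤ (2 * p * (a * b) * β) ^ (12 * p * (a * b) * n) := by
          refine Nat.pow_le_pow_right h4 ?_
          exact Nat.mul_le_mul_right _ (Nat.mul_le_mul_right _ (Nat.mul_le_mul_left _ (Nat.sub_le _ _)))
  refine ⟨H ^ (4 * m') * m' ^ c, H' ^ (4 * m) * m ^ c, by positivity, by positivity,
    hgen m m' H hm hm' hHb, ?_, ?_⟩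
  · have h := hgen m' m H' hm' hm hHb'
    rwa [mul_comm m' m] at h
  · have e1 : rt p m α β n ^ (4 * m') * (p * m * β) ^ c =
        H ^ (4 * m') * n.factorial ^ (4 * (p - 1) * (m * m')) := by
      have h := congrArg (fun x => x ^ (4 * m')) hHe
      simp only [mul_pow, ← pow_mul] at h
      calc rt p m α β n ^ (4 * m') * (p * m * β) ^ c
          = (p * m * β) ^ (n * ((p - 1) * m) * (4 * m')) * rt p m α β n ^ (4 * m') := by
            rw [mul_comm, hc]; congr 2; ring
        _ = H ^ (4 * m') * n.factorial ^ (4 * (p - 1) * (m * m')) := by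
            rw [mul_pow, mul_pow, h]; congr 2; ring
    have e2 : rt p m' α β n ^ (4 * m) * (p * m' * β) ^ c =
        H' ^ (4 * m) * n.factorial ^ (4 * (p - 1) * (m * m')) := by
      have h := congrArg (fun x => x ^ (4 * m)) hHe'
      simp only [mul_pow, ← pow_mul] at h
      calc rt p m' α β n ^ (4 * m) * (p * m' * β) ^ c
          = (p * m' * β) ^ (n * ((p - 1) * m') * (4 * m)) * rt p m' α β n ^ (4 * m) := by
            rw [mul_comm, hc]; congr 2; ring
        _ = H' ^ (4 * m) * n.factorial ^ (4 * (p - 1) * (m * m')) := by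
            rw [mul_pow, mul_pow, h]; congr 2; ring
    have hX : 0 < n.factorial ^ (4 * (p - 1) * (m * m')) * (p * β) ^ c := by
      have := Nat.factorial_pos n
      positivity
    apply Nat.eq_of_mul_eq_mul_right hX
    calc rt p m α β n ^ (4 * m') * (H' ^ (4 * m) * m ^ c) *
          (n.factorial ^ (4 * (p - 1) * (m * m')) * (p * β) ^ c)
        = rt p m α β n ^ (4 * m') * (H' ^ (4 * m) * n.factorial ^ (4 * (p - 1) * (m * m'))) *
          (m ^ c * (p * β) ^ c) := by ring
      _ = rt p m α β n ^ (4 * m') * (rt p m' α β n ^ (4 * m) * (p * m' * β) ^ c) *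
          (m ^ c * (p * β) ^ c) := by rw [e2]
      _ = rt p m' α β n ^ (4 * m) * (rt p m α β n ^ (4 * m') * (p * m * β) ^ c) *
          (m' ^ c * (p * β) ^ c) := by
          rw [← mul_pow, ← mul_pow, show m * (p * β) = p * m * β by ring,
            show m' * (p * β) = p * m' * β by ring]
          ring
      _ = rt p m' α β n ^ (4 * m) * (H ^ (4 * m') * n.factorial ^ (4 * (p - 1) * (m * m'))) *
          (m' ^ c * (p * β) ^ c) := by rw [e1]
      _ = rt p m' α β n ^ (4 * m) * (H ^ (4 * m') * m' ^ c) *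
          (n.factorial ^ (4 * (p - 1) * (m * m')) * (p * β) ^ c) := by ring

end GamP
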