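import Pool.Agent.GamP.Defs

/-!
# Numerical inequalities for the choice of the parameters
-/

namespace GamP

theorem num1 {p μ D lam N : ℕ} (hp : 2 ≤ p) (hμ : 1 ≤ μ) (hD : 1 ≤ D) (hlam : 1 ≤ lam)
    (hN : 1 ≤ N) (T₁ T₂ : ℕ) (hT₂ : T₂ = 288 * lam * D ^ 2) (hT₁ : T₁ = p * μ * N * T₂) :
    2 * (36 * lam * D * T₁) ^ 2 < (9 * lam * T₁ + 1) * (T₁ * T₂) := by
  have hT₂pos : 0 < T₂ := by rw [hT₂]; positivity
  have hT₁pos : 0 < T₁ := by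
    rw [hT₁]
    have : 0 < p := by omega
    positivity
  have h1 : 0 < T₁ * T₂ := Nat.mul_pos hT₁pos hT₂pos
  have h2 : 2 * (36 * lam * D * T₁) ^ 2 = 9 * lam * T₁ * (T₁ * T₂) := by
    rw [hT₂]; ring
  rw [h2, add_mul, one_mul]
  omega

/-- common facts -/
theorem base_facts {p μ D lam N : ℕ} (hp : 2 ≤ p) (hμ : 1 ≤ μ) (hD : 1 ≤ D) (hlam : 1 ≤ lam)
    (hN : 1 ≤ N) (T₁ T₂ : ℕ) (hT₂ : T₂ = 288 * lam * D ^ 2) (hT₁ : T₁ = p * μ * N * T₂) :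
    1 ≤ T₂ ∧ T₂ ≤ T₁ ∧ N * T₂ ≤ T₁ ∧ N ≤ T₁ ∧ 1 ≤ T₁ := by
  have hT₂pos : 1 ≤ T₂ := by rw [hT₂]; exact Nat.succ_le_of_lt (by positivity)
  have hp1 : 1 ≤ p * μ := Nat.mul_pos (by omega) hμ
  have h3 : N * T₂ ≤ T₁ := by
    rw [hT₁, mul_assoc (p * μ)]
    exact Nat.le_mul_of_pos_left _ hp1
  have h2 : T₂ ≤ N * T₂ := Nat.le_mul_of_pos_left _ hN
  have h4 : N ≤ N * T₂ := Nat.le_mul_of_pos_right _ hT₂pos
  exact ⟨hT₂pos, h2.trans h3, h3, h4.trans h3, hT₂pos.trans (h2.trans h3)⟩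

theorem num2 {p μ D lam N b Y : ℕ} (hp : 2 ≤ p) (hμ : 1 ≤ μ) (hD : 1 ≤ D) (hb : 1 ≤ b)
    (hlam : 2 * p * μ * b ≤ 2 ^ lam) (T₁ T₂ : ℕ) (hT₂ : T₂ = 288 * lam * D ^ 2)
    (hT₁ : T₁ = p * μ * N * T₂) (hN : (D + T₂) ^ 2 + 1 ≤ N) (hY : Y ≤ 2 ^ N) :
    (D + T₂).factorial * Y ^ T₂ * (T₁ * p ^ (9 * lam * T₁ + 1) * p ^ T₁ * b ^ (2 * T₁) * 2 ^ N *
      ((2 * p * μ * b) ^ (12 * p * μ * N)) ^ T₂) ^ D < p ^ (2 * (36 * lam * D * T₁)) := by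
  have hp1 : 1 ≤ p := by omega
  have hlam1 : 1 ≤ lam := by
    by_contra hc
    have h0 : lam = 0 := by omega
    rw [h0, pow_zero] at hlam
    have : 2 * 1 * 1 * 1 ≤ 2 * p * μ * b := by gcongr
    omega
  have hN1 : 1 ≤ N := by omega
  obtain ⟨f1, f2, f3, f4, f5⟩ := base_facts hp hμ hD hlam1 hN1 T₁ T₂ hT₂ hT₁
  -- (a)
  have a1 : ((2 * p * μ * b) ^ (12 * p * μ * N)) ^ T₂ ≤ 2 ^ (12 * lam * T₁) := by
    calc ((2 * p * μ * b) ^ (12 * p * μ * N)) ^ T₂ ≤ ((2 ^ lam) ^ (12 * p * μ * N)) ^ T₂ := by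
          gcongr
      _ = 2 ^ (12 * lam * T₁) := by
          rw [← pow_mul, ← pow_mul, hT₁]; congr 1; ring
  have a2 : p ^ T₁ * b ^ (2 * T₁) ≤ 2 ^ (2 * lam * T₁) := by
    have h1 : p * b ^ 2 ≤ (2 * p * μ * b) ^ 2 := by
      have : (2 * p * μ * b) ^ 2 = (p * b ^ 2) * (4 * p * μ ^ 2) := by ring
      rw [this]
      refine Nat.le_mul_of_pos_right _ (by positivity)
    calc p ^ T₁ * b ^ (2 * T₁) = (p * b ^ 2) ^ T₁ := by rw [mul_pow, ← pow_mul]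
      _ ≤ ((2 * p * μ * b) ^ 2) ^ T₁ := by gcongr
      _ ≤ ((2 ^ lam) ^ 2) ^ T₁ := by gcongr
      _ = 2 ^ (2 * lam * T₁) := by rw [← pow_mul, ← pow_mul]; congr 1; ring
  have a3 : T₁ ≤ 2 ^ T₁ := Nat.lt_two_pow_self.le
  have a4 : 2 ^ N ≤ 2 ^ T₁ := Nat.pow_le_pow_right (by norm_num) f4
  have hlT : T₁ ≤ lam * T₁ := Nat.le_mul_of_pos_left _ hlam1
  have hin : T₁ * p ^ (9 * lam * T₁ + 1) * p ^ T₁ * b ^ (2 * T₁) * 2 ^ N *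
      ((2 * p * μ * b) ^ (12 * p * μ * N)) ^ T₂ ≤ p ^ (9 * lam * T₁ + 1) * 2 ^ (16 * lam * T₁) := by
    calc T₁ * p ^ (9 * lam * T₁ + 1) * p ^ T₁ * b ^ (2 * T₁) * 2 ^ N *
          ((2 * p * μ * b) ^ (12 * p * μ * N)) ^ T₂
        = p ^ (9 * lam * T₁ + 1) * (T₁ * (p ^ T₁ * b ^ (2 * T₁)) * 2 ^ N *
          ((2 * p * μ * b) ^ (12 * p * μ * N)) ^ T₂) := by ring
      _ ≤ p ^ (9 * lam * T₁ + 1) * (2 ^ T₁ * 2 ^ (2 * lam * T₁) * 2 ^ T₁ * 2 ^ (12 * lam * T₁)) := by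
          gcongr
      _ = p ^ (9 * lam * T₁ + 1) * 2 ^ (T₁ + 2 * lam * T₁ + T₁ + 12 * lam * T₁) := by
          rw [← pow_add, ← pow_add, ← pow_add]
      _ ≤ p ^ (9 * lam * T₁ + 1) * 2 ^ (16 * lam * T₁) := by
          gcongr
          · norm_num
          · nlinarith
  have b1 : Y ^ T₂ ≤ 2 ^ T₁ := by
    calc Y ^ T₂ ≤ (2 ^ N) ^ T₂ := by gcongr
      _ = 2 ^ (N * T₂) := by rw [← pow_mul]
      _ ≤ 2 ^ T₁ := Nat.pow_le_pow_right (by norm_num) f3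
  have b2 : (D + T₂).factorial ≤ 2 ^ T₁ := by
    calc (D + T₂).factorial ≤ (D + T₂) ^ (D + T₂) := Nat.factorial_le_pow _
      _ ≤ (2 ^ (D + T₂)) ^ (D + T₂) := by gcongr; exact Nat.lt_two_pow_self.le
      _ = 2 ^ ((D + T₂) ^ 2) := by rw [← pow_mul]; congr 1; ring
      _ ≤ 2 ^ T₁ := Nat.pow_le_pow_right (by norm_num) (by omega)
  have hDT : T₁ ≤ lam * D * T₁ := by
    have : 1 ≤ lam * D := Nat.mul_pos hlam1 hD
    exact Nat.le_mul_of_pos_left _ this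
  have hDD : D ≤ lam * D * T₁ := by
    have h1 : D ≤ lam * D := Nat.le_mul_of_pos_left _ hlam1
    exact h1.trans (Nat.le_mul_of_pos_right _ f5)
  calc (D + T₂).factorial * Y ^ T₂ * (T₁ * p ^ (9 * lam * T₁ + 1) * p ^ T₁ * b ^ (2 * T₁) * 2 ^ N *
        ((2 * p * μ * b) ^ (12 * p * μ * N)) ^ T₂) ^ D
      ≤ 2 ^ T₁ * 2 ^ T₁ * (p ^ (9 * lam * T₁ + 1) * 2 ^ (16 * lam * T₁)) ^ D := by
        gcongr
    _ = p ^ ((9 * lam * T₁ + 1) * D) * 2 ^ (T₁ + T₁ + 16 * lam * T₁ * D) := by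
        rw [mul_pow, ← pow_mul, ← pow_mul, pow_add, pow_add]; ring
    _ ≤ p ^ ((9 * lam * T₁ + 1) * D) * p ^ (T₁ + T₁ + 16 * lam * T₁ * D) := by
        gcongr
    _ = p ^ ((9 * lam * T₁ + 1) * D + (T₁ + T₁ + 16 * lam * T₁ * D)) := by rw [← pow_add]
    _ < p ^ (2 * (36 * lam * D * T₁)) := by
        apply Nat.pow_lt_pow_right (by omega)
        nlinarith

theorem num3_aux {p μ D lam N : ℕ} (hp : 2 ≤ p) (hμ : 1 ≤ μ) (hD : 1 ≤ D) (hlam : 1 ≤ lam)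
    (hN : 1 ≤ N) (T₁ T₂ : ℕ) (hT₂ : T₂ = 288 * lam * D ^ 2) (hT₁ : T₁ = p * μ * N * T₂) :
    T₁ * T₂ * p ^ (9 * lam * T₁ + 1 + T₁) ≤ 2 ^ (13 * p * lam * T₁) := by
  obtain ⟨f1, f2, f3, f4, f5⟩ := base_facts hp hμ hD hlam hN T₁ T₂ hT₂ hT₁
  have a3 : T₁ ≤ 2 ^ T₁ := Nat.lt_two_pow_self.le
  have hlT : T₁ ≤ lam * T₁ := Nat.le_mul_of_pos_left _ hlam
  have hpl : lam * T₁ ≤ p * (lam * T₁) := Nat.le_mul_of_pos_left _ (by omega)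
  calc T₁ * T₂ * p ^ (9 * lam * T₁ + 1 + T₁)
      ≤ 2 ^ T₁ * 2 ^ T₁ * (2 ^ p) ^ (9 * lam * T₁ + 1 + T₁) := by
        gcongr
        · exact f2.trans a3
        · exact Nat.lt_two_pow_self.le
    _ = 2 ^ (T₁ + T₁ + p * (9 * lam * T₁ + 1 + T₁)) := by
        rw [← pow_mul, ← pow_add, ← pow_add]
    _ ≤ 2 ^ (13 * p * lam * T₁) := by
        apply Nat.pow_le_pow_right (by norm_num)
        have h1 : p * 1 ≤ p * (lam * T₁) := Nat.mul_le_mul_left _ (by nlinarith)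
        have h2 : p * T₁ ≤ p * (lam * T₁) := Nat.mul_le_mul_left _ hlT
        nlinarith

theorem num3 {p μ D lam N : ℕ} (hp : 2 ≤ p) (hμ : 1 ≤ μ) (hD : 1 ≤ D) (hlam : 1 ≤ lam)
    (hN : 1 ≤ N) (T₁ T₂ : ℕ) (hT₂ : T₂ = 288 * lam * D ^ 2) (hT₁ : T₁ = p * μ * N * T₂) :
    T₁ * T₂ * p ^ (9 * lam * T₁ + 1 + T₁) < 8 ^ (5 * p * lam * T₁) := by
  refine (num3_aux hp hμ hD hlam hN T₁ T₂ hT₂ hT₁).trans_lt ?_
  obtain ⟨f1, f2, f3, f4, f5⟩ := base_facts hp hμ hD hlam hN T₁ T₂ hT₂ hT₁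
  rw [show (8 : ℕ) = 2 ^ 3 by norm_num, ← pow_mul]
  apply Nat.pow_lt_pow_right (by norm_num)
  have : 0 < p * lam * T₁ := by
    have : 0 < p := by omega
    positivity
  nlinarith

theorem num4 {p μ D lam N : ℕ} (hp : 2 ≤ p) (hμ : 1 ≤ μ) (hD : 1 ≤ D)
    (hlam : 2 * p * μ ≤ 2 ^ lam) (hN : 1 ≤ N) (T₁ T₂ : ℕ) (hT₂ : T₂ = 288 * lam * D ^ 2)
    (hT₁ : T₁ = p * μ * N * T₂) {a n Z : ℕ} (ha : a < 2 * p ^ 4)
    (hn1 : 5 * p * lam * T₁ ≤ n) (hn2 : n ≤ a + 2 * p ^ 4 * (5 * p * lam * T₁ + T₁))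
    (hZ : p ^ Z ≤ T₁ * T₂ * p ^ (9 * lam * T₁ + 1) * p ^ T₁ * 2 ^ n *
      ((2 * p * μ) ^ (12 * p * μ * n)) ^ T₂) :
    Z ≤ 112 * 288 ^ 2 * p ^ 3 * (2 * p ^ 4) * μ ^ 2 * lam ^ 4 * D ^ 4 * N := by
  have hp1 : 1 ≤ p := by omega
  have hlam1 : 1 ≤ lam := by
    by_contra hc
    have h0 : lam = 0 := by omega
    rw [h0, pow_zero] at hlam
    have : 2 * 1 * 1 ≤ 2 * p * μ := by gcongr
    omega
  obtain ⟨f1, f2, f3, f4, f5⟩ := base_facts hp hμ hD hlam1 hN T₁ T₂ hT₂ hT₁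
  have h0 := num3_aux hp hμ hD hlam1 hN T₁ T₂ hT₂ hT₁
  have h1 : 2 ^ Z ≤ 2 ^ (16 * p * μ * lam * T₂ * n) := by
    calc 2 ^ Z ≤ p ^ Z := by gcongr
      _ ≤ T₁ * T₂ * p ^ (9 * lam * T₁ + 1) * p ^ T₁ * 2 ^ n *
          ((2 * p * μ) ^ (12 * p * μ * n)) ^ T₂ := hZ
      _ = (T₁ * T₂ * p ^ (9 * lam * T₁ + 1 + T₁)) * 2 ^ n *
          ((2 * p * μ) ^ (12 * p * μ * n)) ^ T₂ := by rw [pow_add p (9 * lam * T₁ + 1)]; ring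
      _ ≤ 2 ^ (13 * p * lam * T₁) * 2 ^ n * ((2 ^ lam) ^ (12 * p * μ * n)) ^ T₂ := by gcongr
      _ = 2 ^ (13 * p * lam * T₁ + n + lam * (12 * p * μ * n) * T₂) := by
          rw [← pow_mul, ← pow_mul, ← pow_add, ← pow_add]
          congr 1
          ring
      _ ≤ 2 ^ (16 * p * μ * lam * T₂ * n) := by
          apply Nat.pow_le_pow_right (by norm_num)
          have e1 : 13 * p * lam * T₁ ≤ 3 * n := by nlinarith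
          have e2 : 1 * n ≤ (p * μ * lam * T₂) * n := by
            apply Nat.mul_le_mul_right
            have : 0 < p * μ * lam * T₂ := by positivity
            omega
          have e3 : lam * (12 * p * μ * n) * T₂ = 12 * ((p * μ * lam * T₂) * n) := by ring
          have e4 : 16 * p * μ * lam * T₂ * n = 16 * ((p * μ * lam * T₂) * n) := by ring
          rw [e3, e4]
          omega
  have h2 : Z ≤ 16 * p * μ * lam * T₂ * n := (Nat.pow_le_pow_iff_right (by norm_num)).mp h1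
  have h3 : n ≤ 7 * (2 * p ^ 4) * (p * lam * T₁) := by
    have g1 : 1 ≤ p * lam * T₁ := Nat.succ_le_of_lt (by positivity)
    have g2 : T₁ ≤ p * lam * T₁ := Nat.le_mul_of_pos_left _ (by positivity)
    calc n ≤ a + 2 * p ^ 4 * (5 * p * lam * T₁ + T₁) := hn2
      _ ≤ 2 * p ^ 4 * 1 + 2 * p ^ 4 * (5 * (p * lam * T₁) + T₁) := by
          have : 5 * p * lam * T₁ = 5 * (p * lam * T₁) := by ring
          rw [this]; omega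
      _ ≤ 2 * p ^ 4 * (p * lam * T₁) + 2 * p ^ 4 * (5 * (p * lam * T₁) + p * lam * T₁) := by
          gcongr
      _ = 7 * (2 * p ^ 4) * (p * lam * T₁) := by ring
  calc Z ≤ 16 * p * μ * lam * T₂ * n := h2
    _ ≤ 16 * p * μ * lam * T₂ * (7 * (2 * p ^ 4) * (p * lam * T₁)) := by gcongr
    _ = 112 * 288 ^ 2 * p ^ 3 * (2 * p ^ 4) * μ ^ 2 * lam ^ 4 * D ^ 4 * N := by
        rw [hT₁, hT₂]; ring

end GamP
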