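import Pool.Agent.GamP.Block2
import Pool.Agent.GamP.Zero
import Pool.Agent.GamP.Mor
import Pool.Agent.GamP.Bin

/-!
# The auxiliary function `GG` on the discs `a + 2 p^4 ℤ_p`
-/

namespace GamP

open Finset

variable {p : ℕ} [Fact p.Prime] {Γ : ℤ_[p] → ℤ_[p]}

theorem GG_cont (h : IsMorita p Γ) (m m' T₁ T₂ : ℕ) (c : Fin T₁ × Fin T₂ → ℤ) :
    Continuous (GG p Γ m m' T₁ T₂ c) := by
  unfold GG
  have hΓ := h.1
  refine continuous_finsetSum _ fun i _ => ?_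
  have h1 : Continuous fun z : ℤ_[p] => Γ (p * m * z) :=
    hΓ.comp (continuous_const.mul continuous_id)
  have h2 : Continuous fun z : ℤ_[p] => Γ (p * m' * z) :=
    hΓ.comp (continuous_const.mul continuous_id)
  exact ((continuous_const.mul (ep_cont _)).mul ((h1.pow _).pow _)).mul ((h2.pow _).pow _)

theorem GG_nat (h : IsMorita p Γ) (m m' T₁ T₂ : ℕ) (c : Fin T₁ × Fin T₂ → ℤ) (n : ℕ) :
    GG p Γ m m' T₁ T₂ c (n : ℤ_[p]) = (GZ p m m' T₁ T₂ c n : ℤ_[p]) := by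
  unfold GG GZ
  have h1 : Γ ((p : ℤ_[p]) * m * n) = (gz p (p * m * n) : ℤ_[p]) := by
    rw [← h.nat]; push_cast; rfl
  have h2 : Γ ((p : ℤ_[p]) * m' * n) = (gz p (p * m' * n) : ℤ_[p]) := by
    rw [← h.nat]; push_cast; rfl
  rw [h1, h2]
  push_cast
  refine Finset.sum_congr rfl fun i _ => ?_
  rw [ep_nat]

theorem GG_small (h : IsMorita p Γ) (m m' T₁ T₂ : ℕ) (c : Fin T₁ × Fin T₂ → ℤ) (a L : ℕ)
    (hL : ∀ t < L, (p : ℤ) ^ (2 * L) ∣ GZ p m m' T₁ T₂ c (a + 2 * p ^ 4 * t)) (z : ℤ_[p]) :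
    (p : ℤ_[p]) ^ (2 * L) ∣ GG p Γ m m' T₁ T₂ c ((a : ℤ_[p]) + 2 * (p : ℤ_[p]) ^ 4 * z) := by
  have hp : p.Prime := Fact.out
  refine small (G := fun z => GG p Γ m m' T₁ T₂ c ((a : ℤ_[p]) + 2 * (p : ℤ_[p]) ^ 4 * z))
    (g := fun t => GZ p m m' T₁ T₂ c (a + 2 * p ^ 4 * t)) ?_ ?_ (DD_GZ hp m m' T₁ T₂ c a) L hL z
  · exact (GG_cont h m m' T₁ T₂ c).comp (continuous_const.add (continuous_const.mul continuous_id))
  · intro t
    rw [← GG_nat h]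
    push_cast
    rfl

theorem GG_zeros (h : IsMorita p Γ) (m m' T₁ T₂ : ℕ) (c : Fin T₁ × Fin T₂ → ℤ) (a : ℕ)
    (S : Finset ℤ_[p]) (hS : ∀ x ∈ S, GG p Γ m m' T₁ T₂ c x = 0)
    (hS' : ∀ x ∈ S, ∃ z : ℤ_[p], x = (a : ℤ_[p]) + 2 * (p : ℤ_[p]) ^ 4 * z) (z : ℤ_[p]) :
    (p : ℤ_[p]) ^ S.card ∣ GG p Γ m m' T₁ T₂ c ((a : ℤ_[p]) + 2 * (p : ℤ_[p]) ^ 4 * z) := by
  classical
  have hp : p.Prime := Fact.out
  choose! f hf using hS'
  have hinj : Set.InjOn f S := by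
    intro x hx y hy hxy
    rw [hf x hx, hf y hy, hxy]
  rw [← card_image_of_injOn hinj]
  refine zeros (G := fun z => GG p Γ m m' T₁ T₂ c ((a : ℤ_[p]) + 2 * (p : ℤ_[p]) ^ 4 * z))
    (g := fun t => GZ p m m' T₁ T₂ c (a + 2 * p ^ 4 * t)) ?_ ?_ (DD_GZ hp m m' T₁ T₂ c a)
    (S.image f) ?_ z
  · exact (GG_cont h m m' T₁ T₂ c).comp (continuous_const.add (continuous_const.mul continuous_id))
  · intro t
    rw [← GG_nat h]
    push_cast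
    rfl
  · intro w hw
    rw [mem_image] at hw
    obtain ⟨x, hx, rfl⟩ := hw
    rw [← hf x hx]
    exact hS x hx

end GamP
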