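import Pool.Agent.GamP.Ints

/-!
# Exponential growth of the balanced ratio at the integers
-/

namespace GamP

open Finset

theorem add_pow_ge (x p r : ℕ) : x ^ (r + 1) + (r + 1) * x ^ r * p ≤ (x + p) ^ (r + 1) := by
  induction r with
  | zero => simp
  | succ r ih =>
    calc x ^ (r + 1 + 1) + (r + 1 + 1) * x ^ (r + 1) * p
        ≤ x ^ (r + 1 + 1) + (r + 1 + 1) * x ^ (r + 1) * p + (r + 1) * x ^ r * p * p :=
          Nat.le_add_right _ _
      _ = (x ^ (r + 1) + (r + 1) * x ^ r * p) * (x + p) := by ring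
      _ ≤ (x + p) ^ (r + 1) * (x + p) := Nat.mul_le_mul_right _ ih
      _ = (x + p) ^ (r + 1 + 1) := by ring

theorem two_pow_le (p j : ℕ) (hj : j ≤ p) (hj1 : 0 < j) (r : ℕ) :
    2 ^ r * ∏ i ∈ range r, (p * i + j) ≤ (p * r + j) ^ r := by
  induction r with
  | zero => simp
  | succ r ih =>
    rw [Finset.prod_range_succ]
    have h1 : 2 * (p * r + j) ^ (r + 1) ≤ (p * (r + 1) + j) ^ (r + 1) := by
      set x := p * r + j with hx
      have hxp : x ≤ (r + 1) * p := by rw [hx]; nlinarith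
      have e : p * (r + 1) + j = x + p := by rw [hx]; ring
      rw [e]
      have h2 : x ^ (r + 1) + (r + 1) * x ^ r * p ≤ (x + p) ^ (r + 1) := add_pow_ge x p r
      refine le_trans ?_ h2
      rw [two_mul]
      refine Nat.add_le_add_left ?_ _
      calc x ^ (r + 1) = x ^ r * x := pow_succ x r
        _ ≤ x ^ r * ((r + 1) * p) := Nat.mul_le_mul_left _ hxp
        _ = (r + 1) * x ^ r * p := by ring
    calc 2 ^ (r + 1) * ((∏ i ∈ range r, (p * i + j)) * (p * r + j))
        = 2 * (p * r + j) * (2 ^ r * ∏ i ∈ range r, (p * i + j)) := by ring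
      _ ≤ 2 * (p * r + j) * (p * r + j) ^ r := Nat.mul_le_mul_left _ ih
      _ = 2 * (p * r + j) ^ (r + 1) := by ring
      _ ≤ (p * (r + 1) + j) ^ (r + 1) := h1

theorem grow {p m m' : ℕ} (hp : p.Prime) (hm' : 0 < m') (hmm : m' < m) (n : ℕ) :
    16 ^ n * rt p m' 0 1 n ^ (4 * m) ≤ rt p m 0 1 n ^ (4 * m') := by
  set J := (range (p * 1)).filter (fun j => ¬ p ∣ j) with hJ
  have hcard : J.card = (p - 1) * 1 := card_J hp 1
  have hJm : ∀ j ∈ J, 0 < j ∧ j ≤ p := by
    intro j hj
    rw [hJ, Finset.mem_filter, Finset.mem_range] at hj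
    refine ⟨?_, by omega⟩
    rcases Nat.eq_zero_or_pos j with h | h
    · exact absurd (h ▸ dvd_zero p) hj.2
    · exact h
  set w : ℕ → ℕ := fun i => ∏ j ∈ J, (p * i + j) with hw
  set Φ : ℕ → ℕ := fun r => ∏ i ∈ range r, w i with hΦ
  have hrt : ∀ a : ℕ, rt p a 0 1 n = Φ (a * n) := by
    intro a
    have h1 : rt p a 0 1 n = ∏ k ∈ (range (p * 1 * (a * n))).filter (fun k => ¬ p ∣ k), k := by
      rw [rt, show p * 1 * (a * n) = p * a * n by ring]
      refine Finset.prod_congr rfl fun k _ => ?_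
      ring
    rw [h1, prod_filter_blocks p 1 (a * n), Finset.prod_comm]
    simp only [hΦ, hw, hJ, mul_one]
  have hmono : ∀ i i', i ≤ i' → w i ≤ w i' := by
    intro i i' h
    refine Finset.prod_le_prod' fun j _ => ?_
    exact Nat.add_le_add_right (Nat.mul_le_mul_left _ h) _
  have hwr : ∀ r, 2 ^ r * Φ r ≤ w r ^ r := by
    intro r
    have h1 : ∏ j ∈ J, (2 ^ r * ∏ i ∈ range r, (p * i + j)) ≤ ∏ j ∈ J, (p * r + j) ^ r :=
      Finset.prod_le_prod' fun j hj => two_pow_le p j (hJm j hj).2 (hJm j hj).1 r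
    rw [Finset.prod_mul_distrib, Finset.prod_const, hcard, mul_one, Finset.prod_comm,
      Finset.prod_pow] at h1
    refine le_trans (Nat.mul_le_mul_right _ ?_) h1
    calc 2 ^ r = (2 ^ r) ^ 1 := by rw [pow_one]
      _ ≤ (2 ^ r) ^ (p - 1) := Nat.pow_le_pow_right (by positivity) (by
        have := hp.two_le; omega)
  set r := m' * n with hr
  have hmn : m * n = r + (m - m') * n := by
    rw [hr, ← Nat.add_mul]
    congr 1
    omega
  have hbig : Φ r * w r ^ ((m - m') * n) ≤ Φ (m * n) := by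
    rw [hmn]
    simp only [hΦ]
    rw [Finset.prod_range_add]
    refine Nat.mul_le_mul_left _ ?_
    calc w r ^ ((m - m') * n) = ∏ _i ∈ range ((m - m') * n), w r := by
          rw [Finset.prod_const, Finset.card_range]
      _ ≤ ∏ i ∈ range ((m - m') * n), w (r + i) :=
          Finset.prod_le_prod' fun i _ => hmono _ _ (Nat.le_add_right _ _)
  have hfin : 2 ^ n * Φ r ^ m ≤ Φ (m * n) ^ m' := by
    calc 2 ^ n * Φ r ^ m ≤ 2 ^ (r * (m - m')) * Φ r ^ m := by
          refine Nat.mul_le_mul_right _ (Nat.pow_le_pow_right (by norm_num) ?_)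
          calc n = 1 * n * 1 := by ring
            _ ≤ m' * n * (m - m') := Nat.mul_le_mul (Nat.mul_le_mul_right _ hm') (by omega)
      _ = Φ r ^ m' * (2 ^ r * Φ r) ^ (m - m') := by
          rw [mul_pow, ← pow_mul]
          have : Φ r ^ m = Φ r ^ m' * Φ r ^ (m - m') := by
            rw [← pow_add]
            congr 1
            omega
          rw [this]
          ring
      _ ≤ Φ r ^ m' * (w r ^ r) ^ (m - m') :=
          Nat.mul_le_mul_left _ (Nat.pow_le_pow_left (hwr r) _)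
      _ = (Φ r * w r ^ ((m - m') * n)) ^ m' := by
          rw [mul_pow, ← pow_mul, ← pow_mul]
          congr 2
          rw [hr]
          ring
      _ ≤ Φ (m * n) ^ m' := Nat.pow_le_pow_left hbig _
  rw [hrt m', hrt m]
  calc 16 ^ n * Φ (m' * n) ^ (4 * m) = (2 ^ n * Φ r ^ m) ^ 4 := by
        rw [mul_pow, ← pow_mul, ← pow_mul, show (16 : ℕ) = 2 ^ 4 by norm_num, ← pow_mul, hr]
        congr 2 <;> ring
    _ ≤ (Φ (m * n) ^ m') ^ 4 := Nat.pow_le_pow_left hfin _
    _ = Φ (m * n) ^ (4 * m') := by rw [← pow_mul]; congr 1; ring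

end GamP
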