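import Pool.Agent.GamP.Mor
import Pool.Agent.GamP.Bin
import Pool.Agent.GamP.Ints
import Pool.Agent.GamP.Liou

/-!
# Small implies zero, at the exceptional points
-/

namespace GamP

open Finset Polynomial

variable {p : ℕ} [Fact p.Prime] {Γ : ℤ_[p] → ℤ_[p]}

/-- the number of `k < p r` not divisible by `p` -/
theorem card_units {p : ℕ} (hp : p.Prime) (r : ℕ) :
    ((range (p * r)).filter (fun k => ¬ p ∣ k)).card = (p - 1) * r := by
  have h1 : ((range (p * r)).filter (fun k => p ∣ k)).card = r := by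
    have : (range (p * r)).filter (fun k => p ∣ k) = (range r).image (fun k => p * k) := by
      ext k
      simp only [mem_filter, mem_range, mem_image]
      constructor
      · rintro ⟨h1, k', rfl⟩
        exact ⟨k', lt_of_mul_lt_mul_left h1 (Nat.zero_le _), rfl⟩
      · rintro ⟨k', h1, rfl⟩
        exact ⟨Nat.mul_lt_mul_of_pos_left h1 hp.pos, dvd_mul_right _ _⟩
    rw [this, card_image_of_injective _ (fun a b hab => Nat.eq_of_mul_eq_mul_left hp.pos hab),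
      card_range]
  have h2 := Finset.card_filter_add_card_filter_not (s := range (p * r)) (fun k => p ∣ k)
  rw [h1, card_range] at h2
  have h3 : (p - 1) * r = p * r - r := by rw [Nat.sub_mul, one_mul]
  omega

theorem key_aux {p : ℕ} [Fact p.Prime] {m b α : ℕ} {s : ℤ_[p]} (hs : (b : ℤ_[p]) * s = α) (n : ℕ) :
    (b : ℤ_[p]) ^ ((p - 1) * (m * n)) *
      (∏ k ∈ (range (p * m * n)).filter (fun k => ¬ p ∣ k), ((p : ℤ_[p]) * m * s + k)) =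
      (rt p m α b n : ℤ_[p]) := by
  have hp : p.Prime := Fact.out
  have hc : ((range (p * m * n)).filter (fun k => ¬ p ∣ k)).card = (p - 1) * (m * n) := by
    rw [mul_assoc p m n]; exact card_units hp (m * n)
  rw [← hc, ← prod_const, ← prod_mul_distrib]
  unfold rt
  push_cast
  refine prod_congr rfl fun k _ => ?_
  rw [← hs]
  ring

theorem key (h : IsMorita p Γ) {m m' : ℕ} (hm : 0 < m) (hm' : 0 < m') {b α : ℕ} (hα : α < b)
    {s y : ℤ_[p]} (hs : (b : ℤ_[p]) * s = α)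
    (hy : y * Γ (p * m' * s) ^ (4 * m) = Γ (p * m * s) ^ (4 * m')) (n : ℕ) :
    ∃ A B : ℕ, 0 < A ∧ 0 < B ∧ A ≤ (2 * p * (m * m') * b) ^ (12 * p * (m * m') * n) ∧
      B ≤ (2 * p * (m * m') * b) ^ (12 * p * (m * m') * n) ∧
      (B : ℤ_[p]) * Γ (p * m * (s + n)) ^ (4 * m') =
        A * y * Γ (p * m' * (s + n)) ^ (4 * m) := by
  have hp : p.Prime := Fact.out
  obtain ⟨A, B, hA, hB, hAM, hBM, hAB⟩ := ratio (n := n) hp hα hm hm'
  refine ⟨A, B, hA, hB, hAM, hBM, ?_⟩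
  have hb : (b : ℤ_[p]) ≠ 0 := by
    have : b ≠ 0 := by omega
    exact_mod_cast this
  -- signs disappear
  have s1 : Γ (p * m * (s + n)) ^ (4 * m') =
      (∏ k ∈ (range (p * m * n)).filter (fun k => ¬ p ∣ k), ((p : ℤ_[p]) * m * s + k)) ^ (4 * m') *
      Γ (p * m * s) ^ (4 * m') := by
    rw [h.block, mul_pow, mul_pow, ← pow_mul]
    have : ((-1 : ℤ_[p])) ^ (p * m * n * (4 * m')) = 1 := by
      rw [show p * m * n * (4 * m') = 2 * (p * m * n * (2 * m')) by ring, pow_mul]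
      simp
    rw [this, one_mul]
  have s2 : Γ (p * m' * (s + n)) ^ (4 * m) =
      (∏ k ∈ (range (p * m' * n)).filter (fun k => ¬ p ∣ k), ((p : ℤ_[p]) * m' * s + k)) ^ (4 * m) *
      Γ (p * m' * s) ^ (4 * m) := by
    rw [h.block, mul_pow, mul_pow, ← pow_mul]
    have : ((-1 : ℤ_[p])) ^ (p * m' * n * (4 * m)) = 1 := by
      rw [show p * m' * n * (4 * m) = 2 * (p * m' * n * (2 * m)) by ring, pow_mul]
      simp
    rw [this, one_mul]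
  have k1 := key_aux (m := m) hs n
  have k2 := key_aux (m := m') hs n
  set P1 := ∏ k ∈ (range (p * m * n)).filter (fun k => ¬ p ∣ k), ((p : ℤ_[p]) * m * s + k)
  set P2 := ∏ k ∈ (range (p * m' * n)).filter (fun k => ¬ p ∣ k), ((p : ℤ_[p]) * m' * s + k)
  have hexp : (p - 1) * (m * n) * (4 * m') = (p - 1) * (m' * n) * (4 * m) := by ring
  have e1 : (b : ℤ_[p]) ^ ((p - 1) * (m * n) * (4 * m')) * P1 ^ (4 * m') =
      (rt p m α b n : ℤ_[p]) ^ (4 * m') := by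
    rw [← k1, mul_pow, pow_mul]
  have e2 : (b : ℤ_[p]) ^ ((p - 1) * (m * n) * (4 * m')) * P2 ^ (4 * m) =
      (rt p m' α b n : ℤ_[p]) ^ (4 * m) := by
    rw [hexp, ← k2, mul_pow, pow_mul]
  have e3 : (rt p m α b n : ℤ_[p]) ^ (4 * m') * B = (rt p m' α b n : ℤ_[p]) ^ (4 * m) * A := by
    exact_mod_cast congrArg (Nat.cast : ℕ → ℤ_[p]) hAB
  have hbb : (b : ℤ_[p]) ^ ((p - 1) * (m * n) * (4 * m')) ≠ 0 := pow_ne_zero _ hb
  have e4 : P1 ^ (4 * m') * B = P2 ^ (4 * m) * A := by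
    apply mul_left_cancel₀ hbb
    linear_combination (B : ℤ_[p]) * e1 - (A : ℤ_[p]) * e2 + e3
  rw [s1, s2]
  linear_combination (Γ (p * m * s) ^ (4 * m')) * e4 - (P2 ^ (4 * m) * A) * hy

theorem vanish (h : IsMorita p Γ) {m m' : ℕ} (hm : 0 < m) (hm' : 0 < m') {b α : ℕ} (hα : α < b)
    {s y : ℤ_[p]} (hs : (b : ℤ_[p]) * s = α)
    (hy : y * Γ (p * m' * s) ^ (4 * m) = Γ (p * m * s) ^ (4 * m'))
    {F : ℤ[X]} (hF : Irreducible (F.map (Int.castRingHom ℚ))) (hFy : aeval y F = 0) {D Y : ℕ}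
    (hFD : F.natDegree ≤ D) (hFY : ∀ i, |F.coeff i| ≤ (Y : ℤ))
    {T₁ T₂ e N n K : ℕ} (hn : n < N) (c : Fin T₁ × Fin T₂ → ℤ) (hc : ∀ i, |c i| < (p : ℤ) ^ e)
    (hG : (p : ℤ_[p]) ^ K ∣ GG p Γ m m' T₁ T₂ c (s + n))
    (hbig : (D + T₂).factorial * Y ^ T₂ * (T₁ * p ^ e * p ^ T₁ * b ^ (2 * T₁) * 2 ^ N *
      ((2 * p * (m * m') * b) ^ (12 * p * (m * m') * N)) ^ T₂) ^ D < p ^ K) :
    GG p Γ m m' T₁ T₂ c (s + n) = 0 := by
  classical
  have hp : p.Prime := Fact.out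
  have hb0 : b ≠ 0 := by omega
  have hb1 : 1 ≤ b := by omega
  have hbz : (b : ℤ_[p]) ≠ 0 := by exact_mod_cast hb0
  obtain ⟨A, B, hA, hB, hAM, hBM, hAB⟩ := key h hm hm' hα hs hy n
  set x := s + (n : ℤ_[p]) with hx
  set M := (2 * p * (m * m') * b) ^ (12 * p * (m * m') * N) with hM
  have hbase : 1 ≤ 2 * p * (m * m') * b := by
    have := hp.pos
    have h1 : 0 < 2 * p * (m * m') * b := by positivity
    omega
  have hMM : (2 * p * (m * m') * b) ^ (12 * p * (m * m') * n) ≤ M :=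
    Nat.pow_le_pow_right hbase (Nat.mul_le_mul_left _ hn.le)
  have hA' : A ≤ M := hAM.trans hMM
  have hB' : B ≤ M := hBM.trans hMM
  have hM1 : 1 ≤ M := (Nat.succ_le_of_lt hA).trans hA'
  -- the integers of the binomials
  have hxz : (b : ℤ_[p]) * x = (α : ℤ_[p]) + b * n := by rw [hx, mul_add, hs]
  choose E hEb hEe using fun i : ℕ => ep_int (p := p) (i := i) hα hxz
  let C : Fin T₁ × Fin T₂ → ℤ := fun i => c i * (b : ℤ) ^ (2 * (T₁ - i.1)) * E i.1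
  have hCe : ∀ i : Fin T₁ × Fin T₂, (C i : ℤ_[p]) = c i * (b : ℤ_[p]) ^ (2 * T₁) * ep p i.1 x := by
    intro i
    have hi : (i.1 : ℕ) ≤ T₁ := i.1.2.le
    simp only [C]
    push_cast
    rw [hEe]
    have : (b : ℤ_[p]) ^ (2 * T₁) = (b : ℤ_[p]) ^ (2 * (T₁ - i.1)) * (b : ℤ_[p]) ^ (2 * (i.1 : ℕ)) := by
      rw [← pow_add]; congr 1; omega
    rw [this]
    ring
  have hCb : ∀ i : Fin T₁ × Fin T₂, |C i| ≤ (p : ℤ) ^ e * (p : ℤ) ^ T₁ * (b : ℤ) ^ (2 * T₁) * 2 ^ N := by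
    intro i
    have hi : (i.1 : ℕ) ≤ T₁ := i.1.2.le
    have hp1 : (1 : ℤ) ≤ p := by exact_mod_cast hp.pos
    have hb1' : (1 : ℤ) ≤ b := by exact_mod_cast hb1
    have e1 : |C i| = |c i| * (b : ℤ) ^ (2 * (T₁ - i.1)) * |E i.1| := by
      simp only [C]
      rw [abs_mul, abs_mul, abs_of_nonneg (by positivity : (0 : ℤ) ≤ (b : ℤ) ^ (2 * (T₁ - (i.1 : ℕ))))]
    rw [e1]
    have e2 := hEb i.1
    have e3 : |c i| ≤ (p : ℤ) ^ e := (hc i).le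
    have e4 : (p : ℤ) ^ (i.1 : ℕ) ≤ (p : ℤ) ^ T₁ := pow_le_pow_right₀ hp1 hi
    have e5 : (2 : ℤ) ^ (n + 1) ≤ 2 ^ N := pow_le_pow_right₀ (by norm_num) hn
    calc |c i| * (b : ℤ) ^ (2 * (T₁ - i.1)) * |E i.1|
        ≤ (p : ℤ) ^ e * (b : ℤ) ^ (2 * (T₁ - i.1)) *
          ((p : ℤ) ^ T₁ * (b : ℤ) ^ (2 * (i.1 : ℕ)) * 2 ^ N) := by
          gcongr
          refine e2.trans ?_
          gcongr
      _ = (p : ℤ) ^ e * (p : ℤ) ^ T₁ * ((b : ℤ) ^ (2 * (T₁ - i.1)) * (b : ℤ) ^ (2 * (i.1 : ℕ))) *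
          2 ^ N := by ring
      _ = (p : ℤ) ^ e * (p : ℤ) ^ T₁ * (b : ℤ) ^ (2 * T₁) * 2 ^ N := by
          have h9 : (b : ℤ) ^ (2 * (T₁ - (i.1 : ℕ))) * (b : ℤ) ^ (2 * (i.1 : ℕ)) =
              (b : ℤ) ^ (2 * T₁) := by
            rw [← pow_add, show 2 * (T₁ - (i.1 : ℕ)) + 2 * (i.1 : ℕ) = 2 * T₁ by omega]
          rw [h9]
  let Q : ℤ[X] := ∑ i : Fin T₁ × Fin T₂,
    Polynomial.C (C i * (A : ℤ) ^ (i.2 : ℕ) * (B : ℤ) ^ (T₂ - 1 - (i.2 : ℕ))) * X ^ (i.2 : ℕ)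
  have hQy : aeval y Q * (Γ (p * m' * x) ^ (4 * m)) ^ (T₂ - 1) =
      (b : ℤ_[p]) ^ (2 * T₁) * (B : ℤ_[p]) ^ (T₂ - 1) * GG p Γ m m' T₁ T₂ c x := by
    simp only [Q, map_sum, map_mul, map_pow, aeval_C, aeval_X, GG]
    rw [sum_mul, mul_sum]
    refine sum_congr rfl fun i _ => ?_
    have hi2 : (i.2 : ℕ) ≤ T₂ - 1 := by have := i.2.2; omega
    set g1 := Γ (p * m * x) ^ (4 * m')
    set g2 := Γ (p * m' * x) ^ (4 * m)
    have hAB' : (B : ℤ_[p]) * g1 = A * y * g2 := hAB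
    have hAj : ((A : ℤ_[p]) * y * g2) ^ (i.2 : ℕ) = ((B : ℤ_[p]) * g1) ^ (i.2 : ℕ) := by rw [hAB']
    have hsplit : g2 ^ (T₂ - 1) = g2 ^ (i.2 : ℕ) * g2 ^ (T₂ - 1 - (i.2 : ℕ)) := by
      rw [← pow_add]; congr 1; omega
    have hsplitB : (B : ℤ_[p]) ^ (T₂ - 1) = (B : ℤ_[p]) ^ (i.2 : ℕ) * (B : ℤ_[p]) ^ (T₂ - 1 - (i.2 : ℕ)) := by
      rw [← pow_add]; congr 1; omega
    have hCi := hCe i
    simp only [algebraMap_int_eq, eq_intCast, Int.cast_natCast]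
    rw [hCi, hsplit, hsplitB]
    calc (c i : ℤ_[p]) * (b : ℤ_[p]) ^ (2 * T₁) * ep p i.1 x * (A : ℤ_[p]) ^ (i.2 : ℕ) *
          (B : ℤ_[p]) ^ (T₂ - 1 - (i.2 : ℕ)) * y ^ (i.2 : ℕ) *
          (g2 ^ (i.2 : ℕ) * g2 ^ (T₂ - 1 - (i.2 : ℕ)))
        = (c i : ℤ_[p]) * (b : ℤ_[p]) ^ (2 * T₁) * ep p i.1 x *
          (B : ℤ_[p]) ^ (T₂ - 1 - (i.2 : ℕ)) * g2 ^ (T₂ - 1 - (i.2 : ℕ)) *
          ((A : ℤ_[p]) * y * g2) ^ (i.2 : ℕ) := by ring
      _ = _ := by rw [hAj]; ring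
  have hunit : IsUnit ((Γ (p * m' * x) ^ (4 * m)) ^ (T₂ - 1)) := by
    apply IsUnit.pow
    apply IsUnit.pow
    rw [PadicInt.isUnit_iff]
    exact h.norm _
  have hBz : (B : ℤ_[p]) ≠ 0 := by
    have : B ≠ 0 := by omega
    exact_mod_cast this
  by_cases hQ0 : aeval y Q = 0
  · rw [hQ0, zero_mul] at hQy
    have h1 : (b : ℤ_[p]) ^ (2 * T₁) * (B : ℤ_[p]) ^ (T₂ - 1) ≠ 0 :=
      mul_ne_zero (pow_ne_zero _ hbz) (pow_ne_zero _ hBz)
    rcases mul_eq_zero.mp hQy.symm with h2 | h2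
    · exact absurd h2 h1
    · exact h2
  exfalso
  have hdvd : (p : ℤ_[p]) ^ K ∣ aeval y Q := by
    have h1 : (p : ℤ_[p]) ^ K ∣ aeval y Q * (Γ (p * m' * x) ^ (4 * m)) ^ (T₂ - 1) := by
      rw [hQy]
      exact Dvd.dvd.mul_left hG _
    exact (hunit.dvd_mul_right).mp h1
  set H := T₁ * p ^ e * p ^ T₁ * b ^ (2 * T₁) * 2 ^ N * M ^ T₂ with hH
  have hdeg : Q.natDegree ≤ T₂ := by
    refine natDegree_sum_le_of_forall_le _ _ fun i _ => ?_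
    refine (natDegree_C_mul_X_pow_le _ _).trans i.2.2.le
  have hcoef : ∀ j, |Q.coeff j| ≤ (H : ℤ) := by
    intro j
    simp only [Q, finsetSum_coeff, coeff_C_mul, coeff_X_pow]
    refine (abs_sum_le_sum_abs _ _).trans ?_
    have hterm : ∀ i : Fin T₁ × Fin T₂,
        |C i * (A : ℤ) ^ (i.2 : ℕ) * (B : ℤ) ^ (T₂ - 1 - (i.2 : ℕ)) * (if j = (i.2 : ℕ) then 1 else 0)| ≤
        if j = (i.2 : ℕ) then (p : ℤ) ^ e * (p : ℤ) ^ T₁ * (b : ℤ) ^ (2 * T₁) * 2 ^ N * (M : ℤ) ^ T₂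
          else 0 := by
      intro i
      split_ifs with hj
      · rw [mul_one, abs_mul, abs_mul, abs_of_nonneg (by positivity : (0 : ℤ) ≤ (A : ℤ) ^ (i.2 : ℕ)),
          abs_of_nonneg (by positivity : (0 : ℤ) ≤ (B : ℤ) ^ (T₂ - 1 - (i.2 : ℕ)))]
        have hA2 : (A : ℤ) ≤ M := by exact_mod_cast hA'
        have hB2 : (B : ℤ) ≤ M := by exact_mod_cast hB'
        have hM2 : (1 : ℤ) ≤ M := by exact_mod_cast hM1
        calc |C i| * (A : ℤ) ^ (i.2 : ℕ) * (B : ℤ) ^ (T₂ - 1 - (i.2 : ℕ))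
            ≤ ((p : ℤ) ^ e * (p : ℤ) ^ T₁ * (b : ℤ) ^ (2 * T₁) * 2 ^ N) * (M : ℤ) ^ (i.2 : ℕ) *
              (M : ℤ) ^ (T₂ - 1 - (i.2 : ℕ)) := by
              gcongr
              exact hCb i
          _ = ((p : ℤ) ^ e * (p : ℤ) ^ T₁ * (b : ℤ) ^ (2 * T₁) * 2 ^ N) *
              (M : ℤ) ^ ((i.2 : ℕ) + (T₂ - 1 - (i.2 : ℕ))) := by rw [pow_add]; ring
          _ ≤ _ := by
              have h9 : (i.2 : ℕ) + (T₂ - 1 - (i.2 : ℕ)) ≤ T₂ := by have := i.2.2; omega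
              exact mul_le_mul_of_nonneg_left (pow_le_pow_right₀ hM2 h9) (by positivity)
      · simp
    refine (sum_le_sum fun i _ => hterm i).trans ?_
    rw [Fintype.sum_prod_type]
    have hinner : ∀ i1 : Fin T₁, ∑ i2 : Fin T₂, (if j = (i2 : ℕ) then
        (p : ℤ) ^ e * (p : ℤ) ^ T₁ * (b : ℤ) ^ (2 * T₁) * 2 ^ N * (M : ℤ) ^ T₂ else 0) ≤
        (p : ℤ) ^ e * (p : ℤ) ^ T₁ * (b : ℤ) ^ (2 * T₁) * 2 ^ N * (M : ℤ) ^ T₂ := by
      intro i1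
      have hnn : (0 : ℤ) ≤ (p : ℤ) ^ e * (p : ℤ) ^ T₁ * (b : ℤ) ^ (2 * T₁) * 2 ^ N * (M : ℤ) ^ T₂ := by
        positivity
      by_cases hj : j < T₂
      · rw [sum_eq_single (⟨j, hj⟩ : Fin T₂)]
        · simp
        · intro i2 _ hne
          rw [if_neg]
          intro h1
          apply hne
          ext
          exact h1.symm
        · intro h1
          exact absurd (mem_univ _) h1
      · rw [sum_eq_zero]
        · exact hnn
        · intro i2 _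
          rw [if_neg]
          have := i2.2
          omega
    refine (sum_le_sum fun i1 _ => hinner i1).trans (le_of_eq ?_)
    rw [sum_const, card_univ, Fintype.card_fin, nsmul_eq_mul, hH]
    push_cast
    ring
  have hl := liouville hF hFy hFD hFY hdeg hcoef hQ0 hdvd
  exact absurd hbig (not_lt.mpr hl)

end GamP
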