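import Pool.Agent.GamP.Nonv
import Pool.Agent.GamP.Vanish
import Pool.Agent.GamP.GGa
import Pool.Agent.GamP.Grow

/-!
# Upper bound for the number of zeros

PROOF. Apply `key` with `b = 1`, `α = 0`, `s = 0`, `y = 1` (`Γ 0 = 1` by `IsMorita.nat` at `0`):
for every `n` there are `A n, B n > 0`, `≤ M_n := (2pμ)^{12pμn}`, with
`B n * Γ(pmn)^{4m'} = A n * Γ(pm'n)^{4m}`. WE ALSO NEED `16^n B n ≤ A n`: so use `ratio` directly with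
`α = 0`, `β = 1`: `rt p m 0 1 n ^ (4m') * B = rt p m' 0 1 n ^ (4m) * A`, and
`grow` gives `16^n rt_{m'}^{4m} ≤ rt_m^{4m'}`, so `16^n B ≤ A` (cancel `rt_{m'}^{4m} > 0`). And
`rt p m 0 1 n = |gz p (p m n)|`: `gz p (p*m*n) ^ (4m') = rt p m 0 1 n ^ (4m')` in `ℤ` (even power
kills the sign; `k * 1 = k`).
`nonvanish` with `q = 2p^4` gives `t`, `n = a + q t`, with
`Σ := ∑ i, c i * ez p i.1 n * A^{i.2} * B^{T₂-1-i.2} ≠ 0`. In `ℤ_[p]`: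
`B^{T₂-1} * GG(n) = Γ(pm'n)^{4m(T₂-1)} * Σ` (as in `vanish` (3), with `GG_nat` or directly), so
`p^Z ∣ GG(n)` gives `p^Z ∣ Σ` in `ℤ_[p]` (`Γ` is a unit), hence in `ℤ`, so `p^Z ≤ |Σ|` and
`|Σ| ≤ T₁T₂ p^e (p^{T₁} 2^n) M_n^{T₂}` (`ez_bound`). (`T₂ ≥ 1` because the sum is nonzero.)
-/

namespace GamP

open Finset Polynomial

variable {p : ℕ} [Fact p.Prime] {Γ : ℤ_[p] → ℤ_[p]}

private theorem gz_rt (p m r n : ℕ) :
    gz p (p * m * n) ^ (4 * r) = ((rt p m 0 1 n ^ (4 * r) : ℕ) : ℤ) := by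
  unfold gz rt
  rw [mul_pow, ← pow_mul, show p * m * n * (4 * r) = 2 * (p * m * n * (2 * r)) by ring, pow_mul]
  simp

private theorem rt_pos {p : ℕ} (m n : ℕ) : 0 < rt p m 0 1 n := by
  unfold rt
  apply Finset.prod_pos
  intro k hk
  rw [Finset.mem_filter] at hk
  have : k ≠ 0 := by
    rintro rfl
    exact hk.2 (dvd_zero p)
  omega

theorem upper (h : IsMorita p Γ) {m m' : ℕ} (hm' : 0 < m') (hmm : m' < m)
    {T₁ T₂ e t₀ a Z : ℕ} (c : Fin T₁ × Fin T₂ → ℤ) (hc0 : ∃ i, c i ≠ 0)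
    (hc : ∀ i, |c i| < (p : ℤ) ^ e) (ht : T₁ * T₂ * p ^ (e + T₁) < 8 ^ t₀)
    (hZ : ∀ z : ℤ_[p], (p : ℤ_[p]) ^ Z ∣
      GG p Γ m m' T₁ T₂ c ((a : ℤ_[p]) + 2 * (p : ℤ_[p]) ^ 4 * z)) :
    ∃ n : ℕ, t₀ ≤ n ∧ n ≤ a + 2 * p ^ 4 * (t₀ + T₁) ∧
      p ^ Z ≤ T₁ * T₂ * p ^ e * p ^ T₁ * 2 ^ n *
        ((2 * p * (m * m')) ^ (12 * p * (m * m') * n)) ^ T₂ := by
  have hp : p.Prime := Fact.out
  have hm : 0 < m := by omega
  have hrat : ∀ n : ℕ, ∃ A B : ℕ, 0 < A ∧ 0 < B ∧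
      A ≤ (2 * p * (m * m')) ^ (12 * p * (m * m') * n) ∧
      B ≤ (2 * p * (m * m')) ^ (12 * p * (m * m') * n) ∧
      rt p m 0 1 n ^ (4 * m') * B = rt p m' 0 1 n ^ (4 * m) * A := by
    intro n
    have := ratio (n := n) (α := 0) (β := 1) hp one_pos hm hm'
    rw [mul_one] at this
    exact this
  choose A B hA hB hAM hBM hAB using hrat
  have h16 : ∀ n, 16 ^ n * B n ≤ A n := by
    intro n
    have h1 := grow hp hm' hmm n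
    have h2 : 0 < rt p m' 0 1 n ^ (4 * m) := pow_pos (rt_pos m' n) _
    refine Nat.le_of_mul_le_mul_left ?_ h2
    calc rt p m' 0 1 n ^ (4 * m) * (16 ^ n * B n) = 16 ^ n * rt p m' 0 1 n ^ (4 * m) * B n := by
          ring
      _ ≤ rt p m 0 1 n ^ (4 * m') * B n := Nat.mul_le_mul_right _ h1
      _ = _ := hAB n
  obtain ⟨t, ht0, ht1, hne⟩ := nonvanish (q := 2 * p ^ 4) (a := a) hp
    (Nat.mul_pos (by norm_num) (pow_pos hp.pos 4)) c hc0 hc ht A B hB h16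
  set n : ℕ := a + 2 * p ^ 4 * t with hn
  have hq1 : 1 ≤ 2 * p ^ 4 := Nat.mul_pos (by norm_num) (pow_pos hp.pos 4)
  refine ⟨n, ?_, ?_, ?_⟩
  · rw [hn]
    nlinarith
  · rw [hn]
    have : 2 * p ^ 4 * t ≤ 2 * p ^ 4 * (t₀ + T₁) := Nat.mul_le_mul_left _ (by omega)
    omega
  set S : ℤ := ∑ i : Fin T₁ × Fin T₂, c i * ez p i.1 n * (A n : ℤ) ^ (i.2 : ℕ) *
    (B n : ℤ) ^ (T₂ - 1 - (i.2 : ℕ)) with hS
  set U : ℤ := gz p (p * m * n) ^ (4 * m') with hU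
  set V : ℤ := gz p (p * m' * n) ^ (4 * m) with hV
  have hUV : U * B n = V * A n := by
    rw [hU, hV, gz_rt, gz_rt]
    exact_mod_cast hAB n
  have hmul : (B n : ℤ) ^ (T₂ - 1) * GZ p m m' T₁ T₂ c n = V ^ (T₂ - 1) * S := by
    unfold GZ
    rw [hS, Finset.mul_sum, Finset.mul_sum]
    refine Finset.sum_congr rfl fun i _ => ?_
    have hj : (i.2 : ℕ) + (T₂ - 1 - (i.2 : ℕ)) = T₂ - 1 := by
      have := i.2.2
      omega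
    rw [← hU, ← hV]
    have e1 : (B n : ℤ) ^ (T₂ - 1) = (B n : ℤ) ^ (i.2 : ℕ) *
        (B n : ℤ) ^ (T₂ - 1 - (i.2 : ℕ)) := by rw [← pow_add, hj]
    have e2 : V ^ (T₂ - 1) = V ^ (i.2 : ℕ) * V ^ (T₂ - 1 - (i.2 : ℕ)) := by
      rw [← pow_add, hj]
    have e3 : U ^ (i.2 : ℕ) * (B n : ℤ) ^ (i.2 : ℕ) = V ^ (i.2 : ℕ) * (A n : ℤ) ^ (i.2 : ℕ) := by
      rw [← mul_pow, ← mul_pow, hUV]
    rw [e1, e2]
    linear_combination (c i * ez p i.1 n * V ^ (T₂ - 1 - (i.2 : ℕ)) *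
      (B n : ℤ) ^ (T₂ - 1 - (i.2 : ℕ))) * e3
  have hunit : IsUnit ((V : ℤ) : ℤ_[p]) := by
    rw [PadicInt.isUnit_iff, hV]
    push_cast
    rw [← h.nat, norm_pow, h.norm, one_pow]
  have hdvd : ((p : ℤ) ^ Z) ∣ S := by
    have h1 := hZ (t : ℤ_[p])
    have h2 : ((a : ℤ_[p]) + 2 * (p : ℤ_[p]) ^ 4 * (t : ℤ_[p])) = (n : ℤ_[p]) := by
      rw [hn]; push_cast; rfl
    rw [h2, GG_nat h] at h1
    have h3 : (p : ℤ_[p]) ^ Z ∣ ((V : ℤ) : ℤ_[p]) ^ (T₂ - 1) * ((S : ℤ) : ℤ_[p]) := by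
      have h4 : ((V : ℤ) : ℤ_[p]) ^ (T₂ - 1) * ((S : ℤ) : ℤ_[p]) =
          ((B n : ℤ) : ℤ_[p]) ^ (T₂ - 1) * ((GZ p m m' T₁ T₂ c n : ℤ) : ℤ_[p]) := by
        have := congrArg (fun z : ℤ => (z : ℤ_[p])) hmul
        push_cast at this ⊢
        exact this.symm
      rw [h4]
      exact h1.mul_left _
    rw [(hunit.pow (T₂ - 1)).dvd_mul_left] at h3
    exact (PadicInt.pow_p_dvd_int_iff Z S).1 h3
  have hle : ((p : ℤ) ^ Z) ≤ |S| := Int.le_of_dvd (abs_pos.2 hne) ((dvd_abs _ _).2 hdvd)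
  set M : ℕ := (2 * p * (m * m')) ^ (12 * p * (m * m') * n) with hM
  have hM1 : 1 ≤ M := by
    rw [hM]
    apply Nat.one_le_pow
    have := hp.pos
    positivity
  have hterm : ∀ i : Fin T₁ × Fin T₂, |c i * ez p i.1 n * (A n : ℤ) ^ (i.2 : ℕ) *
      (B n : ℤ) ^ (T₂ - 1 - (i.2 : ℕ))| ≤
      ((p ^ e * p ^ T₁ * 2 ^ n * M ^ T₂ : ℕ) : ℤ) := by
    intro i
    have h1 : |c i| ≤ (p : ℤ) ^ e := (hc i).le
    have h2 : |ez p i.1 n| ≤ (p : ℤ) ^ T₁ * 2 ^ n := by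
      refine (ez_bound hp _ n).trans ?_
      have h5 : (p : ℤ) ^ (i.1 : ℕ) ≤ (p : ℤ) ^ T₁ :=
        pow_le_pow_right₀ (by exact_mod_cast hp.one_lt.le) i.1.2.le
      exact mul_le_mul_of_nonneg_right h5 (by positivity)
    have h3 : A n ^ (i.2 : ℕ) * B n ^ (T₂ - 1 - (i.2 : ℕ)) ≤ M ^ T₂ := by
      calc A n ^ (i.2 : ℕ) * B n ^ (T₂ - 1 - (i.2 : ℕ)) ≤
            M ^ (i.2 : ℕ) * M ^ (T₂ - 1 - (i.2 : ℕ)) :=
            Nat.mul_le_mul (Nat.pow_le_pow_left (hAM n) _) (Nat.pow_le_pow_left (hBM n) _)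
        _ = M ^ (T₂ - 1) := by
            rw [← pow_add]
            congr 1
            have := i.2.2
            omega
        _ ≤ M ^ T₂ := Nat.pow_le_pow_right hM1 (Nat.sub_le _ _)
    have h4 : (A n : ℤ) ^ (i.2 : ℕ) * (B n : ℤ) ^ (T₂ - 1 - (i.2 : ℕ)) ≤ (M : ℤ) ^ T₂ := by
      exact_mod_cast h3
    rw [mul_assoc (c i * ez p i.1 n), abs_mul, abs_mul,
      abs_of_nonneg (by positivity : (0 : ℤ) ≤ (A n : ℤ) ^ (i.2 : ℕ) *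
        (B n : ℤ) ^ (T₂ - 1 - (i.2 : ℕ)))]
    push_cast
    calc |c i| * |ez p i.1 n| * ((A n : ℤ) ^ (i.2 : ℕ) * (B n : ℤ) ^ (T₂ - 1 - (i.2 : ℕ)))
        ≤ ((p : ℤ) ^ e * ((p : ℤ) ^ T₁ * 2 ^ n)) * (M : ℤ) ^ T₂ := by
          refine mul_le_mul (mul_le_mul h1 h2 (abs_nonneg _) (by positivity)) h4
            (by positivity) (by positivity)
      _ = _ := by ring
  have hSb : |S| ≤ ((T₁ * T₂ * (p ^ e * p ^ T₁ * 2 ^ n * M ^ T₂) : ℕ) : ℤ) := by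
    rw [hS]
    refine (Finset.abs_sum_le_sum_abs _ _).trans ?_
    refine (Finset.sum_le_sum fun i _ => hterm i).trans ?_
    rw [Finset.sum_const, Finset.card_univ, Fintype.card_prod, Fintype.card_fin,
      Fintype.card_fin, nsmul_eq_mul]
    push_cast
    exact le_refl _
  have hfin : ((p ^ Z : ℕ) : ℤ) ≤ ((T₁ * T₂ * (p ^ e * p ^ T₁ * 2 ^ n * M ^ T₂) : ℕ) : ℤ) := by
    rw [Nat.cast_pow]
    exact hle.trans hSb
  have hfin2 : p ^ Z ≤ T₁ * T₂ * (p ^ e * p ^ T₁ * 2 ^ n * M ^ T₂) := by exact_mod_cast hfin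
  calc p ^ Z ≤ T₁ * T₂ * (p ^ e * p ^ T₁ * 2 ^ n * M ^ T₂) := hfin2
    _ = _ := by ring

end GamP
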