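import Pool.Agent.GamP.Pig
import Pool.Agent.GamP.Upper
import Pool.Agent.GamP.Irr
import Pool.Agent.GamP.PropN

/-!
# The main proposition: few algebraic values of bounded degree of the ratio
-/

namespace GamP

open Finset Polynomial

theorem exists_res {p : ℕ} [Fact p.Prime] (x : ℤ_[p]) :
    ∃ a < 2 * p ^ 4, ∃ z : ℤ_[p], x = (a : ℤ_[p]) + 2 * (p : ℤ_[p]) ^ 4 * z := by
  have hp : p.Prime := Fact.out
  obtain ⟨v, hv⟩ : ∃ v : ℤ_[p], (p : ℤ_[p]) ^ 5 = 2 * (p : ℤ_[p]) ^ 4 * v := by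
    by_cases h2 : p = 2
    · refine ⟨1, ?_⟩
      have h3 : ((p : ℕ) : ℤ_[p]) = ((2 : ℕ) : ℤ_[p]) := congrArg (Nat.cast) h2
      have h4 : (p : ℤ_[p]) = 2 := by rw [h3]; norm_num
      linear_combination ((p : ℤ_[p]) ^ 4) * h4
    · have hu : IsUnit (2 : ℤ_[p]) := by
        rw [PadicInt.isUnit_iff]
        have h3 : ¬ ‖((2 : ℤ) : ℤ_[p])‖ < 1 := by
          rw [PadicInt.norm_int_lt_one_iff_dvd]
          intro h
          have h4 : p ∣ 2 := by exact_mod_cast h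
          exact h2 ((Nat.prime_dvd_prime_iff_eq hp Nat.prime_two).mp h4)
        have h5 := PadicInt.norm_le_one ((2 : ℤ) : ℤ_[p])
        have h6 : ‖((2 : ℤ) : ℤ_[p])‖ = 1 := le_antisymm h5 (not_lt.mp h3)
        simpa using h6
      obtain ⟨u, hu⟩ := hu
      refine ⟨p * (u⁻¹ : (ℤ_[p])ˣ), ?_⟩
      have h7 : (2 : ℤ_[p]) * (u⁻¹ : (ℤ_[p])ˣ) = 1 := by
        rw [← hu]
        exact Units.mul_inv u
      calc (p : ℤ_[p]) ^ 5 = (2 * (u⁻¹ : (ℤ_[p])ˣ)) * (p : ℤ_[p]) ^ 5 := by rw [h7, one_mul]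
        _ = 2 * (p : ℤ_[p]) ^ 4 * (p * (u⁻¹ : (ℤ_[p])ˣ)) := by ring
  have h1 := PadicInt.appr_spec 5 x
  rw [Ideal.mem_span_singleton'] at h1
  obtain ⟨w, hw⟩ := h1
  have hq : 0 < 2 * p ^ 4 := Nat.mul_pos (by norm_num) (pow_pos hp.pos 4)
  refine ⟨x.appr 5 % (2 * p ^ 4), Nat.mod_lt _ hq, ((x.appr 5 / (2 * p ^ 4) : ℕ) : ℤ_[p]) + v * w, ?_⟩
  have h8 : x = (x.appr 5 : ℤ_[p]) + w * (p : ℤ_[p]) ^ 5 := by rw [hw]; ring
  have h9 : (x.appr 5 : ℤ_[p]) = ((x.appr 5 % (2 * p ^ 4) : ℕ) : ℤ_[p]) +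
      2 * (p : ℤ_[p]) ^ 4 * ((x.appr 5 / (2 * p ^ 4) : ℕ) : ℤ_[p]) := by
    have := Nat.mod_add_div (x.appr 5) (2 * p ^ 4)
    calc (x.appr 5 : ℤ_[p]) = ((x.appr 5 % (2 * p ^ 4) + 2 * p ^ 4 * (x.appr 5 / (2 * p ^ 4)) : ℕ)
          : ℤ_[p]) := by rw [this]
      _ = _ := by push_cast; ring
  rw [hv] at h8
  linear_combination h8 + h9

theorem propM {p : ℕ} [Fact p.Prime] {Γ : ℤ_[p] → ℤ_[p]} (h : IsMorita p Γ) {m m' : ℕ}
    (hm' : 0 < m') (hmm : m' < m) {D b lam : ℕ} (hD : 1 ≤ D) (hb : ¬ p ∣ b)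
    (hlam : 2 * p * (m * m') * b ≤ 2 ^ lam) (S : Finset ℕ)
    (hS : ∀ α ∈ S, α < b ∧ ∃ s y : ℤ_[p], (b : ℤ_[p]) * s = α ∧
      y * Γ (p * m' * s) ^ (4 * m) = Γ (p * m * s) ^ (4 * m') ∧ DegLE D y) :
    S.card ≤ 112 * 288 ^ 2 * p ^ 3 * (2 * p ^ 4) ^ 2 * (m * m') ^ 2 * lam ^ 4 * D ^ 4 := by
  classical
  have hp : p.Prime := Fact.out
  have hb0 : b ≠ 0 := by rintro rfl; exact hb (dvd_zero p)
  have hb1 : 1 ≤ b := Nat.one_le_iff_ne_zero.mpr hb0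
  have hm : 0 < m := by omega
  have hμ : 1 ≤ m * m' := Nat.mul_pos hm hm'
  have hαb : ∀ α ∈ S, α < b := fun α hα => (hS α hα).1
  choose! s y hs hy hdeg using fun α hα => (hS α hα).2
  choose! F hFirr hFdeg hFy using fun α hα => (hdeg α hα).exists_irred
  obtain ⟨Y, hY⟩ : ∃ Y : ℕ, ∀ α ∈ S, ∀ i, |(F α).coeff i| ≤ (Y : ℤ) := by
    refine ⟨∑ α ∈ S, ∑ i ∈ (F α).support, ((F α).coeff i).natAbs, fun α hα i => ?_⟩
    by_cases hi : i ∈ (F α).support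
    · have h1 : ((F α).coeff i).natAbs ≤ ∑ i ∈ (F α).support, ((F α).coeff i).natAbs :=
        Finset.single_le_sum (f := fun i => ((F α).coeff i).natAbs) (fun _ _ => Nat.zero_le _) hi
      have h2 : ∑ i ∈ (F α).support, ((F α).coeff i).natAbs ≤
          ∑ α ∈ S, ∑ i ∈ (F α).support, ((F α).coeff i).natAbs :=
        Finset.single_le_sum (f := fun α => ∑ i ∈ (F α).support, ((F α).coeff i).natAbs)
          (fun _ _ => Nat.zero_le _) hα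
      rw [Int.abs_eq_natAbs]
      exact_mod_cast h1.trans h2
    · rw [Polynomial.notMem_support_iff.mp hi, abs_zero]
      exact Int.natCast_nonneg _
  have hlam1 : 1 ≤ lam := by
    by_contra hc
    have h0 : lam = 0 := by omega
    rw [h0, pow_zero] at hlam
    have : 2 ≤ 2 * p * (m * m') * b := by
      have := hp.pos
      calc 2 = 2 * 1 * 1 * 1 := by norm_num
        _ ≤ 2 * p * (m * m') * b := by gcongr; exact this
    omega
  have hlam2 : 2 * p * (m * m') ≤ 2 ^ lam :=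
    le_trans (Nat.le_mul_of_pos_right _ hb1) hlam
  obtain ⟨T₂, hT₂⟩ : ∃ T₂, T₂ = 288 * lam * D ^ 2 := ⟨_, rfl⟩
  obtain ⟨N, hN⟩ : ∃ N, N = (D + T₂) ^ 2 + 1 + Y := ⟨_, rfl⟩
  obtain ⟨T₁, hT₁⟩ : ∃ T₁, T₁ = p * (m * m') * N * T₂ := ⟨_, rfl⟩
  have hN1 : 1 ≤ N := by rw [hN]; omega
  have hN2 : (D + T₂) ^ 2 + 1 ≤ N := by rw [hN]; omega
  have hYN : Y ≤ 2 ^ N := le_trans (by rw [hN]; omega) (Nat.lt_two_pow_self (n := N)).le
  have n1 := num1 hp.two_le hμ hD hlam1 hN1 T₁ T₂ hT₂ hT₁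
  have n2 := num2 hp.two_le hμ hD hb1 hlam T₁ T₂ hT₂ hT₁ hN2 hYN
  have n3 := num3 hp.two_le hμ hD hlam1 hN1 T₁ T₂ hT₂ hT₁
  -- the points
  let Pts : ℕ → Finset ℤ_[p] := fun a =>
    ((S ×ˢ range N).filter (fun q => ∃ z : ℤ_[p], s q.1 + (q.2 : ℤ_[p]) =
      (a : ℤ_[p]) + 2 * (p : ℤ_[p]) ^ 4 * z)).image (fun q => s q.1 + (q.2 : ℤ_[p]))
  have hPts : ∀ a < 2 * p ^ 4, (Pts a).card ≤
      112 * 288 ^ 2 * p ^ 3 * (2 * p ^ 4) * (m * m') ^ 2 * lam ^ 4 * D ^ 4 * N := by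
    intro a ha
    obtain ⟨c, hc0, hc, hcL⟩ := pigeon (ι := Fin T₁ × Fin T₂) p (36 * lam * D * T₁)
      (9 * lam * T₁ + 1) hp.two_le (fun i t => ez p i.1 (a + 2 * p ^ 4 * t) *
        (gz p (p * m * (a + 2 * p ^ 4 * t)) ^ (4 * m')) ^ (i.2 : ℕ) *
        (gz p (p * m' * (a + 2 * p ^ 4 * t)) ^ (4 * m)) ^ (T₂ - 1 - (i.2 : ℕ)))
      (by simpa using n1)
    have hsmall := GG_small h m m' T₁ T₂ c a (36 * lam * D * T₁) (fun t ht => by
      have h1 := hcL t ht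
      have h2 : GZ p m m' T₁ T₂ c (a + 2 * p ^ 4 * t) = ∑ i, c i *
          (ez p i.1 (a + 2 * p ^ 4 * t) *
          (gz p (p * m * (a + 2 * p ^ 4 * t)) ^ (4 * m')) ^ (i.2 : ℕ) *
          (gz p (p * m' * (a + 2 * p ^ 4 * t)) ^ (4 * m)) ^ (T₂ - 1 - (i.2 : ℕ))) := by
        unfold GZ
        refine Finset.sum_congr rfl fun i _ => ?_
        ring
      rw [h2]
      exact h1)
    have hzero : ∀ x ∈ Pts a, GG p Γ m m' T₁ T₂ c x = 0 := by
      intro x hx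
      simp only [Pts, mem_image, mem_filter, mem_product, mem_range] at hx
      obtain ⟨⟨α, n⟩, ⟨⟨hα, hn⟩, z, hz⟩, rfl⟩ := hx
      simp only at hα hn hz ⊢
      refine vanish h hm hm' (hαb α hα) (hs α hα) (hy α hα) (hFirr α hα) (hFy α hα)
        (hFdeg α hα) (hY α hα) hn c hc (K := 2 * (36 * lam * D * T₁)) ?_ n2
      rw [hz]
      exact hsmall z
    have hz2 := GG_zeros h m m' T₁ T₂ c a (Pts a) hzero (by
      intro x hx
      simp only [Pts, mem_image, mem_filter] at hx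
      obtain ⟨⟨α, n⟩, ⟨_, z, hz⟩, rfl⟩ := hx
      exact ⟨z, hz⟩)
    obtain ⟨n, hn1, hn2, hn3⟩ := upper h hm' hmm c hc0 hc n3 hz2
    exact num4 hp.two_le hμ hD hlam2 hN1 T₁ T₂ hT₂ hT₁ ha hn1 hn2 hn3
  -- all the points
  have hinj : Set.InjOn (fun q : ℕ × ℕ => s q.1 + (q.2 : ℤ_[p])) (S ×ˢ range N : Finset (ℕ × ℕ)) := by
    rintro ⟨α, n⟩ hq ⟨α', n'⟩ hq' heq
    simp only [coe_product, Set.mem_prod, mem_coe, mem_range] at hq hq'
    simp only at heq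
    have h1 : ((α + b * n : ℕ) : ℤ_[p]) = ((α' + b * n' : ℕ) : ℤ_[p]) := by
      push_cast
      rw [← hs α hq.1, ← hs α' hq'.1]
      linear_combination (b : ℤ_[p]) * heq
    have h2 : α + b * n = α' + b * n' := by exact_mod_cast h1
    have h3 : α = α' := by
      have h4 := congrArg (· % b) h2
      simpa [Nat.add_mul_mod_self_left, Nat.mod_eq_of_lt (hαb α hq.1),
        Nat.mod_eq_of_lt (hαb α' hq'.1)] using h4
    subst h3
    have h5 : n = n' := by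
      have h6 : b * n = b * n' := by omega
      exact Nat.eq_of_mul_eq_mul_left hb1 h6
    rw [h5]
  have hcard : S.card * N ≤ (2 * p ^ 4) *
      (112 * 288 ^ 2 * p ^ 3 * (2 * p ^ 4) * (m * m') ^ 2 * lam ^ 4 * D ^ 4 * N) := by
    calc S.card * N = (S ×ˢ range N).card := by rw [card_product, card_range]
      _ = ((S ×ˢ range N).image (fun q : ℕ × ℕ => s q.1 + (q.2 : ℤ_[p]))).card :=
          (card_image_of_injOn hinj).symm
      _ ≤ ((range (2 * p ^ 4)).biUnion Pts).card := by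
          apply card_le_card
          intro x hx
          simp only [mem_image] at hx
          obtain ⟨q, hq, rfl⟩ := hx
          obtain ⟨a, ha, z, hz⟩ := exists_res (s q.1 + (q.2 : ℤ_[p]))
          simp only [mem_biUnion, mem_range]
          refine ⟨a, ha, ?_⟩
          simp only [Pts, mem_image, mem_filter]
          exact ⟨q, ⟨hq, z, hz⟩, rfl⟩
      _ ≤ ∑ a ∈ range (2 * p ^ 4), (Pts a).card := card_biUnion_le
      _ ≤ ∑ a ∈ range (2 * p ^ 4),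
          (112 * 288 ^ 2 * p ^ 3 * (2 * p ^ 4) * (m * m') ^ 2 * lam ^ 4 * D ^ 4 * N) :=
          sum_le_sum fun a ha => hPts a (mem_range.mp ha)
      _ = _ := by rw [sum_const, card_range, smul_eq_mul]
  have hfin : S.card * N ≤
      (112 * 288 ^ 2 * p ^ 3 * (2 * p ^ 4) ^ 2 * (m * m') ^ 2 * lam ^ 4 * D ^ 4) * N := by
    refine hcard.trans (le_of_eq ?_)
    ring
  exact Nat.le_of_mul_le_mul_right hfin hN1

end GamP
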