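import Pool.Agent.GamP.PropA
import Pool.Agent.GamP.Cls

/-!
# The pair bound for additive shifts

PROOFS. Compare with `pair_bound` of `GamP/Cls` (same pattern).
* `pair_bound2`: `propA` with `D = d * d`. For `α ∈ S`: `s`, `c₁` with `b s = α`, `b c₁ = e` (`b` is a unit
  of `ℤ_[p]`); the `x` of `AlgAt Γ d (p*α) b` is `p s`, that of `AlgAt Γ d (p*(α+e)) b` is `p (s+c₁)`;
  `y := Γ(p(s+c₁)) * (Γ(p s))⁻¹`; `DegLE.ratio` with `k = l = 1`.
* `pair_bound3`: let `p' < b` be an inverse of `p` modulo `b` (if `b = 1` then `b ∣ δ`, excluded), for `a ∈ S`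
  let `α = p' a % b` (injective on `a < b`), `e = p' δ % b` (`0 < e < b` because `b ∤ δ`). Then
  `p α ≡ a`, `p (α + e) ≡ a + δ mod b`; use `algAt_mod` and `pair_bound2` for the image of `S`.
-/

namespace GamP

open Finset

variable {p : ℕ} [Fact p.Prime] {Γ : ℤ_[p] → ℤ_[p]}

theorem pair_bound2 (h : IsMorita p Γ) {d b e lam : ℕ} (hd : 1 ≤ d) (hb : ¬ p ∣ b)
    (he0 : 0 < e) (he : e < b) (hlam : 2 * p * b ≤ 2 ^ lam) (S : Finset ℕ)
    (hS : ∀ α ∈ S, α < b ∧ AlgAt Γ d (p * α) b ∧ AlgAt Γ d (p * (α + e)) b) :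
    S.card ≤ 3584 * p ^ 5 * lam ^ 2 * (d * d) ^ 3 := by
  have hb0 : b ≠ 0 := by rintro rfl; exact hb (dvd_zero p)
  have hbz : (b : ℤ_[p]) ≠ 0 := by exact_mod_cast hb0
  refine propA h (D := d * d) (Nat.mul_pos hd hd) hb he0 he hlam S ?_
  intro α hα
  obtain ⟨h1, ⟨x, hx, hdx⟩, ⟨x', hx', hdx'⟩⟩ := hS α hα
  obtain ⟨w, hw⟩ := (cls_isUnit (p := p) hb).exists_right_inv
  have hs : (b : ℤ_[p]) * (w * α) = α := by rw [← mul_assoc, hw, one_mul]
  have hc : (b : ℤ_[p]) * (w * e) = e := by rw [← mul_assoc, hw, one_mul]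
  have hxs : x = p * (w * α) := by
    apply mul_left_cancel₀ hbz
    rw [hx]; push_cast
    calc (p : ℤ_[p]) * α = (p : ℤ_[p]) * ((b : ℤ_[p]) * (w * α)) := by rw [hs]
      _ = _ := by ring
  have hxs' : x' = p * (w * α + w * e) := by
    apply mul_left_cancel₀ hbz
    rw [hx']; push_cast
    calc (p : ℤ_[p]) * (α + e) = (p : ℤ_[p]) * ((b : ℤ_[p]) * (w * α) + (b : ℤ_[p]) * (w * e)) := by
          rw [hs, hc]
      _ = _ := by ring
  rw [hxs] at hdx
  rw [hxs'] at hdx'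
  have hu : IsUnit (Γ (p * (w * α))) := by
    rw [PadicInt.isUnit_iff]; exact h.norm _
  obtain ⟨z, hz⟩ := hu.exists_left_inv
  refine ⟨h1, w * α, w * e, Γ (p * (w * α + w * e)) * z, hs, hc, ?_, ?_⟩
  · rw [mul_assoc, hz, mul_one]
  · refine hdx'.ratio hdx hu.ne_zero (k := 1) (l := 1) ?_
    rw [pow_one, pow_one, mul_assoc, hz, mul_one]

theorem pair_bound3 (h : IsMorita p Γ) {d b δ lam : ℕ} (hd : 1 ≤ d) (hb : ¬ p ∣ b)
    (hδ : ¬ b ∣ δ) (hlam : 2 * p * b ≤ 2 ^ lam) (S : Finset ℕ)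
    (hS : ∀ a ∈ S, a < b ∧ AlgAt Γ d a b ∧ AlgAt Γ d (a + δ) b) :
    S.card ≤ 3584 * p ^ 5 * lam ^ 2 * (d * d) ^ 3 := by
  have hp : p.Prime := Fact.out
  have hb0 : b ≠ 0 := by rintro rfl; exact hb (dvd_zero p)
  have hbpos : 0 < b := Nat.pos_of_ne_zero hb0
  have hcop : Nat.Coprime p b := (Nat.Prime.coprime_iff_not_dvd hp).2 hb
  have hb1 : 1 < b := by
    rcases Nat.lt_or_ge 1 b with h1 | h1
    · exact h1
    · exfalso
      have : b = 1 := by omega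
      rw [this] at hδ
      exact hδ (one_dvd δ)
  obtain ⟨p', hp'⟩ : ∃ p' : ℕ, p * p' ≡ 1 [MOD b] := by
    obtain ⟨m, -, hm⟩ := Nat.exists_mul_mod_eq_one_of_coprime hcop hb1
    refine ⟨m, ?_⟩
    show p * m % b = 1 % b
    rw [hm, Nat.mod_eq_of_lt hb1]
  have hkey : ∀ a : ℕ, p * (p' * a % b) ≡ a [MOD b] := by
    intro a
    have h1 : p * (p' * a % b) ≡ p * (p' * a) [MOD b] := (Nat.mod_modEq _ _).mul_left p
    have h2 : p * (p' * a) ≡ 1 * a [MOD b] := by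
      rw [← mul_assoc]
      exact hp'.mul_right a
    rw [one_mul] at h2
    exact h1.trans h2
  set e : ℕ := p' * δ % b with he
  have he1 : e < b := Nat.mod_lt _ hbpos
  have he0 : 0 < e := by
    rcases Nat.eq_zero_or_pos e with h0 | h0
    · exfalso
      have h1 := hkey δ
      rw [← he, h0, mul_zero] at h1
      exact hδ ((Nat.modEq_zero_iff_dvd).1 h1.symm)
    · exact h0
  have hinj : Set.InjOn (fun a => p' * a % b) (S : Set ℕ) := by
    intro a ha a' ha' haa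
    have h1 := hkey a
    have h2 := hkey a'
    simp only at haa
    rw [haa] at h1
    have h3 : a ≡ a' [MOD b] := h1.symm.trans h2
    exact Nat.ModEq.eq_of_lt_of_lt h3 (hS a ha).1 (hS a' ha').1
  rw [← card_image_of_injOn hinj]
  refine pair_bound2 h hd hb he0 he1 hlam _ ?_
  intro α hα
  obtain ⟨a, ha, rfl⟩ := mem_image.1 hα
  obtain ⟨h1, h2, h3⟩ := hS a ha
  refine ⟨Nat.mod_lt _ hbpos, (algAt_mod h hb (hkey a) d).2 h2, (algAt_mod h hb ?_ d).2 h3⟩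
  rw [mul_add]
  exact (hkey a).add (hkey δ)

end GamP
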