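import Pool.Agent.GamP.Cls

/-!
# Counting for a whole denominator: the combinatorial inequality

PROOF of `countA`. Let `A = {a < b : (a,b)=1, AlgAt Γ d a b}` and for `l ∈ P` let
`A_l = {α < b : (α,b)=1, AlgAt Γ d (p*l*α) b}`. `α ↦ p*l*α % b` is a bijection `A_l → A` (`p l` is prime
to `b`; `algAt_mod`), so `#A_l = #A`. For `α < b` let `r(α) = #{l ∈ P : α ∈ A_l}`;
`r ≤ 1 + #{(l, l') ∈ P × P : l' < l, α ∈ A_l ∩ A_{l'}}` (if `r ≥ 1`, pair the largest `l` with the `r - 1`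
others). Sum over `α < b`:
`#P * #A = ∑_α r(α) ≤ b + ∑_{l' < l} #(A_l ∩ A_{l'}) ≤ b + (#P)^2 * max`, and `pair_bound` with `m = l`,
`m' = l'` (`l' > 0` prime, `l l' ≤ K^2`, `2 p l l' b ≤ 2 p K^2 b ≤ 2^lam`) bounds `#(A_l ∩ A_{l'})` by
`112 * 288² p³ (2p⁴)² (K²)² lam⁴ (d d)⁴`.
-/

namespace GamP

open Finset

private theorem card_pairs (X : Finset ℕ) :
    X.card ≤ 1 + ((X ×ˢ X).filter (fun q : ℕ × ℕ => q.2 < q.1)).card := by
  rcases X.eq_empty_or_nonempty with hX | hX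
  · subst hX
    simp
  · have hM := X.max'_mem hX
    have h1 : (X.erase (X.max' hX)).card ≤
        ((X ×ˢ X).filter (fun q : ℕ × ℕ => q.2 < q.1)).card := by
      apply Finset.card_le_card_of_injOn (fun l => (X.max' hX, l))
      · intro l hl
        have hl' := Finset.mem_erase.1 (Finset.mem_coe.1 hl)
        refine Finset.mem_coe.2 (Finset.mem_filter.2 ⟨Finset.mem_product.2 ⟨hM, hl'.2⟩, ?_⟩)
        exact lt_of_le_of_ne (X.le_max' l hl'.2) hl'.1
      · intro l _ l' _ h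
        exact (Prod.mk.injEq _ _ _ _ ▸ h : _ ∧ _).2
    have h2 := Finset.card_erase_add_one hM
    omega

open Classical in
private theorem card_shift {p : ℕ} [Fact p.Prime] {Γ : ℤ_[p] → ℤ_[p]} (h : IsMorita p Γ)
    {d b l : ℕ} (hb : ¬ p ∣ b) (hl : l.Coprime b) :
    ((range b).filter (fun a => a.Coprime b ∧ AlgAt Γ d a b)).card ≤
      ((range b).filter (fun α => α.Coprime b ∧ AlgAt Γ d (p * l * α) b)).card := by
  have hp : p.Prime := Fact.out
  have hb0 : 0 < b := by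
    rcases Nat.eq_zero_or_pos b with h0 | h0
    · exact absurd (h0 ▸ dvd_zero p) hb
    · exact h0
  have hpb : p.Coprime b := (Nat.Prime.coprime_iff_not_dvd hp).2 hb
  have hplb : (p * l).Coprime b := Nat.Coprime.mul_left hpb hl
  set S : Finset ℕ := (range b).filter (fun a => a.Coprime b) with hS
  let f : ℕ → ℕ := fun α => p * l * α % b
  have hfS : ∀ α ∈ S, f α ∈ S := by
    intro α hα
    rw [hS, Finset.mem_filter, Finset.mem_range] at hα ⊢
    refine ⟨Nat.mod_lt _ hb0, ?_⟩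
    have h1 : (p * l * α).Coprime b := Nat.Coprime.mul_left hplb hα.2
    change Nat.gcd (p * l * α % b) b = 1
    rw [← Nat.gcd_rec, Nat.gcd_comm]
    exact h1
  have hinj : Set.InjOn f (S : Set ℕ) := by
    intro α hα α' hα' hff
    have hα1 := (Finset.mem_filter.1 (Finset.mem_coe.1 hα)).1
    have hα2 := (Finset.mem_filter.1 (Finset.mem_coe.1 hα')).1
    rw [Finset.mem_range] at hα1 hα2
    have h1 : p * l * α ≡ p * l * α' [MOD b] := hff
    have h2 : α ≡ α' [MOD b] := Nat.ModEq.cancel_left_of_coprime hplb.symm h1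
    exact h2.eq_of_lt_of_lt hα1 hα2
  have himg : S.image f = S := by
    apply Finset.eq_of_subset_of_card_le
    · intro x hx
      obtain ⟨α, hα, rfl⟩ := Finset.mem_image.1 hx
      exact hfS α hα
    · rw [Finset.card_image_of_injOn hinj]
  refine (Finset.card_le_card (t := ((range b).filter (fun α => α.Coprime b ∧
    AlgAt Γ d (p * l * α) b)).image f) ?_).trans Finset.card_image_le
  intro a ha
  rw [Finset.mem_filter] at ha
  have haS : a ∈ S := Finset.mem_filter.2 ⟨ha.1, ha.2.1⟩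
  rw [← himg] at haS
  obtain ⟨α, hα, hfa⟩ := Finset.mem_image.1 haS
  rw [hS, Finset.mem_filter] at hα
  refine Finset.mem_image.2 ⟨α, Finset.mem_filter.2 ⟨hα.1, hα.2, ?_⟩, hfa⟩
  have h1 : p * l * α ≡ a [MOD b] := by
    rw [← hfa]
    exact (Nat.mod_modEq _ _).symm
  exact (algAt_mod h hb h1 d).2 ha.2.2

open Classical in
theorem countA {p : ℕ} [Fact p.Prime] {Γ : ℤ_[p] → ℤ_[p]} (h : IsMorita p Γ) {d b K lam : ℕ}
    (hd : 1 ≤ d) (hb : ¬ p ∣ b) (hlam : 2 * p * K ^ 2 * b ≤ 2 ^ lam) (P : Finset ℕ)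
    (hP : ∀ l ∈ P, l.Prime ∧ l ≤ K ∧ l.Coprime b) :
    P.card * ((range b).filter (fun a => a.Coprime b ∧ AlgAt Γ d a b)).card ≤
      b + P.card ^ 2 * (112 * 288 ^ 2 * p ^ 3 * (2 * p ^ 4) ^ 2 * (K ^ 2) ^ 2 * lam ^ 4 *
        (d * d) ^ 4) := by
  set BD : ℕ := 112 * 288 ^ 2 * p ^ 3 * (2 * p ^ 4) ^ 2 * (K ^ 2) ^ 2 * lam ^ 4 *
    (d * d) ^ 4 with hBD
  let rel : ℕ → ℕ → Prop := fun l α => α.Coprime b ∧ AlgAt Γ d (p * l * α) b
  have h1 : P.card * ((range b).filter (fun a => a.Coprime b ∧ AlgAt Γ d a b)).card ≤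
      ∑ l ∈ P, ((range b).filter (rel l)).card := by
    rw [← smul_eq_mul]
    exact Finset.card_nsmul_le_sum P _ _ fun l hl => card_shift h hb (hP l hl).2.2
  have h2 : ∑ l ∈ P, ((range b).filter (rel l)).card =
      ∑ α ∈ range b, (P.filter (fun l => rel l α)).card :=
    Finset.sum_card_bipartiteAbove_eq_sum_card_bipartiteBelow (s := P) (t := range b) rel
  have h3 : ∑ α ∈ range b, (P.filter (fun l => rel l α)).card ≤
      ∑ α ∈ range b, (1 + ((P ×ˢ P).filter
        (fun q : ℕ × ℕ => q.2 < q.1 ∧ rel q.1 α ∧ rel q.2 α)).card) := by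
    refine Finset.sum_le_sum fun α _ => ?_
    refine (card_pairs _).trans ?_
    refine Nat.add_le_add_left (Finset.card_le_card ?_) 1
    intro q hq
    rw [Finset.mem_filter, Finset.mem_product, Finset.mem_filter, Finset.mem_filter] at hq
    rw [Finset.mem_filter, Finset.mem_product]
    exact ⟨⟨hq.1.1.1, hq.1.2.1⟩, hq.2, hq.1.1.2, hq.1.2.2⟩
  have h4 : ∑ α ∈ range b, ((P ×ˢ P).filter
        (fun q : ℕ × ℕ => q.2 < q.1 ∧ rel q.1 α ∧ rel q.2 α)).card =
      ∑ q ∈ P ×ˢ P, ((range b).filter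
        (fun α => q.2 < q.1 ∧ rel q.1 α ∧ rel q.2 α)).card :=
    (Finset.sum_card_bipartiteAbove_eq_sum_card_bipartiteBelow (s := P ×ˢ P) (t := range b)
      (fun (q : ℕ × ℕ) (α : ℕ) => q.2 < q.1 ∧ rel q.1 α ∧ rel q.2 α)).symm
  have h5 : ∑ q ∈ P ×ˢ P, ((range b).filter
        (fun α => q.2 < q.1 ∧ rel q.1 α ∧ rel q.2 α)).card ≤ P.card ^ 2 * BD := by
    have h6 : ∀ q ∈ P ×ˢ P, ((range b).filter
        (fun α => q.2 < q.1 ∧ rel q.1 α ∧ rel q.2 α)).card ≤ BD := by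
      intro q hq
      rw [Finset.mem_product] at hq
      by_cases hlt : q.2 < q.1
      · have hK1 := (hP q.1 hq.1).2.1
        have hK2 := (hP q.2 hq.2).2.1
        have hKK : q.1 * q.2 ≤ K ^ 2 := by
          rw [sq]
          exact Nat.mul_le_mul hK1 hK2
        have hb1 := pair_bound h (m := q.1) (m' := q.2) (hP q.2 hq.2).1.pos hlt hd hb
          (lam := lam) (le_trans (Nat.mul_le_mul_right b (Nat.mul_le_mul_left (2 * p) hKK)) hlam)
          ((range b).filter (fun α => q.2 < q.1 ∧ rel q.1 α ∧ rel q.2 α)) (by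
            intro α hα
            rw [Finset.mem_filter, Finset.mem_range] at hα
            exact ⟨hα.1, hα.2.2.1.2, hα.2.2.2.2⟩)
        refine hb1.trans ?_
        rw [hBD]
        gcongr
      · rw [Finset.filter_eq_empty_iff.2 (fun α _ hα => hlt hα.1)]
        simp
    refine (Finset.sum_le_card_nsmul _ _ _ h6).trans ?_
    rw [Finset.card_product, smul_eq_mul, sq]
  have h7 : ∑ α ∈ range b, (1 + ((P ×ˢ P).filter
        (fun q : ℕ × ℕ => q.2 < q.1 ∧ rel q.1 α ∧ rel q.2 α)).card) ≤ b + P.card ^ 2 * BD := by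
    rw [Finset.sum_add_distrib, Finset.sum_const, Finset.card_range, smul_eq_mul, mul_one, h4]
    exact Nat.add_le_add_left h5 b
  exact h1.trans (h2.le.trans (h3.trans h7))

end GamP
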