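import Pool.Agent.GamP.Cls

/-!
# Counting along the multiples `a, 2a, ..., Ma`

PROOF of `countB`. Put `C = 112 * 288² p³ (2p⁴)² 2² lam⁴ (d d)⁴`. If `b = 0`: excluded (`p ∤ b`). Let
`O = {k : 2k+1 ≤ M/2}` (`m = 2k+1` odd with `2m ≤ M`); `4 * #O ≥ M - 1`... precisely
`#O = (M/2 + 1)/2`. For `m` odd with `2m ≤ M` let `α_m < b` be the residue with
`p α_m ≡ m a mod b` (`p` is prime to `b`). The `α_m` are distinct for distinct `m ≤ M/2 ≤ b/2`,
`m ≥ 1` (`a`, `p` prime to `b`: `m ≡ m' mod b`, `m, m' < b` or `m = m'`; if `M/2 < b` fine: `b ≥ 1` and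
`M ≤ b` give `m ≤ M/2 < b`). Let `S = {α_m : m ∈ O, AlgAt Γ d (m a) b ∧ AlgAt Γ d (2 m a) b}`. By
`algAt_mod`, `AlgAt Γ d (p*1*α_m) b` and `AlgAt Γ d (p*2*α_m) b`, so `pair_bound` with `m = 2`, `m' = 1`
gives `#S ≤ C`. For the other `m ∈ O`, one of `m`, `2m` is in the set
`Bad = {n : 1 ≤ n ≤ M, ¬ AlgAt Γ d (n a) b}`; the sets `{m, 2m}`, `m` odd, are disjoint (`m` is determined
by the odd part), so `#O ≤ #S + #Bad`. Hence `M ≤ 4 #O + 1 ≤ 4 C + 4 #Bad + 4`.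
-/

namespace GamP

open Finset

open Classical in
theorem countB {p : ℕ} [Fact p.Prime] {Γ : ℤ_[p] → ℤ_[p]} (h : IsMorita p Γ) {d b lam : ℕ}
    (hd : 1 ≤ d) (hb : ¬ p ∣ b) (hlam : 2 * p * (2 * 1) * b ≤ 2 ^ lam) {a M : ℕ}
    (ha : a.Coprime b) (hM : M ≤ b) :
    M ≤ 4 * ((Icc 1 M).filter (fun n => ¬ AlgAt Γ d (n * a) b)).card +
      4 * (112 * 288 ^ 2 * p ^ 3 * (2 * p ^ 4) ^ 2 * (2 * 1) ^ 2 * lam ^ 4 * (d * d) ^ 4) + 4 := by
  have hp : p.Prime := Fact.out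
  have hb0 : 0 < b := by
    rcases Nat.eq_zero_or_pos b with h0 | h0
    · exact absurd (h0 ▸ dvd_zero p) hb
    · exact h0
  have hne : NeZero b := ⟨hb0.ne'⟩
  have hpb : p.Coprime b := (Nat.Prime.coprime_iff_not_dvd hp).2 hb
  -- the residue with `p α ≡ m a`
  obtain ⟨α, hαlt, hα⟩ : ∃ α : ℕ → ℕ, (∀ m, α m < b) ∧ ∀ m, p * α m ≡ m * a [MOD b] := by
    refine ⟨fun m => (((m * a : ℕ) : ZMod b) * ((p : ℕ) : ZMod b)⁻¹).val, fun m => ZMod.val_lt _,
      fun m => ?_⟩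
    rw [← ZMod.natCast_eq_natCast_iff]
    rw [Nat.cast_mul, ZMod.natCast_zmod_val, mul_comm, mul_assoc, mul_comm (((p : ℕ) : ZMod b)⁻¹),
      ZMod.coe_mul_inv_eq_one p hpb, mul_one]
  set K : ℕ := (M + 2) / 4 with hK
  have hK1 : M ≤ 4 * K + 1 := by omega
  have hK2 : ∀ k ∈ range K, 2 * (2 * k + 1) ≤ M := by
    intro k hk
    rw [mem_range] at hk
    omega
  have hK3 : ∀ k ∈ range K, 2 * k + 1 < b := by
    intro k hk
    have := hK2 k hk
    omega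
  set G : Finset ℕ := (range K).filter (fun k => AlgAt Γ d ((2 * k + 1) * a) b ∧
    AlgAt Γ d (2 * (2 * k + 1) * a) b) with hG
  have hinj : Set.InjOn (fun k => α (2 * k + 1)) (G : Set ℕ) := by
    intro k hk k' hk' hkk
    have hk1 := hK3 k (mem_filter.1 hk).1
    have hk2 := hK3 k' (mem_filter.1 hk').1
    have h1 := hα (2 * k + 1)
    have h2 := hα (2 * k' + 1)
    have hkk' : α (2 * k + 1) = α (2 * k' + 1) := hkk
    rw [hkk'] at h1
    have h3 : (2 * k + 1) * a ≡ (2 * k' + 1) * a [MOD b] := h1.symm.trans h2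
    have h4 : 2 * k + 1 ≡ 2 * k' + 1 [MOD b] :=
      Nat.ModEq.cancel_right_of_coprime (by rw [Nat.gcd_comm]; exact ha) h3
    have h5 := Nat.ModEq.eq_of_lt_of_lt h4 hk1 hk2
    omega
  have hS : (G.image (fun k => α (2 * k + 1))).card ≤
      112 * 288 ^ 2 * p ^ 3 * (2 * p ^ 4) ^ 2 * (2 * 1) ^ 2 * lam ^ 4 * (d * d) ^ 4 := by
    apply pair_bound h (by norm_num) (by norm_num) hd hb hlam
    intro x hx
    obtain ⟨k, hk, rfl⟩ := mem_image.1 hx
    obtain ⟨_, hk1, hk2⟩ := mem_filter.1 hk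
    have h1 := hα (2 * k + 1)
    refine ⟨hαlt _, ?_, ?_⟩
    · refine (algAt_mod h hb ?_ d).2 hk2
      have h2 := h1.mul_left 2
      have e1 : p * 2 * α (2 * k + 1) = 2 * (p * α (2 * k + 1)) := by ring
      have e2 : 2 * (2 * k + 1) * a = 2 * ((2 * k + 1) * a) := by ring
      rw [e1, e2]
      exact h2
    · refine (algAt_mod h hb ?_ d).2 hk1
      rw [mul_one]
      exact h1
  rw [card_image_of_injOn hinj] at hS
  have hrest : ((range K).filter (fun k => ¬ (AlgAt Γ d ((2 * k + 1) * a) b ∧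
      AlgAt Γ d (2 * (2 * k + 1) * a) b))).card ≤
      ((Icc 1 M).filter (fun n => ¬ AlgAt Γ d (n * a) b)).card := by
    apply card_le_card_of_injOn (fun k => if AlgAt Γ d ((2 * k + 1) * a) b then
      2 * (2 * k + 1) else 2 * k + 1)
    · intro k hk
      obtain ⟨hk1, hk2⟩ := mem_filter.1 hk
      have h3 := hK2 k hk1
      by_cases hc : AlgAt Γ d ((2 * k + 1) * a) b
      · simp only [hc, if_true]
        refine mem_filter.2 ⟨mem_Icc.2 ⟨by omega, h3⟩, fun h4 => hk2 ⟨hc, h4⟩⟩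
      · simp only [hc, if_false]
        refine mem_filter.2 ⟨mem_Icc.2 ⟨by omega, by omega⟩, hc⟩
    · intro k hk k' hk' hkk
      by_cases hc : AlgAt Γ d ((2 * k + 1) * a) b <;>
        by_cases hc' : AlgAt Γ d ((2 * k' + 1) * a) b <;>
        simp only [hc, hc', if_true, if_false] at hkk <;> omega
  have hcount := card_filter_add_card_filter_not (s := range K)
    (fun k => AlgAt Γ d ((2 * k + 1) * a) b ∧ AlgAt Γ d (2 * (2 * k + 1) * a) b)
  rw [card_range, ← hG] at hcount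
  omega

end GamP
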