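import Pool.Agent.GamP.ClsB

/-!
# Counting in arithmetic progressions

PROOF of `countC`. `K = 3584 p^5 lam² (d d)³`. Let `A = {m < M : AlgAt Γ d (a₀ + m a₁) b}`. The number of
ordered pairs `(m, m') ∈ A × A`, `m ≠ m'`, is `#A (#A - 1)` (`offDiag`), twice the number of pairs
`m < m'`. Group these by `δ = m' - m ∈ [1, M-1]`: for each `δ` the set `A_δ = {m ∈ A : m + δ ∈ A}` has at
most `K` elements: the map `m ↦ (a₀ + m a₁) % b` is injective on `m < M ≤ b` (`a₁` prime to `b`), its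
image `S` satisfies the hypothesis of `pair_bound3` with `δ := δ * a₁` (`b ∤ δ a₁` since `0 < δ < b` and
`a₁` is prime to `b`; `(a₀ + m a₁) % b + δ a₁ ≡ a₀ + (m+δ) a₁`, `algAt_mod`). So
`#A (#A - 1) ≤ 2 (M-1) K ≤ 2 M K`.
-/

namespace GamP

open Finset

open Classical in
theorem countC {p : ℕ} [Fact p.Prime] {Γ : ℤ_[p] → ℤ_[p]} (h : IsMorita p Γ)
    {d b lam a₀ a₁ M : ℕ} (hd : 1 ≤ d) (hb : ¬ p ∣ b) (hlam : 2 * p * b ≤ 2 ^ lam)
    (ha₁ : a₁.Coprime b) (hM : M ≤ b) :
    ((range M).filter (fun m => AlgAt Γ d (a₀ + m * a₁) b)).card *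
      (((range M).filter (fun m => AlgAt Γ d (a₀ + m * a₁) b)).card - 1) ≤
      2 * M * (3584 * p ^ 5 * lam ^ 2 * (d * d) ^ 3) := by
  set A : Finset ℕ := (range M).filter (fun m => AlgAt Γ d (a₀ + m * a₁) b) with hA
  set K : ℕ := 3584 * p ^ 5 * lam ^ 2 * (d * d) ^ 3 with hK
  have hAδ : ∀ δ ∈ Ico 1 M, (A.filter (fun m => m + δ ∈ A)).card ≤ K := by
    intro δ hδ
    rw [mem_Ico] at hδ
    have hb0 : 0 < b := by omega
    have hinj : Set.InjOn (fun m => (a₀ + m * a₁) % b)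
        ((A.filter (fun m => m + δ ∈ A) : Finset ℕ) : Set ℕ) := by
      intro m hm m' hm' hmm
      rw [mem_coe, mem_filter, hA, mem_filter, mem_range] at hm hm'
      have h1 : a₀ + m * a₁ ≡ a₀ + m' * a₁ [MOD b] := hmm
      have h2 := Nat.ModEq.add_left_cancel' a₀ h1
      have h3 := Nat.ModEq.cancel_right_of_coprime (Nat.Coprime.symm ha₁) h2
      exact h3.eq_of_lt_of_lt (by omega) (by omega)
    rw [← card_image_of_injOn hinj]
    apply pair_bound3 h (δ := δ * a₁) hd hb ?_ hlam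
    · intro a ha
      obtain ⟨m, hm, rfl⟩ := mem_image.1 ha
      rw [mem_filter, hA, mem_filter, mem_filter] at hm
      refine ⟨Nat.mod_lt _ hb0, ?_, ?_⟩
      · exact (algAt_mod h hb (Nat.mod_modEq _ _) d).2 hm.1.2
      · refine (algAt_mod h hb ?_ d).2 hm.2.2
        have h1 : (a₀ + m * a₁) % b + δ * a₁ ≡ a₀ + m * a₁ + δ * a₁ [MOD b] :=
          (Nat.mod_modEq _ _).add_right _
        have h2 : a₀ + m * a₁ + δ * a₁ = a₀ + (m + δ) * a₁ := by ring
        rwa [h2] at h1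
    · intro hdvd
      have h1 := Nat.Coprime.dvd_of_dvd_mul_right (Nat.Coprime.symm ha₁) hdvd
      have h2 := Nat.le_of_dvd (by omega) h1
      omega
  set T : Finset (ℕ × ℕ) := (Ico 1 M).biUnion
    (fun δ => (A.filter (fun m => m + δ ∈ A)).image (fun m => (m, m + δ))) with hT
  have hTc : T.card ≤ M * K := by
    refine card_biUnion_le.trans ?_
    have h1 : ∑ δ ∈ Ico 1 M, ((A.filter (fun m => m + δ ∈ A)).image (fun m => (m, m + δ))).card ≤
        ∑ δ ∈ Ico 1 M, K := sum_le_sum fun δ hδ => card_image_le.trans (hAδ δ hδ)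
    refine h1.trans ?_
    rw [sum_const, smul_eq_mul, Nat.card_Ico]
    exact Nat.mul_le_mul_right _ (Nat.sub_le _ _)
  have hmem : ∀ m m', m ∈ A → m' ∈ A → m < m' → (m, m') ∈ T := by
    intro m m' hm hm' hlt
    have hM' : m' < M := by
      rw [hA, mem_filter, mem_range] at hm'
      exact hm'.1
    rw [hT, mem_biUnion]
    refine ⟨m' - m, mem_Ico.2 ⟨by omega, by omega⟩, ?_⟩
    rw [mem_image]
    have e : m + (m' - m) = m' := by omega
    exact ⟨m, mem_filter.2 ⟨hm, by rw [e]; exact hm'⟩, by rw [e]⟩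
  have hsub : A.offDiag ⊆ T ∪ T.image Prod.swap := by
    intro x hx
    rw [mem_offDiag] at hx
    obtain ⟨h1, h2, h3⟩ := hx
    rw [mem_union]
    rcases lt_or_gt_of_ne h3 with h4 | h4
    · left
      exact hmem x.1 x.2 h1 h2 h4
    · right
      rw [mem_image]
      exact ⟨(x.2, x.1), hmem x.2 x.1 h2 h1 h4, rfl⟩
  have hcard := card_le_card hsub
  rw [offDiag_card] at hcard
  have h5 : (T ∪ T.image Prod.swap).card ≤ T.card + T.card :=
    (card_union_le _ _).trans (Nat.add_le_add_left card_image_le _)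
  have h6 : A.card * (A.card - 1) = A.card * A.card - A.card := by
    rw [Nat.mul_sub, mul_one]
  rw [h6]
  calc A.card * A.card - A.card ≤ T.card + T.card := hcard.trans h5
    _ ≤ M * K + M * K := Nat.add_le_add hTc hTc
    _ = 2 * M * K := by ring

end GamP
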