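import Mathlib

/-!
# MP_ca58c9_nt: algebraic values of Morita's p-adic gamma function: definitions

See `Pool/Agent/GamP/BLUEPRINT.md` for the whole proof.
-/

namespace GamP

open Finset Polynomial

/-- `Γ` is Morita's `p`-adic gamma function. -/
def IsMorita (p : ℕ) [Fact p.Prime] (Γ : ℤ_[p] → ℤ_[p]) : Prop :=
  Continuous Γ ∧ ∀ n : ℕ, 1 ≤ n →
    Γ (n : ℤ_[p]) = (-1) ^ n * ∏ j ∈ (range n).filter (fun j => ¬ p ∣ j), (j : ℤ_[p])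

/-- `y` is algebraic over `ℚ` of degree at most `d`: it is a root of a nonzero integer polynomial
of degree at most `d`. -/
def DegLE {p : ℕ} [Fact p.Prime] (d : ℕ) (y : ℤ_[p]) : Prop :=
  ∃ F : ℤ[X], F ≠ 0 ∧ F.natDegree ≤ d ∧ aeval y F = 0

/-- the integer `(-1)^n ∏_{0<j<n, p∤j} j` -/
def gz (p n : ℕ) : ℤ := (-1) ^ n * ∏ j ∈ (range n).filter (fun j => ¬ p ∣ j), (j : ℤ)

/-- All `k`-th differences of the integer sequence `g` are divisible by `M ^ k`. -/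
def DD (M : ℤ) (g : ℕ → ℤ) : Prop := ∀ k t : ℕ, M ^ k ∣ (fwdDiff 1)^[k] g t

/-- the integer `p^{v_p(i!)} * binomial(n,i)` -/
def ez (p i n : ℕ) : ℤ := (p : ℤ) ^ (padicValNat p i.factorial) * (n.choose i : ℤ)

/-- the `p`-adic function `p^{v_p(i!)} * binomial(z,i)` -/
noncomputable def ep (p : ℕ) [Fact p.Prime] (i : ℕ) (z : ℤ_[p]) : ℤ_[p] :=
  (p : ℤ_[p]) ^ (padicValNat p i.factorial) * Ring.choose z i

/-- `∏_{0 < k < pmn, p ∤ k} (p m α + k β)`, that is `β^{(p-1)mn} ∏ (p m s + k)` for `s = α / β` -/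
def rt (p m α β n : ℕ) : ℕ :=
  ∏ k ∈ (range (p * m * n)).filter (fun k => ¬ p ∣ k), (p * m * α + k * β)

/-- the auxiliary function
`G(z) = ∑ c_{ij} p^{v(i!)} binomial(z,i) Γ(pmz)^{4m'j} Γ(pm'z)^{4m(T₂-1-j)}` -/
noncomputable def GG (p : ℕ) [Fact p.Prime] (Γ : ℤ_[p] → ℤ_[p]) (m m' T₁ T₂ : ℕ)
    (c : Fin T₁ × Fin T₂ → ℤ) (z : ℤ_[p]) : ℤ_[p] :=
  ∑ i : Fin T₁ × Fin T₂, (c i : ℤ_[p]) * ep p i.1 z *
    (Γ (p * m * z) ^ (4 * m')) ^ (i.2 : ℕ) * (Γ (p * m' * z) ^ (4 * m)) ^ (T₂ - 1 - (i.2 : ℕ))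

/-- the integer sequence `t ↦ G(a + q t)` with `q = 2 p^4` -/
def GZ (p m m' T₁ T₂ : ℕ) (c : Fin T₁ × Fin T₂ → ℤ) (n : ℕ) : ℤ :=
  ∑ i : Fin T₁ × Fin T₂, c i * ez p i.1 n *
    (gz p (p * m * n) ^ (4 * m')) ^ (i.2 : ℕ) * (gz p (p * m' * n) ^ (4 * m)) ^ (T₂ - 1 - (i.2 : ℕ))

/-- `Γ(a/b)` is algebraic of degree at most `d` -/
def AlgAt {p : ℕ} [Fact p.Prime] (Γ : ℤ_[p] → ℤ_[p]) (d a b : ℕ) : Prop :=
  ∃ x : ℤ_[p], (b : ℤ_[p]) * x = a ∧ DegLE d (Γ x)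

end GamP
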