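import Pool.Agent.GamP.Defs

/-!
# MP_ca58c9_nt, second theorem (additive shifts): definitions

See `Pool/Agent/GamP/BLUEPRINT2.md`.
-/

namespace GamP

open Finset Polynomial

/-- All `k`-th differences of the sequence `g` are divisible by `M ^ k`. -/
def DR {R : Type*} [CommRing R] (M : R) (g : ℕ → R) : Prop :=
  ∀ k t : ℕ, M ^ k ∣ (fwdDiff 1)^[k] g t

/-- the auxiliary function
`G(z) = ∑ c_{ij} p^{v(i!)} binomial(z,i) Γ(p(z+c₁))^j Γ(pz)^(T₂-1-j)` -/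
noncomputable def HG (p : ℕ) [Fact p.Prime] (Γ : ℤ_[p] → ℤ_[p]) (c₁ : ℤ_[p]) (T₁ T₂ : ℕ)
    (c : Fin T₁ × Fin T₂ → ℤ) (z : ℤ_[p]) : ℤ_[p] :=
  ∑ i : Fin T₁ × Fin T₂, (c i : ℤ_[p]) * ep p i.1 z * Γ (p * (z + c₁)) ^ (i.2 : ℕ) *
    Γ (p * z) ^ (T₂ - 1 - (i.2 : ℕ))

end GamP
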