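import Pool.Agent.GamP.Defs

/-!
# The class `DD M` (all `k`-th differences divisible by `M ^ k`): closure properties

PROOFS. `Δ g t = g (t+1) - g t`; `Function.iterate_succ_apply` gives `Δ^[k+1] g = Δ^[k] (Δ g)`;
`fwdDiff_iter_add`, `fwdDiff_iter_const_smul`, `fwdDiff_iter_finset_sum` (or direct inductions) give
linearity of `Δ^[k]`.

* `const`, `lin`: `Δ^[1]` of a constant is `0`, of `c + r t` is the constant `r`, `M ∣ r`; higher
  differences vanish.
* `mul`: prove first, by induction on `k`, for ALL `r s f g` (offset version, no division):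
  `(∀ j ≤ k, ∀ t, M^(j+r) ∣ Δ^[j] f t) → (∀ j ≤ k, ∀ t, M^(j+s) ∣ Δ^[j] g t) →
   ∀ t, M^(k+r+s) ∣ Δ^[k] (f * g) t`.
  `k = 0`: product of divisibilities. Step: `Δ (f g) t = f (t+1) * Δ g t + Δ f t * g t`, so
  `Δ^[k+1] (f g) = Δ^[k] (f(·+1) * Δ g) + Δ^[k] (Δ f * g)`; `f(·+1)` has offset `r` (a shift of `f`:
  `Δ^[j] (f(·+1)) t = Δ^[j] f (t+1)`), `Δ g` has offset `s+1` up to level `k`, etc.
* `step`: prove by induction on `k` that `∀ j ≤ k, ∀ t, M^j ∣ Δ^[j] f t`: `Δ f = f (W - 1) = M f V`,
  so `Δ^[k+1] f = M * Δ^[k] (f V)`, and level `k` of the product lemma applies.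
* `quot`: for `j ≥ 1`, `M * Δ^[j] V = Δ^[j] (W - 1) = Δ^[j] W` is divisible by `M^(2j)`, and
  `j ≤ 2 j - 1`; `M ≠ 0`.
* `of_mul`: `c` is coprime to `M ^ k` and `Δ^[k] (c g) = c Δ^[k] g`.
-/

namespace GamP

open Finset

private theorem iter_const (c : ℤ) (k : ℕ) : (fwdDiff 1)^[k + 1] (fun _ : ℕ => c) = fun _ => 0 := by
  induction k with
  | zero => rw [zero_add, Function.iterate_one, fwdDiff_const]
  | succ k ih =>
    rw [Function.iterate_succ_apply', ih, fwdDiff_const]

private theorem iter_smul (c : ℤ) (f : ℕ → ℤ) (k t : ℕ) :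
    (fwdDiff 1)^[k] (fun t => c * f t) t = c * (fwdDiff 1)^[k] f t := by
  have e : (fun t => c * f t) = c • f := by
    funext t
    simp
  rw [e, fwdDiff_iter_const_smul, Pi.smul_apply, smul_eq_mul]

private theorem mul_aux (M : ℤ) : ∀ (k r s : ℕ) (f g : ℕ → ℤ),
    (∀ j ≤ k, ∀ t, M ^ (j + r) ∣ (fwdDiff 1)^[j] f t) →
    (∀ j ≤ k, ∀ t, M ^ (j + s) ∣ (fwdDiff 1)^[j] g t) →
    ∀ t, M ^ (k + r + s) ∣ (fwdDiff 1)^[k] (fun t => f t * g t) t
  | 0, r, s, f, g, hf, hg, t => by
    have h1 := hf 0 le_rfl t
    have h2 := hg 0 le_rfl t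
    rw [zero_add] at h1 h2 ⊢
    rw [pow_add]
    exact mul_dvd_mul h1 h2
  | k + 1, r, s, f, g, hf, hg, t => by
    rw [Function.iterate_succ_apply]
    have e : fwdDiff 1 (fun t => f t * g t) =
        (fun t => f (t + 1) * fwdDiff 1 g t) + (fun t => fwdDiff 1 f t * g t) := by
      funext t
      simp only [fwdDiff, Pi.add_apply]
      ring
    rw [e, fwdDiff_iter_add, Pi.add_apply]
    refine dvd_add ?_ ?_
    · have h := mul_aux M k r (s + 1) (fun t => f (t + 1)) (fwdDiff 1 g) ?_ ?_ t
      · have e2 : k + 1 + r + s = k + r + (s + 1) := by omega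
        rw [e2]
        exact h
      · intro j hj t
        rw [fwdDiff_iter_comp_add]
        exact hf j (by omega) (t + 1)
      · intro j hj t
        rw [← Function.iterate_succ_apply]
        have h := hg (j + 1) (by omega) t
        have e2 : j + (s + 1) = j + 1 + s := by omega
        rw [e2]
        exact h
    · have h := mul_aux M k (r + 1) s (fwdDiff 1 f) g ?_ ?_ t
      · have e2 : k + 1 + r + s = k + (r + 1) + s := by omega
        rw [e2]
        exact h
      · intro j hj t
        rw [← Function.iterate_succ_apply]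
        have h := hf (j + 1) (by omega) t
        have e2 : j + (r + 1) = j + 1 + r := by omega
        rw [e2]
        exact h
      · intro j hj t
        exact hg j (by omega) t

theorem DD.const (M c : ℤ) : DD M (fun _ => c) := by
  intro k t
  rcases k with _ | k
  · rw [pow_zero]; exact one_dvd _
  · rw [iter_const]
    exact dvd_zero _

theorem DD.lin {M r : ℤ} (c : ℤ) (h : M ∣ r) : DD M (fun t => c + r * (t : ℤ)) := by
  intro k t
  rcases k with _ | k
  · rw [pow_zero]; exact one_dvd _
  · rw [Function.iterate_succ_apply]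
    have e : fwdDiff 1 (fun t : ℕ => c + r * (t : ℤ)) = fun _ => r := by
      funext t
      simp only [fwdDiff]
      push_cast
      ring
    rw [e]
    rcases k with _ | k
    · rw [zero_add, pow_one]
      exact h
    · rw [iter_const]
      exact dvd_zero _

theorem DD.add {M : ℤ} {f g : ℕ → ℤ} (hf : DD M f) (hg : DD M g) :
    DD M (fun t => f t + g t) := by
  intro k t
  have e : (fun t => f t + g t) = f + g := rfl
  rw [e, fwdDiff_iter_add, Pi.add_apply]
  exact dvd_add (hf k t) (hg k t)

theorem DD.mul {M : ℤ} {f g : ℕ → ℤ} (hf : DD M f) (hg : DD M g) :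
    DD M (fun t => f t * g t) := by
  intro k t
  exact mul_aux M k 0 0 f g (fun j _ t => hf j t) (fun j _ t => hg j t) t

theorem DD.sum {ι : Type*} {M : ℤ} (s : Finset ι) (f : ι → ℕ → ℤ) (h : ∀ i ∈ s, DD M (f i)) :
    DD M (fun t => ∑ i ∈ s, f i t) := by
  classical
  induction s using Finset.induction_on with
  | empty =>
    simp only [sum_empty]
    exact DD.const M 0
  | insert a s ha ih =>
    simp only [sum_insert ha]
    exact (h a (mem_insert_self a s)).add (ih fun i hi => h i (mem_insert_of_mem hi))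

theorem DD.prod {ι : Type*} {M : ℤ} (s : Finset ι) (f : ι → ℕ → ℤ) (h : ∀ i ∈ s, DD M (f i)) :
    DD M (fun t => ∏ i ∈ s, f i t) := by
  classical
  induction s using Finset.induction_on with
  | empty =>
    simp only [prod_empty]
    exact DD.const M 1
  | insert a s ha ih =>
    simp only [prod_insert ha]
    exact (h a (mem_insert_self a s)).mul (ih fun i hi => h i (mem_insert_of_mem hi))

theorem DD.pow {M : ℤ} {f : ℕ → ℤ} (hf : DD M f) (k : ℕ) : DD M (fun t => f t ^ k) := by
  induction k with
  | zero =>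
    simp only [pow_zero]
    exact DD.const M 1
  | succ k ih =>
    simp only [pow_succ]
    exact ih.mul hf

theorem DD.step {M : ℤ} {f W V : ℕ → ℤ} (hf : ∀ t, f (t + 1) = f t * W t)
    (hW : ∀ t, W t - 1 = M * V t) (hV : DD M V) : DD M f := by
  have key : ∀ k : ℕ, ∀ j ≤ k, ∀ t, M ^ j ∣ (fwdDiff 1)^[j] f t := by
    intro k
    induction k with
    | zero =>
      intro j hj t
      obtain rfl : j = 0 := by omega
      rw [pow_zero]
      exact one_dvd _
    | succ k ih =>
      intro j hj t
      rcases Nat.lt_or_ge j (k + 1) with h | h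
      · exact ih j (by omega) t
      · obtain rfl : j = k + 1 := by omega
        rw [Function.iterate_succ_apply]
        have e : fwdDiff 1 f = fun t => M * (f t * V t) := by
          funext t
          simp only [fwdDiff]
          rw [hf t]
          linear_combination f t * hW t
        rw [e, iter_smul, pow_succ']
        refine mul_dvd_mul dvd_rfl ?_
        exact mul_aux M k 0 0 f V (fun j hj t => ih j hj t) (fun j _ t => hV j t) t
  exact fun k t => key k k le_rfl t

theorem DD.quot {M : ℤ} {W V : ℕ → ℤ} (hM : M ≠ 0) (hW : DD (M ^ 2) W)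
    (h1 : ∀ t, W t - 1 = M * V t) : DD M V := by
  intro k t
  rcases k with _ | k
  · rw [pow_zero]; exact one_dvd _
  · have e : W = (fun _ => (1 : ℤ)) + fun t => M * V t := by
      funext t
      show W t = 1 + M * V t
      linear_combination h1 t
    have h := hW (k + 1) t
    rw [e, fwdDiff_iter_add, Pi.add_apply, iter_const, iter_smul, zero_add] at h
    have e2 : (M ^ 2) ^ (k + 1) = M * (M ^ (k + 1) * M ^ k) := by ring
    rw [e2] at h
    exact (dvd_mul_right _ _).trans ((mul_dvd_mul_iff_left hM).1 h)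

theorem DD.of_mul {M c : ℤ} {g : ℕ → ℤ} (hc : IsCoprime M c) (h : DD M (fun t => c * g t)) :
    DD M g := by
  intro k t
  have h1 := h k t
  rw [iter_smul] at h1
  exact (hc.pow_left).dvd_of_dvd_mul_left h1

end GamP
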