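import Pool.Agent.GamP.Defs2

/-!
# The class `DR M` (all `k`-th differences divisible by `M ^ k`) over a domain `R`
-/

namespace GamP

open Finset

variable {R : Type*} [CommRing R]

theorem iter_constR (c : R) (k : ℕ) : (fwdDiff 1)^[k + 1] (fun _ : ℕ => c) = fun _ => 0 := by
  induction k with
  | zero => rw [zero_add, Function.iterate_one, fwdDiff_const]
  | succ k ih =>
    rw [Function.iterate_succ_apply', ih, fwdDiff_const]

theorem iter_smulR (c : R) (f : ℕ → R) (k t : ℕ) :
    (fwdDiff 1)^[k] (fun t => c * f t) t = c * (fwdDiff 1)^[k] f t := by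
  have e : (fun t => c * f t) = c • f := by
    funext t
    simp
  rw [e, fwdDiff_iter_const_smul, Pi.smul_apply, smul_eq_mul]

theorem mul_auxR (M : R) : ∀ (k r s : ℕ) (f g : ℕ → R),
    (∀ j ≤ k, ∀ t, M ^ (j + r) ∣ (fwdDiff 1)^[j] f t) →
    (∀ j ≤ k, ∀ t, M ^ (j + s) ∣ (fwdDiff 1)^[j] g t) →
    ∀ t, M ^ (k + r + s) ∣ (fwdDiff 1)^[k] (fun t => f t * g t) t
  | 0, r, s, f, g, hf, hg, t => by
    have h1 := hf 0 le_rfl t
    have h2 := hg 0 le_rfl t
    rw [zero_add] at h1 h2 ⊢
    rw [pow_add]
    exact mul_dvd_mul h1 h2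
  | k + 1, r, s, f, g, hf, hg, t => by
    rw [Function.iterate_succ_apply]
    have e : fwdDiff 1 (fun t => f t * g t) =
        (fun t => f (t + 1) * fwdDiff 1 g t) + (fun t => fwdDiff 1 f t * g t) := by
      funext t
      simp only [fwdDiff, Pi.add_apply]
      ring
    rw [e, fwdDiff_iter_add, Pi.add_apply]
    refine dvd_add ?_ ?_
    · have h := mul_auxR M k r (s + 1) (fun t => f (t + 1)) (fwdDiff 1 g) ?_ ?_ t
      · have e2 : k + 1 + r + s = k + r + (s + 1) := by omega
        rw [e2]
        exact h
      · intro j hj t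
        rw [fwdDiff_iter_comp_add]
        exact hf j (by omega) (t + 1)
      · intro j hj t
        rw [← Function.iterate_succ_apply]
        have h := hg (j + 1) (by omega) t
        have e2 : j + (s + 1) = j + 1 + s := by omega
        rw [e2]
        exact h
    · have h := mul_auxR M k (r + 1) s (fwdDiff 1 f) g ?_ ?_ t
      · have e2 : k + 1 + r + s = k + (r + 1) + s := by omega
        rw [e2]
        exact h
      · intro j hj t
        rw [← Function.iterate_succ_apply]
        have h := hf (j + 1) (by omega) t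
        have e2 : j + (r + 1) = j + 1 + r := by omega
        rw [e2]
        exact h
      · intro j hj t
        exact hg j (by omega) t

theorem DR.const (M c : R) : DR M (fun _ => c) := by
  intro k t
  rcases k with _ | k
  · rw [pow_zero]; exact one_dvd _
  · rw [iter_constR]
    exact dvd_zero _

theorem DR.lin {M r : R} (c : R) (h : M ∣ r) : DR M (fun t => c + r * (t : R)) := by
  intro k t
  rcases k with _ | k
  · rw [pow_zero]; exact one_dvd _
  · rw [Function.iterate_succ_apply]
    have e : fwdDiff 1 (fun t : ℕ => c + r * (t : R)) = fun _ => r := by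
      funext t
      simp only [fwdDiff]
      push_cast
      ring
    rw [e]
    rcases k with _ | k
    · rw [zero_add, pow_one]
      exact h
    · rw [iter_constR]
      exact dvd_zero _

theorem DR.add {M : R} {f g : ℕ → R} (hf : DR M f) (hg : DR M g) :
    DR M (fun t => f t + g t) := by
  intro k t
  have e : (fun t => f t + g t) = f + g := rfl
  rw [e, fwdDiff_iter_add, Pi.add_apply]
  exact dvd_add (hf k t) (hg k t)

theorem DR.mul {M : R} {f g : ℕ → R} (hf : DR M f) (hg : DR M g) :
    DR M (fun t => f t * g t) := by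
  intro k t
  exact mul_auxR M k 0 0 f g (fun j _ t => hf j t) (fun j _ t => hg j t) t

theorem DR.sum {ι : Type*} {M : R} (s : Finset ι) (f : ι → ℕ → R) (h : ∀ i ∈ s, DR M (f i)) :
    DR M (fun t => ∑ i ∈ s, f i t) := by
  classical
  induction s using Finset.induction_on with
  | empty =>
    simp only [sum_empty]
    exact DR.const M 0
  | insert a s ha ih =>
    simp only [sum_insert ha]
    exact (h a (mem_insert_self a s)).add (ih fun i hi => h i (mem_insert_of_mem hi))

theorem DR.prod {ι : Type*} {M : R} (s : Finset ι) (f : ι → ℕ → R) (h : ∀ i ∈ s, DR M (f i)) :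
    DR M (fun t => ∏ i ∈ s, f i t) := by
  classical
  induction s using Finset.induction_on with
  | empty =>
    simp only [prod_empty]
    exact DR.const M 1
  | insert a s ha ih =>
    simp only [prod_insert ha]
    exact (h a (mem_insert_self a s)).mul (ih fun i hi => h i (mem_insert_of_mem hi))

theorem DR.pow {M : R} {f : ℕ → R} (hf : DR M f) (k : ℕ) : DR M (fun t => f t ^ k) := by
  induction k with
  | zero =>
    simp only [pow_zero]
    exact DR.const M 1
  | succ k ih =>
    simp only [pow_succ]
    exact ih.mul hf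

theorem DR.step {M : R} {f W V : ℕ → R} (hf : ∀ t, f (t + 1) = f t * W t)
    (hW : ∀ t, W t - 1 = M * V t) (hV : DR M V) : DR M f := by
  have key : ∀ k : ℕ, ∀ j ≤ k, ∀ t, M ^ j ∣ (fwdDiff 1)^[j] f t := by
    intro k
    induction k with
    | zero =>
      intro j hj t
      obtain rfl : j = 0 := by omega
      rw [pow_zero]
      exact one_dvd _
    | succ k ih =>
      intro j hj t
      rcases Nat.lt_or_ge j (k + 1) with h | h
      · exact ih j (by omega) t
      · obtain rfl : j = k + 1 := by omega
        rw [Function.iterate_succ_apply]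
        have e : fwdDiff 1 f = fun t => M * (f t * V t) := by
          funext t
          simp only [fwdDiff]
          rw [hf t]
          linear_combination f t * hW t
        rw [e, iter_smulR, pow_succ']
        refine mul_dvd_mul dvd_rfl ?_
        exact mul_auxR M k 0 0 f V (fun j hj t => ih j hj t) (fun j _ t => hV j t) t
  exact fun k t => key k k le_rfl t

theorem DR.quot [IsDomain R] {M : R} {W V : ℕ → R} (hM : M ≠ 0) (hW : DR (M ^ 2) W)
    (h1 : ∀ t, W t - 1 = M * V t) : DR M V := by
  intro k t
  rcases k with _ | k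
  · rw [pow_zero]; exact one_dvd _
  · have e : W = (fun _ => (1 : R)) + fun t => M * V t := by
      funext t
      show W t = 1 + M * V t
      linear_combination h1 t
    have h := hW (k + 1) t
    rw [e, fwdDiff_iter_add, Pi.add_apply, iter_constR, iter_smulR, zero_add] at h
    have e2 : (M ^ 2) ^ (k + 1) = M * (M ^ (k + 1) * M ^ k) := by ring
    rw [e2] at h
    exact (dvd_mul_right _ _).trans ((mul_dvd_mul_iff_left hM).1 h)

theorem DR.of_mul {M c : R} {g : ℕ → R} (hc : IsCoprime M c) (h : DR M (fun t => c * g t)) :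
    DR M g := by
  intro k t
  have h1 := h k t
  rw [iter_smulR] at h1
  exact (hc.pow_left).dvd_of_dvd_mul_left h1

theorem DR.of_int {M : ℤ} {g : ℕ → ℤ} (h : DD M g) :
    DR ((M : ℤ) : R) (fun t => ((g t : ℤ) : R)) := by
  intro k t
  have h1 := h k t
  have h2 : (fwdDiff 1)^[k] (fun t => ((g t : ℤ) : R)) t = (((fwdDiff 1)^[k] g t : ℤ) : R) := by
    rw [fwdDiff_iter_eq_sum_shift, fwdDiff_iter_eq_sum_shift, Int.cast_sum]
    refine Finset.sum_congr rfl fun i _ => ?_
    simp only [zsmul_eq_mul, Int.cast_mul, Int.cast_id]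
  rw [h2, ← Int.cast_pow]
  exact Int.cast_dvd_cast _ _ h1

end GamP
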