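import Pool.Agent.GamP.Defs

/-!
# The final estimate: from the combinatorial inequality to the power saving

PROOF of `finA`. `f = f d b ≤ b`. It is enough to find `C` working for `b ≥ b₀` (for `b < b₀`,
`f ≤ b ≤ b₀ ≤ C`, and `C d^8 b^{9/10} ≥ C`). Let `K = ⌊b^{1/7}⌋₊`, `P = ` primes `≤ K` not dividing `b`,
`R = #P ≥ π(K) - log₂ b` (the product of the distinct primes dividing `b` is `≤ b`:
`Nat.card_primeFactors_le_log`-type fact, or `2^{ω(b)} ≤ ∏ ≤ b`). By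
`Chebyshev.pi_ge : (n log 2 - log (n+1)) / log n ≤ π n`, `π(K) ≥ K / (2 log K)` for large `K`, so
`R ≥ (1/4) K / log K ≥ b^{1/10}` for `b` large (`b^{1/7}/(C log b) - 2 log b ≥ b^{1/10}`).
`lam = ⌈log₂ (2 p K² b)⌉₊ ≤ C_p log (2b)`. The hypothesis gives (divide by `R`, `R ≤ K ≤ b^{1/7}`)
`f ≤ b / R + R c₀ K⁴ lam⁴ d⁸ ≤ b^{9/10} + c₀ d⁸ b^{5/7} (C_p log 2b)⁴ ≤ C d⁸ b^{9/10}`
(`5/7 < 9/10` and `isLittleO_log_rpow_atTop`/`Real.log_le_rpow_div`).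
-/

namespace GamP

open Finset

theorem fa_pf (b : ℕ) (hb : 1 ≤ b) : 2 ^ b.primeFactors.card ≤ b := by
  calc 2 ^ b.primeFactors.card = ∏ _q ∈ b.primeFactors, 2 := by simp
    _ ≤ ∏ q ∈ b.primeFactors, q :=
        Finset.prod_le_prod' (fun q hq => (Nat.prime_of_mem_primeFactors hq).two_le)
    _ ≤ b := Nat.le_of_dvd hb (Nat.prod_primeFactors_dvd b)

/-- `log₂ n + 1` in terms of the real logarithm -/
theorem fa_natlog (n : ℕ) : ((Nat.log 2 n : ℕ) : ℝ) ≤ Real.log n / Real.log 2 := by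
  have := Real.natLog_le_logb n 2
  simpa [Real.logb] using this

theorem fa_lam (p : ℕ) : ∃ A : ℝ, 0 ≤ A ∧ ∀ b K : ℕ, 1 ≤ b → K ≤ b →
    ((Nat.log 2 (2 * p * K ^ 2 * b) + 1 : ℕ) : ℝ) ≤ A * (b : ℝ) ^ (13 / 280 : ℝ) := by
  have hl2 : 0 < Real.log 2 := Real.log_pos (by norm_num)
  have hlp : 0 ≤ Real.log (2 * ((p : ℝ) + 1)) := Real.log_nonneg (by
    have : (0 : ℝ) ≤ p := Nat.cast_nonneg p
    linarith)
  refine ⟨1 + (Real.log (2 * ((p : ℝ) + 1)) + 3 * (280 / 13)) / Real.log 2, by positivity, ?_⟩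
  intro b K hb hK
  have hb' : (1 : ℝ) ≤ b := by exact_mod_cast hb
  have hbp : (1 : ℝ) ≤ (b : ℝ) ^ (13 / 280 : ℝ) := Real.one_le_rpow hb' (by norm_num)
  have h1 : 2 * p * K ^ 2 * b ≤ 2 * (p + 1) * b ^ 3 := by
    calc 2 * p * K ^ 2 * b ≤ 2 * (p + 1) * b ^ 2 * b := by gcongr; omega
      _ = 2 * (p + 1) * b ^ 3 := by ring
  have h2 : Nat.log 2 (2 * p * K ^ 2 * b) ≤ Nat.log 2 (2 * (p + 1) * b ^ 3) := Nat.log_mono_right h1
  have h3 := fa_natlog (2 * (p + 1) * b ^ 3)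
  have h4 : Real.log ((2 * (p + 1) * b ^ 3 : ℕ) : ℝ)
      = Real.log (2 * ((p : ℝ) + 1)) + 3 * Real.log b := by
    push_cast
    rw [Real.log_mul (by positivity) (by positivity), Real.log_pow]
    norm_num
  have h5 : Real.log b ≤ (280 / 13) * (b : ℝ) ^ (13 / 280 : ℝ) := by
    have := Real.log_le_rpow_div (x := (b : ℝ)) (ε := 13 / 280) (by positivity) (by norm_num)
    calc Real.log b ≤ (b : ℝ) ^ (13 / 280 : ℝ) / (13 / 280) := this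
      _ = _ := by ring
  rw [h4] at h3
  push_cast
  have h2' : (Nat.log 2 (2 * p * K ^ 2 * b) : ℝ) ≤ Nat.log 2 (2 * (p + 1) * b ^ 3) := by
    exact_mod_cast h2
  have h6 : (Real.log (2 * ((p : ℝ) + 1)) + 3 * Real.log b) / Real.log 2 ≤
      ((Real.log (2 * ((p : ℝ) + 1)) + 3 * (280 / 13)) / Real.log 2) * (b : ℝ) ^ (13 / 280 : ℝ) := by
    rw [div_mul_eq_mul_div]
    apply div_le_div_of_nonneg_right _ hl2.le
    nlinarith
  nlinarith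

theorem fa_two_pow (K : ℕ) (hK : 6 ≤ K) : (K + 1) ^ 2 ≤ 2 ^ K := by
  induction K, hK using Nat.le_induction with
  | base => norm_num
  | succ n hn ih =>
    rw [pow_succ 2 n]
    nlinarith

theorem fa_pi (K : ℕ) (hK : 6 ≤ K) :
    (K : ℝ) * Real.log 2 / (2 * Real.log K) ≤ Nat.primeCounting K := by
  have hKr : (6 : ℝ) ≤ K := by exact_mod_cast hK
  have hlK : 0 < Real.log K := Real.log_pos (by linarith)
  have h1 := Chebyshev.pi_ge K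
  have h2 : 2 * Real.log ((K : ℝ) + 1) ≤ K * Real.log 2 := by
    have h3 : (((K : ℝ) + 1) ^ 2) ≤ 2 ^ K := by exact_mod_cast fa_two_pow K hK
    have h4 := Real.log_le_log (by positivity) h3
    rw [Real.log_pow, Real.log_pow] at h4
    exact_mod_cast h4
  refine le_trans ?_ h1
  rw [div_le_div_iff₀ (by positivity) hlK]
  nlinarith

theorem fa_P (b K : ℕ) (hb : 1 ≤ b) :
    ∃ P : Finset ℕ, (∀ l ∈ P, l.Prime ∧ l ≤ K ∧ l.Coprime b) ∧ P.card ≤ K ∧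
      (Nat.primeCounting K : ℝ) - Real.log b / Real.log 2 ≤ P.card := by
  classical
  refine ⟨(Finset.range (K + 1)).filter (fun l => l.Prime ∧ l.Coprime b), ?_, ?_, ?_⟩
  · intro l hl
    simp only [Finset.mem_filter, Finset.mem_range] at hl
    exact ⟨hl.2.1, by omega, hl.2.2⟩
  · calc ((Finset.range (K + 1)).filter (fun l => l.Prime ∧ l.Coprime b)).card
        ≤ (Finset.Icc 1 K).card := by
          apply Finset.card_le_card
          intro l hl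
          simp only [Finset.mem_filter, Finset.mem_range] at hl
          simp only [Finset.mem_Icc]
          exact ⟨hl.2.1.one_le, by omega⟩
      _ = K := by simp
  · have h1 : Nat.primeCounting K = ((Finset.range (K + 1)).filter Nat.Prime).card := by
      rw [Nat.primeCounting, Nat.primeCounting', Nat.count_eq_card_filter_range]
    have h2 : (Finset.range (K + 1)).filter Nat.Prime ⊆
        (Finset.range (K + 1)).filter (fun l => l.Prime ∧ l.Coprime b) ∪ b.primeFactors := by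
      intro l hl
      simp only [Finset.mem_filter, Finset.mem_range, Finset.mem_union, Nat.mem_primeFactors] at hl ⊢
      by_cases hc : l.Coprime b
      · left; exact ⟨hl.1, hl.2, hc⟩
      · right
        refine ⟨hl.2, ?_, by omega⟩
        by_contra hd
        exact hc ((Nat.Prime.coprime_iff_not_dvd hl.2).2 hd)
    have h3 := (Finset.card_le_card h2).trans (Finset.card_union_le _ _)
    rw [← h1] at h3
    have h4 : (b.primeFactors.card : ℝ) ≤ Real.log b / Real.log 2 := by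
      have h5 : b.primeFactors.card ≤ Nat.log 2 b := Nat.le_log_of_pow_le (by norm_num) (fa_pf b hb)
      exact le_trans (by exact_mod_cast h5) (fa_natlog b)
    have h6 : (Nat.primeCounting K : ℝ) ≤
      ((Finset.range (K + 1)).filter (fun l => l.Prime ∧ l.Coprime b)).card
        + b.primeFactors.card := by exact_mod_cast h3
    linarith

/-- many primes: for `b` large there are at least `b^{1/10}` primes `≤ ⌊b^{1/7}⌋` prime to `b` -/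
theorem fa_large : ∃ b₀ : ℕ, 1 ≤ b₀ ∧ ∀ b : ℕ, b₀ ≤ b →
    (b : ℝ) ^ (1 / 10 : ℝ) + Real.log b / Real.log 2 ≤
      Nat.primeCounting ⌊(b : ℝ) ^ (1 / 7 : ℝ)⌋₊ := by
  have hl2 : 0 < Real.log 2 := Real.log_pos (by norm_num)
  have ht : Filter.Tendsto (fun b : ℕ => (b : ℝ) ^ (11 / 490 : ℝ)) Filter.atTop Filter.atTop :=
    (tendsto_rpow_atTop (by norm_num)).comp tendsto_natCast_atTop_atTop
  have ht2 : Filter.Tendsto (fun b : ℕ => (b : ℝ) ^ (1 / 7 : ℝ)) Filter.atTop Filter.atTop :=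
    (tendsto_rpow_atTop (by norm_num)).comp tendsto_natCast_atTop_atTop
  have he := (ht.eventually_ge_atTop ((28 / Real.log 2) * (1 + 10 / Real.log 2))).and
    ((ht2.eventually_ge_atTop 7).and (Filter.eventually_ge_atTop 1))
  obtain ⟨b₀, hb₀⟩ := Filter.eventually_atTop.1 he
  refine ⟨b₀ + 1, by omega, ?_⟩
  intro b hb
  obtain ⟨h1, h2, h3⟩ := hb₀ b (by omega)
  set x : ℝ := (b : ℝ) ^ (1 / 7 : ℝ) with hx
  set K := ⌊x⌋₊ with hK
  have hb1 : (1 : ℝ) ≤ b := by exact_mod_cast h3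
  have hK6 : 6 ≤ K := by
    rw [hK]; exact Nat.le_floor (by push_cast; linarith)
  have hKx : (K : ℝ) ≤ x := Nat.floor_le (by linarith)
  have hKx2 : x / 2 ≤ K := by
    have := Nat.lt_floor_add_one x
    rw [← hK] at this
    linarith
  have hKr : (6 : ℝ) ≤ K := by exact_mod_cast hK6
  have hlK : 0 < Real.log K := Real.log_pos (by linarith)
  have hlK2 : Real.log K ≤ 7 * (K : ℝ) ^ (1 / 7 : ℝ) := by
    have := Real.log_le_rpow_div (x := (K : ℝ)) (ε := 1 / 7) (by positivity) (by norm_num)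
    calc Real.log K ≤ (K : ℝ) ^ (1 / 7 : ℝ) / (1 / 7) := this
      _ = _ := by ring
  have hpi := fa_pi K hK6
  have hK0 : (0 : ℝ) < K := by linarith
  have hsplit : (K : ℝ) = (K : ℝ) ^ (6 / 7 : ℝ) * (K : ℝ) ^ (1 / 7 : ℝ) := by
    rw [← Real.rpow_add hK0]; norm_num
  have hlow : (Real.log 2 / 14) * (K : ℝ) ^ (6 / 7 : ℝ) ≤ (K : ℝ) * Real.log 2 / (2 * Real.log K) := by
    rw [le_div_iff₀ (by positivity)]
    have hpos : 0 ≤ (K : ℝ) ^ (6 / 7 : ℝ) * Real.log 2 := by positivity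
    calc (Real.log 2 / 14) * (K : ℝ) ^ (6 / 7 : ℝ) * (2 * Real.log K)
        = ((K : ℝ) ^ (6 / 7 : ℝ) * Real.log 2) * (Real.log K / 7) := by ring
      _ ≤ ((K : ℝ) ^ (6 / 7 : ℝ) * Real.log 2) * ((K : ℝ) ^ (1 / 7 : ℝ)) :=
          mul_le_mul_of_nonneg_left (by linarith) hpos
      _ = ((K : ℝ) ^ (6 / 7 : ℝ) * (K : ℝ) ^ (1 / 7 : ℝ)) * Real.log 2 := by ring
      _ = (K : ℝ) * Real.log 2 := by rw [← hsplit]
  have hKlow : (1 / 2) * (b : ℝ) ^ (6 / 49 : ℝ) ≤ (K : ℝ) ^ (6 / 7 : ℝ) := by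
    calc (1 / 2) * (b : ℝ) ^ (6 / 49 : ℝ) ≤ (1 / 2) ^ (6 / 7 : ℝ) * (b : ℝ) ^ (6 / 49 : ℝ) := by
          apply mul_le_mul_of_nonneg_right _ (by positivity)
          have := Real.rpow_le_rpow_of_exponent_ge (x := (1 / 2 : ℝ)) (by norm_num) (by norm_num)
            (show (6 / 7 : ℝ) ≤ 1 by norm_num)
          simpa using this
      _ = (x / 2) ^ (6 / 7 : ℝ) := by
          rw [show x / 2 = (1 / 2) * x by ring, Real.mul_rpow (by norm_num) (by linarith), hx,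
            ← Real.rpow_mul (by linarith)]
          norm_num
      _ ≤ (K : ℝ) ^ (6 / 7 : ℝ) := Real.rpow_le_rpow (by linarith) hKx2 (by norm_num)
  have hb49 : (b : ℝ) ^ (6 / 49 : ℝ) = (b : ℝ) ^ (11 / 490 : ℝ) * (b : ℝ) ^ (1 / 10 : ℝ) := by
    rw [← Real.rpow_add (by linarith)]; norm_num
  have hlogb : Real.log b ≤ 10 * (b : ℝ) ^ (1 / 10 : ℝ) := by
    have := Real.log_le_rpow_div (x := (b : ℝ)) (ε := 1 / 10) (by positivity) (by norm_num)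
    calc Real.log b ≤ (b : ℝ) ^ (1 / 10 : ℝ) / (1 / 10) := this
      _ = _ := by ring
  have hbpos : 0 ≤ (b : ℝ) ^ (1 / 10 : ℝ) := by positivity
  calc (b : ℝ) ^ (1 / 10 : ℝ) + Real.log b / Real.log 2
      ≤ (b : ℝ) ^ (1 / 10 : ℝ) + (10 * (b : ℝ) ^ (1 / 10 : ℝ)) / Real.log 2 := by
        gcongr
    _ = (Real.log 2 / 28) * (((28 / Real.log 2) * (1 + 10 / Real.log 2)) *
          (b : ℝ) ^ (1 / 10 : ℝ)) := by
        field_simp
    _ ≤ (Real.log 2 / 28) * ((b : ℝ) ^ (11 / 490 : ℝ) * (b : ℝ) ^ (1 / 10 : ℝ)) := by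
        gcongr
    _ = (Real.log 2 / 14) * ((1 / 2) * (b : ℝ) ^ (6 / 49 : ℝ)) := by rw [hb49]; ring
    _ ≤ (Real.log 2 / 14) * (K : ℝ) ^ (6 / 7 : ℝ) := by gcongr
    _ ≤ _ := hlow
    _ ≤ _ := hpi

theorem finA (p c₀ : ℕ) : ∃ C : ℝ, ∀ f : ℕ → ℕ → ℕ, (∀ d b, f d b ≤ b) →
    (∀ d b K lam : ℕ, 1 ≤ d → 1 ≤ b → ¬ p ∣ b → 2 * p * K ^ 2 * b ≤ 2 ^ lam → ∀ P : Finset ℕ,
      (∀ l ∈ P, l.Prime ∧ l ≤ K ∧ l.Coprime b) →
      P.card * f d b ≤ b + P.card ^ 2 * (c₀ * (K ^ 2) ^ 2 * lam ^ 4 * (d * d) ^ 4)) →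
    ∀ d b : ℕ, 1 ≤ d → 1 ≤ b → ¬ p ∣ b → (f d b : ℝ) ≤ C * d ^ 8 * (b : ℝ) ^ (9 / 10 : ℝ) := by
  obtain ⟨A, hA0, hA⟩ := fa_lam p
  obtain ⟨b₀, hb₀1, hb₀⟩ := fa_large
  refine ⟨b₀ + 1 + c₀ * A ^ 4, ?_⟩
  intro f hf h d b hd hb hpb
  have hb' : (1 : ℝ) ≤ b := by exact_mod_cast hb
  have hd' : (1 : ℝ) ≤ d := by exact_mod_cast hd
  have hd8 : (1 : ℝ) ≤ (d : ℝ) ^ 8 := one_le_pow₀ hd'
  have hb9 : (1 : ℝ) ≤ (b : ℝ) ^ (9 / 10 : ℝ) := Real.one_le_rpow hb' (by norm_num)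
  have hcA : 0 ≤ (c₀ : ℝ) * A ^ 4 := by positivity
  by_cases hbb : b < b₀
  · have h1 : (f d b : ℝ) ≤ b₀ := by
      have := hf d b
      exact_mod_cast (by omega : f d b ≤ b₀)
    calc (f d b : ℝ) ≤ b₀ := h1
      _ ≤ (b₀ + 1 + c₀ * A ^ 4) * 1 * 1 := by linarith
      _ ≤ (b₀ + 1 + c₀ * A ^ 4) * (d : ℝ) ^ 8 * (b : ℝ) ^ (9 / 10 : ℝ) := by gcongr
  · push Not at hbb
    set x : ℝ := (b : ℝ) ^ (1 / 7 : ℝ) with hx
    set K := ⌊x⌋₊ with hK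
    have hx0 : 0 ≤ x := by positivity
    have hKx : (K : ℝ) ≤ x := Nat.floor_le hx0
    have hxb : x ≤ b := by
      calc x ≤ (b : ℝ) ^ (1 : ℝ) := Real.rpow_le_rpow_of_exponent_le hb' (by norm_num)
        _ = b := Real.rpow_one _
    have hKb : K ≤ b := by exact_mod_cast hKx.trans hxb
    obtain ⟨P, hP1, hP2, hP3⟩ := fa_P b K hb
    have hlarge := hb₀ b hbb
    rw [← hx, ← hK] at hlarge
    have hR : (b : ℝ) ^ (1 / 10 : ℝ) ≤ P.card := by linarith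
    have hlam := hA b K hb hKb
    set lam := Nat.log 2 (2 * p * K ^ 2 * b) + 1 with hlamdef
    have hpow : 2 * p * K ^ 2 * b ≤ 2 ^ lam := (Nat.lt_pow_succ_log_self (by norm_num) _).le
    have hmain := h d b K lam hd hb hpb hpow P hP1
    have hmain' : (P.card : ℝ) * f d b ≤ b + (P.card : ℝ) ^ 2 *
        (c₀ * ((K : ℝ) ^ 2) ^ 2 * (lam : ℝ) ^ 4 * ((d : ℝ) * d) ^ 4) := by exact_mod_cast hmain
    have hRpos : (0 : ℝ) < P.card := lt_of_lt_of_le (by positivity) hR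
    have hRx : (P.card : ℝ) ≤ x := le_trans (by exact_mod_cast hP2) hKx
    have h1 : (f d b : ℝ) ≤ b / P.card + (P.card : ℝ) *
        (c₀ * ((K : ℝ) ^ 2) ^ 2 * (lam : ℝ) ^ 4 * ((d : ℝ) * d) ^ 4) := by
      have h2 := div_le_div_of_nonneg_right hmain' hRpos.le
      rw [mul_div_cancel_left₀ _ hRpos.ne', add_div, sq (P.card : ℝ), mul_assoc (P.card : ℝ),
        mul_div_cancel_left₀ _ hRpos.ne'] at h2
      exact h2
    have h2 : (b : ℝ) / P.card ≤ (b : ℝ) ^ (9 / 10 : ℝ) := by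
      rw [div_le_iff₀ hRpos]
      have h2b : (b : ℝ) ^ (9 / 10 : ℝ) * (b : ℝ) ^ (1 / 10 : ℝ) = b := by
        rw [← Real.rpow_add (by linarith), show (9 / 10 + 1 / 10 : ℝ) = 1 by norm_num,
          Real.rpow_one]
      calc (b : ℝ) = (b : ℝ) ^ (9 / 10 : ℝ) * (b : ℝ) ^ (1 / 10 : ℝ) := h2b.symm
        _ ≤ (b : ℝ) ^ (9 / 10 : ℝ) * P.card := mul_le_mul_of_nonneg_left hR (by positivity)
    have h3 : (P.card : ℝ) * (c₀ * ((K : ℝ) ^ 2) ^ 2 * (lam : ℝ) ^ 4 * ((d : ℝ) * d) ^ 4) ≤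
        c₀ * A ^ 4 * (d : ℝ) ^ 8 * (b : ℝ) ^ (9 / 10 : ℝ) := by
      calc (P.card : ℝ) * (c₀ * ((K : ℝ) ^ 2) ^ 2 * (lam : ℝ) ^ 4 * ((d : ℝ) * d) ^ 4)
          ≤ x * (c₀ * (x ^ 2) ^ 2 * (A * (b : ℝ) ^ (13 / 280 : ℝ)) ^ 4 * ((d : ℝ) * d) ^ 4) := by
            gcongr
        _ = c₀ * A ^ 4 * (d : ℝ) ^ 8 * (x ^ 5 * ((b : ℝ) ^ (13 / 280 : ℝ)) ^ 4) := by ring
        _ = c₀ * A ^ 4 * (d : ℝ) ^ 8 * (b : ℝ) ^ (9 / 10 : ℝ) := by
            congr 1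
            rw [hx, ← Real.rpow_natCast, ← Real.rpow_natCast, ← Real.rpow_mul (by linarith),
              ← Real.rpow_mul (by linarith), ← Real.rpow_add (by linarith)]
            norm_num
    have hb00 : (0 : ℝ) ≤ b₀ := Nat.cast_nonneg _
    calc (f d b : ℝ) ≤ (b : ℝ) ^ (9 / 10 : ℝ) + c₀ * A ^ 4 * (d : ℝ) ^ 8 * (b : ℝ) ^ (9 / 10 : ℝ) := by
          linarith
      _ ≤ (d : ℝ) ^ 8 * (b : ℝ) ^ (9 / 10 : ℝ) + c₀ * A ^ 4 * (d : ℝ) ^ 8 * (b : ℝ) ^ (9 / 10 : ℝ)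
          + b₀ * (d : ℝ) ^ 8 * (b : ℝ) ^ (9 / 10 : ℝ) := by
          have : (b : ℝ) ^ (9 / 10 : ℝ) ≤ (d : ℝ) ^ 8 * (b : ℝ) ^ (9 / 10 : ℝ) := by nlinarith
          have h5 : 0 ≤ b₀ * (d : ℝ) ^ 8 * (b : ℝ) ^ (9 / 10 : ℝ) := by positivity
          linarith
      _ = _ := by ring

theorem finB (p c₀ : ℕ) : ∃ C : ℝ, ∀ d b M n : ℕ, 1 ≤ d → 1 ≤ b →
    (∀ lam : ℕ, 2 * p * (2 * 1) * b ≤ 2 ^ lam → M ≤ 4 * n + 4 * (c₀ * (2 * 1) ^ 2 * lam ^ 4 *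
      (d * d) ^ 4) + 4) →
    (M : ℝ) / 4 - C * d ^ 8 * (Real.log (2 * b)) ^ 4 ≤ n := by
  have hl2 : 0 < Real.log 2 := Real.log_pos (by norm_num)
  have hlp : 0 ≤ Real.log (2 * ((p : ℝ) + 1)) := Real.log_nonneg (by
    have : (0 : ℝ) ≤ p := Nat.cast_nonneg p
    linarith)
  set A : ℝ := (1 / Real.log 2) * (1 + Real.log (2 * ((p : ℝ) + 1)) / Real.log 2 + 1) with hA
  have hA0 : 0 ≤ A := by positivity
  refine ⟨4 * c₀ * A ^ 4 + 1 / (Real.log 2) ^ 4, ?_⟩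
  intro d b M n hd hb h
  have hb' : (1 : ℝ) ≤ b := by exact_mod_cast hb
  have hd' : (1 : ℝ) ≤ d := by exact_mod_cast hd
  have hd8 : (1 : ℝ) ≤ (d : ℝ) ^ 8 := one_le_pow₀ hd'
  have hL : Real.log 2 ≤ Real.log (2 * b) := Real.log_le_log (by norm_num) (by linarith)
  have hL0 : 0 < Real.log (2 * b) := lt_of_lt_of_le hl2 hL
  set lam := Nat.log 2 (2 * p * (2 * 1) * b) + 1 with hlamdef
  have hpow : 2 * p * (2 * 1) * b ≤ 2 ^ lam := (Nat.lt_pow_succ_log_self (by norm_num) _).le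
  have hm := h lam hpow
  have hm' : (M : ℝ) ≤ 4 * n + 4 * (c₀ * (2 * 1) ^ 2 * (lam : ℝ) ^ 4 * ((d : ℝ) * d) ^ 4) + 4 := by
    exact_mod_cast hm
  have h1 : 2 * p * (2 * 1) * b ≤ 2 * (p + 1) * (2 * b) := by nlinarith
  have h2 : Nat.log 2 (2 * p * (2 * 1) * b) ≤ Nat.log 2 (2 * (p + 1) * (2 * b)) :=
    Nat.log_mono_right h1
  have h3 := fa_natlog (2 * (p + 1) * (2 * b))
  have h4 : Real.log ((2 * (p + 1) * (2 * b) : ℕ) : ℝ)
      = Real.log (2 * ((p : ℝ) + 1)) + Real.log (2 * b) := by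
    push_cast
    rw [Real.log_mul (by positivity) (by positivity)]
  rw [h4] at h3
  have h2' : (Nat.log 2 (2 * p * (2 * 1) * b) : ℝ) ≤ Nat.log 2 (2 * (p + 1) * (2 * b)) := by
    exact_mod_cast h2
  have hlam : (lam : ℝ) ≤ A * Real.log (2 * b) := by
    have h5 : (lam : ℝ) ≤ (Real.log (2 * ((p : ℝ) + 1)) + Real.log (2 * b)) / Real.log 2 + 1 := by
      rw [hlamdef]; push_cast; push_cast at h2' h3; linarith
    refine h5.trans ?_
    have h6 : 1 ≤ Real.log (2 * b) / Real.log 2 := (one_le_div hl2).2 hL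
    have h7 : A * Real.log (2 * b) = (1 + Real.log (2 * ((p : ℝ) + 1)) / Real.log 2 + 1) *
        (Real.log (2 * b) / Real.log 2) := by rw [hA]; ring
    rw [h7]
    have h8 : (Real.log (2 * ((p : ℝ) + 1)) + Real.log (2 * b)) / Real.log 2 + 1 =
        Real.log (2 * ((p : ℝ) + 1)) / Real.log 2 + Real.log (2 * b) / Real.log 2 + 1 := by ring
    rw [h8]
    have h9 : 0 ≤ Real.log (2 * ((p : ℝ) + 1)) / Real.log 2 := by positivity
    nlinarith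
  have h10 : (lam : ℝ) ^ 4 ≤ A ^ 4 * (Real.log (2 * b)) ^ 4 := by
    calc (lam : ℝ) ^ 4 ≤ (A * Real.log (2 * b)) ^ 4 := by gcongr
      _ = _ := by ring
  have h11 : c₀ * (2 * 1) ^ 2 * (lam : ℝ) ^ 4 * ((d : ℝ) * d) ^ 4 ≤
      4 * c₀ * A ^ 4 * (d : ℝ) ^ 8 * (Real.log (2 * b)) ^ 4 := by
    calc c₀ * (2 * 1) ^ 2 * (lam : ℝ) ^ 4 * ((d : ℝ) * d) ^ 4
        = 4 * c₀ * (d : ℝ) ^ 8 * (lam : ℝ) ^ 4 := by ring
      _ ≤ 4 * c₀ * (d : ℝ) ^ 8 * (A ^ 4 * (Real.log (2 * b)) ^ 4) := by gcongr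
      _ = _ := by ring
  have h12 : (1 : ℝ) ≤ 1 / (Real.log 2) ^ 4 * (d : ℝ) ^ 8 * (Real.log (2 * b)) ^ 4 := by
    have h13 : (1 : ℝ) ≤ (Real.log (2 * b)) ^ 4 / (Real.log 2) ^ 4 := by
      rw [one_le_div (by positivity)]; gcongr
    calc (1 : ℝ) = 1 * 1 := by ring
      _ ≤ (d : ℝ) ^ 8 * ((Real.log (2 * b)) ^ 4 / (Real.log 2) ^ 4) := by gcongr
      _ = _ := by ring
  have h14 : (4 * c₀ * A ^ 4 + 1 / (Real.log 2) ^ 4) * (d : ℝ) ^ 8 * (Real.log (2 * b)) ^ 4 =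
      4 * c₀ * A ^ 4 * (d : ℝ) ^ 8 * (Real.log (2 * b)) ^ 4 +
        1 / (Real.log 2) ^ 4 * (d : ℝ) ^ 8 * (Real.log (2 * b)) ^ 4 := by ring
  rw [h14]
  linarith

end GamP
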