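import Mathlib

/-!
# The final real estimates, second theorem

PROOFS. Take `lam = ⌈log₂ (2 p b)⌉₊ + 1`-like natural number (`Nat.clog 2 (2*p*b)`:
`Nat.le_pow_clog`), `lam ≤ C_p log (2 b)` for all `b ≥ 1` (`log (2b) ≥ log 2 > 0`;
`Nat.clog` versus `Real.log`: `Nat.clog 2 n ≤ Real.logb 2 n + 1`).
* `finC1`: `n ≤ c₀ lam² (d d)³ ≤ c₀ C_p² d⁶ log(2b)²`.
* `finC2`: `x (x-1) ≤ 2 M c₀ lam² d⁶` and `x ≤ M`: if `x ≤ 1`: then `x ≤ √M * 1 ≤ ..` (`x ≤ M`; `M = 0` gives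
  `x = 0`; `log (2b) ≥ log 2`, take `C ≥ 1 / log 2`); if `x ≥ 2`, `x² ≤ 2 x (x-1) ≤ 4 M c₀ lam² d⁶`, so
  `x ≤ 2 √(c₀) √M lam d³`.
-/

namespace GamP

private theorem lamC (p : ℕ) : ∃ K : ℝ, 0 ≤ K ∧ ∀ b : ℕ, 1 ≤ b →
    ∃ lam : ℕ, 2 * p * b ≤ 2 ^ lam ∧ (lam : ℝ) ≤ K * Real.log (2 * b) := by
  have hl2 : 0 < Real.log 2 := Real.log_pos (by norm_num)
  refine ⟨(p + 2) / Real.log 2, by positivity, fun b hb => ⟨p + Nat.log 2 (2 * b) + 1, ?_, ?_⟩⟩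
  · have h1 : 2 * b < 2 ^ (Nat.log 2 (2 * b) + 1) := Nat.lt_pow_succ_log_self (by norm_num) _
    have h2 : p < 2 ^ p := Nat.lt_two_pow_self
    calc 2 * p * b = p * (2 * b) := by ring
      _ ≤ 2 ^ p * 2 ^ (Nat.log 2 (2 * b) + 1) := Nat.mul_le_mul h2.le h1.le
      _ = 2 ^ (p + Nat.log 2 (2 * b) + 1) := by rw [← pow_add, add_assoc]
  · have hb1 : (1 : ℝ) ≤ b := by exact_mod_cast hb
    have h1 : 2 ^ Nat.log 2 (2 * b) ≤ 2 * b := Nat.pow_log_le_self 2 (by omega)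
    have h2 : (2 : ℝ) ^ Nat.log 2 (2 * b) ≤ 2 * b := by exact_mod_cast h1
    have h3 : (Nat.log 2 (2 * b) : ℝ) * Real.log 2 ≤ Real.log (2 * b) := by
      rw [← Real.log_pow]
      exact Real.log_le_log (by positivity) h2
    have h4 : Real.log 2 ≤ Real.log (2 * b) := Real.log_le_log (by norm_num) (by linarith)
    rw [div_mul_eq_mul_div, le_div_iff₀ hl2]
    push_cast
    have h5 : (0 : ℝ) ≤ p := Nat.cast_nonneg p
    nlinarith [mul_le_mul_of_nonneg_left h4 h5]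

theorem finC1 (p c₀ : ℕ) : ∃ C : ℝ, 0 ≤ C ∧ ∀ d b n : ℕ, 1 ≤ d → 1 ≤ b →
    (∀ lam : ℕ, 2 * p * b ≤ 2 ^ lam → n ≤ c₀ * lam ^ 2 * (d * d) ^ 3) →
    (n : ℝ) ≤ C * d ^ 6 * (Real.log (2 * b)) ^ 2 := by
  obtain ⟨K, hK, hlam⟩ := lamC p
  refine ⟨c₀ * K ^ 2, by positivity, ?_⟩
  intro d b n hd hb h
  obtain ⟨lam, h1, h2⟩ := hlam b hb
  have h3 := h lam h1
  have h4 : (n : ℝ) ≤ c₀ * (lam : ℝ) ^ 2 * ((d : ℝ) * d) ^ 3 := by exact_mod_cast h3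
  have h5 : (lam : ℝ) ^ 2 ≤ (K * Real.log (2 * b)) ^ 2 :=
    pow_le_pow_left₀ (Nat.cast_nonneg _) h2 2
  calc (n : ℝ) ≤ c₀ * (lam : ℝ) ^ 2 * ((d : ℝ) * d) ^ 3 := h4
    _ ≤ c₀ * (K * Real.log (2 * b)) ^ 2 * ((d : ℝ) * d) ^ 3 := by gcongr
    _ = c₀ * K ^ 2 * d ^ 6 * (Real.log (2 * b)) ^ 2 := by ring

theorem finC2 (p c₀ : ℕ) : ∃ C : ℝ, 0 ≤ C ∧ ∀ d b M x : ℕ, 1 ≤ d → 1 ≤ b → x ≤ M →
    (∀ lam : ℕ, 2 * p * b ≤ 2 ^ lam → x * (x - 1) ≤ 2 * M * (c₀ * lam ^ 2 * (d * d) ^ 3)) →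
    (x : ℝ) ≤ C * d ^ 3 * Real.sqrt M * Real.log (2 * b) := by
  obtain ⟨K, hK, hlam⟩ := lamC p
  have hl2 : 0 < Real.log 2 := Real.log_pos (by norm_num)
  refine ⟨1 / Real.log 2 + 2 * Real.sqrt c₀ * K, by positivity, ?_⟩
  intro d b M x hd hb hxM h
  obtain ⟨lam, h1, h2⟩ := hlam b hb
  have h3 := h lam h1
  have hd1 : (1 : ℝ) ≤ (d : ℝ) ^ 3 := one_le_pow₀ (by exact_mod_cast hd)
  have hb1 : (1 : ℝ) ≤ b := by exact_mod_cast hb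
  have h4 : Real.log 2 ≤ Real.log (2 * b) := Real.log_le_log (by norm_num) (by linarith)
  have hlb : 0 ≤ Real.log (2 * b) := hl2.le.trans h4
  have hsM : 0 ≤ Real.sqrt M := Real.sqrt_nonneg _
  have hA : 0 ≤ 1 / Real.log 2 * (d : ℝ) ^ 3 * Real.sqrt M * Real.log (2 * b) := by positivity
  have hB : 0 ≤ 2 * Real.sqrt c₀ * K * (d : ℝ) ^ 3 * Real.sqrt M * Real.log (2 * b) := by
    positivity
  have hsplit : (1 / Real.log 2 + 2 * Real.sqrt c₀ * K) * (d : ℝ) ^ 3 * Real.sqrt M *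
      Real.log (2 * b) = 1 / Real.log 2 * (d : ℝ) ^ 3 * Real.sqrt M * Real.log (2 * b) +
      2 * Real.sqrt c₀ * K * (d : ℝ) ^ 3 * Real.sqrt M * Real.log (2 * b) := by ring
  rw [hsplit]
  rcases Nat.lt_or_ge x 2 with hx | hx
  · have h5 : (x : ℝ) ≤ Real.sqrt M := by
      apply Real.le_sqrt_of_sq_le
      have h6 : x ^ 2 ≤ M := by
        interval_cases x
        · omega
        · omega
      exact_mod_cast h6
    have h6 : Real.sqrt M ≤ 1 / Real.log 2 * (d : ℝ) ^ 3 * Real.sqrt M * Real.log (2 * b) := by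
      have h7 : 1 ≤ 1 / Real.log 2 * (d : ℝ) ^ 3 * Real.log (2 * b) := by
        have h8 : 1 ≤ 1 / Real.log 2 * Real.log (2 * b) := by
          rw [one_div, ← div_eq_inv_mul, one_le_div hl2]
          exact h4
        calc (1 : ℝ) = 1 * 1 := by ring
          _ ≤ (1 / Real.log 2 * Real.log (2 * b)) * (d : ℝ) ^ 3 :=
              mul_le_mul h8 hd1 (by norm_num) (by positivity)
          _ = _ := by ring
      calc Real.sqrt M = 1 * Real.sqrt M := by ring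
        _ ≤ (1 / Real.log 2 * (d : ℝ) ^ 3 * Real.log (2 * b)) * Real.sqrt M :=
            mul_le_mul_of_nonneg_right h7 hsM
        _ = _ := by ring
    linarith
  · have h5 : (x : ℝ) * ((x : ℝ) - 1) ≤ 2 * M * (c₀ * (lam : ℝ) ^ 2 * ((d : ℝ) * d) ^ 3) := by
      have h6 : ((x * (x - 1) : ℕ) : ℝ) ≤
          ((2 * M * (c₀ * lam ^ 2 * (d * d) ^ 3) : ℕ) : ℝ) := by exact_mod_cast h3
      rw [Nat.cast_mul, Nat.cast_sub (by omega : 1 ≤ x)] at h6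
      push_cast at h6
      exact h6
    have hx2 : (2 : ℝ) ≤ x := by exact_mod_cast hx
    have h6 : (x : ℝ) ^ 2 ≤ (2 * Real.sqrt c₀ * Real.sqrt M * lam * (d : ℝ) ^ 3) ^ 2 := by
      have h7 : (2 * Real.sqrt c₀ * Real.sqrt M * lam * (d : ℝ) ^ 3) ^ 2 =
          4 * (Real.sqrt c₀ ^ 2) * (Real.sqrt M ^ 2) * (lam : ℝ) ^ 2 * (d : ℝ) ^ 6 := by ring
      rw [h7, Real.sq_sqrt (Nat.cast_nonneg _), Real.sq_sqrt (Nat.cast_nonneg _)]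
      nlinarith
    have h8 : (x : ℝ) ≤ 2 * Real.sqrt c₀ * Real.sqrt M * lam * (d : ℝ) ^ 3 :=
      (sq_le_sq₀ (by positivity) (by positivity)).1 h6
    have h9 : 2 * Real.sqrt c₀ * Real.sqrt M * lam * (d : ℝ) ^ 3 ≤
        2 * Real.sqrt c₀ * Real.sqrt M * (K * Real.log (2 * b)) * (d : ℝ) ^ 3 := by gcongr
    have h10 : 2 * Real.sqrt c₀ * Real.sqrt M * (K * Real.log (2 * b)) * (d : ℝ) ^ 3 =
        2 * Real.sqrt c₀ * K * (d : ℝ) ^ 3 * Real.sqrt M * Real.log (2 * b) := by ring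
    linarith

end GamP
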