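import Pool.Agent.GamP.CountA
import Pool.Agent.GamP.CountB
import Pool.Agent.GamP.FinA
import Pool.Agent.GamP.Exist

/-!
# The main theorem on the algebraic values of bounded degree of Morita's gamma function
-/

namespace GamP

open Finset

open Classical in
theorem main (p : ℕ) [Fact p.Prime] :
    (∃! Γ : ℤ_[p] → ℤ_[p], IsMorita p Γ) ∧
    ∃ C : ℝ, ∀ Γ : ℤ_[p] → ℤ_[p], IsMorita p Γ → ∀ d b : ℕ, 1 ≤ d → 1 ≤ b → ¬ p ∣ b →
      (({a : ℕ | a < b ∧ a.Coprime b ∧ AlgAt Γ d a b}.ncard : ℝ) ≤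
        C * d ^ 8 * (b : ℝ) ^ (9 / 10 : ℝ)) ∧
      ∀ a M : ℕ, a.Coprime b → M ≤ b →
        (M : ℝ) / 4 - C * d ^ 8 * (Real.log (2 * b)) ^ 4 ≤
          {m : ℕ | 1 ≤ m ∧ m ≤ M ∧ ¬ AlgAt Γ d (m * a) b}.ncard := by
  refine ⟨exists_morita p, ?_⟩
  obtain ⟨CA, hA⟩ := finA p (112 * 288 ^ 2 * p ^ 3 * (2 * p ^ 4) ^ 2)
  obtain ⟨CB, hB⟩ := finB p (112 * 288 ^ 2 * p ^ 3 * (2 * p ^ 4) ^ 2)
  refine ⟨max CA CB, fun Γ h d b hd hb hpb => ⟨?_, ?_⟩⟩
  · have h1 := hA (fun d b => if p ∣ b then 0 else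
      ((range b).filter (fun a => a.Coprime b ∧ AlgAt Γ d a b)).card) ?_ ?_ d b hd hb hpb
    · simp only [hpb, if_false] at h1
      have h2 : {a : ℕ | a < b ∧ a.Coprime b ∧ AlgAt Γ d a b} =
          (((range b).filter (fun a => a.Coprime b ∧ AlgAt Γ d a b) : Finset ℕ) : Set ℕ) := by
        ext a
        simp
      rw [h2, Set.ncard_coe_finset]
      refine h1.trans ?_
      have : (0 : ℝ) ≤ (d : ℝ) ^ 8 * (b : ℝ) ^ (9 / 10 : ℝ) := by positivity
      nlinarith [le_max_left CA CB]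
    · intro d b
      split_ifs
      · exact Nat.zero_le _
      · exact (card_filter_le _ _).trans (by simp)
    · intro d b K lam hd hb hpb hlam P hP
      simp only [hpb, if_false]
      exact countA h hd hpb hlam P hP
  · intro a M ha hM
    have h2 : {m : ℕ | 1 ≤ m ∧ m ≤ M ∧ ¬ AlgAt Γ d (m * a) b} =
        (((Icc 1 M).filter (fun n => ¬ AlgAt Γ d (n * a) b) : Finset ℕ) : Set ℕ) := by
      ext m
      simp [and_assoc]
    rw [h2, Set.ncard_coe_finset]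
    have h1 := hB d b M (((Icc 1 M).filter (fun n => ¬ AlgAt Γ d (n * a) b)).card) hd hb
      (fun lam hlam => countB h hd hpb hlam ha hM)
    refine le_trans ?_ h1
    have : (0 : ℝ) ≤ (d : ℝ) ^ 8 * (Real.log (2 * b)) ^ 4 := by positivity
    nlinarith [le_max_right CA CB]

end GamP
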