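import Pool.Agent.GamP.CountC
import Pool.Agent.GamP.FinC
import Pool.Agent.GamP.Exist

/-!
# The main theorem on the algebraic values of bounded degree of Morita's gamma function
-/

namespace GamP

open Finset

open Classical in
theorem main2 (p : ℕ) [Fact p.Prime] :
    (∃! Γ : ℤ_[p] → ℤ_[p], IsMorita p Γ) ∧
    ∃ C : ℝ, ∀ Γ : ℤ_[p] → ℤ_[p], IsMorita p Γ → ∀ d b : ℕ, 1 ≤ d → ¬ p ∣ b →
      (∀ e : ℕ, ¬ b ∣ e →
        ({a : ℕ | a < b ∧ AlgAt Γ d a b ∧ AlgAt Γ d (a + e) b}.ncard : ℝ) ≤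
          C * d ^ 6 * (Real.log (2 * b)) ^ 2) ∧
      ∀ a₀ a₁ M : ℕ, a₁.Coprime b → M ≤ b →
        ({m : ℕ | m < M ∧ AlgAt Γ d (a₀ + m * a₁) b}.ncard : ℝ) ≤
          C * d ^ 3 * Real.sqrt M * Real.log (2 * b) := by
  refine ⟨exists_morita p, ?_⟩
  obtain ⟨CA, hCA, hA⟩ := finC1 p (3584 * p ^ 5)
  obtain ⟨CB, hCB, hB⟩ := finC2 p (3584 * p ^ 5)
  refine ⟨max CA CB, fun Γ h d b hd hpb => ?_⟩
  have hb : 1 ≤ b := by
    rcases Nat.eq_zero_or_pos b with rfl | hb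
    · exact absurd (dvd_zero p) hpb
    · exact hb
  have hlog : 0 ≤ Real.log (2 * b) := Real.log_nonneg (by
    have : (1 : ℝ) ≤ b := by exact_mod_cast hb
    linarith)
  refine ⟨fun e he => ?_, fun a₀ a₁ M ha₁ hM => ?_⟩
  · have h2 : {a : ℕ | a < b ∧ AlgAt Γ d a b ∧ AlgAt Γ d (a + e) b} =
        (((range b).filter (fun a => AlgAt Γ d a b ∧ AlgAt Γ d (a + e) b) : Finset ℕ) : Set ℕ) := by
      ext a
      simp
    rw [h2, Set.ncard_coe_finset]
    have h1 := hA d b _ hd hb (fun lam hlam => pair_bound3 h hd hpb he hlam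
      ((range b).filter (fun a => AlgAt Γ d a b ∧ AlgAt Γ d (a + e) b)) (fun a ha => by
        rw [mem_filter, mem_range] at ha
        exact ha))
    refine h1.trans ?_
    have : (0 : ℝ) ≤ (d : ℝ) ^ 6 * (Real.log (2 * b)) ^ 2 := by positivity
    nlinarith [le_max_left CA CB]
  · have h2 : {m : ℕ | m < M ∧ AlgAt Γ d (a₀ + m * a₁) b} =
        (((range M).filter (fun m => AlgAt Γ d (a₀ + m * a₁) b) : Finset ℕ) : Set ℕ) := by
      ext m
      simp
    rw [h2, Set.ncard_coe_finset]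
    have h1 := hB d b M (((range M).filter (fun m => AlgAt Γ d (a₀ + m * a₁) b)).card) hd hb
      ((card_filter_le _ _).trans (by simp))
      (fun lam hlam => countC h hd hpb hlam (a₀ := a₀) ha₁ hM)
    refine h1.trans ?_
    have : (0 : ℝ) ≤ (d : ℝ) ^ 3 * Real.sqrt M * Real.log (2 * b) := by positivity
    nlinarith [le_max_right CA CB]

end GamP
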