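import Pool.Agent.GamP.Ints

/-!
# The ratio of two block products with the same denominator

PROOFS. `HH2` is `HH` of `GamP/Ints` with `m = 1` but for `α < 2 β` (copy the proof): each inner factor
is now `≤ p β (i + 3)`, the inner product is `≤ (p β)^n (n+2)!/2`, so each `h j` is
`≤ (p β)^{2n} (n+1)(n+2)/2 ≤ (2 p β)^{2n}` (`(n+1)(n+2) ≤ 2 * 4^n` by induction).
`ratio2`: `A = H(α')`, `B = H(α)`: multiply the claim by `(p β)^{n(p-1)} > 0`:
`rt(α') H(α) (pβ)^.. = H(α') n!^{p-1} H(α) = rt(α) H(α') (pβ)^..`; `2 n (p-1) ≤ 2 p n`.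
-/

namespace GamP

open Finset

private lemma prod_three (c n : ℕ) :
    ∏ i ∈ range n, (c * (i + 3)) ≤ c ^ n * (n.factorial * 4 ^ n) := by
  induction n with
  | zero => simp
  | succ n ih =>
    rw [Finset.prod_range_succ]
    calc (∏ i ∈ range n, (c * (i + 3))) * (c * (n + 3))
        ≤ (c ^ n * (n.factorial * 4 ^ n)) * (c * (4 * (n + 1))) :=
          Nat.mul_le_mul ih (Nat.mul_le_mul_left _ (by omega))
      _ = c ^ (n + 1) * ((n + 1).factorial * 4 ^ (n + 1)) := by
          rw [Nat.factorial_succ]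
          ring

theorem HH2 {p α β n : ℕ} (hp : p.Prime) (hα : α < 2 * β) :
    ∃ H : ℕ, 0 < H ∧ H ≤ (2 * p * β) ^ (2 * n * (p - 1)) ∧
      (p * β) ^ (n * (p - 1)) * rt p 1 α β n = H * n.factorial ^ (p - 1) := by
  set J := (range (p * 1)).filter (fun j => ¬ p ∣ j) with hJ
  have hcard : J.card = p - 1 := by
    have := card_J hp 1
    rwa [mul_one (p - 1)] at this
  have hrt : rt p 1 α β n = ∏ j ∈ J, ∏ i ∈ range n, ((p * α + j * β) + (p * β) * i) := by
    rw [rt, prod_filter_blocks p 1 n]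
    refine Finset.prod_congr rfl fun j _ => Finset.prod_congr rfl fun i _ => ?_
    ring
  have hq : ∀ j : ℕ, ∃ h : ℕ, (p * β) ^ n * ∏ i ∈ range n, ((p * α + j * β) +
      (p * β) * i) = n.factorial * h := fun j => fact_dvd (p * β) (p * α + j * β) n
  choose h hh using hq
  have hβ : 0 < β := by omega
  have hpp := hp.pos
  have hc : 0 < p * β := by positivity
  have hbound : ∀ j ∈ J, h j ≤ (2 * p * β) ^ (2 * n) := by
    intro j hj
    rw [hJ, Finset.mem_filter, Finset.mem_range, mul_one] at hj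
    have h1 : ∏ i ∈ range n, ((p * α + j * β) + (p * β) * i) ≤
        ∏ i ∈ range n, ((p * β) * (i + 3)) := by
      refine Finset.prod_le_prod' fun i _ => ?_
      have h2 : p * α ≤ p * (2 * β) := Nat.mul_le_mul_left _ hα.le
      have h3 : j * β ≤ p * β := Nat.mul_le_mul_right _ hj.1.le
      calc (p * α + j * β) + (p * β) * i ≤ (p * (2 * β) + p * β) + (p * β) * i := by
            omega
        _ = (p * β) * (i + 3) := by ring
    have h5 : n.factorial * h j ≤ n.factorial * (2 * p * β) ^ (2 * n) := by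
      rw [← hh j]
      calc (p * β) ^ n * ∏ i ∈ range n, ((p * α + j * β) + (p * β) * i)
          ≤ (p * β) ^ n * ((p * β) ^ n * (n.factorial * 4 ^ n)) :=
            Nat.mul_le_mul_left _ (h1.trans (prod_three _ _))
        _ = n.factorial * ((p * β) ^ (2 * n) * 2 ^ (2 * n)) := by
            rw [two_mul n, pow_add, pow_add, show 4 = 2 * 2 by norm_num, mul_pow 2 2]
            ring
        _ = n.factorial * (2 * p * β) ^ (2 * n) := by rw [← mul_pow]; ring_nf
    exact Nat.le_of_mul_le_mul_left h5 (Nat.factorial_pos n)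
  have hmain : (p * β) ^ (n * (p - 1)) * rt p 1 α β n =
      (∏ j ∈ J, h j) * n.factorial ^ (p - 1) := by
    rw [hrt, pow_mul, ← hcard, ← Finset.prod_const, ← Finset.prod_mul_distrib,
      Finset.prod_congr rfl fun j _ => hh j, Finset.prod_mul_distrib, Finset.prod_const, mul_comm]
  refine ⟨∏ j ∈ J, h j, ?_, ?_, hmain⟩
  · rcases Nat.eq_zero_or_pos (∏ j ∈ J, h j) with h0 | h0
    · exfalso
      rw [h0, zero_mul] at hmain
      have h1 : 0 < rt p 1 α β n := by
        rw [rt]
        refine Finset.prod_pos fun k hk => ?_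
        rw [Finset.mem_filter] at hk
        have hk0 : 0 < k := by
          rcases Nat.eq_zero_or_pos k with h | h
          · exact absurd (h ▸ dvd_zero p) hk.2
          · exact h
        positivity
      have h2 : 0 < (p * β) ^ (n * (p - 1)) := by positivity
      have := Nat.mul_pos h2 h1
      omega
    · exact h0
  · calc ∏ j ∈ J, h j ≤ ∏ _j ∈ J, (2 * p * β) ^ (2 * n) := Finset.prod_le_prod' hbound
      _ = (2 * p * β) ^ (2 * n * (p - 1)) := by
        rw [Finset.prod_const, hcard, ← pow_mul]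

theorem ratio2 {p α α' β n : ℕ} (hp : p.Prime) (hα : α < 2 * β) (hα' : α' < 2 * β) :
    ∃ A B : ℕ, 0 < A ∧ 0 < B ∧ A ≤ (2 * p * β) ^ (2 * p * n) ∧ B ≤ (2 * p * β) ^ (2 * p * n) ∧
      rt p 1 α' β n * B = rt p 1 α β n * A := by
  obtain ⟨H, hH0, hHb, hHe⟩ := HH2 (n := n) hp hα
  obtain ⟨H', hH0', hHb', hHe'⟩ := HH2 (n := n) hp hα'
  have hβ : 0 < β := by omega
  have hpp := hp.pos
  have hb : 0 < 2 * p * β := by positivity
  have hle : (2 * p * β) ^ (2 * n * (p - 1)) ≤ (2 * p * β) ^ (2 * p * n) := by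
    refine Nat.pow_le_pow_right hb ?_
    calc 2 * n * (p - 1) ≤ 2 * n * p := Nat.mul_le_mul_left _ (Nat.sub_le _ _)
      _ = 2 * p * n := by ring
  refine ⟨H', H, hH0', hH0, hHb'.trans hle, hHb.trans hle, ?_⟩
  have hX : 0 < (p * β) ^ (n * (p - 1)) := by positivity
  apply Nat.eq_of_mul_eq_mul_left hX
  calc (p * β) ^ (n * (p - 1)) * (rt p 1 α' β n * H)
      = ((p * β) ^ (n * (p - 1)) * rt p 1 α' β n) * H := by ring
    _ = (H' * n.factorial ^ (p - 1)) * H := by rw [hHe']
    _ = (H * n.factorial ^ (p - 1)) * H' := by ring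
    _ = ((p * β) ^ (n * (p - 1)) * rt p 1 α β n) * H' := by rw [hHe]
    _ = (p * β) ^ (n * (p - 1)) * (rt p 1 α β n * H') := by ring

end GamP
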