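import Pool.Agent.GamP.Bin

/-!
# Non-vanishing of the auxiliary polynomial at some integer of the progression

PROOF. Let `J` be the largest `j : Fin T₂` such that some `c (i, j) ≠ 0`. The polynomial
`P_J = ∑ i < T₁, c (i,J) (p^{v(i!)} / i!) * (descending Pochhammer)_i ∈ ℚ[X]` is nonzero (degree `i` for
the largest `i` with `c (i,J) ≠ 0`; the `i`-th term has degree exactly `i`) of degree `< T₁`, and
`P_J n = ∑ i, c (i,J) * ez p i n`. So among the `T₁` numbers `n = a + q t`, `t₀ ≤ t < t₀ + T₁`, at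
least one satisfies `P_J n ≠ 0`, i.e. `|P_J n| ≥ 1` (`Polynomial.card_roots'`; alternative without
polynomials: none needed). Fix it. Suppose the sum is `0`. Group by `j`:
`∑_{j ≤ J} P_j(n) A^j B^{T₂-1-j} = 0`, where `|P_j n| ≤ T₁ p^e p^{T₁} 2^n =: E` (`ez_bound`; and
`p^i ≤ p^{T₁}`), `A ≥ 16^n B`, `B ≥ 1`. Then
`A^J B^{T₂-1-J} ≤ |P_J n| A^J B^{T₂-1-J} ≤ ∑_{j<J} E A^j B^{T₂-1-j} ≤ J E A^{J-1} B^{T₂-J}`
(if `J = 0` this is already a contradiction), because `A^j B^{T₂-1-j} ≤ A^{J-1} B^{T₂-J}` for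
`j ≤ J-1`, `B ≤ A`. So `A ≤ J E B < T₂ E B`..., hence `16^n ≤ T₂ T₁ p^{e+T₁} 2^n`, `8^n ≤ T₁T₂p^{e+T₁}`,
contradicting `T₁ T₂ p^{e+T₁} < 8^{t₀}` and `n ≥ t₀` (`q ≥ 1`).
-/

namespace GamP

open Finset

private theorem poly_ne {p T₁ t₀ a q : ℕ} (hp : p.Prime) (hq : 0 < q) (d : Fin T₁ → ℤ)
    (hd : ∃ i, d i ≠ 0) :
    ∃ t, t₀ ≤ t ∧ t < t₀ + T₁ ∧ ∑ i : Fin T₁, d i * ez p i (a + q * t) ≠ 0 := by
  classical
  by_contra hcon
  push Not at hcon
  let P : Polynomial ℚ := ∑ i : Fin T₁,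
    Polynomial.C ((d i : ℚ) * (p : ℚ) ^ (padicValNat p (i : ℕ).factorial) /
      ((i : ℕ).factorial : ℚ)) * descPochhammer ℚ i
  have heval : ∀ n : ℕ, P.eval (n : ℚ) = ((∑ i : Fin T₁, d i * ez p i n : ℤ) : ℚ) := by
    intro n
    simp only [P, Polynomial.eval_finsetSum, Polynomial.eval_mul, Polynomial.eval_C,
      descPochhammer_eval_eq_descFactorial, Nat.descFactorial_eq_factorial_mul_choose, ez]
    push_cast
    refine Finset.sum_congr rfl fun i _ => ?_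
    have : ((i : ℕ).factorial : ℚ) ≠ 0 := by exact_mod_cast Nat.factorial_ne_zero _
    field_simp
  have hT : 0 < T₁ := by
    obtain ⟨i, -⟩ := hd
    exact lt_of_le_of_lt (Nat.zero_le _) i.2
  have hdeg : P.natDegree < T₁ := by
    have : P.natDegree ≤ T₁ - 1 := by
      refine Polynomial.natDegree_sum_le_of_forall_le _ _ fun i _ => ?_
      refine (Polynomial.natDegree_C_mul_le _ _).trans ?_
      rw [descPochhammer_natDegree]
      have := i.2
      omega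
    omega
  have hP0 : P = 0 := by
    refine Polynomial.eq_zero_of_natDegree_lt_card_of_eval_eq_zero P (ι := Fin T₁)
      (f := fun t => ((a + q * (t₀ + (t : ℕ)) : ℕ) : ℚ)) ?_ ?_ ?_
    · intro s t hst
      have hst' : ((a + q * (t₀ + (s : ℕ)) : ℕ) : ℚ) = ((a + q * (t₀ + (t : ℕ)) : ℕ) : ℚ) := hst
      have h1 : a + q * (t₀ + (s : ℕ)) = a + q * (t₀ + (t : ℕ)) := by exact_mod_cast hst'
      have h2 := Nat.eq_of_mul_eq_mul_left hq (Nat.add_left_cancel h1)
      exact Fin.ext (by omega)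
    · intro t
      rw [heval, hcon (t₀ + t) (by omega) (by have := t.2; omega)]
      simp
    · simpa using hdeg
  let Is := univ.filter (fun i : Fin T₁ => d i ≠ 0)
  have hne : Is.Nonempty := by
    obtain ⟨i, hi⟩ := hd
    exact ⟨i, by simpa [Is] using hi⟩
  obtain ⟨I, hI, hmin⟩ := Is.exists_min_image id hne
  have hI' : d I ≠ 0 := by simpa [Is] using hI
  have h3 := heval (I : ℕ)
  rw [hP0, Polynomial.eval_zero] at h3
  have h4 : ∑ i : Fin T₁, d i * ez p i I = 0 := by exact_mod_cast h3.symm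
  rw [Finset.sum_eq_single I] at h4
  · rcases mul_eq_zero.1 h4 with h5 | h5
    · exact hI' h5
    · unfold ez at h5
      rw [Nat.choose_self] at h5
      have : (p : ℤ) ≠ 0 := by exact_mod_cast hp.ne_zero
      simp at h5
      exact absurd h5.1 hp.ne_zero
  · intro i _ hiI
    by_cases hdi : d i = 0
    · rw [hdi, zero_mul]
    · have h6 := hmin i (by simpa [Is] using hdi)
      simp only [id] at h6
      have h7 : (I : ℕ) < i := by
        rcases lt_or_eq_of_le h6 with h8 | h8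
        · exact h8
        · exact absurd h8.symm hiI
      rw [ez, Nat.choose_eq_zero_of_lt h7]
      simp
  · intro h
    exact absurd (mem_univ _) h

private theorem pow_est {A B x J j T : ℕ} (hx : 1 ≤ x) (hj : j < J) (hJ : J < T)
    (hAB : x * B ≤ A) :
    x * (A ^ j * B ^ (T - 1 - j)) ≤ A ^ J * B ^ (T - 1 - J) := by
  have e1 : T - 1 - j = (J - j) + (T - 1 - J) := by omega
  have e2 : J = j + (J - j) := by omega
  have h1 : x ≤ x ^ (J - j) := by
    calc x = x ^ 1 := (pow_one x).symm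
      _ ≤ x ^ (J - j) := Nat.pow_le_pow_right hx (by omega)
  calc x * (A ^ j * B ^ (T - 1 - j)) ≤ x ^ (J - j) * (A ^ j * B ^ (T - 1 - j)) :=
        Nat.mul_le_mul_right _ h1
    _ = A ^ j * (x * B) ^ (J - j) * B ^ (T - 1 - J) := by
        rw [e1, pow_add, mul_pow]
        ring
    _ ≤ A ^ j * A ^ (J - j) * B ^ (T - 1 - J) :=
        Nat.mul_le_mul_right _ (Nat.mul_le_mul_left _ (Nat.pow_le_pow_left hAB _))
    _ = A ^ J * B ^ (T - 1 - J) := by
        rw [← pow_add, ← e2]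

theorem nonvanish {p T₁ T₂ e t₀ a q : ℕ} (hp : p.Prime) (hq : 0 < q)
    (c : Fin T₁ × Fin T₂ → ℤ) (hc0 : ∃ i, c i ≠ 0) (hc : ∀ i, |c i| < (p : ℤ) ^ e)
    (ht : T₁ * T₂ * p ^ (e + T₁) < 8 ^ t₀) (A B : ℕ → ℕ) (hB : ∀ n, 0 < B n)
    (hAB : ∀ n, 16 ^ n * B n ≤ A n) :
    ∃ t, t₀ ≤ t ∧ t < t₀ + T₁ ∧
      ∑ i : Fin T₁ × Fin T₂, c i * ez p i.1 (a + q * t) * (A (a + q * t) : ℤ) ^ (i.2 : ℕ) *
        (B (a + q * t) : ℤ) ^ (T₂ - 1 - (i.2 : ℕ)) ≠ 0 := by
  classical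
  obtain ⟨⟨i₁, j₁⟩, h1⟩ := hc0
  let Js := univ.filter (fun j : Fin T₂ => ∃ i, c (i, j) ≠ 0)
  have hne : Js.Nonempty := ⟨j₁, by
    simp only [Js, mem_filter, mem_univ, true_and]
    exact ⟨i₁, h1⟩⟩
  obtain ⟨J, hJ, hmax⟩ := Js.exists_max_image id hne
  have hJ' : ∃ i, c (i, J) ≠ 0 := by
    simpa only [Js, mem_filter, mem_univ, true_and] using hJ
  obtain ⟨t, ht1, ht2, hP⟩ := poly_ne (t₀ := t₀) (a := a) hp hq (fun i => c (i, J)) hJ'
  refine ⟨t, ht1, ht2, fun hsum => ?_⟩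
  generalize hn : a + q * t = n at hsum hP
  have hnt : t₀ ≤ n := by
    rw [← hn]
    have : t ≤ q * t := Nat.le_mul_of_pos_left t hq
    omega
  let S : Fin T₂ → ℤ := fun j => ∑ i : Fin T₁, c (i, j) * ez p i n
  have hpos : (0 : ℤ) < p := by exact_mod_cast hp.pos
  have hS : ∀ j, |S j| ≤ (T₁ * p ^ (e + T₁) * 2 ^ n : ℕ) := by
    intro j
    calc |S j| ≤ ∑ i : Fin T₁, |c (i, j) * ez p i n| := Finset.abs_sum_le_sum_abs _ _
      _ ≤ ∑ _i : Fin T₁, ((p : ℤ) ^ (e + T₁) * 2 ^ n) := by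
          refine Finset.sum_le_sum fun i _ => ?_
          rw [abs_mul]
          calc |c (i, j)| * |ez p i n| ≤ (p : ℤ) ^ e * ((p : ℤ) ^ (i : ℕ) * 2 ^ n) := by
                exact mul_le_mul (hc _).le (ez_bound hp _ _) (abs_nonneg _) (by positivity)
            _ ≤ (p : ℤ) ^ e * ((p : ℤ) ^ T₁ * 2 ^ n) := by
                have : (p : ℤ) ^ (i : ℕ) ≤ (p : ℤ) ^ T₁ := by
                  refine pow_le_pow_right₀ (by exact_mod_cast hp.one_le) ?_
                  exact i.2.le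
                gcongr
            _ = (p : ℤ) ^ (e + T₁) * 2 ^ n := by ring
      _ = _ := by
          rw [Finset.sum_const, Finset.card_univ, Fintype.card_fin]
          push_cast
          rw [nsmul_eq_mul]
          ring
  have hS0 : ∀ j, J < j → S j = 0 := by
    intro j hj
    refine Finset.sum_eq_zero fun i _ => ?_
    by_cases h : c (i, j) = 0
    · rw [h, zero_mul]
    · have := hmax j (by
        simp only [Js, mem_filter, mem_univ, true_and]
        exact ⟨i, h⟩)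
      exact absurd hj (not_lt.2 this)
  let X : Fin T₂ → ℕ := fun j => A n ^ (j : ℕ) * B n ^ (T₂ - 1 - (j : ℕ))
  have hsum' : ∑ j : Fin T₂, S j * (X j : ℤ) = 0 := by
    rw [Fintype.sum_prod_type_right] at hsum
    rw [← hsum]
    refine Finset.sum_congr rfl fun j _ => ?_
    simp only [S, X]
    rw [Finset.sum_mul]
    refine Finset.sum_congr rfl fun i _ => ?_
    push_cast
    ring
  have hX : ∀ j, j < J → 16 ^ n * X j ≤ X J := by
    intro j hj
    exact pow_est (Nat.one_le_pow _ _ (by norm_num)) hj J.2 (hAB n)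
  have hApos : 0 < A n := lt_of_lt_of_le (Nat.mul_pos (by positivity) (hB n)) (hAB n)
  have hXJ : 0 < X J := Nat.mul_pos (pow_pos hApos _) (pow_pos (hB n) _)
  rw [← Finset.add_sum_erase univ _ (mem_univ J)] at hsum'
  have h5 : |S J * (X J : ℤ)| = |∑ j ∈ univ.erase J, S j * (X j : ℤ)| := by
    rw [show S J * (X J : ℤ) = - ∑ j ∈ univ.erase J, S j * (X j : ℤ) by linarith, abs_neg]
  have h6 : (X J : ℤ) ≤ |S J * (X J : ℤ)| := by
    rw [abs_mul, abs_of_nonneg (by positivity : (0 : ℤ) ≤ (X J : ℤ))]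
    have : 1 ≤ |S J| := Int.one_le_abs hP
    nlinarith [(by exact_mod_cast hXJ : (0 : ℤ) < (X J : ℤ))]
  have h7 : (16 : ℤ) ^ n * |∑ j ∈ univ.erase J, S j * (X j : ℤ)| ≤
      ∑ _j ∈ (univ : Finset (Fin T₂)), ((T₁ * p ^ (e + T₁) * 2 ^ n : ℕ) : ℤ) * (X J : ℤ) := by
    calc (16 : ℤ) ^ n * |∑ j ∈ univ.erase J, S j * (X j : ℤ)|
        ≤ (16 : ℤ) ^ n * ∑ j ∈ univ.erase J, |S j * (X j : ℤ)| := by
          gcongr
          exact Finset.abs_sum_le_sum_abs _ _
      _ = ∑ j ∈ univ.erase J, (16 : ℤ) ^ n * |S j * (X j : ℤ)| := by rw [Finset.mul_sum]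
      _ ≤ ∑ _j ∈ univ.erase J, ((T₁ * p ^ (e + T₁) * 2 ^ n : ℕ) : ℤ) * (X J : ℤ) := by
          refine Finset.sum_le_sum fun j hj => ?_
          rcases lt_trichotomy j J with h | h | h
          · rw [abs_mul, abs_of_nonneg (by positivity : (0 : ℤ) ≤ (X j : ℤ))]
            have h8 : ((16 : ℤ) ^ n * (X j : ℤ)) ≤ X J := by exact_mod_cast hX j h
            calc (16 : ℤ) ^ n * (|S j| * (X j : ℤ)) = |S j| * ((16 : ℤ) ^ n * (X j : ℤ)) := by ring
              _ ≤ _ := mul_le_mul (hS j) h8 (by positivity) (by positivity)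
          · exact absurd h (Finset.ne_of_mem_erase hj)
          · rw [hS0 j h]
            simp only [zero_mul, abs_zero, mul_zero]
            positivity
      _ ≤ _ := Finset.sum_le_sum_of_subset_of_nonneg (Finset.erase_subset _ _)
          (fun _ _ _ => by positivity)
  rw [Finset.sum_const, Finset.card_univ, Fintype.card_fin, nsmul_eq_mul] at h7
  have h8 : (16 : ℤ) ^ n * (X J : ℤ) ≤
      (T₂ : ℤ) * (((T₁ * p ^ (e + T₁) * 2 ^ n : ℕ) : ℤ) * (X J : ℤ)) := by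
    refine le_trans ?_ h7
    rw [← h5]
    gcongr
  have h9 : 16 ^ n * X J ≤ (T₂ * (T₁ * p ^ (e + T₁) * 2 ^ n)) * X J := by
    have : ((16 ^ n * X J : ℕ) : ℤ) ≤ ((T₂ * (T₁ * p ^ (e + T₁) * 2 ^ n) * X J : ℕ) : ℤ) := by
      push_cast
      push_cast at h8
      linarith
    exact_mod_cast this
  have h10 : 16 ^ n ≤ T₂ * (T₁ * p ^ (e + T₁) * 2 ^ n) := Nat.le_of_mul_le_mul_right h9 hXJ
  have h11 : T₂ * (T₁ * p ^ (e + T₁) * 2 ^ n) < 16 ^ n := by
    calc T₂ * (T₁ * p ^ (e + T₁) * 2 ^ n) = (T₁ * T₂ * p ^ (e + T₁)) * 2 ^ n := by ring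
      _ < 8 ^ t₀ * 2 ^ n := Nat.mul_lt_mul_of_pos_right ht (by positivity)
      _ ≤ 8 ^ n * 2 ^ n := Nat.mul_le_mul_right _ (Nat.pow_le_pow_right (by norm_num) hnt)
      _ = 16 ^ n := by rw [← mul_pow]; norm_num
  exact absurd h10 (not_le.2 h11)

end GamP
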