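import Pool.Agent.GamP.Defs

/-!
# Numerical inequalities for the choice of the parameters, second theorem

Everything in `ℕ`. `2 ≤ p`, `1 ≤ D`, `1 ≤ b`, `2 * p * b ≤ 2 ^ lam` (so `lam ≥ 2`),
`(D + T₂)^2 + 1 ≤ N`, `Y ≤ 2 ^ N`. Parameters `T₂ = 64 * lam * D^2`, `T₁ = p * N * T₂`,
`L = 8 * lam * D * T₁`, `e = 2 * lam * T₁ + 1`, `q = 2 * p^4`.
(The proofs of `GamP/PropN`, already done, are very similar: copy them.)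

PROOFS.
* `numB1`: `2 L² = 128 lam² D² T₁²`, `e T₁ T₂ = 128 lam² D² T₁² + 64 lam D² T₁`.
* `numB2`: `(2pb)^{2pN T₂} ≤ 2^{2 lam T₁}`; `p b² ≤ (2pb)² ≤ 2^{2lam}`, so `p^{T₁} b^{2T₁} ≤ 2^{2 lam T₁}`;
  `T₁ ≤ 2^{T₁}`; `2^N ≤ 2^{T₁}`: the bracket is `≤ p^e 2^{6 lam T₁}`, its `D`-th power
  `≤ p^{2 lam D T₁ + D} 2^{6 lam D T₁}`; `(D+T₂)! Y^{T₂} ≤ 2^{2T₁}` as in `PropN`. Total
  `≤ p^{11 lam D T₁} < p^{16 lam D T₁}`.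
* `numB3`: let `U = p N' T₂ ≥ T₁`. `(2pb)^{2p(2N')T₂} ≤ 2^{4 lam U}`, `2^{2N'} ≤ 2^{2U}`: the bracket is
  `≤ p^{2 lam U + 1} 2^{9 lam U}`; total `≤ p^{14 lam D U}`, `14 lam D U = 896 p lam² D³ N'`. And
  `N' < q (N'/q + 1) ≤ 2 q (N'/q)` (`N' ≥ q`), so
  `s * (N'/q) ≥ 1792 p q lam² D³ (N'/q) + N'/q > 896 p lam² D³ N'` because `3584 p^5 = 1792 p q`.
-/

namespace GamP

private theorem bfB {p D lam N : ℕ} (hp : 2 ≤ p) (hD : 1 ≤ D) (hlam : 1 ≤ lam)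
    (hN : 1 ≤ N) (T₁ T₂ : ℕ) (hT₂ : T₂ = 64 * lam * D ^ 2) (hT₁ : T₁ = p * N * T₂) :
    1 ≤ T₂ ∧ T₂ ≤ T₁ ∧ N * T₂ ≤ T₁ ∧ N ≤ T₁ ∧ 1 ≤ T₁ := by
  have hT₂pos : 1 ≤ T₂ := by rw [hT₂]; exact Nat.succ_le_of_lt (by positivity)
  have h3 : N * T₂ ≤ T₁ := by
    rw [hT₁, mul_assoc p]
    exact Nat.le_mul_of_pos_left _ (by omega)
  have h2 : T₂ ≤ N * T₂ := Nat.le_mul_of_pos_left _ hN
  have h4 : N ≤ N * T₂ := Nat.le_mul_of_pos_right _ hT₂pos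
  exact ⟨hT₂pos, h2.trans h3, h3, h4.trans h3, hT₂pos.trans (h2.trans h3)⟩

/-- The general bound: `U` is the common scale, `W` and `Z` bound the exponents. -/
private theorem coreB {p D lam N b Y : ℕ} (hp : 2 ≤ p) (hD : 1 ≤ D) (hb : 1 ≤ b)
    (hlam : 2 * p * b ≤ 2 ^ lam) (hlam1 : 1 ≤ lam) (T₁ T₂ M c : ℕ)
    (hT₂ : T₂ = 64 * lam * D ^ 2)
    (hT₁ : T₁ = p * N * T₂) (hN : (D + T₂) ^ 2 + 1 ≤ N) (hY : Y ≤ 2 ^ N) :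
    (D + T₂).factorial * Y ^ T₂ * (T₁ * p ^ (2 * lam * T₁ + 1) * p ^ T₁ * b ^ (2 * T₁) * 2 ^ M *
      ((2 * p * b) ^ (2 * p * c)) ^ T₂) ^ D ≤
      p ^ ((2 * lam * T₁ + 1) * D + (T₁ + T₁ + (T₁ + 2 * lam * T₁ + M + lam * (2 * p * c) * T₂) * D)) := by
  have hp1 : 1 ≤ p := by omega
  have hN1 : 1 ≤ N := by omega
  obtain ⟨f1, f2, f3, f4, f5⟩ := bfB hp hD hlam1 hN1 T₁ T₂ hT₂ hT₁
  have a1 : ((2 * p * b) ^ (2 * p * c)) ^ T₂ ≤ 2 ^ (lam * (2 * p * c) * T₂) := by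
    calc ((2 * p * b) ^ (2 * p * c)) ^ T₂ ≤ ((2 ^ lam) ^ (2 * p * c)) ^ T₂ := by
          gcongr
      _ = 2 ^ (lam * (2 * p * c) * T₂) := by
          rw [← pow_mul, ← pow_mul, mul_assoc lam]
  have a2 : p ^ T₁ * b ^ (2 * T₁) ≤ 2 ^ (2 * lam * T₁) := by
    have h1 : p * b ^ 2 ≤ (2 * p * b) ^ 2 := by
      have : (2 * p * b) ^ 2 = (p * b ^ 2) * (4 * p) := by ring
      rw [this]
      refine Nat.le_mul_of_pos_right _ (by positivity)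
    calc p ^ T₁ * b ^ (2 * T₁) = (p * b ^ 2) ^ T₁ := by rw [mul_pow, ← pow_mul]
      _ ≤ ((2 * p * b) ^ 2) ^ T₁ := by gcongr
      _ ≤ ((2 ^ lam) ^ 2) ^ T₁ := by gcongr
      _ = 2 ^ (2 * lam * T₁) := by rw [← pow_mul, ← pow_mul]; congr 1; ring
  have a3 : T₁ ≤ 2 ^ T₁ := Nat.lt_two_pow_self.le
  have hin : T₁ * p ^ (2 * lam * T₁ + 1) * p ^ T₁ * b ^ (2 * T₁) * 2 ^ M *
      ((2 * p * b) ^ (2 * p * c)) ^ T₂ ≤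
      p ^ (2 * lam * T₁ + 1) * 2 ^ (T₁ + 2 * lam * T₁ + M + lam * (2 * p * c) * T₂) := by
    calc T₁ * p ^ (2 * lam * T₁ + 1) * p ^ T₁ * b ^ (2 * T₁) * 2 ^ M *
          ((2 * p * b) ^ (2 * p * c)) ^ T₂
        = p ^ (2 * lam * T₁ + 1) * (T₁ * (p ^ T₁ * b ^ (2 * T₁)) * 2 ^ M *
          ((2 * p * b) ^ (2 * p * c)) ^ T₂) := by ring
      _ ≤ p ^ (2 * lam * T₁ + 1) * (2 ^ T₁ * 2 ^ (2 * lam * T₁) * 2 ^ M *
          2 ^ (lam * (2 * p * c) * T₂)) := by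
          gcongr
      _ = p ^ (2 * lam * T₁ + 1) * 2 ^ (T₁ + 2 * lam * T₁ + M + lam * (2 * p * c) * T₂) := by
          rw [← pow_add, ← pow_add, ← pow_add]
  have b1 : Y ^ T₂ ≤ 2 ^ T₁ := by
    calc Y ^ T₂ ≤ (2 ^ N) ^ T₂ := by gcongr
      _ = 2 ^ (N * T₂) := by rw [← pow_mul]
      _ ≤ 2 ^ T₁ := Nat.pow_le_pow_right (by norm_num) f3
  have b2 : (D + T₂).factorial ≤ 2 ^ T₁ := by
    calc (D + T₂).factorial ≤ (D + T₂) ^ (D + T₂) := Nat.factorial_le_pow _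
      _ ≤ (2 ^ (D + T₂)) ^ (D + T₂) := by gcongr; exact Nat.lt_two_pow_self.le
      _ = 2 ^ ((D + T₂) ^ 2) := by rw [← pow_mul]; congr 1; ring
      _ ≤ 2 ^ T₁ := Nat.pow_le_pow_right (by norm_num) (by omega)
  set E : ℕ := T₁ + 2 * lam * T₁ + M + lam * (2 * p * c) * T₂ with hE
  calc (D + T₂).factorial * Y ^ T₂ * (T₁ * p ^ (2 * lam * T₁ + 1) * p ^ T₁ * b ^ (2 * T₁) * 2 ^ M *
        ((2 * p * b) ^ (2 * p * c)) ^ T₂) ^ D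
      ≤ 2 ^ T₁ * 2 ^ T₁ * (p ^ (2 * lam * T₁ + 1) * 2 ^ E) ^ D := by
        gcongr
    _ = p ^ ((2 * lam * T₁ + 1) * D) * 2 ^ (T₁ + T₁ + E * D) := by
        rw [mul_pow, ← pow_mul, ← pow_mul, pow_add, pow_add]; ring
    _ ≤ p ^ ((2 * lam * T₁ + 1) * D) * p ^ (T₁ + T₁ + E * D) := by
        gcongr
    _ = p ^ ((2 * lam * T₁ + 1) * D + (T₁ + T₁ + E * D)) := by rw [← pow_add]

private theorem lamB {p lam b : ℕ} (hp : 2 ≤ p) (hb : 1 ≤ b) (hlam : 2 * p * b ≤ 2 ^ lam) :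
    2 ≤ lam := by
  by_contra hc
  have h1 : 2 ^ lam ≤ 2 ^ 1 := Nat.pow_le_pow_right (by norm_num) (by omega)
  have : 2 * 2 * 1 ≤ 2 * p * b := by gcongr
  omega

theorem numB1 {p D lam N : ℕ} (hp : 2 ≤ p) (hD : 1 ≤ D) (hlam : 1 ≤ lam)
    (hN : 1 ≤ N) (T₁ T₂ : ℕ) (hT₂ : T₂ = 64 * lam * D ^ 2) (hT₁ : T₁ = p * N * T₂) :
    2 * (8 * lam * D * T₁) ^ 2 < (2 * lam * T₁ + 1) * (T₁ * T₂) := by
  obtain ⟨f1, f2, f3, f4, f5⟩ := bfB hp hD hlam hN T₁ T₂ hT₂ hT₁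
  have h1 : 0 < T₁ * T₂ := Nat.mul_pos f5 f1
  have h2 : 2 * (8 * lam * D * T₁) ^ 2 = 2 * lam * T₁ * (T₁ * T₂) := by
    rw [hT₂]; ring
  rw [h2, add_mul, one_mul]
  omega

theorem numB2 {p D lam N b Y : ℕ} (hp : 2 ≤ p) (hD : 1 ≤ D) (hb : 1 ≤ b)
    (hlam : 2 * p * b ≤ 2 ^ lam) (T₁ T₂ : ℕ) (hT₂ : T₂ = 64 * lam * D ^ 2)
    (hT₁ : T₁ = p * N * T₂) (hN : (D + T₂) ^ 2 + 1 ≤ N) (hY : Y ≤ 2 ^ N) :
    (D + T₂).factorial * Y ^ T₂ * (T₁ * p ^ (2 * lam * T₁ + 1) * p ^ T₁ * b ^ (2 * T₁) * 2 ^ N *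
      ((2 * p * b) ^ (2 * p * N)) ^ T₂) ^ D < p ^ (2 * (8 * lam * D * T₁)) := by
  have hlam2 := lamB hp hb hlam
  have hlam1 : 1 ≤ lam := by omega
  have hN1 : 1 ≤ N := by omega
  obtain ⟨f1, f2, f3, f4, f5⟩ := bfB hp hD hlam1 hN1 T₁ T₂ hT₂ hT₁
  refine (coreB hp hD hb hlam hlam1 T₁ T₂ N N hT₂ hT₁ hN hY).trans_lt ?_
  apply Nat.pow_lt_pow_right (by omega)
  have e1 : lam * (2 * p * N) * T₂ = 2 * (lam * T₁) := by rw [hT₁]; ring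
  rw [e1]
  have g1 : 2 * T₁ ≤ lam * T₁ := Nat.mul_le_mul_right _ hlam2
  have g2 : lam * T₁ ≤ D * (lam * T₁) := Nat.le_mul_of_pos_left _ hD
  have g3 : N ≤ lam * T₁ := by omega
  have g4 : (T₁ + 2 * lam * T₁ + N + 2 * (lam * T₁)) * D ≤ (6 * (lam * T₁)) * D := by
    apply Nat.mul_le_mul_right
    nlinarith
  have g5 : D * 1 ≤ D * (lam * T₁) := Nat.mul_le_mul_left _ (by nlinarith)
  have g6 : D * (2 * T₁) ≤ D * (lam * T₁) := Nat.mul_le_mul_left _ g1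
  have g7 : T₁ ≤ D * T₁ := Nat.le_mul_of_pos_left _ hD
  have e2 : 2 * (8 * lam * D * T₁) = 16 * (D * (lam * T₁)) := by ring
  have e3 : (2 * lam * T₁ + 1) * D = 2 * (D * (lam * T₁)) + D := by ring
  have e4 : (6 * (lam * T₁)) * D = 6 * (D * (lam * T₁)) := by ring
  have e5 : D * (2 * T₁) = 2 * (D * T₁) := by ring
  rw [e2, e3]
  rw [e4] at g4
  rw [e5] at g6
  omega

theorem numB3 {p D lam N N' b Y s : ℕ} (hp : 2 ≤ p) (hD : 1 ≤ D) (hb : 1 ≤ b)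
    (hlam : 2 * p * b ≤ 2 ^ lam) (T₁ T₂ : ℕ) (hT₂ : T₂ = 64 * lam * D ^ 2)
    (hT₁ : T₁ = p * N * T₂) (hN : (D + T₂) ^ 2 + 1 ≤ N) (hY : Y ≤ 2 ^ N) (hN' : N ≤ N')
    (hq : 2 * p ^ 4 ≤ N') (hs : 3584 * p ^ 5 * lam ^ 2 * D ^ 3 < s) :
    (D + T₂).factorial * Y ^ T₂ * (T₁ * p ^ (2 * lam * T₁ + 1) * p ^ T₁ * b ^ (2 * T₁) *
      2 ^ (2 * N') * ((2 * p * b) ^ (2 * p * (2 * N'))) ^ T₂) ^ D <
      p ^ (s * (N' / (2 * p ^ 4))) := by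
  have hlam2 := lamB hp hb hlam
  have hlam1 : 1 ≤ lam := by omega
  have hN1 : 1 ≤ N := by omega
  obtain ⟨f1, f2, f3, f4, f5⟩ := bfB hp hD hlam1 hN1 T₁ T₂ hT₂ hT₁
  refine (coreB hp hD hb hlam hlam1 T₁ T₂ (2 * N') (2 * N') hT₂ hT₁ hN hY).trans_lt ?_
  apply Nat.pow_lt_pow_right (by omega)
  set U : ℕ := p * N' * T₂ with hU
  have hTU : T₁ ≤ U := by
    rw [hT₁, hU]; gcongr
  have hN'U : 2 * N' ≤ U := by
    rw [hU]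
    have h1 : 2 * N' ≤ p * N' := Nat.mul_le_mul_right _ hp
    exact h1.trans (Nat.le_mul_of_pos_right _ f1)
  have e1 : lam * (2 * p * (2 * N')) * T₂ = 4 * (lam * U) := by rw [hU]; ring
  rw [e1]
  have hU1 : 1 ≤ U := f5.trans hTU
  have g0 : lam * T₁ ≤ lam * U := Nat.mul_le_mul_left _ hTU
  have g1 : 2 * U ≤ lam * U := Nat.mul_le_mul_right _ hlam2
  have g2 : lam * U ≤ D * (lam * U) := Nat.le_mul_of_pos_left _ hD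
  have g4 : (T₁ + 2 * lam * T₁ + 2 * N' + 4 * (lam * U)) * D ≤ (7 * (lam * U)) * D := by
    apply Nat.mul_le_mul_right
    have : 2 * lam * T₁ = 2 * (lam * T₁) := by ring
    omega
  have g5 : D * 1 ≤ D * (lam * U) := Nat.mul_le_mul_left _ (by nlinarith)
  have g6 : D * (lam * T₁) ≤ D * (lam * U) := Nat.mul_le_mul_left _ g0
  have e3 : (2 * lam * T₁ + 1) * D = 2 * (D * (lam * T₁)) + D := by ring
  have e4 : (7 * (lam * U)) * D = 7 * (D * (lam * U)) := by ring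
  rw [e4] at g4
  have step1 : (2 * lam * T₁ + 1) * D + (T₁ + T₁ +
      (T₁ + 2 * lam * T₁ + 2 * N' + 4 * (lam * U)) * D) ≤ 11 * (D * (lam * U)) := by
    rw [e3]
    omega
  refine lt_of_le_of_lt step1 ?_
  have e5 : 11 * (D * (lam * U)) = 704 * (p * lam ^ 2 * D ^ 3 * N') := by
    rw [hU, hT₂]; ring
  rw [e5]
  set q : ℕ := 2 * p ^ 4 with hqdef
  have hq0 : 0 < q := by rw [hqdef]; positivity
  have h1 : 1 ≤ N' / q := (Nat.one_le_div_iff hq0).mpr hq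
  have h2 : N' ≤ 2 * q * (N' / q) := by
    have h3 := Nat.div_add_mod N' q
    have h4 := Nat.mod_lt N' hq0
    have h5 : q * 1 ≤ q * (N' / q) := Nat.mul_le_mul_left _ h1
    have h6 : 2 * q * (N' / q) = 2 * (q * (N' / q)) := by ring
    omega
  calc 704 * (p * lam ^ 2 * D ^ 3 * N') ≤ 704 * (p * lam ^ 2 * D ^ 3 * (2 * q * (N' / q))) := by
        gcongr
    _ = (2816 * p ^ 5 * lam ^ 2 * D ^ 3) * (N' / q) := by rw [hqdef]; ring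
    _ ≤ (3584 * p ^ 5 * lam ^ 2 * D ^ 3) * (N' / q) := by gcongr; norm_num
    _ < s * (N' / q) := Nat.mul_lt_mul_of_pos_right hs h1

end GamP
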