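import Pool.Agent.GamP.Defs

/-!
# The pigeonhole principle for the auxiliary function

PROOF. The map from `ι → Fin (p^e)` (there are `p^(e * card ι)` of them) to `Fin L → ZMod (p^(2L))`
(`p^(2L*L)` of them, and `2 L^2 < e * card ι`), `x ↦ (∑ i, x i * v i t mod p^(2L))_t`, is not
injective (`Fintype.exists_ne_map_eq_of_card_lt`). The difference of two vectors with the same image
is the required `c`: its entries are `< p^e` in absolute value.
-/

namespace GamP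

open Finset

theorem pigeon {ι : Type*} [Fintype ι] (p L e : ℕ) (hp : 2 ≤ p) (v : ι → ℕ → ℤ)
    (h : 2 * L ^ 2 < e * Fintype.card ι) :
    ∃ c : ι → ℤ, (∃ i, c i ≠ 0) ∧ (∀ i, |c i| < (p : ℤ) ^ e) ∧
      ∀ t < L, (p : ℤ) ^ (2 * L) ∣ ∑ i, c i * v i t := by
  classical
  have hp0 : 0 < p := by omega
  have hne : NeZero (p ^ (2 * L)) := ⟨(Nat.pow_pos hp0).ne'⟩
  let f : (ι → Fin (p ^ e)) → (Fin L → ZMod (p ^ (2 * L))) := fun x t =>
    ((∑ i, ((x i : ℕ) : ℤ) * v i t : ℤ) : ZMod (p ^ (2 * L)))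
  have hcard : Fintype.card (Fin L → ZMod (p ^ (2 * L))) < Fintype.card (ι → Fin (p ^ e)) := by
    rw [Fintype.card_fun, Fintype.card_fun, ZMod.card, Fintype.card_fin, Fintype.card_fin,
      ← pow_mul, ← pow_mul]
    apply Nat.pow_lt_pow_right (by omega)
    have : 2 * L * L = 2 * L ^ 2 := by ring
    omega
  obtain ⟨x, y, hxy, hf⟩ := Fintype.exists_ne_map_eq_of_card_lt f hcard
  refine ⟨fun i => ((x i : ℕ) : ℤ) - ((y i : ℕ) : ℤ), ?_, ?_, ?_⟩
  · by_contra hall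
    push Not at hall
    apply hxy
    funext i
    have := hall i
    apply Fin.ext
    omega
  · intro i
    have h1 : ((x i : ℕ) : ℤ) < (p : ℤ) ^ e := by exact_mod_cast (x i).2
    have h2 : ((y i : ℕ) : ℤ) < (p : ℤ) ^ e := by exact_mod_cast (y i).2
    have h3 : (0 : ℤ) ≤ ((x i : ℕ) : ℤ) := Int.natCast_nonneg _
    have h4 : (0 : ℤ) ≤ ((y i : ℕ) : ℤ) := Int.natCast_nonneg _
    rw [abs_lt]
    constructor <;> linarith
  · intro t ht
    have h1 := congrFun hf ⟨t, ht⟩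
    have h2 : ((∑ i, ((x i : ℕ) : ℤ) * v i t : ℤ) : ZMod (p ^ (2 * L))) =
        ((∑ i, ((y i : ℕ) : ℤ) * v i t : ℤ) : ZMod (p ^ (2 * L))) := h1
    have h3 : ((∑ i, (((x i : ℕ) : ℤ) - ((y i : ℕ) : ℤ)) * v i t : ℤ) :
        ZMod (p ^ (2 * L))) = 0 := by
      have : ∑ i, (((x i : ℕ) : ℤ) - ((y i : ℕ) : ℤ)) * v i t =
          ∑ i, ((x i : ℕ) : ℤ) * v i t - ∑ i, ((y i : ℕ) : ℤ) * v i t := by
        rw [← sum_sub_distrib]
        exact sum_congr rfl fun i _ => by ring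
      rw [this, Int.cast_sub, h2, sub_self]
    have h4 := (ZMod.intCast_zmod_eq_zero_iff_dvd _ _).1 h3
    push_cast at h4
    exact h4

end GamP
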