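import Pool.Agent.GamP.Defs2

/-!
# The pigeonhole principle with `p`-adic values

PROOF. As `GamP/Pig` (copy it): the map `(ι → Fin (p^e)) → (Fin L → ZMod (p^(2L)))`,
`x ↦ (PadicInt.toZModPow (2L) (∑ i, x i * v i t))_t`, is not injective; the kernel of
`PadicInt.toZModPow n` is the ideal generated by `p^n` (`PadicInt.ker_toZModPow`,
`Ideal.mem_span_singleton`).
-/

namespace GamP

open Finset

theorem pigeon2 {ι : Type*} [Fintype ι] {p : ℕ} [Fact p.Prime] (L e : ℕ) (v : ι → ℕ → ℤ_[p])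
    (h : 2 * L ^ 2 < e * Fintype.card ι) :
    ∃ c : ι → ℤ, (∃ i, c i ≠ 0) ∧ (∀ i, |c i| < (p : ℤ) ^ e) ∧
      ∀ t < L, (p : ℤ_[p]) ^ (2 * L) ∣ ∑ i, (c i : ℤ_[p]) * v i t := by
  classical
  have hp : 2 ≤ p := (Fact.out : p.Prime).two_le
  have hp0 : 0 < p := by omega
  have hne : NeZero (p ^ (2 * L)) := ⟨(Nat.pow_pos hp0).ne'⟩
  let f : (ι → Fin (p ^ e)) → (Fin L → ZMod (p ^ (2 * L))) := fun x t =>
    PadicInt.toZModPow (2 * L) (∑ i, (((x i : ℕ) : ℤ) : ℤ_[p]) * v i t)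
  have hcard : Fintype.card (Fin L → ZMod (p ^ (2 * L))) < Fintype.card (ι → Fin (p ^ e)) := by
    rw [Fintype.card_fun, Fintype.card_fun, ZMod.card, Fintype.card_fin, Fintype.card_fin,
      ← pow_mul, ← pow_mul]
    apply Nat.pow_lt_pow_right (by omega)
    have : 2 * L * L = 2 * L ^ 2 := by ring
    omega
  obtain ⟨x, y, hxy, hf⟩ := Fintype.exists_ne_map_eq_of_card_lt f hcard
  refine ⟨fun i => ((x i : ℕ) : ℤ) - ((y i : ℕ) : ℤ), ?_, ?_, ?_⟩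
  · by_contra hall
    push Not at hall
    apply hxy
    funext i
    have := hall i
    apply Fin.ext
    omega
  · intro i
    have h1 : ((x i : ℕ) : ℤ) < (p : ℤ) ^ e := by exact_mod_cast (x i).2
    have h2 : ((y i : ℕ) : ℤ) < (p : ℤ) ^ e := by exact_mod_cast (y i).2
    have h3 : (0 : ℤ) ≤ ((x i : ℕ) : ℤ) := Int.natCast_nonneg _
    have h4 : (0 : ℤ) ≤ ((y i : ℕ) : ℤ) := Int.natCast_nonneg _
    rw [abs_lt]
    constructor <;> linarith
  · intro t ht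
    have h1 : PadicInt.toZModPow (2 * L) (∑ i, (((x i : ℕ) : ℤ) : ℤ_[p]) * v i t) =
        PadicInt.toZModPow (2 * L) (∑ i, (((y i : ℕ) : ℤ) : ℤ_[p]) * v i t) :=
      congrFun hf ⟨t, ht⟩
    have h2 : ∑ i, ((((x i : ℕ) : ℤ) - ((y i : ℕ) : ℤ) : ℤ) : ℤ_[p]) * v i t =
        ∑ i, (((x i : ℕ) : ℤ) : ℤ_[p]) * v i t - ∑ i, (((y i : ℕ) : ℤ) : ℤ_[p]) * v i t := by
      rw [← sum_sub_distrib]
      exact sum_congr rfl fun i _ => by rw [Int.cast_sub]; ring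
    have h3 : (∑ i, ((((x i : ℕ) : ℤ) - ((y i : ℕ) : ℤ) : ℤ) : ℤ_[p]) * v i t) ∈
        RingHom.ker (PadicInt.toZModPow (p := p) (2 * L)) := by
      rw [RingHom.mem_ker, h2, map_sub, h1, sub_self]
    rw [PadicInt.ker_toZModPow, Ideal.mem_span_singleton] at h3
    exact h3

end GamP
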