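import Pool.Agent.GamP.Tr
import Pool.Agent.GamP.Defs2
import Pool.Agent.GamP.Mor
import Pool.Agent.GamP.Bin

/-!
# The auxiliary function does not vanish at all the points of a progression

PROOF of `not_all_zero`. Suppose `HG (x_t) = 0` for all `t`, `x_t = s + n₀ + q t`, `q = 2 p^4`. Work in
`K = ℚ_[p]` (coercion `ℤ_[p] → ℚ_[p]` injective). `Y t = Γ(p(x_t + c₁)) / Γ(p x_t) ≠ 0`
(`IsMorita.norm`). By `IsMorita.block` (with `m = 1`, `n = q`; even sign)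
`Γ(p(x_{t+1} + c₁)) = ∏_{k < pq, p ∤ k} (p (x_t + c₁) + k) * Γ(p(x_t + c₁))`, the same with `c₁ = 0`,
so `B(t) Y (t+1) = A(t) Y t` with the polynomials
`A = ∏_k (C (p q) * X + C (p (s + n₀ + c₁) + k))`, `B = ∏_k (C (p q) * X + C (p (s + n₀) + k))`,
both nonzero. `a = -(p (s + n₀ + c₁) + 1)/(p q)` is a root of `A` (`k = 1`). `B(a + m) ≠ 0` for
`m : ℤ`: a factor is `p q m - p c₁ - 1 + k`; if it were `0`, multiply by `b`: `b (p q m + k - 1) = p e`
in `ℤ_[p]`, hence in `ℤ` (char zero), so `b ∣ p e`, `b` prime to `p` (`hb`: `p` prime, `p ∤ b`), so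
`b ∣ e`, contradicting `0 < e < b`.
`P = ∑ i, C (C (c i) * E i.1) * X^(i.2)` where
`E i = C (p^{v(i!)} / i!) * ∏_{j<i} (C q * X + C (s + n₀ - j))`: by `fact_choose` of `GamP/Bin`,
`E i (t) = ep p i (x_t)`, and `E i` has degree exactly `i`. `P(t, Y t) = ∑ c_i ep(x_t) (Y t)^{i.2} = 0`
because `Γ(p x_t)^{T₂-1} * (this) = HG(x_t)`. So `P = 0` by `no_rel`. But `P ≠ 0`: choose `j₂` and the
LARGEST `i₁` with `c (i₁, j₂) ≠ 0`; the coefficient of `Y^{j₂}` is `∑_{i₁'} c (i₁', j₂) E i₁'`, of degree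
exactly `i₁`.
-/

namespace GamP

open Finset Polynomial

private theorem lin_ne_zero {K : Type*} [Field K] {c : K} (hc : c ≠ 0) (d : K) :
    (C c * X + C d : K[X]) ≠ 0 := by
  intro h
  have h1 := congrArg (fun Q : K[X] => Q.coeff 1) h
  simp only [coeff_add, coeff_C_mul, coeff_X_one, coeff_C_succ, coeff_zero] at h1
  exact hc (by simpa using h1)

private theorem lin_natDegree {K : Type*} [Field K] (c d : K) :
    (C c * X + C d : K[X]).natDegree ≤ 1 := natDegree_linear_le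

private theorem lin_prod {K : Type*} [Field K] (c : K) (d : ℕ → K) (i : ℕ) :
    (∏ j ∈ range i, (C c * X + C (d j) : K[X])).natDegree ≤ i ∧
      (∏ j ∈ range i, (C c * X + C (d j) : K[X])).coeff i = c ^ i := by
  constructor
  · refine (natDegree_prod_le _ _).trans ?_
    calc ∑ j ∈ range i, (C c * X + C (d j) : K[X]).natDegree ≤ ∑ _j ∈ range i, 1 :=
          Finset.sum_le_sum fun j _ => lin_natDegree c (d j)
      _ = i := by simp
  · have h := coeff_prod_of_natDegree_le (range i) (fun j => (C c * X + C (d j) : K[X])) 1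
      (fun j _ => lin_natDegree c (d j))
    rw [card_range, mul_one] at h
    rw [h]
    simp

private theorem coe_prod' {p : ℕ} [Fact p.Prime] (s : Finset ℕ) (f : ℕ → ℤ_[p]) :
    ((∏ k ∈ s, f k : ℤ_[p]) : ℚ_[p]) = ∏ k ∈ s, ((f k : ℤ_[p]) : ℚ_[p]) :=
  map_prod PadicInt.Coe.ringHom f s

private theorem coe_sum' {p : ℕ} [Fact p.Prime] {ι : Type*} (s : Finset ι) (f : ι → ℤ_[p]) :
    ((∑ k ∈ s, f k : ℤ_[p]) : ℚ_[p]) = ∑ k ∈ s, ((f k : ℤ_[p]) : ℚ_[p]) :=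
  map_sum PadicInt.Coe.ringHom f s

/-- triangular families: if the combination of the `E i` vanishes then so do the coefficients -/
private theorem tri {K : Type*} [Field K] {T : ℕ} (E : ℕ → K[X]) (hdeg : ∀ i, (E i).natDegree ≤ i)
    (hc : ∀ i, (E i).coeff i ≠ 0) (c : Fin T → K) (h : ∑ i : Fin T, C (c i) * E i = 0) :
    ∀ i, c i = 0 := by
  classical
  by_contra hne
  push Not at hne
  obtain ⟨i0, hi0⟩ := hne
  set s : Finset (Fin T) := Finset.univ.filter (fun i => c i ≠ 0) with hs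
  have hsn : s.Nonempty := ⟨i0, by rw [hs, mem_filter]; exact ⟨mem_univ _, hi0⟩⟩
  obtain ⟨m, hm, hmax⟩ := s.exists_max_image (fun i => (i : ℕ)) hsn
  rw [hs, mem_filter] at hm
  have h1 := congrArg (fun Q : K[X] => Q.coeff m) h
  simp only [finsetSum_coeff, coeff_C_mul, coeff_zero] at h1
  rw [Finset.sum_eq_single m] at h1
  · exact (mul_ne_zero hm.2 (hc m)) h1
  · intro i _ hi
    by_cases hci : c i = 0
    · rw [hci, zero_mul]
    · have h2 := hmax i (by rw [hs, mem_filter]; exact ⟨mem_univ _, hci⟩)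
      have h3 : (i : ℕ) ≠ m := fun h => hi (Fin.ext h)
      rw [coeff_eq_zero_of_natDegree_lt (lt_of_le_of_lt (hdeg i) (lt_of_le_of_ne h2 h3)), mul_zero]
  · intro hm'
    exact absurd (mem_univ _) hm'

theorem not_all_zero {p : ℕ} [Fact p.Prime] {Γ : ℤ_[p] → ℤ_[p]} (h : IsMorita p Γ)
    {b e α : ℕ} (hb : ¬ p ∣ b) (he0 : 0 < e) (he : e < b) {s c₁ : ℤ_[p]}
    (hs : (b : ℤ_[p]) * s = α) (hc₁ : (b : ℤ_[p]) * c₁ = e) {T₁ T₂ : ℕ}
    (c : Fin T₁ × Fin T₂ → ℤ) (hc0 : ∃ i, c i ≠ 0) (n₀ : ℕ) :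
    ∃ t : ℕ, HG p Γ c₁ T₁ T₂ c (s + ((n₀ + 2 * p ^ 4 * t : ℕ) : ℤ_[p])) ≠ 0 := by
  classical
  have _ := hs
  have hp : p.Prime := Fact.out
  by_contra hall
  push Not at hall
  have hqpos : 0 < 2 * p ^ 4 := by have := pow_pos hp.pos 4; omega
  generalize hq : 2 * p ^ 4 = q at hall hqpos
  set x0 : ℤ_[p] := s + n₀ with hx0
  have hxt : ∀ t : ℕ, s + ((n₀ + q * t : ℕ) : ℤ_[p]) = x0 + q * t := by
    intro t
    push_cast
    ring
  have hΓ0 : ∀ z, ((Γ z : ℤ_[p]) : ℚ_[p]) ≠ 0 := by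
    intro z h0
    have h1 := h.norm z
    have h2 : Γ z = 0 := PadicInt.ext h0
    rw [h2, norm_zero] at h1
    exact zero_ne_one h1
  have hblk : ∀ z : ℤ_[p], Γ (p * (z + q)) =
      (∏ k ∈ (range (p * q)).filter (fun k => ¬ p ∣ k), ((p : ℤ_[p]) * z + k)) * Γ (p * z) := by
    intro z
    have h1 := h.block 1 q z
    have e1 : (-1 : ℤ_[p]) ^ (p * 1 * q) = 1 := by
      rw [← hq]
      exact Even.neg_one_pow ⟨p * p ^ 4, by ring⟩
    rw [e1] at h1
    simp only [Nat.cast_one, mul_one, one_mul] at h1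
    exact h1
  set S : Finset ℕ := (range (p * q)).filter (fun k => ¬ p ∣ k) with hS
  set pq : ℚ_[p] := (p : ℚ_[p]) * q with hpq
  have hp0 : (p : ℚ_[p]) ≠ 0 := Nat.cast_ne_zero.2 hp.ne_zero
  have hq0 : (q : ℚ_[p]) ≠ 0 := Nat.cast_ne_zero.2 hqpos.ne'
  have hpq0 : pq ≠ 0 := mul_ne_zero hp0 hq0
  -- the polynomials
  set Q : ℤ_[p] → ℚ_[p][X] := fun w => ∏ k ∈ S, (C pq * X + C ((p : ℚ_[p]) * (w : ℚ_[p]) + k))
    with hQ
  set g : ℤ_[p] → ℕ → ℚ_[p] := fun w t => ((Γ (p * (w + q * t)) : ℤ_[p]) : ℚ_[p]) with hg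
  have hg0 : ∀ w t, g w t ≠ 0 := fun w t => hΓ0 _
  have hrecg : ∀ w t, g w (t + 1) = (Q w).eval (t : ℚ_[p]) * g w t := by
    intro w t
    have h1 := hblk (w + q * t)
    have e1 : w + (q : ℤ_[p]) * ((t + 1 : ℕ) : ℤ_[p]) = w + q * t + q := by
      push_cast
      ring
    have e2 : (Q w).eval (t : ℚ_[p]) =
        ((∏ k ∈ S, ((p : ℤ_[p]) * (w + q * t) + k) : ℤ_[p]) : ℚ_[p]) := by
      simp only [hQ]
      rw [eval_prod, coe_prod']
      refine Finset.prod_congr rfl fun k _ => ?_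
      simp only [eval_add, eval_mul, eval_C, eval_X, hpq]
      push_cast
      ring
    simp only [hg]
    rw [e1, h1, e2]
    push_cast
    rfl
  set Y : ℕ → ℚ_[p] := fun t => g (x0 + c₁) t / g x0 t with hY
  have hY0 : ∀ t, Y t ≠ 0 := fun t => div_ne_zero (hg0 _ t) (hg0 _ t)
  have hrec : ∀ t : ℕ, (Q x0).eval (t : ℚ_[p]) * Y (t + 1) =
      (Q (x0 + c₁)).eval (t : ℚ_[p]) * Y t := by
    intro t
    have h1 := hrecg x0 t
    have h2 := hrecg (x0 + c₁) t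
    have h3 := hg0 x0 (t + 1)
    have h4 : (Q x0).eval (t : ℚ_[p]) ≠ 0 := by
      intro h0
      rw [h1, h0, zero_mul] at h3
      exact h3 rfl
    have h5 := hg0 x0 t
    simp only [hY]
    rw [h1, h2]
    field_simp
  have hQ0 : ∀ w, Q w ≠ 0 := by
    intro w
    simp only [hQ]
    exact Finset.prod_ne_zero_iff.2 fun k _ => lin_ne_zero hpq0 _
  -- the root
  set a : ℚ_[p] := -((p : ℚ_[p]) * ((x0 + c₁ : ℤ_[p]) : ℚ_[p]) + 1) / pq with ha
  have h1S : 1 ∈ S := by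
    rw [hS, mem_filter, mem_range]
    refine ⟨?_, ?_⟩
    · have := hp.two_le
      calc 1 < p := by omega
        _ = p * 1 := (mul_one p).symm
        _ ≤ p * q := Nat.mul_le_mul_left _ hqpos
    · intro h1
      exact hp.one_lt.ne' (Nat.dvd_one.1 h1)
  have haroot : (Q (x0 + c₁)).eval a = 0 := by
    simp only [hQ]
    rw [eval_prod]
    refine Finset.prod_eq_zero h1S ?_
    simp only [eval_add, eval_mul, eval_C, eval_X, ha]
    field_simp
    push_cast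
    ring
  have hbroot : ∀ m : ℤ, (Q x0).eval (a + m) ≠ 0 := by
    intro m
    simp only [hQ]
    rw [eval_prod]
    refine Finset.prod_ne_zero_iff.2 fun k _ h0 => ?_
    simp only [eval_add, eval_mul, eval_C, eval_X, ha] at h0
    have h1 : (p : ℚ_[p]) * q * m - p * (c₁ : ℚ_[p]) - 1 + k = 0 := by
      rw [← h0, hpq]
      field_simp
      push_cast
      ring
    have h2 : (b : ℚ_[p]) * (c₁ : ℚ_[p]) = e := by
      have := congrArg (fun z : ℤ_[p] => (z : ℚ_[p])) hc₁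
      push_cast at this
      exact this
    have h3 : (b : ℚ_[p]) * (p * q * m - 1 + k) = p * e := by
      linear_combination (b : ℚ_[p]) * h1 + (p : ℚ_[p]) * h2
    have h4 : (b : ℤ) * (p * q * m - 1 + k) = p * e := by exact_mod_cast h3
    have h5 : (b : ℤ) ∣ p * e := ⟨_, h4.symm⟩
    have h6 : b ∣ p * e := by exact_mod_cast h5
    have h7 : Nat.Coprime b p := ((Nat.Prime.coprime_iff_not_dvd hp).2 hb).symm
    have h8 := h7.dvd_of_dvd_mul_left h6
    exact absurd (Nat.le_of_dvd he0 h8) (by omega)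
  -- the polynomials `E i`
  set E : ℕ → ℚ_[p][X] := fun i =>
    C ((p : ℚ_[p]) ^ (padicValNat p i.factorial) / (i.factorial : ℚ_[p])) *
      ∏ j ∈ range i, (C (q : ℚ_[p]) * X + C ((x0 : ℚ_[p]) - j)) with hE
  have hEval : ∀ i t : ℕ, (E i).eval (t : ℚ_[p]) = ((ep p i (x0 + q * t) : ℤ_[p]) : ℚ_[p]) := by
    intro i t
    have hf : (i.factorial : ℚ_[p]) ≠ 0 := Nat.cast_ne_zero.2 (Nat.factorial_ne_zero i)
    have h1 : ((((i.factorial : ℕ) : ℤ_[p]) * Ring.choose (x0 + q * t) i : ℤ_[p]) : ℚ_[p]) =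
        ((∏ j ∈ range i, ((x0 + q * t) - (j : ℤ_[p])) : ℤ_[p]) : ℚ_[p]) := by
      rw [fact_choose (x0 + (q : ℤ_[p]) * (t : ℤ_[p])) i]
    have h2 : ((∏ j ∈ range i, ((x0 + q * t) - (j : ℤ_[p])) : ℤ_[p]) : ℚ_[p]) =
        (∏ j ∈ range i, (C (q : ℚ_[p]) * X + C ((x0 : ℚ_[p]) - j))).eval (t : ℚ_[p]) := by
      rw [eval_prod, coe_prod']
      refine Finset.prod_congr rfl fun k _ => ?_
      simp only [eval_add, eval_mul, eval_C, eval_X]
      push_cast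
      ring
    simp only [hE]
    rw [eval_mul, eval_C, ← h2, ← h1]
    unfold ep
    push_cast
    field_simp
  have hEdeg : ∀ i, (E i).natDegree ≤ i := by
    intro i
    simp only [hE]
    exact (natDegree_C_mul_le _ _).trans (lin_prod (q : ℚ_[p]) (fun j => (x0 : ℚ_[p]) - j) i).1
  have hEc : ∀ i, (E i).coeff i ≠ 0 := by
    intro i
    simp only [hE]
    rw [coeff_C_mul, (lin_prod (q : ℚ_[p]) (fun j => (x0 : ℚ_[p]) - j) i).2]
    exact mul_ne_zero (div_ne_zero (pow_ne_zero _ hp0)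
      (Nat.cast_ne_zero.2 (Nat.factorial_ne_zero i))) (pow_ne_zero _ hq0)
  set P : ℚ_[p][X][X] := ∑ i : Fin T₁ × Fin T₂,
    C (C ((c i : ℤ) : ℚ_[p]) * E i.1) * X ^ (i.2 : ℕ) with hP
  have hPz : ∀ t : ℕ, (P.eval (C (Y t))).eval (t : ℚ_[p]) = 0 := by
    intro t
    have h1 := hall t
    rw [hxt t] at h1
    have h2 : ((HG p Γ c₁ T₁ T₂ c (x0 + q * t) : ℤ_[p]) : ℚ_[p]) = 0 := by
      rw [h1]
      exact PadicInt.coe_zero
    unfold HG at h2
    rw [coe_sum'] at h2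
    have h3 : ∀ i : Fin T₁ × Fin T₂, (((c i : ℤ_[p]) * ep p i.1 (x0 + q * t) *
        Γ (p * (x0 + q * t + c₁)) ^ (i.2 : ℕ) *
        Γ (p * (x0 + q * t)) ^ (T₂ - 1 - (i.2 : ℕ)) : ℤ_[p]) : ℚ_[p]) =
        g x0 t ^ (T₂ - 1) * (((c i : ℤ) : ℚ_[p]) * (E i.1).eval (t : ℚ_[p]) * Y t ^ (i.2 : ℕ)) := by
      intro i
      have e1 : x0 + (q : ℤ_[p]) * t + c₁ = x0 + c₁ + q * t := by ring
      have e2 : g x0 t ^ (T₂ - 1) = g x0 t ^ (T₂ - 1 - (i.2 : ℕ)) * g x0 t ^ (i.2 : ℕ) := by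
        rw [← pow_add]
        congr 1
        have := i.2.2
        omega
      have e3 : g x0 t ^ (i.2 : ℕ) * Y t ^ (i.2 : ℕ) = g (x0 + c₁) t ^ (i.2 : ℕ) := by
        rw [← mul_pow]
        congr 1
        simp only [hY]
        rw [mul_div_cancel₀ _ (hg0 x0 t)]
      rw [e1, e2, hEval]
      have e4 : (((c i : ℤ_[p]) * ep p i.1 (x0 + q * t) * Γ (p * (x0 + c₁ + q * t)) ^ (i.2 : ℕ) *
          Γ (p * (x0 + q * t)) ^ (T₂ - 1 - (i.2 : ℕ)) : ℤ_[p]) : ℚ_[p]) =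
          ((c i : ℤ) : ℚ_[p]) * ((ep p i.1 (x0 + q * t) : ℤ_[p]) : ℚ_[p]) *
            g (x0 + c₁) t ^ (i.2 : ℕ) * g x0 t ^ (T₂ - 1 - (i.2 : ℕ)) := by
        simp only [hg]
        push_cast
        rfl
      rw [e4, ← e3]
      ring
    rw [Finset.sum_congr rfl (fun i _ => h3 i), ← Finset.mul_sum] at h2
    have h4 := (mul_eq_zero.1 h2).resolve_left
      (pow_ne_zero _ (hg0 x0 t))
    rw [hP, eval_finsetSum, eval_finsetSum, ← h4]
    refine Finset.sum_congr rfl fun i _ => ?_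
    rw [eval_mul, eval_C, eval_pow, eval_X, eval_mul, eval_mul, eval_C, eval_pow, eval_C]
  have hP0 := no_rel (Q (x0 + c₁)) (Q x0) (hQ0 _) (hQ0 _) a haroot hbroot Y hY0 hrec P hPz
  -- coefficients
  obtain ⟨⟨i₁, i₂⟩, hne⟩ := hc0
  have hcoef : ∑ i : Fin T₁, C (((c (i, i₂) : ℤ) : ℚ_[p])) * E i = 0 := by
    have h1 := congrArg (fun R : ℚ_[p][X][X] => R.coeff (i₂ : ℕ)) hP0
    simp only [coeff_zero] at h1
    rw [hP, finsetSum_coeff] at h1
    rw [← h1, Fintype.sum_prod_type]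
    refine Finset.sum_congr rfl fun i _ => ?_
    rw [Finset.sum_eq_single i₂]
    · rw [coeff_C_mul_X_pow, if_pos rfl]
    · intro j _ hj
      rw [coeff_C_mul_X_pow, if_neg]
      intro h2
      exact hj (Fin.ext h2.symm)
    · intro h2
      exact absurd (mem_univ _) h2
  have hz := tri E hEdeg hEc (fun i : Fin T₁ => ((c (i, i₂) : ℤ) : ℚ_[p])) hcoef i₁
  exact hne (by exact_mod_cast hz)

end GamP
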