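import Pool.Agent.GamP.Defs2
import Pool.Agent.GamP.Vanish2
import Pool.Agent.GamP.Block3
import Pool.Agent.GamP.Pig2
import Pool.Agent.GamP.Tr2
import Pool.Agent.GamP.NumB
import Pool.Agent.GamP.Irr
import Pool.Agent.GamP.PropM

/-!
# The main proposition, additive version (owner: helper7)
-/

namespace GamP

open Finset Polynomial

theorem propA {p : ℕ} [Fact p.Prime] {Γ : ℤ_[p] → ℤ_[p]} (h : IsMorita p Γ)
    {D b e lam : ℕ} (hD : 1 ≤ D) (hb : ¬ p ∣ b) (he0 : 0 < e) (he : e < b)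
    (hlam : 2 * p * b ≤ 2 ^ lam) (S : Finset ℕ)
    (hS : ∀ α ∈ S, α < b ∧ ∃ s c₁ y : ℤ_[p], (b : ℤ_[p]) * s = α ∧ (b : ℤ_[p]) * c₁ = e ∧
      y * Γ (p * s) = Γ (p * (s + c₁)) ∧ DegLE D y) :
    S.card ≤ 3584 * p ^ 5 * lam ^ 2 * D ^ 3 := by
  classical
  by_contra hcon
  push Not at hcon
  have hp : p.Prime := Fact.out
  have hb0 : b ≠ 0 := by rintro rfl; exact hb (dvd_zero p)
  have hb1 : 1 ≤ b := Nat.one_le_iff_ne_zero.mpr hb0
  have hbz : (b : ℤ_[p]) ≠ 0 := by exact_mod_cast hb0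
  have hlam1 : 1 ≤ lam := by
    by_contra hc
    have h0 : lam = 0 := by omega
    rw [h0, pow_zero] at hlam
    have : 2 ≤ 2 * p * b := by
      have := hp.pos
      calc 2 = 2 * 1 * 1 := by norm_num
        _ ≤ 2 * p * b := by gcongr; exact this
    omega
  have hSne : S.Nonempty := by
    rw [← card_pos]
    omega
  obtain ⟨α₀, hα₀⟩ := hSne
  obtain ⟨_, s₀, c₁, _, _, hc₁, _, _⟩ := hS α₀ hα₀
  have hαb : ∀ α ∈ S, α < b := fun α hα => (hS α hα).1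
  have hS2 : ∀ α ∈ S, ∃ s y : ℤ_[p], (b : ℤ_[p]) * s = α ∧
      y * Γ (p * s) = Γ (p * (s + c₁)) ∧ DegLE D y := by
    intro α hα
    obtain ⟨_, s, c', y, h1, h2, h3, h4⟩ := hS α hα
    have : c' = c₁ := mul_left_cancel₀ hbz (h2.trans hc₁.symm)
    subst this
    exact ⟨s, y, h1, h3, h4⟩
  choose! s y hs hy hdeg using hS2
  choose! F hFirr hFdeg hFy using fun α hα => (hdeg α hα).exists_irred
  obtain ⟨Y, hY⟩ : ∃ Y : ℕ, ∀ α ∈ S, ∀ i, |(F α).coeff i| ≤ (Y : ℤ) := by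
    refine ⟨∑ α ∈ S, ∑ i ∈ (F α).support, ((F α).coeff i).natAbs, fun α hα i => ?_⟩
    by_cases hi : i ∈ (F α).support
    · have h1 : ((F α).coeff i).natAbs ≤ ∑ i ∈ (F α).support, ((F α).coeff i).natAbs :=
        Finset.single_le_sum (f := fun i => ((F α).coeff i).natAbs) (fun _ _ => Nat.zero_le _) hi
      have h2 : ∑ i ∈ (F α).support, ((F α).coeff i).natAbs ≤
          ∑ α ∈ S, ∑ i ∈ (F α).support, ((F α).coeff i).natAbs :=
        Finset.single_le_sum (f := fun α => ∑ i ∈ (F α).support, ((F α).coeff i).natAbs)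
          (fun _ _ => Nat.zero_le _) hα
      rw [Int.abs_eq_natAbs]
      exact_mod_cast h1.trans h2
    · rw [Polynomial.notMem_support_iff.mp hi, abs_zero]
      exact Int.natCast_nonneg _
  obtain ⟨T₂, hT₂⟩ : ∃ T₂, T₂ = 64 * lam * D ^ 2 := ⟨_, rfl⟩
  obtain ⟨N, hN⟩ : ∃ N, N = (D + T₂) ^ 2 + 1 + Y + 2 * p ^ 4 := ⟨_, rfl⟩
  obtain ⟨T₁, hT₁⟩ : ∃ T₁, T₁ = p * N * T₂ := ⟨_, rfl⟩
  have hN1 : 1 ≤ N := by rw [hN]; omega
  have hN2 : (D + T₂) ^ 2 + 1 ≤ N := by rw [hN]; omega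
  have hNq : 2 * p ^ 4 ≤ N := by rw [hN]; omega
  have hYN : Y ≤ 2 ^ N := le_trans (by rw [hN]; omega) (Nat.lt_two_pow_self (n := N)).le
  have n1 := numB1 hp.two_le hD hlam1 hN1 T₁ T₂ hT₂ hT₁
  have n2 := numB2 hp.two_le hD hb1 hlam T₁ T₂ hT₂ hT₁ hN2 hYN
  obtain ⟨c, hc0, hc, hcL⟩ := pigeon2 (p := p) (ι := Fin T₁ × Fin T₂) (8 * lam * D * T₁)
    (2 * lam * T₁ + 1) (fun i t => ep p i.1 (2 * (p : ℤ_[p]) ^ 4 * (t : ℤ_[p])) *
      Γ (p * ((2 * (p : ℤ_[p]) ^ 4 * (t : ℤ_[p])) + c₁)) ^ (i.2 : ℕ) *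
      Γ (p * (2 * (p : ℤ_[p]) ^ 4 * (t : ℤ_[p]))) ^ (T₂ - 1 - (i.2 : ℕ)))
    (by simpa using n1)
  have hsmall := HG_small h c₁ T₁ T₂ c (8 * lam * D * T₁) (fun t ht => by
    have h1 := hcL t ht
    have h2 : HG p Γ c₁ T₁ T₂ c (2 * (p : ℤ_[p]) ^ 4 * (t : ℤ_[p])) = ∑ i, (c i : ℤ_[p]) *
        (ep p i.1 (2 * (p : ℤ_[p]) ^ 4 * (t : ℤ_[p])) *
        Γ (p * ((2 * (p : ℤ_[p]) ^ 4 * (t : ℤ_[p])) + c₁)) ^ (i.2 : ℕ) *
        Γ (p * (2 * (p : ℤ_[p]) ^ 4 * (t : ℤ_[p]))) ^ (T₂ - 1 - (i.2 : ℕ))) := by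
      unfold HG
      refine Finset.sum_congr rfl fun i _ => ?_
      ring
    rw [h2]
    exact h1)
  have hqpos : 0 < 2 * p ^ 4 := Nat.mul_pos (by norm_num) (pow_pos hp.pos 4)
  -- for each `α` the residue of `-s α`
  have hres : ∀ α ∈ S, ∃ a < 2 * p ^ 4, ∃ z : ℤ_[p], s α + (a : ℤ_[p]) = 2 * (p : ℤ_[p]) ^ 4 * z := by
    intro α _
    obtain ⟨a, ha, z, hz⟩ := exists_res (-(s α))
    exact ⟨a, ha, -z, by linear_combination -hz⟩
  choose! a ha z hz using hres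
  -- the points
  have hinj : Set.InjOn (fun q : ℕ × ℕ => s q.1 + ((a q.1 + 2 * p ^ 4 * q.2 : ℕ) : ℤ_[p]))
      {q : ℕ × ℕ | q.1 ∈ S} := by
    rintro ⟨α, n⟩ hq ⟨α', n'⟩ hq' heq
    change α ∈ S at hq
    change α' ∈ S at hq'
    simp only at heq
    have h1 : ((α + b * (a α + 2 * p ^ 4 * n) : ℕ) : ℤ_[p]) =
        ((α' + b * (a α' + 2 * p ^ 4 * n') : ℕ) : ℤ_[p]) := by
      rw [Nat.cast_add, Nat.cast_mul, Nat.cast_add (m := α'), Nat.cast_mul (m := b)]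
      rw [← hs α hq, ← hs α' hq']
      linear_combination (b : ℤ_[p]) * heq
    have h2 : α + b * (a α + 2 * p ^ 4 * n) = α' + b * (a α' + 2 * p ^ 4 * n') := by
      exact_mod_cast h1
    have h3 : α = α' := by
      have h4 := congrArg (· % b) h2
      simpa [Nat.add_mul_mod_self_left, Nat.mod_eq_of_lt (hαb α hq),
        Nat.mod_eq_of_lt (hαb α' hq')] using h4
    subst h3
    have h5 : n = n' := by
      have h6 : b * (a α + 2 * p ^ 4 * n) = b * (a α + 2 * p ^ 4 * n') := by omega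
      have h7 := Nat.eq_of_mul_eq_mul_left hb1 h6
      have h8 : 2 * p ^ 4 * n = 2 * p ^ 4 * n' := by omega
      exact Nat.eq_of_mul_eq_mul_left hqpos h8
    rw [h5]
  -- the induction
  have main : ∀ k : ℕ, ∀ α ∈ S, ∀ n < 2 ^ k * N, (∃ w : ℤ_[p], s α + (n : ℤ_[p]) =
      2 * (p : ℤ_[p]) ^ 4 * w) → HG p Γ c₁ T₁ T₂ c (s α + n) = 0 := by
    intro k
    induction k with
    | zero =>
      intro α hα n hn hw
      rw [pow_zero, one_mul] at hn
      obtain ⟨w, hw⟩ := hw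
      refine vanish2 h (hαb α hα) he (hs α hα) hc₁ (hy α hα) (hFirr α hα) (hFy α hα)
        (hFdeg α hα) (hY α hα) hn c hc (K := 2 * (8 * lam * D * T₁)) ?_ n2
      rw [hw]
      exact hsmall w
    | succ k ih =>
      have hN' : N ≤ 2 ^ k * N := Nat.le_mul_of_pos_left _ (Nat.pow_pos (by norm_num))
      have n3 := numB3 hp.two_le hD hb1 hlam T₁ T₂ hT₂ hT₁ hN2 hYN hN' (hNq.trans hN') hcon
      set N' := 2 ^ k * N with hN'def
      intro α hα n hn hw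
      obtain ⟨w, hw⟩ := hw
      have hn2 : n < 2 * N' := by
        have : 2 ^ (k + 1) * N = 2 * N' := by rw [hN'def, pow_succ]; ring
        omega
      refine vanish2 h (hαb α hα) he (hs α hα) hc₁ (hy α hα) (hFirr α hα) (hFy α hα)
        (hFdeg α hα) (hY α hα) hn2 c hc (K := S.card * (N' / (2 * p ^ 4))) ?_ n3
      rw [hw]
      let P : Finset ℤ_[p] := (S ×ˢ range (N' / (2 * p ^ 4))).image
        (fun q : ℕ × ℕ => s q.1 + ((a q.1 + 2 * p ^ 4 * q.2 : ℕ) : ℤ_[p]))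
      have hPc : P.card = S.card * (N' / (2 * p ^ 4)) := by
        rw [card_image_of_injOn, card_product, card_range]
        intro q hq q' hq' heq
        refine hinj ?_ ?_ heq
        · simp only [coe_product, Set.mem_prod, mem_coe] at hq
          exact hq.1
        · simp only [coe_product, Set.mem_prod, mem_coe] at hq'
          exact hq'.1
      have hz2 := HG_zeros h c₁ T₁ T₂ c P (fun x hx => by
        simp only [P, mem_image, mem_product, mem_range] at hx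
        obtain ⟨⟨β, j⟩, ⟨hβ, hj⟩, rfl⟩ := hx
        simp only at hβ hj ⊢
        refine ih β hβ (a β + 2 * p ^ 4 * j) ?_ ?_
        · have h1 := ha β hβ
          have h2 : 2 * p ^ 4 * (j + 1) ≤ 2 * p ^ 4 * (N' / (2 * p ^ 4)) :=
            Nat.mul_le_mul_left _ hj
          have h3 := Nat.mul_div_le N' (2 * p ^ 4)
          have h4 : 2 * p ^ 4 * (j + 1) = 2 * p ^ 4 * j + 2 * p ^ 4 := by ring
          omega
        · refine ⟨z β + j, ?_⟩
          have := hz β hβ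
          push_cast
          linear_combination this) (fun x hx => by
        simp only [P, mem_image, mem_product, mem_range] at hx
        obtain ⟨⟨β, j⟩, ⟨hβ, hj⟩, rfl⟩ := hx
        simp only at hβ hj ⊢
        refine ⟨z β + j, ?_⟩
        have := hz β hβ
        push_cast
        linear_combination this) w
      rw [hPc] at hz2
      exact hz2
  obtain ⟨t, ht⟩ := not_all_zero h (α := α₀) hb he0 he (hs α₀ hα₀) hc₁ c hc0 (a α₀)
  apply ht
  refine main (a α₀ + 2 * p ^ 4 * t) α₀ hα₀ _ ?_ ?_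
  · have h1 : a α₀ + 2 * p ^ 4 * t < 2 ^ (a α₀ + 2 * p ^ 4 * t) := Nat.lt_two_pow_self
    calc a α₀ + 2 * p ^ 4 * t < 2 ^ (a α₀ + 2 * p ^ 4 * t) * 1 := by omega
      _ ≤ _ := Nat.mul_le_mul_left _ hN1
  · refine ⟨z α₀ + t, ?_⟩
    have := hz α₀ hα₀
    push_cast
    linear_combination this

end GamP
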