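import Mathlib

/-!
# A solution of a first order difference equation is not algebraic over `K(X)`

PROOF of `no_rel`. Suppose some nonzero `P` has the property; choose one with minimal degree `J` in the
outer variable (`P.natDegree`). `J ≥ 1`: if `P = C P₀` then `P₀(t) = 0` for all naturals `t`, so
`P₀ = 0` (`CharZero`, infinitely many roots: `Polynomial.eq_zero_of_infinite_isRoot`). The constant
coefficient `P.coeff 0 ≠ 0`: otherwise `P = X * P'` (`Polynomial.X_dvd_iff`, `divX`) and `P'` has the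
property (`Y t ≠ 0`), of smaller degree.
Put `P⁺ = ∑_j (P_j ∘ (X+1)) * A^j * B^(J-j) * Y^j` (in `K[X][Y]`, `P_j = P.coeff j`). For all `t`,
`P⁺(t, Y t) = ∑ P_j(t+1) (A(t) Y t)^j B(t)^(J-j) = B(t)^J ∑ P_j(t+1) (Y (t+1))^j = 0`
(`A(t) Y t = B(t) Y (t+1)`). Then `R = P_J * P⁺ - (P_J ∘ (X+1)) * A^J * P` vanishes at all
`(t, Y t)` and has outer degree `< J`; by minimality `R = 0`. Its coefficient of `Y^0` gives
`P_J * (P_0 ∘ (X+1)) * B^J = (P_J ∘ (X+1)) * A^J * P_0`   (*)
For a nonzero `F : K[X]` let `N F = F.roots.countP (fun r => ∃ k : ℤ, r = a + k)`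
(`Multiset.countP`, classical). `N (F * G) = N F + N G` (`roots_mul`), `N (F^n) = n N F` (`roots_pow`),
`N (F ∘ (X+1)) = N F` (roots of `F.comp (X + C 1)` are the roots of `F` shifted by `-1`:
`Polynomial.roots_comp_X_add_C`-type lemma or `rootMultiplicity`/`Polynomial.comp` with the ring
automorphism; `F = ` if no lemma is found prove it via `taylor`), so (*) gives
`J * N B = J * N A`. But `N B = 0` (`hab`) and `N A ≥ 1` (`a` is a root of `A`, `A ≠ 0`), `J ≥ 1`:
contradiction.
-/

namespace GamP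

open Polynomial

private theorem mult_shift {K : Type*} [Field K] (F : K[X]) (x : K) :
    (F.comp (X + C 1)).rootMultiplicity x = F.rootMultiplicity (x + 1) := by
  rw [rootMultiplicity_eq_rootMultiplicity, rootMultiplicity_eq_rootMultiplicity (p := F),
    comp_assoc]
  congr 2
  rw [add_comp, X_comp, C_comp, add_assoc, ← C_add]

private theorem mult_pow {K : Type*} [Field K] {F : K[X]} (hF : F ≠ 0) (x : K) (n : ℕ) :
    (F ^ n).rootMultiplicity x = n * F.rootMultiplicity x := by
  induction n with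
  | zero =>
    rw [pow_zero, zero_mul]
    exact rootMultiplicity_eq_zero (by simp)
  | succ n ih =>
    rw [pow_succ, rootMultiplicity_mul (mul_ne_zero (pow_ne_zero n hF) hF), ih, Nat.succ_mul]

/-- a nonzero polynomial has no zero far away in `a + ℤ` -/
private theorem far {K : Type*} [Field K] [CharZero K] {F : K[X]} (hF : F ≠ 0) (a : K) :
    ∃ M : ℕ, ∀ k : ℤ, (M : ℤ) ≤ |k| → F.eval (a + k) ≠ 0 := by
  classical
  have hfin : {k : ℤ | F.eval (a + k) = 0}.Finite := by
    refine Set.Finite.of_finite_image (f := fun k : ℤ => a + (k : K)) ?_ ?_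
    · refine (F.roots.toFinset.finite_toSet).subset ?_
      rintro x ⟨k, hk, rfl⟩
      rw [Finset.mem_coe, Multiset.mem_toFinset, mem_roots hF]
      exact hk
    · intro k _ l _ hkl
      have h1 : (k : K) = l := add_left_cancel hkl
      exact_mod_cast h1
  refine ⟨(∑ k ∈ hfin.toFinset, k.natAbs) + 1, fun k hk h0 => ?_⟩
  have h1 : k ∈ hfin.toFinset := hfin.mem_toFinset.2 h0
  have h2 : k.natAbs ≤ ∑ k ∈ hfin.toFinset, k.natAbs :=
    Finset.single_le_sum (f := fun k : ℤ => k.natAbs) (fun _ _ => Nat.zero_le _) h1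
  have h3 : |k| = (k.natAbs : ℤ) := Int.abs_eq_natAbs k
  rw [h3] at hk
  have h4 : (∑ k ∈ hfin.toFinset, k.natAbs) + 1 ≤ k.natAbs := by exact_mod_cast hk
  omega

/-- the equation satisfied by the extreme coefficients is impossible -/
private theorem no_eq {K : Type*} [Field K] [CharZero K] {A B F G : K[X]} (hA : A ≠ 0) (hB : B ≠ 0)
    (hF : F ≠ 0) (hG : G ≠ 0) {a : K} (ha : A.eval a = 0) (hab : ∀ k : ℤ, B.eval (a + k) ≠ 0)
    {J : ℕ} (hJ : 1 ≤ J)
    (h : F * (G.comp (X + C 1) * B ^ J) = F.comp (X + C 1) * A ^ J * G) : False := by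
  have hcomp : ∀ {Q : K[X]}, Q ≠ 0 → Q.comp (X + C 1) ≠ 0 := by
    intro Q hQ h0
    exact hQ ((comp_X_add_C_eq_zero_iff (t := 1)).1 h0)
  set u : ℤ → ℤ := fun k => (F.rootMultiplicity (a + k) : ℤ) - (G.rootMultiplicity (a + k) : ℤ)
    with hu
  have hstep : ∀ k : ℤ, u k = u (k + 1) + J * (A.rootMultiplicity (a + k) : ℤ) := by
    intro k
    have h1 : (F * (G.comp (X + C 1) * B ^ J)).rootMultiplicity (a + k) =
        (F.comp (X + C 1) * A ^ J * G).rootMultiplicity (a + k) := by rw [h]
    have hG' := hcomp hG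
    have hF' := hcomp hF
    rw [rootMultiplicity_mul (mul_ne_zero hF (mul_ne_zero hG' (pow_ne_zero _ hB))),
      rootMultiplicity_mul (mul_ne_zero hG' (pow_ne_zero _ hB)),
      rootMultiplicity_mul (mul_ne_zero (mul_ne_zero hF' (pow_ne_zero _ hA)) hG),
      rootMultiplicity_mul (mul_ne_zero hF' (pow_ne_zero _ hA)), mult_shift, mult_shift,
      mult_pow hB, mult_pow hA] at h1
    have hB0 : B.rootMultiplicity (a + k) = 0 := rootMultiplicity_eq_zero (hab k)
    rw [hB0, mul_zero, add_zero] at h1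
    have e : a + (k : K) + 1 = a + ((k + 1 : ℤ) : K) := by
      push_cast
      ring
    rw [e] at h1
    have h2 : ((F.rootMultiplicity (a + k) : ℕ) : ℤ) +
        (G.rootMultiplicity (a + ((k + 1 : ℤ) : K)) : ℤ) =
        (F.rootMultiplicity (a + ((k + 1 : ℤ) : K)) : ℤ) + J * (A.rootMultiplicity (a + k) : ℤ) +
        (G.rootMultiplicity (a + k) : ℤ) := by exact_mod_cast h1
    simp only [hu]
    linarith
  have hanti : Antitone u := by
    refine antitone_int_of_succ_le fun k => ?_
    have h1 := hstep k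
    have h2 : (0 : ℤ) ≤ J * (A.rootMultiplicity (a + k) : ℤ) := by positivity
    linarith
  obtain ⟨M, hM⟩ := far (mul_ne_zero hF hG) a
  have hzero : ∀ k : ℤ, (M : ℤ) ≤ |k| → u k = 0 := by
    intro k hk
    have h1 := hM k hk
    rw [eval_mul] at h1
    have h2 : F.rootMultiplicity (a + k) = 0 := rootMultiplicity_eq_zero (left_ne_zero_of_mul h1)
    have h3 : G.rootMultiplicity (a + k) = 0 := rootMultiplicity_eq_zero (right_ne_zero_of_mul h1)
    simp only [hu]
    rw [h2, h3, sub_self]
  have h0 : u 0 ≤ 0 := by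
    have h1 := hanti (show (-(M : ℤ)) ≤ 0 by omega)
    rwa [hzero (-(M : ℤ)) (by rw [abs_neg]; exact le_abs_self _)] at h1
  have h1 : 0 ≤ u 1 := by
    have h1 := hanti (show (1 : ℤ) ≤ M + 1 by omega)
    rwa [hzero ((M : ℤ) + 1) (by rw [abs_of_nonneg (by omega)]; omega)] at h1
  have h2 := hstep 0
  rw [Int.cast_zero, add_zero, zero_add] at h2
  have h3 : 1 ≤ A.rootMultiplicity a := (rootMultiplicity_pos hA).2 ha
  have h4 : (1 : ℤ) ≤ J * (A.rootMultiplicity a : ℤ) := by
    have : 1 * 1 ≤ J * A.rootMultiplicity a := Nat.mul_le_mul hJ h3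
    exact_mod_cast this
  linarith

private theorem eq_zero_of_nat {K : Type*} [Field K] [CharZero K] {F : K[X]}
    (h : ∀ t : ℕ, F.eval (t : K) = 0) : F = 0 := by
  refine eq_zero_of_infinite_isRoot F ?_
  refine (Set.infinite_range_of_injective (Nat.cast_injective (R := K))).mono ?_
  rintro x ⟨t, rfl⟩
  exact h t

theorem no_rel {K : Type*} [Field K] [CharZero K] (A B : K[X]) (hA : A ≠ 0) (hB : B ≠ 0) (a : K)
    (ha : A.eval a = 0) (hab : ∀ k : ℤ, B.eval (a + k) ≠ 0) (Y : ℕ → K) (hY : ∀ t, Y t ≠ 0)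
    (hrec : ∀ t : ℕ, B.eval (t : K) * Y (t + 1) = A.eval (t : K) * Y t) (P : K[X][X])
    (hP : ∀ t : ℕ, (P.eval (C (Y t))).eval (t : K) = 0) : P = 0 := by
  classical
  set φ : ℕ → K[X][X] →+* K := fun t => (evalRingHom (t : K)).comp (evalRingHom (C (Y t))) with hφ
  have hφe : ∀ t (Q : K[X][X]), φ t Q = (Q.eval (C (Y t))).eval (t : K) := fun t Q => rfl
  have hφC : ∀ t (F : K[X]), φ t (C F) = F.eval (t : K) := by
    intro t F
    rw [hφe, eval_C]
  have hφX : ∀ t, φ t X = Y t := by
    intro t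
    rw [hφe, eval_X, eval_C]
  suffices H : ∀ J : ℕ, ∀ P : K[X][X], P.natDegree = J → (∀ t, φ t P = 0) → P = 0 from
    H _ P rfl hP
  intro J
  induction J using Nat.strong_induction_on with
  | _ J IH =>
  intro P hPJ hP
  by_contra hP0
  have hJ : 1 ≤ J := by
    by_contra hJ
    have h1 : P.natDegree = 0 := by omega
    obtain ⟨F, hF⟩ := natDegree_eq_zero.1 h1
    have h2 : F = 0 := eq_zero_of_nat fun t => by
      have := hP t
      rwa [← hF, hφC] at this
    rw [h2, C_0] at hF
    exact hP0 hF.symm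
  have hc0 : P.coeff 0 ≠ 0 := by
    intro h0
    obtain ⟨P', hP'⟩ := X_dvd_iff.2 h0
    have hP'0 : P' ≠ 0 := by
      rintro rfl
      rw [mul_zero] at hP'
      exact hP0 hP'
    have hdeg : P'.natDegree + 1 = J := by
      rw [← hPJ, hP', natDegree_X_mul hP'0]
    refine hP'0 (IH P'.natDegree (by omega) P' rfl fun t => ?_)
    have h1 := hP t
    rw [hP', map_mul, hφX] at h1
    exact (mul_eq_zero.1 h1).resolve_left (hY t)
  have hcJ : P.coeff J ≠ 0 := by
    rw [← hPJ]
    exact leadingCoeff_ne_zero.2 hP0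
  set F := P.coeff J with hF
  set Pp : K[X][X] := ∑ j ∈ Finset.range (J + 1),
    C ((P.coeff j).comp (X + C 1) * A ^ j * B ^ (J - j)) * X ^ j with hPp
  set R : K[X][X] := C F * Pp - C (F.comp (X + C 1) * A ^ J) * P with hR
  have hsum : ∀ t, φ t P = ∑ j ∈ Finset.range (J + 1), (P.coeff j).eval (t : K) * Y t ^ j := by
    intro t
    conv_lhs => rw [P.as_sum_range_C_mul_X_pow' (n := J + 1) (by omega)]
    rw [map_sum]
    refine Finset.sum_congr rfl fun j _ => ?_
    rw [map_mul, map_pow, hφC, hφX]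
  have hPpz : ∀ t, φ t Pp = 0 := by
    intro t
    have h1 : φ t Pp = B.eval (t : K) ^ J * φ (t + 1) P := by
      rw [hPp, map_sum, hsum (t + 1), Finset.mul_sum]
      refine Finset.sum_congr rfl fun j hj => ?_
      have hj' : j ≤ J := by
        have := Finset.mem_range.1 hj
        omega
      rw [map_mul, map_pow, hφC, hφX, eval_mul, eval_mul, eval_pow, eval_pow, eval_comp, eval_add,
        eval_X, eval_C]
      have e1 : B.eval (t : K) ^ J = B.eval (t : K) ^ j * B.eval (t : K) ^ (J - j) := by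
        rw [← pow_add]
        congr 1
        omega
      have e2 : (A.eval (t : K)) ^ j * Y t ^ j = B.eval (t : K) ^ j * Y (t + 1) ^ j := by
        rw [← mul_pow, ← mul_pow, hrec t]
      rw [e1]
      push_cast
      linear_combination (P.coeff j).eval ((t : K) + 1) * B.eval (t : K) ^ (J - j) * e2
    rw [h1, hP (t + 1), mul_zero]
  have hRz : ∀ t, φ t R = 0 := by
    intro t
    rw [hR, map_sub, map_mul, map_mul, hPpz t, hP t, mul_zero, mul_zero, sub_zero]
  have hPpc : ∀ n, Pp.coeff n = if n ∈ Finset.range (J + 1) then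
      (P.coeff n).comp (X + C 1) * A ^ n * B ^ (J - n) else 0 := by
    intro n
    rw [hPp, finsetSum_coeff]
    simp only [coeff_C_mul_X_pow]
    rw [Finset.sum_ite_eq]
  have hRJ : R.coeff J = 0 := by
    rw [hR, coeff_sub, coeff_C_mul, coeff_C_mul, hPpc, if_pos (Finset.mem_range.2 (by omega)),
      Nat.sub_self, pow_zero, mul_one, ← hF]
    ring
  have hRdeg : R.natDegree ≤ J := by
    rw [hR]
    refine (natDegree_sub_le _ _).trans (max_le ?_ ?_)
    · refine (natDegree_C_mul_le _ _).trans ?_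
      refine natDegree_sum_le_of_forall_le _ _ fun j hj => ?_
      refine (natDegree_C_mul_X_pow_le _ _).trans ?_
      have := Finset.mem_range.1 hj
      omega
    · exact (natDegree_C_mul_le _ _).trans hPJ.le
  have hR0 : R = 0 := by
    by_contra hne
    have hlt : R.natDegree < J := by
      rcases hRdeg.lt_or_eq with h1 | h1
      · exact h1
      · exfalso
        rw [← h1] at hRJ
        exact hne (leadingCoeff_eq_zero.1 hRJ)
    exact hne (IH _ hlt R rfl hRz)
  have hkey := congrArg (fun Q : K[X][X] => Q.coeff 0) hR0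
  simp only [coeff_zero] at hkey
  rw [hR, coeff_sub, coeff_C_mul, coeff_C_mul, hPpc, if_pos (Finset.mem_range.2 (by omega)),
    pow_zero, mul_one, Nat.sub_zero, sub_eq_zero] at hkey
  exact no_eq hA hB hcJ hc0 ha hab hJ hkey

end GamP
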